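import Pool.Agent.H376R2.TT.Defs
import Pool.Agent.Helper507.PNT

/-! Task PNTQ: prime number theorem for the primes `≡ 1 mod q` in a cell. -/

set_option autoImplicit false

namespace Pool.Agent.H376R2.TT

open Finset Filter Pool.Agent.H376R2.MR

section

variable (q : ℕ) [NeZero q]

/-- `Λ(k)` restricted to the class `1 mod q` -/
noncomputable def pntq_a (k : ℕ) : ℝ := ArithmeticFunction.vonMangoldt.residueClass (1 : ZMod q) k

/-- summatory function -/
noncomputable def pntq_P (t : ℝ) : ℝ := ∑ k ∈ Icc 0 ⌊t⌋₊, pntq_a q k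

omit [NeZero q] in
theorem pntq_a_zero : pntq_a q 0 = 0 := by
  unfold pntq_a ArithmeticFunction.vonMangoldt.residueClass
  simp [Set.indicator]

theorem pntq_lim : Tendsto (fun t : ℝ => pntq_P q t / t) atTop (nhds ((q.totient : ℝ)⁻¹)) := by
  refine (Pool.Agent.Helper507.PNT.pnt_residueClass (q := q) (a := 1) isUnit_one).congr fun x => ?_
  congr 1
  unfold pntq_P
  have h : Icc 0 ⌊x⌋₊ = insert 0 (Icc 1 ⌊x⌋₊) := by
    ext k
    simp only [mem_Icc, mem_insert]
    omega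
  rw [h, sum_insert (by simp), pntq_a_zero, zero_add]
  rfl

omit [NeZero q] in
theorem pntq_abel (x y : ℝ) (hx : 1 ≤ x) (hxy : x ≤ y) :
    ∑ k ∈ Ioc ⌊x⌋₊ ⌊y⌋₊, pntq_a q k / (k : ℝ) =
      pntq_P q y / y - pntq_P q x / x + ∫ t in x..y, pntq_P q t / t ^ 2 := by
  have hd : ∀ t ∈ Set.Icc x y, HasDerivAt (fun t : ℝ => t⁻¹) (-(t ^ 2)⁻¹) t := fun t ht =>
    hasDerivAt_inv (by linarith [ht.1] : t ≠ 0)
  have hint : MeasureTheory.IntegrableOn (deriv (fun t : ℝ => t⁻¹)) (Set.Icc x y) := by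
    apply ContinuousOn.integrableOn_Icc
    have : Set.EqOn (deriv (fun t : ℝ => t⁻¹)) (fun t => -(t ^ 2)⁻¹) (Set.Icc x y) :=
      fun t ht => (hd t ht).deriv
    refine ContinuousOn.congr ?_ this
    refine ContinuousOn.neg (ContinuousOn.inv₀ (by fun_prop) ?_)
    intro t ht
    have : 0 < t := by linarith [ht.1]
    positivity
  have h := sum_mul_eq_sub_sub_integral_mul (pntq_a q)
    (f := fun t : ℝ => t⁻¹) (a := x) (b := y) (by linarith) hxy
    (fun t ht => (hd t ht).differentiableAt) hint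
  have e1 : ∑ k ∈ Ioc ⌊x⌋₊ ⌊y⌋₊, pntq_a q k / (k : ℝ) =
      ∑ k ∈ Ioc ⌊x⌋₊ ⌊y⌋₊, (k : ℝ)⁻¹ * pntq_a q k := by
    refine sum_congr rfl fun k _ => ?_
    ring
  rw [e1, h, ← intervalIntegral.integral_of_le hxy]
  have e2 : ∫ t in x..y, deriv (fun t : ℝ => t⁻¹) t * ∑ k ∈ Icc 0 ⌊t⌋₊, pntq_a q k =
      - ∫ t in x..y, pntq_P q t / t ^ 2 := by
    rw [← intervalIntegral.integral_neg]
    refine intervalIntegral.integral_congr fun t ht => ?_
    rw [Set.uIcc_of_le hxy] at ht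
    rw [(hd t ht).deriv]
    unfold pntq_P
    ring
  rw [e2]
  unfold pntq_P
  ring

omit [NeZero q] in
theorem pntq_int (x y : ℝ) (hx : 1 ≤ x) (hxy : x ≤ y) :
    IntervalIntegrable (fun t : ℝ => pntq_P q t / t ^ 2) MeasureTheory.volume x y := by
  rw [intervalIntegrable_iff_integrableOn_Icc_of_le hxy]
  have h1 : MeasureTheory.IntegrableOn (fun t : ℝ => (t ^ 2)⁻¹) (Set.Icc x y) := by
    apply ContinuousOn.integrableOn_Icc
    refine ContinuousOn.inv₀ (by fun_prop) ?_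
    intro t ht
    have : 0 < t := by linarith [ht.1]
    positivity
  have h2 := integrableOn_mul_sum_Icc (pntq_a q) (m := 0) (by linarith : (0:ℝ) ≤ x) h1
  refine h2.congr_fun (fun t _ => ?_) measurableSet_Icc
  simp only [pntq_P]
  ring

/-- the sum over an interval -/
theorem pntq_short (ε : ℝ) (hε : 0 < ε) : ∃ X : ℝ, 1 ≤ X ∧ ∀ x y : ℝ, X ≤ x → x ≤ y → y ≤ 3 * x →
    |∑ k ∈ Ioc ⌊x⌋₊ ⌊y⌋₊, pntq_a q k / (k : ℝ) -
      (q.totient : ℝ)⁻¹ * (Real.log y - Real.log x)| ≤ 4 * ε := by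
  set c : ℝ := (q.totient : ℝ)⁻¹ with hc
  have h := pntq_lim q
  rw [Metric.tendsto_atTop] at h
  obtain ⟨X, hX⟩ := h ε hε
  refine ⟨max X 1, le_max_right _ _, ?_⟩
  intro x y hx hxy hy
  have hx1 : 1 ≤ x := (le_max_right _ _).trans hx
  have hxX : X ≤ x := (le_max_left _ _).trans hx
  have hx0 : 0 < x := by linarith
  have key : ∀ t : ℝ, x ≤ t → |pntq_P q t / t - c| ≤ ε := fun t ht => by
    have := hX t (hxX.trans ht)
    rw [Real.dist_eq] at this
    exact this.le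
  have hi : IntervalIntegrable (fun t : ℝ => c * t⁻¹) MeasureTheory.volume x y := by
    apply ContinuousOn.intervalIntegrable
    refine ContinuousOn.mul continuousOn_const (ContinuousOn.inv₀ continuousOn_id ?_)
    intro t ht
    rw [Set.uIcc_of_le hxy] at ht
    have : x ≤ t := ht.1
    exact (by linarith : (0:ℝ) < t).ne'
  have hlog : ∫ t in x..y, c * t⁻¹ = c * (Real.log y - Real.log x) := by
    rw [intervalIntegral.integral_const_mul, integral_inv_of_pos hx0 (by linarith),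
      Real.log_div (by linarith) hx0.ne']
  rw [pntq_abel q x y hx1 hxy, ← hlog]
  have hI : (∫ t in x..y, pntq_P q t / t ^ 2) - ∫ t in x..y, c * t⁻¹ =
      ∫ t in x..y, (pntq_P q t / t ^ 2 - c * t⁻¹) := by
    rw [intervalIntegral.integral_sub (pntq_int q x y hx1 hxy) hi]
  have hI2 : ‖∫ t in x..y, (pntq_P q t / t ^ 2 - c * t⁻¹)‖ ≤ (ε / x) * |y - x| := by
    apply intervalIntegral.norm_integral_le_of_norm_le_const
    intro t ht
    rw [Set.uIoc_of_le hxy] at ht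
    have ht0 : 0 < t := by linarith [ht.1]
    have e : pntq_P q t / t ^ 2 - c * t⁻¹ = (pntq_P q t / t - c) / t := by
      field_simp
    rw [e, Real.norm_eq_abs, abs_div, abs_of_pos ht0]
    have := key t ht.1.le
    calc _ ≤ ε / t := by gcongr
      _ ≤ _ := div_le_div_of_nonneg_left hε.le hx0 ht.1.le
  have hI3 : (ε / x) * |y - x| ≤ 2 * ε := by
    rw [abs_of_nonneg (by linarith), div_mul_eq_mul_div, div_le_iff₀ hx0]
    nlinarith
  rw [Real.norm_eq_abs, ← hI] at hI2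
  have k1 := key y hxy
  have k2 := key x le_rfl
  rw [abs_le] at *
  constructor <;> linarith [k1.1, k1.2, k2.1, k2.2, hI2.1, hI2.2]

end

/-- comparison of the cell with a half-open interval -/
theorem pntq_cell (Q : ℕ → Prop) (H v : ℕ) (hx : 2 ≤ Real.exp ((v : ℝ) / H)) :
    ∃ S : Finset ℕ, (∀ p, p ∈ S ↔ (⌊Real.exp ((v : ℝ) / H)⌋₊ < p ∧
      p ≤ ⌊Real.exp (((v : ℝ) + 1) / H)⌋₊) ∧ p.Prime ∧ Q p) ∧
    |mmQ Q H v - ∑ p ∈ S, 1 / (p : ℝ)| ≤ 2 / Real.exp ((v : ℝ) / H) := by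
  classical
  set x := Real.exp ((v : ℝ) / H) with hxd
  set y := Real.exp (((v : ℝ) + 1) / H) with hyd
  have hxy : x ≤ y := by
    apply Real.exp_le_exp.2
    gcongr
    linarith
  have hx0 : 0 < x := by linarith
  have hmem : ∀ p : ℕ, p ∈ cellQ Q H v ↔ (p.Prime ∧ x ≤ p ∧ (p : ℝ) < y) ∧ Q p := by
    intro p
    simp only [cellQ, cell, mem_filter, mem_range]
    apply and_congr_left'
    constructor
    · rintro ⟨_, hp, h1, h2⟩
      have hp0 : (0:ℝ) < p := by exact_mod_cast hp.pos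
      refine ⟨hp, ?_, ?_⟩
      · rw [hxd, ← Real.le_log_iff_exp_le hp0]; exact h1
      · rw [hyd, ← Real.log_lt_iff_lt_exp hp0]; exact h2
    · rintro ⟨hp, h1, h2⟩
      have hp0 : (0:ℝ) < p := by exact_mod_cast hp.pos
      refine ⟨?_, hp, ?_, ?_⟩
      · rw [Nat.lt_succ_iff]
        exact Nat.le_floor h2.le
      · rw [Real.le_log_iff_exp_le hp0]; exact h1
      · rw [Real.log_lt_iff_lt_exp hp0]; exact h2
  have hfl : ∀ z : ℝ, x ≤ z → 1 / (⌊z⌋₊ : ℝ) ≤ 2 / x := by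
    intro z hz
    have h1 : z < ⌊z⌋₊ + 1 := Nat.lt_floor_add_one z
    have h2 : x / 2 ≤ (⌊z⌋₊ : ℝ) := by linarith
    calc 1 / (⌊z⌋₊ : ℝ) ≤ 1 / (x / 2) := one_div_le_one_div_of_le (by linarith) h2
      _ = 2 / x := by field_simp
  set S := (Ioc ⌊x⌋₊ ⌊y⌋₊).filter (fun p => p.Prime ∧ Q p) with hS
  refine ⟨S, fun p => by rw [hS, mem_filter, mem_Ioc], ?_⟩
  have s1 : cellQ Q H v ⊆ insert ⌊x⌋₊ S := by
    intro p hp
    rw [hmem] at hp
    rw [mem_insert, hS, mem_filter, mem_Ioc]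
    by_cases h : p = ⌊x⌋₊
    · exact Or.inl h
    · right
      have h1 : ⌊x⌋₊ ≤ p := Nat.floor_le_of_le hp.1.2.1
      exact ⟨⟨lt_of_le_of_ne h1 (Ne.symm h), Nat.le_floor hp.1.2.2.le⟩, hp.1.1, hp.2⟩
  have s2 : S ⊆ insert ⌊y⌋₊ (cellQ Q H v) := by
    intro p hp
    rw [hS, mem_filter, mem_Ioc] at hp
    rw [mem_insert, hmem]
    by_cases h : p = ⌊y⌋₊
    · exact Or.inl h
    · right
      refine ⟨⟨hp.2.1, (Nat.lt_of_floor_lt hp.1.1).le, ?_⟩, hp.2.2⟩
      have h1 : p < ⌊y⌋₊ := lt_of_le_of_ne hp.1.2 h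
      calc (p : ℝ) < (⌊y⌋₊ : ℝ) := by exact_mod_cast h1
        _ ≤ y := Nat.floor_le (by linarith)
  have aux : ∀ (A B : Finset ℕ) (m : ℕ), A ⊆ insert m B →
      ∑ p ∈ A, 1 / (p : ℝ) ≤ ∑ p ∈ B, 1 / (p : ℝ) + 1 / (m : ℝ) := by
    intro A B m hAB
    calc ∑ p ∈ A, 1 / (p : ℝ) ≤ ∑ p ∈ insert m B, 1 / (p : ℝ) :=
          sum_le_sum_of_subset_of_nonneg hAB (fun _ _ _ => by positivity)
      _ ≤ _ := by
        by_cases hm : m ∈ B
        · rw [insert_eq_of_mem hm]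
          have : (0:ℝ) ≤ 1 / (m : ℝ) := by positivity
          linarith
        · rw [sum_insert hm]
          linarith
  have a1 := aux _ _ _ s1
  have a2 := aux _ _ _ s2
  have b1 := hfl x le_rfl
  have b2 := hfl y hxy
  unfold mmQ
  rw [abs_le]
  constructor <;> linarith

theorem pntq_a_prime (q : ℕ) [NeZero q] {p : ℕ} (hp : p.Prime) :
    (Q1 q p → pntq_a q p = Real.log p) ∧ (¬ Q1 q p → pntq_a q p = 0) := by
  have hiff : ((p : ZMod q) = 1) ↔ Q1 q p := by
    have := ZMod.natCast_eq_natCast_iff' p 1 q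
    rw [Nat.cast_one] at this
    exact this
  unfold pntq_a ArithmeticFunction.vonMangoldt.residueClass
  constructor
  · intro h
    rw [Set.indicator_of_mem (by
      show (p : ZMod q) = 1
      exact hiff.2 h), ArithmeticFunction.vonMangoldt_apply_prime hp]
  · intro h
    rw [Set.indicator_of_notMem (by
      show ¬ (p : ZMod q) = 1
      exact fun h' => h (hiff.1 h'))]

theorem pntq_np (q : ℕ) [NeZero q] : Tendsto (fun p : ℕ × ℕ =>
    ∑ k ∈ Ioc p.1 p.2, (if k.Prime then 0 else pntq_a q k) / (k : ℝ))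
      ((atTop ×ˢ atTop) ⊓ 𝓟 {p | p.1 ≤ p.2}) (nhds 0) := by
  have hs : Summable fun n : ℕ => (if n.Prime then 0 else pntq_a q n) / (n : ℝ) :=
    ArithmeticFunction.vonMangoldt.summable_residueClass_non_primes_div (a := (1 : ZMod q))
  set g : ℕ → ℝ := fun n : ℕ => (if n.Prime then 0 else pntq_a q n) / (n : ℝ) with hg
  have h1 := hs.hasSum.tendsto_sum_nat
  have h2 : Tendsto (fun p : ℕ × ℕ => ∑ k ∈ range (p.2 + 1), g k - ∑ k ∈ range (p.1 + 1), g k)
      (atTop ×ˢ atTop) (nhds 0) := by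
    have a1 := (h1.comp (tendsto_add_atTop_nat 1)).comp (tendsto_snd (f := (atTop : Filter ℕ)) (g := (atTop : Filter ℕ)))
    have a2 := (h1.comp (tendsto_add_atTop_nat 1)).comp (tendsto_fst (f := (atTop : Filter ℕ)) (g := (atTop : Filter ℕ)))
    have a3 := a1.sub a2
    rw [sub_self] at a3
    exact a3
  refine (h2.mono_left inf_le_left).congr' ?_
  rw [Filter.EventuallyEq, eventually_inf_principal]
  refine Eventually.of_forall fun p hp => ?_
  have hp' : p.1 ≤ p.2 := hp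
  have e : Ioc p.1 p.2 = Ico (p.1 + 1) (p.2 + 1) := by
    ext k
    simp only [mem_Ioc, mem_Ico]
    omega
  rw [e, Finset.sum_Ico_eq_sub _ (by omega)]

theorem cell_pnt_q (q H : ℕ) (hq : 1 ≤ q) (hH : 1 ≤ H) :
    Tendsto (fun v : ℕ => (v : ℝ) * mmQ (Q1 q) H v) atTop (nhds (1 / (Nat.totient q : ℝ))) := by
  have : NeZero q := ⟨by omega⟩
  have hH0 : (0:ℝ) < H := by exact_mod_cast hH
  have hH1 : (1:ℝ) ≤ H := by exact_mod_cast hH
  set c : ℝ := (q.totient : ℝ)⁻¹ with hc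
  set x : ℕ → ℝ := fun v => Real.exp ((v : ℝ) / H) with hx
  set y : ℕ → ℝ := fun v => Real.exp (((v : ℝ) + 1) / H) with hy
  have hxt : Tendsto x atTop atTop :=
    Real.tendsto_exp_atTop.comp (tendsto_natCast_atTop_atTop.atTop_div_const hH0)
  have hxy : ∀ v, x v ≤ y v := fun v => by
    apply Real.exp_le_exp.2
    gcongr
    linarith
  have hyt : Tendsto y atTop atTop := tendsto_atTop_mono hxy hxt
  have hyx : ∀ v, y v ≤ 3 * x v := fun v => by
    simp only [hx, hy]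
    rw [add_div, Real.exp_add, mul_comm]
    apply mul_le_mul_of_nonneg_right _ (Real.exp_pos _).le
    have h1 : (1:ℝ) / H ≤ 1 := by rw [div_le_one hH0]; exact hH1
    calc Real.exp (1 / H) ≤ Real.exp 1 := Real.exp_le_exp.2 h1
      _ ≤ 3 := by linarith [Real.exp_one_lt_d9]
  have hfl : Tendsto (fun v => ((⌊x v⌋₊, ⌊y v⌋₊) : ℕ × ℕ)) atTop
      ((atTop ×ˢ atTop) ⊓ 𝓟 {p | p.1 ≤ p.2}) := by
    rw [tendsto_inf]
    refine ⟨(tendsto_nat_floor_atTop.comp hxt).prodMk (tendsto_nat_floor_atTop.comp hyt), ?_⟩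
    rw [tendsto_principal]
    exact Eventually.of_forall fun v => Nat.floor_mono (hxy v)
  -- the sum with von Mangoldt weights
  have hS : Tendsto (fun v => ∑ k ∈ Ioc ⌊x v⌋₊ ⌊y v⌋₊, pntq_a q k / (k : ℝ)) atTop
      (nhds (c * (1 / H))) := by
    rw [Metric.tendsto_atTop]
    intro ε hε
    obtain ⟨X, hX1, hX⟩ := pntq_short q (ε / 5) (by positivity)
    obtain ⟨N, hN⟩ := (hxt.eventually_ge_atTop X).exists_forall_of_atTop
    refine ⟨N, fun v hv => ?_⟩
    have h := hX (x v) (y v) (hN v hv) (hxy v) (hyx v)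
    have e : Real.log (y v) - Real.log (x v) = 1 / H := by
      simp only [hx, hy]
      rw [Real.log_exp, Real.log_exp]
      ring
    rw [e] at h
    rw [Real.dist_eq]
    linarith
  have hN := (pntq_np q).comp hfl
  have hP := hS.sub hN
  rw [sub_zero] at hP
  -- primes
  set R : ℕ → ℝ := fun v => ∑ p ∈ (Ioc ⌊x v⌋₊ ⌊y v⌋₊).filter
    (fun p => p.Prime ∧ p % q = 1 % q), 1 / (p : ℝ) with hR
  set L : ℕ → ℝ := fun v => ∑ p ∈ (Ioc ⌊x v⌋₊ ⌊y v⌋₊).filter
    (fun p => p.Prime ∧ p % q = 1 % q), Real.log p / (p : ℝ) with hL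
  have hLt : Tendsto L atTop (nhds (c * (1 / H))) := by
    refine hP.congr fun v => ?_
    simp only [Function.comp, hL]
    rw [← sum_sub_distrib, sum_filter]
    refine sum_congr rfl fun k _ => ?_
    by_cases hk : k.Prime
    · by_cases hQ : k % q = 1 % q
      · rw [if_pos hk, if_pos ⟨hk, hQ⟩, (pntq_a_prime q hk).1 hQ]
        ring
      · rw [if_pos hk, if_neg (fun h => hQ h.2), (pntq_a_prime q hk).2 hQ]
        ring
    · rw [if_neg hk, if_neg (fun h => hk h.1)]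
      ring
  have hmemlog : ∀ v : ℕ, ∀ p ∈ (Ioc ⌊x v⌋₊ ⌊y v⌋₊).filter
      (fun p => p.Prime ∧ p % q = 1 % q), (v : ℝ) / H ≤ Real.log p ∧
        Real.log p ≤ ((v : ℝ) + 1) / H := by
    intro v p hp
    rw [mem_filter, mem_Ioc] at hp
    have hp0 : (0:ℝ) < p := by exact_mod_cast hp.2.1.pos
    constructor
    · rw [Real.le_log_iff_exp_le hp0]
      exact (Nat.lt_of_floor_lt hp.1.1).le
    · rw [Real.log_le_iff_le_exp hp0]
      calc (p : ℝ) ≤ (⌊y v⌋₊ : ℝ) := by exact_mod_cast hp.1.2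
        _ ≤ y v := Nat.floor_le (Real.exp_pos _).le
  have hR0 : ∀ v, 0 ≤ R v := fun v => sum_nonneg fun p _ => by positivity
  have hRL1 : ∀ v : ℕ, (v : ℝ) * R v ≤ H * L v := by
    intro v
    simp only [hR, hL]
    rw [mul_sum, mul_sum]
    refine sum_le_sum fun p hp => ?_
    have h1 := (hmemlog v p hp).1
    rw [div_le_iff₀ hH0] at h1
    rw [mem_filter, mem_Ioc] at hp
    have hp0 : (0:ℝ) < p := by exact_mod_cast hp.2.1.pos
    rw [mul_one_div, mul_div_assoc']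
    apply div_le_div_of_nonneg_right _ hp0.le
    linarith
  have hRL2 : ∀ v : ℕ, H * L v ≤ ((v : ℝ) + 1) * R v := by
    intro v
    simp only [hR, hL]
    rw [mul_sum, mul_sum]
    refine sum_le_sum fun p hp => ?_
    have h1 := (hmemlog v p hp).2
    rw [le_div_iff₀ hH0] at h1
    rw [mem_filter, mem_Ioc] at hp
    have hp0 : (0:ℝ) < p := by exact_mod_cast hp.2.1.pos
    rw [mul_one_div, mul_div_assoc']
    apply div_le_div_of_nonneg_right _ hp0.le
    linarith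
  have hHL : Tendsto (fun v => H * L v) atTop (nhds c) := by
    have := hLt.const_mul (H : ℝ)
    have e : (H : ℝ) * (c * (1 / H)) = c := by field_simp
    rwa [e] at this
  have hvR : Tendsto (fun v : ℕ => (v : ℝ) * R v) atTop (nhds c) := by
    have hlow : Tendsto (fun v : ℕ => ((v : ℝ) / ((v : ℝ) + 1)) * (H * L v)) atTop (nhds c) := by
      have h1 : Tendsto (fun v : ℕ => (v : ℝ) / ((v : ℝ) + 1)) atTop (nhds 1) :=
        tendsto_natCast_div_add_atTop 1
      have := h1.mul hHL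
      rwa [one_mul] at this
    refine tendsto_of_tendsto_of_tendsto_of_le_of_le hlow hHL ?_ hRL1
    intro v
    have h1 := hRL2 v
    have h2 : (0:ℝ) < (v : ℝ) + 1 := by positivity
    show ((v : ℝ) / ((v : ℝ) + 1)) * (H * L v) ≤ (v : ℝ) * R v
    calc ((v : ℝ) / ((v : ℝ) + 1)) * (H * L v) ≤ ((v : ℝ) / ((v : ℝ) + 1)) * (((v : ℝ) + 1) * R v) :=
          mul_le_mul_of_nonneg_left h1 (by positivity)
      _ = (v : ℝ) * R v := by field_simp
  -- the error
  have hE1 : Tendsto (fun v : ℕ => 2 * ((v : ℝ) * Real.exp (-((v : ℝ) / H)))) atTop (nhds 0) := by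
    have h1 : Tendsto (fun t : ℝ => t ^ 1 * Real.exp (-t)) atTop (nhds 0) :=
      Real.tendsto_pow_mul_exp_neg_atTop_nhds_zero 1
    have h2 : Tendsto (fun v : ℕ => (v : ℝ) / H) atTop atTop :=
      tendsto_natCast_atTop_atTop.atTop_div_const hH0
    have h3 := (h1.comp h2).const_mul (2 * (H : ℝ))
    rw [mul_zero] at h3
    refine h3.congr fun v => ?_
    simp only [Function.comp]
    field_simp
  have hdiff : Tendsto (fun v : ℕ => (v : ℝ) * mmQ (Q1 q) H v - (v : ℝ) * R v) atTop (nhds 0) := by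
    refine squeeze_zero_norm' ?_ hE1
    filter_upwards [hxt.eventually_ge_atTop 2] with v hv
    obtain ⟨S, hS1, hS2⟩ := pntq_cell (Q1 q) H v hv
    have hSR : ∑ p ∈ S, 1 / (p : ℝ) = R v := by
      simp only [hR]
      refine sum_congr ?_ fun _ _ => rfl
      ext p
      rw [hS1, mem_filter, mem_Ioc]
      rfl
    rw [hSR] at hS2
    rw [Real.norm_eq_abs, ← mul_sub, abs_mul, abs_of_nonneg (Nat.cast_nonneg v)]
    have e4 : 2 / Real.exp ((v : ℝ) / H) = 2 * Real.exp (-((v : ℝ) / H)) := by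
      rw [Real.exp_neg]; rfl
    rw [e4] at hS2
    calc (v : ℝ) * |mmQ (Q1 q) H v - R v| ≤ (v : ℝ) * (2 * Real.exp (-((v : ℝ) / H))) := by gcongr
      _ = _ := by ring
  have := hdiff.add hvR
  rw [zero_add, hc, ← one_div] at this
  refine this.congr fun v => ?_
  ring

end Pool.Agent.H376R2.TT
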