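import Pool.Agent.H376R2.TT.Phasq
import Pool.Agent.H376R2.MR.Prog

/-! Task PROGQ of project TT (helper782): phase sums over `d ∣ n`, `n ≡ e mod q` inside a cell. -/

set_option autoImplicit false

namespace Pool.Agent.H376R2.TT
open Finset Filter Pool.Agent.H376R2.MR

/-- the residue class of `m` when `d m ≡ e` -/
theorem progq_class (d q e : ℕ) (hq : 1 ≤ q) (hd : d.Coprime q) :
    ∃ c : ℕ, c < q ∧ ∀ m : ℕ, (d * m) % q = e % q ↔ m % q = c := by
  have : NeZero q := ⟨by omega⟩
  refine ⟨((e : ZMod q) * (d : ZMod q)⁻¹).val, ZMod.val_lt _, fun m => ?_⟩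
  have hinv : (d : ZMod q) * (d : ZMod q)⁻¹ = 1 := ZMod.coe_mul_inv_eq_one d hd
  rw [← ZMod.natCast_eq_natCast_iff' (d * m) e q]
  constructor
  · intro h
    have h1 : (m : ZMod q) = (e : ZMod q) * (d : ZMod q)⁻¹ := by
      rw [← h]
      push_cast
      calc (m : ZMod q) = (d : ZMod q) * (d : ZMod q)⁻¹ * m := by rw [hinv, one_mul]
        _ = _ := by ring
    rw [← h1, ZMod.val_natCast]
  · intro h
    have h1 : (m : ZMod q) = (e : ZMod q) * (d : ZMod q)⁻¹ := by
      have h2 : ((m % q : ℕ) : ZMod q) = (m : ZMod q) := ZMod.natCast_mod m q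
      rw [← h2, h, ZMod.natCast_zmod_val]
    push_cast
    rw [h1]
    calc (d : ZMod q) * ((e : ZMod q) * (d : ZMod q)⁻¹) =
        (d : ZMod q) * (d : ZMod q)⁻¹ * e := by ring
      _ = e := by rw [hinv, one_mul]

/-- reindexing the sum -/
theorem progq_reindex (H v d q e c : ℕ) (hH : 1 ≤ H) (hv : 1 ≤ v) (hd : 1 ≤ d) (hq : 1 ≤ q)
    (hc : c < q) (hcl : ∀ m : ℕ, (d * m) % q = e % q ↔ m % q = c) (τ : ℝ)
    (hNc : (c : ℝ) < Real.exp ((v : ℝ) / H) / d) :
    (∑ n ∈ (nint H v).filter (fun n => d ∣ n ∧ n % q = e % q), er τ (Real.log n) / (n : ℂ)) =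
      (1 / (d : ℂ)) * (er τ (Real.log d) *
        ∑ m ∈ Ico ⌈(Real.exp ((v : ℝ) / H) / d - c) / q⌉₊
          ⌈(Real.exp (((v : ℝ) + 1) / H) / d - c) / q⌉₊,
          er τ (Real.log ((q : ℝ) * m + c)) / ((q : ℂ) * m + c)) := by
  have hd0 : (0 : ℝ) < d := by exact_mod_cast hd
  have hq0 : (0 : ℝ) < q := by exact_mod_cast hq
  rw [mul_sum, mul_sum]
  symm
  apply Finset.sum_bij (fun m _ => d * (q * m + c))
  · intro m hm
    rw [mem_Ico] at hm
    rw [mem_filter, prog_mem_nint H v hH hv]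
    refine ⟨⟨?_, ?_⟩, dvd_mul_right d _, ?_⟩
    · have := Nat.ceil_le.1 hm.1
      rw [div_le_iff₀ hq0, sub_le_iff_le_add, div_le_iff₀ hd0] at this
      push_cast
      linarith
    · have := Nat.lt_ceil.1 hm.2
      rw [lt_div_iff₀ hq0, lt_sub_iff_add_lt, lt_div_iff₀ hd0] at this
      push_cast
      linarith
    · rw [hcl]
      rw [Nat.mul_add_mod, Nat.mod_eq_of_lt hc]
  · intro a _ b _ h
    have h1 := Nat.eq_of_mul_eq_mul_left (by omega : 0 < d) h
    have h2 : q * a = q * b := by omega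
    exact Nat.eq_of_mul_eq_mul_left (by omega) h2
  · intro n hn
    rw [mem_filter, prog_mem_nint H v hH hv] at hn
    obtain ⟨⟨h1, h2⟩, ⟨m, rfl⟩, h3⟩ := hn
    rw [hcl] at h3
    have h4 : q * (m / q) + c = m := by
      rw [← h3]
      exact Nat.div_add_mod m q
    have h5 : (q : ℝ) * ((m / q : ℕ) : ℝ) + c = m := by exact_mod_cast h4
    refine ⟨m / q, ?_, by rw [h4]⟩
    push_cast at h1 h2
    rw [mem_Ico]
    constructor
    · rw [Nat.ceil_le, div_le_iff₀ hq0, sub_le_iff_le_add, div_le_iff₀ hd0]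
      calc Real.exp ((v : ℝ) / H) ≤ d * m := h1
        _ = (((m / q : ℕ) : ℝ) * q + c) * d := by rw [← h5]; ring
    · rw [Nat.lt_ceil, lt_div_iff₀ hq0, lt_sub_iff_add_lt, lt_div_iff₀ hd0]
      calc (((m / q : ℕ) : ℝ) * q + c) * d = d * m := by rw [← h5]; ring
        _ < _ := h2
  · intro m hm
    rw [mem_Ico] at hm
    have hm0 : (0 : ℝ) < (q : ℝ) * m + c := by
      have h1 := Nat.ceil_le.1 hm.1
      rw [div_le_iff₀ hq0, sub_le_iff_le_add] at h1
      have h2 : (0 : ℝ) ≤ c := Nat.cast_nonneg _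
      linarith
    have hm1 : ((q : ℂ) * m + c) ≠ 0 := by
      have : (q : ℝ) * m + c ≠ 0 := hm0.ne'
      exact_mod_cast this
    have hd1 : (d : ℂ) ≠ 0 := by
      have : (d : ℝ) ≠ 0 := hd0.ne'
      exact_mod_cast this
    push_cast
    rw [Real.log_mul hd0.ne' hm0.ne', prog_er_add]
    field_simp

/-- trivial bound for the sum -/
theorem progq_trivial (H v : ℕ) (hH : 1 ≤ H) (hv : 1 ≤ v) (τ : ℝ) (P : ℕ → Prop)
    [DecidablePred P] :
    ‖∑ n ∈ (nint H v).filter P, er τ (Real.log n) / (n : ℂ)‖ ≤ 4 := by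
  have hHp : (0 : ℝ) < H := by exact_mod_cast hH
  have hH1 : (1 : ℝ) ≤ H := by exact_mod_cast hH
  set N : ℝ := Real.exp ((v : ℝ) / H) with hN
  have hN1 : 1 ≤ N := Real.one_le_exp (by positivity)
  have hNp : 0 < N := by linarith
  have hN2e : Real.exp (((v : ℝ) + 1) / H) ≤ 2.7182818286 * N := by
    rw [add_div, Real.exp_add, mul_comm]
    have h1 : Real.exp (1 / (H : ℝ)) ≤ Real.exp 1 := Real.exp_le_exp.2 (by
      rw [div_le_one hHp]; exact hH1)
    have h2 := Real.exp_one_lt_d9
    nlinarith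
  calc ‖∑ n ∈ (nint H v).filter P, er τ (Real.log n) / (n : ℂ)‖
      ≤ ∑ n ∈ (nint H v).filter P, ‖er τ (Real.log n) / (n : ℂ)‖ := norm_sum_le _ _
    _ ≤ ∑ n ∈ (nint H v).filter P, 1 / N := by
        apply Finset.sum_le_sum
        intro n hn
        rw [mem_filter, prog_mem_nint H v hH hv] at hn
        rw [norm_div, prog_er_norm, Complex.norm_natCast]
        exact one_div_le_one_div_of_le hNp hn.1.1
    _ = ((nint H v).filter P).card * (1 / N) := by rw [sum_const, nsmul_eq_mul]
    _ ≤ (Ico 1 (⌊Real.exp (((v : ℝ) + 1) / H)⌋₊ + 1)).card * (1 / N) := by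
        gcongr
        intro n hn
        rw [mem_filter, prog_mem_nint H v hH hv] at hn
        rw [mem_Ico]
        constructor
        · have : (1 : ℝ) ≤ n := le_trans hN1 hn.1.1
          exact_mod_cast this
        · exact Nat.lt_succ_of_le (Nat.le_floor hn.1.2.le)
    _ ≤ (2.7182818286 * N) * (1 / N) := by
        gcongr
        rw [Nat.card_Ico, Nat.add_sub_cancel]
        exact le_trans (Nat.floor_le (Real.exp_pos _).le) hN2e
    _ ≤ 4 := by
        rw [mul_assoc, mul_one_div_cancel hNp.ne']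
        norm_num

theorem prog_q (M H q : ℕ) (hH : 1 ≤ H) (hq : 1 ≤ q) : ∃ η C : ℝ, 0 < η ∧ 0 < C ∧
    ∀ (v d e : ℕ) (τ : ℝ), 1 ≤ v → 1 ≤ d → d.Coprime q → (d : ℝ) ≤ Real.exp ((v : ℝ) / (4 * H)) →
    |τ| ≤ Real.exp (M * (v : ℝ) / H) →
    ‖(∑ n ∈ (nint H v).filter (fun n => d ∣ n ∧ n % q = e % q), er τ (Real.log n) / (n : ℂ)) -
      (1 / ((d : ℂ) * q)) * ∫ s in ((v : ℝ) / H)..(((v : ℝ) + 1) / H), er τ s‖ ≤
      C * Real.exp (-(η * v)) / d := by
  obtain ⟨η', C', hη, hη2, hC, hph⟩ := phase_q (2 * M) q hq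
  have hHp : (0 : ℝ) < H := by exact_mod_cast hH
  have hH1 : (1 : ℝ) ≤ H := by exact_mod_cast hH
  have hq0 : (0 : ℝ) < q := by exact_mod_cast hq
  have hq1 : (1 : ℝ) ≤ q := by exact_mod_cast hq
  refine ⟨η' / (2 * H), C' + 4 + 5 * (11 * q) ^ 2, by positivity, by positivity, ?_⟩
  intro v d e τ hv hd hdq hdN hτ
  have hd0 : (0 : ℝ) < d := by exact_mod_cast hd
  have hd1 : (1 : ℝ) ≤ d := by exact_mod_cast hd
  have hv1 : (1 : ℝ) ≤ v := by exact_mod_cast hv
  have hvp : (0 : ℝ) < v := by linarith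
  set V : ℝ := (v : ℝ) / H with hV
  have hV0 : 0 < V := by positivity
  have hV' : ((v : ℝ) + 1) / H = V + 1 / H := by rw [hV]; ring
  have hV4 : (v : ℝ) / (4 * H) = V / 4 := by rw [hV]; field_simp
  have hMv : (M : ℝ) * v / H = M * V := by rw [hV]; ring
  rw [hV4] at hdN
  rw [hMv] at hτ
  have hinvH : (1 : ℝ) / H ≤ 1 := by
    rw [div_le_one hHp]; exact hH1
  have hinvH0 : 0 < (1 : ℝ) / H := by positivity
  have hexpη : Real.exp (-(η' / (2 * H) * v)) = Real.exp (-(η' / 2 * V)) := by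
    congr 1
    rw [hV]
    field_simp
  rw [hexpη]
  have hI : ‖∫ s in V..((v : ℝ) + 1) / H, er τ s‖ ≤ 1 := by
    rw [hV']
    refine (prog_int_le τ _ _).trans ?_
    rw [add_sub_cancel_left, abs_of_pos hinvH0]
    exact hinvH
  by_cases hbig : 11 * (q : ℝ) ≤ Real.exp (V / 4)
  · -- the main case
    obtain ⟨c, hc, hcl⟩ := progq_class d q e hq hdq
    have hc0 : (0 : ℝ) ≤ c := Nat.cast_nonneg _
    have hcq : (c : ℝ) < q := by exact_mod_cast hc
    set N : ℝ := Real.exp V with hN
    have hN1 : 1 ≤ N := Real.one_le_exp hV0.le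
    have hNp : 0 < N := by linarith
    have hNd : Real.exp (3 / 4 * V) ≤ N / d := by
      rw [le_div_iff₀ hd0]
      calc Real.exp (3 / 4 * V) * d ≤ Real.exp (3 / 4 * V) * Real.exp (V / 4) := by gcongr
        _ = N := by rw [← Real.exp_add, hN]; congr 1; ring
    have hE : Real.exp (3 / 4 * V) = Real.exp (V / 4) * Real.exp (V / 2) := by
      rw [← Real.exp_add]; congr 1; ring
    have hE2 : 1 ≤ Real.exp (V / 2) := Real.one_le_exp (by linarith)
    have hNd11 : 11 * (q : ℝ) * Real.exp (V / 2) ≤ N / d := by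
      calc 11 * (q : ℝ) * Real.exp (V / 2) ≤ Real.exp (V / 4) * Real.exp (V / 2) := by gcongr
        _ = Real.exp (3 / 4 * V) := hE.symm
        _ ≤ _ := hNd
    have hNd' : 11 * (q : ℝ) ≤ N / d := by
      have : 11 * (q : ℝ) * 1 ≤ 11 * (q : ℝ) * Real.exp (V / 2) := by gcongr
      linarith
    rw [progq_reindex H v d q e c hH hv hd hq hc hcl τ (by
      rw [← hV, ← hN]
      linarith), hV', ← hV]
    set N2 : ℝ := Real.exp (V + 1 / H) with hN2
    have hN2e : N2 ≤ 2.7182818286 * N := by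
      rw [hN2, Real.exp_add, mul_comm]
      have : Real.exp (1 / (H : ℝ)) ≤ Real.exp 1 := Real.exp_le_exp.2 hinvH
      have h2 := Real.exp_one_lt_d9
      nlinarith
    have hNN2 : N ≤ N2 := by
      rw [hN, hN2]; exact Real.exp_le_exp.2 (by linarith)
    have hN2p : 0 < N2 := by linarith
    set a : ℕ := ⌈(N / d - c) / q⌉₊ with ha
    set b : ℕ := ⌈(N2 / d - c) / q⌉₊ with hb
    have hpos1 : 0 < (N / d - c) / q := by
      apply div_pos _ hq0
      linarith
    have hN2d : N / d ≤ N2 / d := by gcongr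
    have hpos2 : 0 < (N2 / d - c) / q := by
      apply div_pos _ hq0
      linarith
    have ha0 : 0 < a := Nat.ceil_pos.2 hpos1
    have ha1 : N / d - c ≤ q * a := by
      have := Nat.le_ceil ((N / d - c) / q)
      rw [div_le_iff₀ hq0] at this
      rw [mul_comm]
      exact this
    have ha2 : q * (a : ℝ) < N / d - c + q := by
      have := Nat.ceil_lt_add_one hpos1.le
      rw [← ha] at this
      calc q * (a : ℝ) < q * ((N / d - c) / q + 1) := by gcongr
        _ = N / d - c + q := by field_simp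
    have hb1 : N2 / d - c ≤ q * b := by
      have := Nat.le_ceil ((N2 / d - c) / q)
      rw [div_le_iff₀ hq0] at this
      rw [mul_comm]
      exact this
    have hb2 : q * (b : ℝ) < N2 / d - c + q := by
      have := Nat.ceil_lt_add_one hpos2.le
      rw [← hb] at this
      calc q * (b : ℝ) < q * ((N2 / d - c) / q + 1) := by gcongr
        _ = N2 / d - c + q := by field_simp
    have hab : a ≤ b := Nat.ceil_mono (by gcongr)
    have hN2d' : N2 / d ≤ 2.7182818286 * (N / d) := by
      rw [mul_div_assoc']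
      gcongr
    have hap : (0 : ℝ) < a := by exact_mod_cast ha0
    have hbp : (0 : ℝ) < b := by exact_mod_cast (lt_of_lt_of_le ha0 hab)
    have hb3 : b ≤ 3 * a := by
      have h1 : q * (b : ℝ) ≤ q * (3 * a) := by linarith
      have h2 : (b : ℝ) ≤ 3 * a := le_of_mul_le_mul_left h1 hq0
      exact_mod_cast h2
    have haV : Real.exp (V / 2) ≤ a := by
      have h1 : q * Real.exp (V / 2) ≤ q * (a : ℝ) := by
        have h2 : (q : ℝ) * 1 ≤ q * Real.exp (V / 2) := by gcongr
        linarith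
      exact le_of_mul_le_mul_left h1 hq0
    have hτa : |τ| ≤ (a : ℝ) ^ (2 * M) := by
      calc |τ| ≤ Real.exp (M * V) := hτ
        _ = (Real.exp (V / 2)) ^ (2 * M) := by
            rw [← Real.exp_nat_mul]; congr 1; push_cast; ring
        _ ≤ (a : ℝ) ^ (2 * M) := pow_le_pow_left₀ (Real.exp_pos _).le haV _
    have hp := hph a b c τ ha0 hab hb3 hc hτa
    set S := ∑ m ∈ Ico a b, er τ (Real.log ((q : ℝ) * m + c)) / ((q : ℂ) * m + c) with hS
    have hqc : (q : ℂ) ≠ 0 := by
      have : (q : ℝ) ≠ 0 := hq0.ne'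
      exact_mod_cast this
    have hdc : (d : ℂ) ≠ 0 := by
      have : (d : ℝ) ≠ 0 := hd0.ne'
      exact_mod_cast this
    have hdecomp : (1 / (d : ℂ)) * (er τ (Real.log d) * S) -
        (1 / ((d : ℂ) * q)) * ∫ s in V..(V + 1 / H), er τ s =
        (1 / (d : ℂ)) * (er τ (Real.log d) * (S - (1 / (q : ℂ)) *
          ∫ s in (Real.log ((q : ℝ) * a))..(Real.log ((q : ℝ) * b)), er τ s) +
        (1 / (q : ℂ)) * ((∫ s in (Real.log ((q : ℝ) * a) + Real.log d)..
          (Real.log ((q : ℝ) * b) + Real.log d), er τ s) - ∫ s in V..(V + 1 / H), er τ s)) := by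
      rw [← prog_shift]
      field_simp
      ring
    rw [hdecomp, norm_mul]
    have hdn : ‖(1 / (d : ℂ))‖ = 1 / (d : ℝ) := by
      rw [norm_div]; simp
    have hqn : ‖(1 / (q : ℂ))‖ = 1 / (q : ℝ) := by
      rw [norm_div]; simp
    rw [hdn, div_mul_eq_mul_div, one_mul]
    apply div_le_div_of_nonneg_right _ hd0.le
    -- the ends of the integral
    have key : ∀ (X : ℝ) (x : ℕ), 11 * (q : ℝ) ≤ X / d → X / d - c ≤ q * x →
        q * (x : ℝ) < X / d - c + q → |Real.log X - (Real.log ((q : ℝ) * x) + Real.log d)| ≤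
          2 * (q / (X / d)) := by
      intro X x h0 h1 h2
      have hXd : 0 < X / d := by linarith
      have hX : 0 < X := by
        have := mul_pos hXd hd0
        rwa [div_mul_cancel₀ _ hd0.ne'] at this
      have hxp : 0 < (q : ℝ) * x := by linarith
      have e1 : Real.log X - (Real.log ((q : ℝ) * x) + Real.log d) =
          Real.log (X / d) - Real.log (q * x) := by
        rw [Real.log_div hX.ne' hd0.ne']
        ring
      rw [e1, abs_le]
      set Z := X / d with hZ
      constructor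
      · -- log (qx) - log Z ≤ qx/Z - 1 ≤ q/Z
        have h3 : Real.log (q * x) - Real.log Z ≤ q / Z := by
          rw [← Real.log_div hxp.ne' hXd.ne']
          calc Real.log (q * x / Z) ≤ q * x / Z - 1 := Real.log_le_sub_one_of_pos (by positivity)
            _ ≤ (Z + q) / Z - 1 := by
                gcongr
                linarith
            _ = q / Z := by field_simp; ring
        have h4 : 0 ≤ q / Z := by positivity
        linarith
      · have h3 : Real.log Z - Real.log (q * x) ≤ q / (q * x) := by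
          rw [← Real.log_div hXd.ne' hxp.ne']
          calc Real.log (Z / (q * x)) ≤ Z / (q * x) - 1 :=
                Real.log_le_sub_one_of_pos (by positivity)
            _ ≤ (q * x + q) / (q * x) - 1 := by
                gcongr
                linarith
            _ = q / (q * x) := by rw [add_div, div_self hxp.ne']; ring
        have h4 : q / (q * x) ≤ 2 * (q / Z) := by
          rw [← mul_div_assoc, div_le_div_iff₀ hxp hXd]
          have h5 : Z ≤ 2 * (q * x) := by linarith
          calc (q : ℝ) * Z ≤ q * (2 * (q * x)) := mul_le_mul_of_nonneg_left h5 hq0.le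
            _ = 2 * q * (q * x) := by ring
        linarith
    have hZ1 : q / (N / d) ≤ Real.exp (-(η' / 2 * V)) := by
      have hNdp : 0 < N / d := by linarith
      rw [div_le_iff₀ hNdp, Real.exp_neg, ← div_eq_inv_mul, le_div_iff₀ (Real.exp_pos _)]
      calc (q : ℝ) * Real.exp (η' / 2 * V) ≤ q * Real.exp (V / 2) := by
            gcongr
            have := mul_le_mul_of_nonneg_right hη2 hV0.le
            linarith
        _ ≤ 11 * q * Real.exp (V / 2) := by
            have : 0 ≤ (q : ℝ) * Real.exp (V / 2) := by positivity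
            linarith
        _ ≤ N / d := hNd11
    have hk1 := key N a hNd' ha1 ha2
    have hk2 := key N2 b (le_trans hNd' hN2d) hb1 hb2
    have e1 : Real.log N = V := by rw [hN, Real.log_exp]
    have e2 : Real.log N2 = V + 1 / H := by rw [hN2, Real.log_exp]
    rw [e1] at hk1
    rw [e2] at hk2
    have hk3 : 2 * (q / (N2 / d)) ≤ 2 * (q / (N / d)) := by
      gcongr
    have hpow : (a : ℝ) ^ (-η') ≤ Real.exp (-(η' / 2 * V)) := by
      calc (a : ℝ) ^ (-η') ≤ (Real.exp (V / 2)) ^ (-η') := by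
            apply Real.rpow_le_rpow_of_nonpos (Real.exp_pos _) haV (by linarith)
        _ = Real.exp (-(η' / 2 * V)) := by
            rw [← Real.exp_mul]; congr 1; ring
    have hX := Real.exp_pos (-(η' / 2 * V))
    calc _ ≤ ‖er τ (Real.log d) * (S - (1 / (q : ℂ)) *
          ∫ s in (Real.log ((q : ℝ) * a))..(Real.log ((q : ℝ) * b)), er τ s)‖ +
          ‖(1 / (q : ℂ)) * ((∫ s in (Real.log ((q : ℝ) * a) + Real.log d)..
          (Real.log ((q : ℝ) * b) + Real.log d), er τ s) - ∫ s in V..(V + 1 / H), er τ s)‖ :=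
            norm_add_le _ _
      _ ≤ C' * (a : ℝ) ^ (-η') + 1 * (2 * (q / (N / d)) + 2 * (q / (N / d))) := by
          apply add_le_add
          · rw [norm_mul, prog_er_norm, one_mul]; exact hp
          · rw [norm_mul, hqn]
            apply mul_le_mul _ _ (norm_nonneg _) zero_le_one
            · rw [div_le_one hq0]; exact hq1
            · exact (prog_int_diff _ _ _ _ _).trans (add_le_add hk1 (hk2.trans hk3))
      _ ≤ C' * Real.exp (-(η' / 2 * V)) + 1 * (2 * Real.exp (-(η' / 2 * V)) +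
          2 * Real.exp (-(η' / 2 * V))) := by gcongr
      _ ≤ (C' + 4 + 5 * (11 * q) ^ 2) * Real.exp (-(η' / 2 * V)) := by
          have : 0 ≤ 5 * (11 * (q : ℝ)) ^ 2 * Real.exp (-(η' / 2 * V)) := by positivity
          linarith
  · -- the trivial case
    push Not at hbig
    have h1 := progq_trivial H v hH hv τ (fun n => d ∣ n ∧ n % q = e % q)
    have h2 : ‖(1 / ((d : ℂ) * q)) * ∫ s in V..((v : ℝ) + 1) / H, er τ s‖ ≤ 1 := by
      rw [norm_mul]
      have : ‖(1 / ((d : ℂ) * q))‖ ≤ 1 := by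
        rw [norm_div, norm_mul, norm_one, Complex.norm_natCast, Complex.norm_natCast,
          div_le_one (by positivity)]
        exact one_le_mul_of_one_le_of_one_le hd1 hq1
      calc _ ≤ 1 * 1 := mul_le_mul this hI (norm_nonneg _) zero_le_one
        _ = 1 := one_mul _
    have h3 : (1 : ℝ) / (11 * q) ≤ Real.exp (-(η' / 2 * V)) := by
      rw [Real.exp_neg, one_div]
      apply inv_anti₀ (Real.exp_pos _)
      refine le_trans (Real.exp_le_exp.2 ?_) hbig.le
      have := mul_le_mul_of_nonneg_right hη2 hV0.le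
      linarith
    have h4 : (1 : ℝ) / (11 * q) ≤ 1 / d := one_div_le_one_div_of_le hd0 (by linarith)
    calc _ ≤ 4 + 1 := (norm_sub_le _ _).trans (add_le_add h1 h2)
      _ = (5 * (11 * (q : ℝ)) ^ 2) * ((1 / (11 * q)) * (1 / (11 * q))) := by field_simp; norm_num
      _ ≤ (C' + 4 + 5 * (11 * q) ^ 2) * (Real.exp (-(η' / 2 * V)) * (1 / d)) := by
          gcongr
          linarith
      _ = _ := by ring

end Pool.Agent.H376R2.TT
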