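import Pool.Agent.H376R2.TT.Defs
import Pool.Agent.H376R2.MR.Selw

/-!
Project TT, task SELWQ: Selberg weights supported on integers coprime to `q`.
-/

set_option autoImplicit false

namespace Pool.Agent.H376R2.TT

open Finset Filter Pool.Agent.H376R2.MR
open scoped ArithmeticFunction.Moebius

/-- `μ²(m)/φ(m)` for `(m,q)=1` -/
noncomputable def selwq_g (q m : ℕ) : ℝ := if m.Coprime q then sw_g m else 0

theorem selwq_g_nonneg (q m : ℕ) : 0 ≤ selwq_g q m := by
  unfold selwq_g; split_ifs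
  · exact sw_g_nonneg m
  · exact le_rfl

theorem selwq_g_one (q : ℕ) : selwq_g q 1 = 1 := by
  unfold selwq_g; rw [if_pos (Nat.coprime_one_left q), sw_g_one]

theorem selwq_g_zero {q m : ℕ} (h : ¬ Squarefree m) : selwq_g q m = 0 := by
  unfold selwq_g sw_g
  rw [if_neg h]
  simp

theorem selwq_g_mul (q : ℕ) {a b : ℕ} (h : Nat.Coprime a b) :
    selwq_g q (a * b) = selwq_g q a * selwq_g q b := by
  unfold selwq_g
  by_cases ha : a.Coprime q
  · by_cases hb : b.Coprime q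
    · rw [if_pos (Nat.Coprime.mul_left ha hb), if_pos ha, if_pos hb, sw_g_mul h]
    · rw [if_neg (fun h2 => hb (Nat.Coprime.coprime_mul_left h2)), if_neg hb, mul_zero]
  · rw [if_neg (fun h2 => ha (Nat.Coprime.coprime_mul_right h2)), if_neg ha, zero_mul]

theorem selwq_phi_g {q d : ℕ} (h : Squarefree d) (hc : d.Coprime q) :
    (Nat.totient d : ℝ) * selwq_g q d = 1 := by
  unfold selwq_g
  rw [if_pos hc, sw_phi_g h]

theorem selwq_sum {q d : ℕ} (h : Squarefree d) (hc : d.Coprime q) :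
    (Nat.totient d : ℝ) * ∑ k ∈ d.divisors, selwq_g q k = d := by
  rw [← sw_sum h]
  congr 1
  refine Finset.sum_congr rfl fun k hk => ?_
  unfold selwq_g
  rw [if_pos (Nat.Coprime.coprime_dvd_left (Nat.dvd_of_mem_divisors hk) hc)]

/-- the total mass -/
noncomputable def selwq_G (q D : ℕ) : ℝ := ∑ n ∈ Icc 1 D, selwq_g q n

theorem selwq_G_pos (q : ℕ) {D : ℕ} (hD : 1 ≤ D) : 0 < selwq_G q D := by
  have h1 : selwq_g q 1 ≤ selwq_G q D :=
    Finset.single_le_sum (f := selwq_g q) (fun i _ => selwq_g_nonneg q i)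
      (Finset.mem_Icc.2 ⟨le_rfl, hD⟩)
  rw [selwq_g_one] at h1
  linarith

/-- the key bound for `|l d| ≤ 1` -/
theorem selwq_key (q D d : ℕ) (hd : Squarefree d) (hdq : d.Coprime q) :
    (d : ℝ) * ∑ m ∈ (Icc 1 D).filter (fun m => d ∣ m), selwq_g q m ≤ selwq_G q D := by
  have hd0 : 0 < d := Nat.pos_of_ne_zero hd.ne_zero
  set T : Finset ℕ := (Icc 1 D).filter (fun m => d ∣ m ∧ Squarefree m) with hT
  have h1 : ∑ m ∈ (Icc 1 D).filter (fun m => d ∣ m), selwq_g q m = ∑ m ∈ T, selwq_g q m := by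
    symm
    apply Finset.sum_subset
    · intro m hm
      rw [hT, Finset.mem_filter] at hm
      exact Finset.mem_filter.2 ⟨hm.1, hm.2.1⟩
    · intro m hm hmT
      rw [Finset.mem_filter] at hm
      have : ¬ Squarefree m := fun hs => hmT (Finset.mem_filter.2 ⟨hm.1, hm.2, hs⟩)
      exact selwq_g_zero this
  have h2 : ∀ m ∈ T, (d : ℝ) * selwq_g q m = ∑ k ∈ d.divisors, selwq_g q (k * (m / d)) := by
    intro m hm
    rw [hT, Finset.mem_filter] at hm
    obtain ⟨_, ⟨c, rfl⟩, hs⟩ := hm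
    have hcop := sw_coprime hs
    rw [Nat.mul_div_cancel_left c hd0, selwq_g_mul q hcop]
    have e1 : ∀ k ∈ d.divisors, selwq_g q (k * c) = selwq_g q k * selwq_g q c := by
      intro k hk
      exact selwq_g_mul q (Nat.Coprime.coprime_dvd_left (Nat.dvd_of_mem_divisors hk) hcop)
    rw [Finset.sum_congr rfl e1, ← Finset.sum_mul]
    have e2 := selwq_sum hd hdq
    have e3 := selwq_phi_g hd hdq
    calc (d : ℝ) * (selwq_g q d * selwq_g q c) =
        ((Nat.totient d : ℝ) * ∑ k ∈ d.divisors, selwq_g q k) *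
          (selwq_g q d * selwq_g q c) := by rw [e2]
      _ = ((Nat.totient d : ℝ) * selwq_g q d) *
          ((∑ k ∈ d.divisors, selwq_g q k) * selwq_g q c) := by ring
      _ = _ := by rw [e3, one_mul]
  rw [h1, Finset.mul_sum, Finset.sum_congr rfl h2, ← Finset.sum_product']
  have hinj : Set.InjOn (fun p : ℕ × ℕ => p.2 * (p.1 / d)) (T ×ˢ d.divisors : Finset (ℕ × ℕ)) := by
    rintro ⟨m, k⟩ hp ⟨m', k'⟩ hp' heq
    rw [Finset.mem_coe, Finset.mem_product, hT, Finset.mem_filter] at hp hp'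
    obtain ⟨⟨_, ⟨c, hc⟩, hs⟩, hk⟩ := hp
    obtain ⟨⟨_, ⟨c', hc'⟩, hs'⟩, hk'⟩ := hp'
    simp only at hc hc' hs hs' hk hk' heq
    subst hc
    subst hc'
    rw [Nat.mul_div_cancel_left c hd0, Nat.mul_div_cancel_left c' hd0] at heq
    have hkd := Nat.dvd_of_mem_divisors hk
    have hkd' := Nat.dvd_of_mem_divisors hk'
    have g1 : (k * c).gcd d = k := by
      rw [Nat.Coprime.gcd_mul_right_cancel k (sw_coprime hs).symm]
      exact Nat.gcd_eq_left hkd
    have g2 : (k' * c').gcd d = k' := by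
      rw [Nat.Coprime.gcd_mul_right_cancel k' (sw_coprime hs').symm]
      exact Nat.gcd_eq_left hkd'
    have hkk : k = k' := by rw [← g1, ← g2, heq]
    subst hkk
    have hk0 : 0 < k := Nat.pos_of_mem_divisors hk
    have hcc : c = c' := Nat.eq_of_mul_eq_mul_left hk0 heq
    subst hcc
    rfl
  have h3 : ∑ p ∈ T ×ˢ d.divisors, selwq_g q (p.2 * (p.1 / d)) =
      ∑ n ∈ (T ×ˢ d.divisors).image (fun p : ℕ × ℕ => p.2 * (p.1 / d)), selwq_g q n := by
    rw [Finset.sum_image hinj]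
  rw [h3]
  apply Finset.sum_le_sum_of_subset_of_nonneg
  · intro n hn
    obtain ⟨⟨m, k⟩, hp, rfl⟩ := Finset.mem_image.1 hn
    rw [Finset.mem_product, hT, Finset.mem_filter, Finset.mem_Icc] at hp
    obtain ⟨⟨⟨hm1, hmD⟩, ⟨c, hc⟩, hs⟩, hk⟩ := hp
    simp only at hm1 hmD hc hs hk ⊢
    subst hc
    rw [Nat.mul_div_cancel_left c hd0, Finset.mem_Icc]
    have hk0 : 0 < k := Nat.pos_of_mem_divisors hk
    have hkd : k ≤ d := Nat.divisor_le hk
    have hc0 : 0 < c := by
      rcases Nat.eq_zero_or_pos c with h0 | h0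
      · rw [h0, mul_zero] at hm1; omega
      · exact h0
    exact ⟨Nat.mul_pos hk0 hc0, (Nat.mul_le_mul_right c hkd).trans hmD⟩
  · intro n _ _
    exact selwq_g_nonneg q n

/-! ### the lower bound for the mass -/

theorem selwq_totient (q : ℕ) (hq : 1 ≤ q) :
    ∑ k ∈ (sw_rad q).divisors, sw_g k = (q : ℝ) / Nat.totient q := by
  have hs := sw_rad_squarefree q
  have h1 := sw_sum hs
  have hr0 : 0 < sw_rad q := Nat.pos_of_ne_zero hs.ne_zero
  have hr0' : (0 : ℝ) < sw_rad q := by exact_mod_cast hr0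
  have hq0' : (0 : ℝ) < q := by exact_mod_cast hq
  have hφ : (0 : ℝ) < Nat.totient (sw_rad q) := by exact_mod_cast Nat.totient_pos.2 hr0
  have hφq : (0 : ℝ) < Nat.totient q := by exact_mod_cast Nat.totient_pos.2 hq
  have e1 := sw_phi (sw_rad q)
  have e2 := sw_phi q
  rw [sw_rad_primeFactors] at e1
  set P : ℝ := ∏ p ∈ q.primeFactors, (1 - (p : ℝ)⁻¹) with hP
  have hP0 : P ≠ 0 := fun h => by rw [h, mul_zero] at e2; exact hφq.ne' e2
  rw [e1] at h1
  rw [e2]
  have h2 : P * ∑ k ∈ (sw_rad q).divisors, sw_g k = 1 := by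
    have : (sw_rad q : ℝ) * (P * ∑ k ∈ (sw_rad q).divisors, sw_g k) = (sw_rad q : ℝ) * 1 := by
      rw [mul_one, ← mul_assoc]
      exact h1
    exact mul_left_cancel₀ hr0'.ne' this
  rw [eq_div_iff (mul_ne_zero hq0'.ne' hP0)]
  calc (∑ k ∈ (sw_rad q).divisors, sw_g k) * (q * P) =
      q * (P * ∑ k ∈ (sw_rad q).divisors, sw_g k) := by ring
    _ = q := by rw [h2, mul_one]

theorem selwq_G_le (q D : ℕ) (hq : 1 ≤ q) :
    sw_G D ≤ (q : ℝ) / Nat.totient q * selwq_G q D := by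
  set R := sw_rad q with hR
  have hRs : Squarefree R := sw_rad_squarefree q
  have hR0 : 0 < R := Nat.pos_of_ne_zero hRs.ne_zero
  set S : Finset ℕ := (Icc 1 D).filter (fun m => Squarefree m) with hS
  have h1 : sw_G D = ∑ m ∈ S, sw_g m := by
    symm
    apply Finset.sum_subset (Finset.filter_subset _ _)
    intro m hm hmS
    have : ¬ Squarefree m := fun hs => hmS (Finset.mem_filter.2 ⟨hm, hs⟩)
    unfold sw_g
    rw [if_neg this]
  -- decomposition of a squarefree `n`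
  have hdec : ∀ n ∈ S, ∃ h : ℕ, n = n.gcd R * h ∧ (n.gcd R).Coprime h ∧ h.Coprime q ∧
      1 ≤ h ∧ h ≤ D := by
    intro n hn
    rw [hS, Finset.mem_filter, Finset.mem_Icc] at hn
    obtain ⟨⟨hn1, hnD⟩, hns⟩ := hn
    obtain ⟨h, hh⟩ := Nat.gcd_dvd_left n R
    have hns' : Squarefree (n.gcd R * h) := by rw [← hh]; exact hns
    have hcop := sw_coprime hns'
    have hg0 : 0 < n.gcd R := Nat.gcd_pos_of_pos_right _ hR0
    have hh0 : 0 < h := by
      rcases Nat.eq_zero_or_pos h with h0 | h0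
      · rw [h0, mul_zero] at hh; omega
      · exact h0
    refine ⟨h, hh, hcop, ?_, hh0, ?_⟩
    · rw [Nat.coprime_iff_gcd_eq_one, ← Nat.coprime_iff_gcd_eq_one]
      by_contra hnc
      obtain ⟨p, hp, hph, hpq⟩ := Nat.Prime.not_coprime_iff_dvd.1 hnc
      have hpR : p ∣ R := by
        have : p ∈ R.primeFactors := by
          rw [hR, sw_rad_primeFactors]
          exact Nat.mem_primeFactors.2 ⟨hp, hpq, by omega⟩
        exact Nat.dvd_of_mem_primeFactors this
      have hpn : p ∣ n := by rw [hh]; exact Dvd.dvd.mul_left hph _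
      have hpg : p ∣ n.gcd R := Nat.dvd_gcd hpn hpR
      exact Nat.Prime.not_coprime_iff_dvd.2 ⟨p, hp, hpg, hph⟩ hcop
    · calc h ≤ n.gcd R * h := Nat.le_mul_of_pos_left h hg0
        _ = n := hh.symm
        _ ≤ D := hnD
  have h2 : ∀ n ∈ S, sw_g n = sw_g (n.gcd R) * selwq_g q (n / n.gcd R) := by
    intro n hn
    obtain ⟨h, hh, hcop, hcq, _, _⟩ := hdec n hn
    have hg0 : 0 < n.gcd R := Nat.gcd_pos_of_pos_right _ hR0
    have hd : n / n.gcd R = h := by
      conv_lhs => rw [hh]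
      have : (n.gcd R * h) / n.gcd R = h := Nat.mul_div_cancel_left h hg0
      rw [← hh] at this ⊢
      exact this
    rw [hd]
    unfold selwq_g
    rw [if_pos hcq, ← sw_g_mul hcop, ← hh]
  rw [h1, Finset.sum_congr rfl h2]
  have hinj : Set.InjOn (fun n : ℕ => (n.gcd R, n / n.gcd R)) (S : Set ℕ) := by
    intro n _ n' _ heq
    simp only [Prod.mk.injEq] at heq
    have e1 : n = n.gcd R * (n / n.gcd R) := (Nat.mul_div_cancel' (Nat.gcd_dvd_left n R)).symm
    have e2 : n' = n'.gcd R * (n' / n'.gcd R) := (Nat.mul_div_cancel' (Nat.gcd_dvd_left n' R)).symm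
    rw [e1, e2, heq.2, heq.1]
  have h3 : ∑ n ∈ S, sw_g (n.gcd R) * selwq_g q (n / n.gcd R) =
      ∑ x ∈ S.image (fun n : ℕ => (n.gcd R, n / n.gcd R)), sw_g x.1 * selwq_g q x.2 := by
    rw [Finset.sum_image hinj]
  rw [h3]
  have h4 : ∑ x ∈ S.image (fun n : ℕ => (n.gcd R, n / n.gcd R)), sw_g x.1 * selwq_g q x.2 ≤
      ∑ x ∈ R.divisors ×ˢ Icc 1 D, sw_g x.1 * selwq_g q x.2 := by
    apply Finset.sum_le_sum_of_subset_of_nonneg
    · intro x hx
      obtain ⟨n, hn, rfl⟩ := Finset.mem_image.1 hx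
      obtain ⟨h, hh, hcop, hcq, hh1, hhD⟩ := hdec n hn
      have hg0 : 0 < n.gcd R := Nat.gcd_pos_of_pos_right _ hR0
      have hd : n / n.gcd R = h :=
        Nat.div_eq_of_eq_mul_right hg0 hh
      rw [Finset.mem_product, Finset.mem_Icc, Nat.mem_divisors]
      refine ⟨⟨Nat.gcd_dvd_right n R, hR0.ne'⟩, ?_⟩
      simp only
      rw [hd]
      exact ⟨hh1, hhD⟩
    · intro x _ _
      exact mul_nonneg (sw_g_nonneg _) (selwq_g_nonneg q _)
  refine h4.trans (le_of_eq ?_)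
  rw [Finset.sum_product, ← selwq_totient q hq]
  unfold selwq_G
  rw [Finset.sum_mul_sum]

theorem selwq_G_ge (q D : ℕ) (hq : 1 ≤ q) (hD : 1 ≤ D) :
    Real.log D ≤ (q : ℝ) / Nat.totient q * selwq_G q D :=
  (sw_G_ge D hD).trans (selwq_G_le q D hq)

/-! ### the quadratic form -/

/-- the weights -/
noncomputable def selwq_l (q D d : ℕ) : ℝ :=
  (d : ℝ) * (μ d : ℝ) * (selwq_G q D)⁻¹ * ∑ m ∈ (Icc 1 D).filter (fun m => d ∣ m), selwq_g q m

theorem selwq_Y (q D r : ℕ) (hr : r ∈ Icc 1 D) :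
    ∑ d ∈ Icc 1 D, (if r ∣ d then selwq_l q D d / d else 0) =
      (μ r : ℝ) * selwq_g q r * (selwq_G q D)⁻¹ := by
  have h1 : ∀ d ∈ Icc 1 D, (if r ∣ d then selwq_l q D d / d else 0) =
      ∑ m ∈ Icc 1 D, (selwq_G q D)⁻¹ *
        (selwq_g q m * (if r ∣ d ∧ d ∣ m then (μ d : ℝ) else 0)) := by
    intro d hd
    rw [Finset.mem_Icc] at hd
    have hd0 : (d : ℝ) ≠ 0 := by
      have : 0 < d := hd.1
      exact_mod_cast this.ne'
    by_cases hrd : r ∣ d
    · rw [if_pos hrd]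
      unfold selwq_l
      rw [Finset.sum_filter, mul_assoc, mul_assoc, mul_div_assoc,
        mul_comm ((μ d : ℝ)) _, mul_assoc, Finset.sum_mul, Finset.mul_sum, Finset.sum_div,
        Finset.mul_sum]
      refine Finset.sum_congr rfl fun m _ => ?_
      by_cases hdm : d ∣ m
      · rw [if_pos hdm, if_pos ⟨hrd, hdm⟩]
        field_simp
      · rw [if_neg hdm, if_neg (fun h => hdm h.2)]
        simp
    · rw [if_neg hrd]
      symm
      apply Finset.sum_eq_zero
      intro m _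
      rw [if_neg (fun h => hrd h.1)]
      simp
  rw [Finset.sum_congr rfl h1, Finset.sum_comm]
  have h2 : ∀ m ∈ Icc 1 D, ∑ d ∈ Icc 1 D,
      (selwq_G q D)⁻¹ * (selwq_g q m * (if r ∣ d ∧ d ∣ m then (μ d : ℝ) else 0)) =
      if m = r then (selwq_G q D)⁻¹ * (selwq_g q r * (μ r : ℝ)) else 0 := by
    intro m hm
    rw [← Finset.mul_sum, ← Finset.mul_sum]
    by_cases hs : Squarefree m
    · rw [sw_moebius_sum D r m hr hm hs]
      by_cases hmr : m = r
      · rw [if_pos hmr, if_pos hmr, hmr]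
      · rw [if_neg hmr, if_neg hmr]
        simp
    · have hg : selwq_g q m = 0 := selwq_g_zero hs
      rw [hg, zero_mul, mul_zero]
      by_cases hmr : m = r
      · rw [if_pos hmr, ← hmr, hg]; simp
      · rw [if_neg hmr]
  rw [Finset.sum_congr rfl h2, Finset.sum_ite_eq' (Icc 1 D) r, if_pos hr]
  ring

theorem selwq_form (q D : ℕ) (hD : 1 ≤ D) :
    ∑ d ∈ Icc 1 D, ∑ e ∈ Icc 1 D, selwq_l q D d * selwq_l q D e / (Nat.lcm d e : ℝ) =
      (selwq_G q D)⁻¹ := by
  have hG := selwq_G_pos q hD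
  have h1 : ∀ d ∈ Icc 1 D, ∀ e ∈ Icc 1 D, selwq_l q D d * selwq_l q D e / (Nat.lcm d e : ℝ) =
      ∑ r ∈ Icc 1 D, (Nat.totient r : ℝ) * ((if r ∣ d then selwq_l q D d / d else 0) *
        (if r ∣ e then selwq_l q D e / e else 0)) := by
    intro d hd e he
    rw [div_eq_mul_one_div, sw_lcm D d e hd he, Finset.mul_sum]
    refine Finset.sum_congr rfl fun r _ => ?_
    split_ifs <;> ring
  have h2 : ∑ d ∈ Icc 1 D, ∑ e ∈ Icc 1 D, selwq_l q D d * selwq_l q D e / (Nat.lcm d e : ℝ) =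
      ∑ r ∈ Icc 1 D, (Nat.totient r : ℝ) *
        (∑ d ∈ Icc 1 D, (if r ∣ d then selwq_l q D d / d else 0)) ^ 2 := by
    calc ∑ d ∈ Icc 1 D, ∑ e ∈ Icc 1 D, selwq_l q D d * selwq_l q D e / (Nat.lcm d e : ℝ)
        = ∑ d ∈ Icc 1 D, ∑ e ∈ Icc 1 D, ∑ r ∈ Icc 1 D, (Nat.totient r : ℝ) *
          ((if r ∣ d then selwq_l q D d / d else 0) * (if r ∣ e then selwq_l q D e / e else 0)) :=
          Finset.sum_congr rfl fun d hd => Finset.sum_congr rfl fun e he => h1 d hd e he
      _ = ∑ r ∈ Icc 1 D, ∑ d ∈ Icc 1 D, ∑ e ∈ Icc 1 D, (Nat.totient r : ℝ) *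
          ((if r ∣ d then selwq_l q D d / d else 0) *
            (if r ∣ e then selwq_l q D e / e else 0)) := by
          rw [Finset.sum_comm]
          rw [Finset.sum_congr rfl fun e _ => Finset.sum_comm]
          rw [Finset.sum_comm]
          exact Finset.sum_congr rfl fun r _ => Finset.sum_comm
      _ = _ := by
          refine Finset.sum_congr rfl fun r _ => ?_
          rw [sq, Finset.sum_mul_sum, Finset.mul_sum]
          refine Finset.sum_congr rfl fun d _ => ?_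
          rw [Finset.mul_sum]
  rw [h2]
  have h3 : ∀ r ∈ Icc 1 D, (Nat.totient r : ℝ) *
        (∑ d ∈ Icc 1 D, (if r ∣ d then selwq_l q D d / d else 0)) ^ 2 =
        selwq_g q r * ((selwq_G q D)⁻¹) ^ 2 := by
    intro r hr
    rw [selwq_Y q D r hr]
    by_cases hs : Squarefree r
    · by_cases hc : r.Coprime q
      · have e1 := selwq_phi_g hs hc
        have e2 : ((μ r : ℤ) : ℝ) ^ 2 = 1 := by
          have := ArithmeticFunction.moebius_sq_eq_one_of_squarefree hs
          exact_mod_cast this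
        calc (Nat.totient r : ℝ) * ((μ r : ℝ) * selwq_g q r * (selwq_G q D)⁻¹) ^ 2 =
            ((μ r : ℝ) ^ 2) * ((Nat.totient r : ℝ) * selwq_g q r) *
              (selwq_g q r * ((selwq_G q D)⁻¹) ^ 2) := by ring
          _ = _ := by rw [e1, e2, one_mul, one_mul]
      · have hg : selwq_g q r = 0 := by
          unfold selwq_g
          rw [if_neg hc]
        rw [hg]
        ring
    · have hg : selwq_g q r = 0 := selwq_g_zero hs
      rw [hg]
      ring
  rw [Finset.sum_congr rfl h3, ← Finset.sum_mul]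
  show selwq_G q D * ((selwq_G q D)⁻¹) ^ 2 = (selwq_G q D)⁻¹
  field_simp

theorem selwq_l_zero (q D d : ℕ) (h : ¬ d.Coprime q) : selwq_l q D d = 0 := by
  unfold selwq_l
  have : ∑ m ∈ (Icc 1 D).filter (fun m => d ∣ m), selwq_g q m = 0 := by
    apply Finset.sum_eq_zero
    intro m hm
    rw [Finset.mem_filter] at hm
    unfold selwq_g
    rw [if_neg (fun hc => h (Nat.Coprime.coprime_dvd_left hm.2 hc))]
  rw [this, mul_zero]

/-- task SELWQ -/
theorem sel_weights_q (q : ℕ) (hq : 1 ≤ q) (D : ℕ) (hD : 2 ≤ D) : ∃ l : ℕ → ℝ, l 1 = 1 ∧ (∀ d, |l d| ≤ 1) ∧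
    (∀ d, D < d → l d = 0) ∧ l 0 = 0 ∧ (∀ d, ¬ d.Coprime q → l d = 0) ∧
    0 ≤ ∑ d ∈ Icc 1 D, ∑ e ∈ Icc 1 D, l d * l e / (Nat.lcm d e : ℝ) ∧
    ∑ d ∈ Icc 1 D, ∑ e ∈ Icc 1 D, l d * l e / (Nat.lcm d e : ℝ) ≤
      ((q : ℝ) / Nat.totient q) / Real.log D := by
  have hD1 : 1 ≤ D := by omega
  have hG := selwq_G_pos q hD1
  refine ⟨selwq_l q D, ?_, ?_, ?_, ?_, ?_, ?_, ?_⟩
  · unfold selwq_l
    have : (Icc 1 D).filter (fun m => 1 ∣ m) = Icc 1 D :=
      Finset.filter_true_of_mem (fun m _ => one_dvd m)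
    rw [this]
    show ((1 : ℕ) : ℝ) * ((μ 1 : ℤ) : ℝ) * (selwq_G q D)⁻¹ * selwq_G q D = 1
    rw [ArithmeticFunction.moebius_apply_one]
    push_cast
    field_simp
  · intro d
    by_cases hs : Squarefree d
    · by_cases hdq : d.Coprime q
      · have h1 := selwq_key q D d hs hdq
        have hnn : 0 ≤ ∑ m ∈ (Icc 1 D).filter (fun m => d ∣ m), selwq_g q m :=
          Finset.sum_nonneg fun m _ => selwq_g_nonneg q m
        have h2 : |((μ d : ℤ) : ℝ)| = 1 := by
          have := ArithmeticFunction.moebius_sq_eq_one_of_squarefree hs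
          have h3 : ((μ d : ℤ) : ℝ) ^ 2 = 1 := by exact_mod_cast this
          rw [← sq_abs] at h3
          nlinarith [abs_nonneg ((μ d : ℤ) : ℝ)]
        unfold selwq_l
        rw [abs_mul, abs_mul, abs_mul, h2, abs_of_nonneg (Nat.cast_nonneg d), mul_one,
          abs_of_pos (inv_pos.2 hG), abs_of_nonneg hnn]
        calc (d : ℝ) * (selwq_G q D)⁻¹ * ∑ m ∈ (Icc 1 D).filter (fun m => d ∣ m), selwq_g q m =
            (selwq_G q D)⁻¹ *
              ((d : ℝ) * ∑ m ∈ (Icc 1 D).filter (fun m => d ∣ m), selwq_g q m) := by ring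
          _ ≤ (selwq_G q D)⁻¹ * selwq_G q D := mul_le_mul_of_nonneg_left h1 (inv_pos.2 hG).le
          _ = 1 := inv_mul_cancel₀ hG.ne'
      · rw [selwq_l_zero q D d hdq]
        simp
    · unfold selwq_l
      rw [ArithmeticFunction.moebius_eq_zero_of_not_squarefree hs]
      simp
  · intro d hd
    unfold selwq_l
    have : (Icc 1 D).filter (fun m => d ∣ m) = ∅ := by
      apply Finset.filter_false_of_mem
      intro m hm hdm
      rw [Finset.mem_Icc] at hm
      have := Nat.le_of_dvd (by omega) hdm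
      omega
    rw [this, Finset.sum_empty, mul_zero]
  · unfold selwq_l
    simp
  · exact fun d hd => selwq_l_zero q D d hd
  · rw [selwq_form q D hD1]
    exact (inv_pos.2 hG).le
  · rw [selwq_form q D hD1]
    have hlog : 0 < Real.log D := Real.log_pos (by exact_mod_cast (by omega : 1 < D))
    have h1 := selwq_G_ge q D hq hD1
    have h2 : (selwq_G q D)⁻¹ = 1 / selwq_G q D := (one_div _).symm
    rw [h2, div_le_div_iff₀ hG hlog, one_mul]
    exact h1

end Pool.Agent.H376R2.TT
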