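import Pool.Agent.H376R2.TT.Defs
import Pool.Agent.H376R2.TT.Progq
import Pool.Agent.H376R2.TT.Selwq
import Pool.Agent.H376R2.MR.Sel

/-!
Project TT (helper376), task SELQ: Selberg's upper bound sieve with phases for the primes
`≡ 1 mod q`. Adapted from MR/Sel.lean (helper971).
-/

set_option autoImplicit false

namespace Pool.Agent.H376R2.TT

open Finset Filter Topology Pool.Agent.H376R2.MR

theorem selq_main (g R D : ℕ) (P N : Finset ℕ) (hsub : P ⊆ N) (hP : ∀ p ∈ P, p.Prime) (k : ℤ) (φ : ℝ) (l : ℕ → ℝ) (hl1 : l 1 = 1)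
    (hl : ∀ d, |l d| ≤ 1) (hD1 : 1 ≤ D) (hcell : ∀ p ∈ P, D < p)
    (hcop : ∀ d, ¬ d.Coprime g → l d = 0)
    (E : ℝ) (hE : 0 ≤ E) (I : ℤ → ℂ) (B : ℤ → ℝ)
    (hSel0 : 0 ≤ ∑ d ∈ Icc 1 D, ∑ e ∈ Icc 1 D, l d * l e / (Nat.lcm d e : ℝ))
    (hI : ∀ r ∈ FK R, ‖I r‖ ≤ B r)
    (hA : ∀ r ∈ FK R, ∀ q : ℕ, 1 ≤ q → q.Coprime g → q ≤ D ^ 2 →
      ‖(∑ n ∈ N.filter (fun n => q ∣ n), er (r * k) (Real.log n) / (n : ℂ)) -
        (1 / (q : ℂ)) * I r‖ ≤ E / q) :
    ∑ p ∈ P, FR R (k * Real.log p + φ) / (p : ℝ) ≤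
      (∑ r ∈ FK R, B r) * (∑ d ∈ Icc 1 D, ∑ e ∈ Icc 1 D, l d * l e / (Nat.lcm d e : ℝ)) +
        2 * R * E * (1 + Real.log D) ^ 3 := by
  classical
  set c : ℤ → ℝ := fun r => 1 - |(r : ℝ)| / R with hc
  have hc0 : ∀ r ∈ FK R, 0 ≤ c r ∧ c r ≤ 1 := by
    intro r hr
    unfold FK at hr
    rw [Finset.mem_Ioo] at hr
    have hRpos : (0 : ℝ) < R := by
      have : (0 : ℤ) < R := by omega
      exact_mod_cast this
    have h1 : |(r : ℝ)| ≤ R := by
      rw [abs_le]
      constructor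
      · have := hr.1.le
        exact_mod_cast this
      · have := hr.2.le
        exact_mod_cast this
    refine ⟨?_, ?_⟩
    · simp only [hc, sub_nonneg]
      rw [div_le_one hRpos]
      exact h1
    · simp only [hc, sub_le_self_iff]
      positivity
  set ρ : ℝ := ∑ r ∈ FK R, c r * (er r φ * I r).re with hρ
  set X : ℕ → ℝ := fun q => ∑ n ∈ N.filter (fun n => q ∣ n),
    FR R (k * Real.log n + φ) / (n : ℝ) with hX
  have hFR0 : ∀ θ : ℝ, 0 ≤ FR R θ := fun θ => Fj_nonneg R θ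
  have hXq : ∀ q, X q = ∑ r ∈ FK R, c r * (er r φ *
      ∑ n ∈ N.filter (fun n => q ∣ n), er (r * k) (Real.log n) / (n : ℂ)).re := by
    intro q
    simp only [hX, FR]
    simp_rw [Finset.sum_div]
    rw [Finset.sum_comm]
    refine Finset.sum_congr rfl (fun r _ => ?_)
    rw [Finset.mul_sum, Complex.re_sum, Finset.mul_sum]
    refine Finset.sum_congr rfl (fun n _ => ?_)
    have h1 : er r φ * (er (r * k) (Real.log n) / (n : ℂ)) =
        Complex.exp (((r * (k * Real.log n + φ) : ℝ) : ℂ) * Complex.I) / (n : ℂ) := by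
      unfold er
      rw [← mul_div_assoc, ← Complex.exp_add]
      congr 2
      push_cast
      ring
    rw [h1, Complex.div_natCast_re, Complex.exp_ofReal_mul_I_re]
    simp only [hc]
    ring
  have herr : ∀ q : ℕ, 1 ≤ q → q.Coprime g → q ≤ D ^ 2 → |X q - ρ / q| ≤ 2 * R * E * (1 / q) := by
    intro q hq1 hqc hq2
    have h1 : X q - ρ / q = ∑ r ∈ FK R, c r * (er r φ *
        ((∑ n ∈ N.filter (fun n => q ∣ n), er (r * k) (Real.log n) / (n : ℂ)) -
          (1 / (q : ℂ)) * I r)).re := by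
      rw [hXq, hρ, Finset.sum_div, ← Finset.sum_sub_distrib]
      refine Finset.sum_congr rfl (fun r _ => ?_)
      rw [mul_sub, Complex.sub_re, mul_sub]
      congr 1
      have h2 : er r φ * ((1 / (q : ℂ)) * I r) = (er r φ * I r) / (q : ℂ) := by ring
      rw [h2, Complex.div_natCast_re]
      ring
    rw [h1]
    refine le_trans (Finset.abs_sum_le_sum_abs _ _) ?_
    have h3 : ∀ r ∈ FK R, |c r * (er r φ *
        ((∑ n ∈ N.filter (fun n => q ∣ n), er (r * k) (Real.log n) / (n : ℂ)) -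
          (1 / (q : ℂ)) * I r)).re| ≤ E / q := by
      intro r hr
      rw [abs_mul]
      have hc1 : |c r| ≤ 1 := by
        rw [abs_of_nonneg (hc0 r hr).1]
        exact (hc0 r hr).2
      have h4 := Complex.abs_re_le_norm (er r φ *
        ((∑ n ∈ N.filter (fun n => q ∣ n), er (r * k) (Real.log n) / (n : ℂ)) -
          (1 / (q : ℂ)) * I r))
      rw [norm_mul, sel_aux_er_norm, one_mul] at h4
      have h5 := le_trans h4 (hA r hr q hq1 hqc hq2)
      calc |c r| * _ ≤ 1 * (E / q) := mul_le_mul hc1 h5 (abs_nonneg _) zero_le_one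
        _ = E / q := one_mul _
    refine le_trans (Finset.sum_le_sum h3) ?_
    rw [Finset.sum_const, nsmul_eq_mul]
    have h6 := sel_aux_card R
    have h7 : 0 ≤ E / q := by positivity
    calc ((FK R).card : ℝ) * (E / q) ≤ (2 * R) * (E / q) := mul_le_mul_of_nonneg_right h6 h7
      _ = 2 * R * E * (1 / q) := by ring
  -- first step: the sieve weights dominate the primes
  have hstep1 : ∑ p ∈ P, FR R (k * Real.log p + φ) / (p : ℝ) ≤
      ∑ n ∈ N, (∑ d ∈ Icc 1 D, if d ∣ n then l d else 0) ^ 2 *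
        (FR R (k * Real.log n + φ) / (n : ℝ)) := by
    have h1 : ∑ p ∈ P, FR R (k * Real.log p + φ) / (p : ℝ) =
        ∑ n ∈ P, (∑ d ∈ Icc 1 D, if d ∣ n then l d else 0) ^ 2 *
        (FR R (k * Real.log n + φ) / (n : ℝ)) := by
      refine Finset.sum_congr rfl (fun p hp => ?_)
      have hpp : p.Prime := hP p hp
      have h2 : (∑ d ∈ Icc 1 D, if d ∣ p then l d else 0) = 1 := by
        rw [Finset.sum_eq_single 1]
        · simp [hl1]
        · intro d hd hd1
          rw [Finset.mem_Icc] at hd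
          have hnd : ¬ d ∣ p := by
            intro hdp
            rcases (Nat.dvd_prime hpp).1 hdp with h | h
            · exact hd1 h
            · have := hcell p hp
              omega
          rw [if_neg hnd]
        · intro h
          exact absurd (Finset.mem_Icc.2 ⟨le_refl 1, hD1⟩) h
      rw [h2]
      ring
    rw [h1]
    refine Finset.sum_le_sum_of_subset_of_nonneg hsub (fun n _ _ => ?_)
    exact mul_nonneg (sq_nonneg _) (div_nonneg (hFR0 _) (Nat.cast_nonneg _))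
  have hstep2 : ∑ n ∈ N, (∑ d ∈ Icc 1 D, if d ∣ n then l d else 0) ^ 2 *
        (FR R (k * Real.log n + φ) / (n : ℝ)) =
      ∑ d ∈ Icc 1 D, ∑ e ∈ Icc 1 D, l d * l e * X (Nat.lcm d e) := by
    have h1 : ∀ n ∈ N, (∑ d ∈ Icc 1 D, if d ∣ n then l d else 0) ^ 2 *
        (FR R (k * Real.log n + φ) / (n : ℝ)) = ∑ d ∈ Icc 1 D, ∑ e ∈ Icc 1 D,
          l d * l e * (if Nat.lcm d e ∣ n then FR R (k * Real.log n + φ) / (n : ℝ) else 0) := by
      intro n _
      rw [sq, Finset.sum_mul_sum, Finset.sum_mul]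
      refine Finset.sum_congr rfl (fun d _ => ?_)
      rw [Finset.sum_mul]
      refine Finset.sum_congr rfl (fun e _ => ?_)
      by_cases h1 : d ∣ n
      · by_cases h2 : e ∣ n
        · rw [if_pos h1, if_pos h2, if_pos (Nat.lcm_dvd h1 h2)]
        · have h3 : ¬ Nat.lcm d e ∣ n := fun h => h2 (dvd_trans (Nat.dvd_lcm_right d e) h)
          rw [if_neg h2, if_neg h3]
          ring
      · have h3 : ¬ Nat.lcm d e ∣ n := fun h => h1 (dvd_trans (Nat.dvd_lcm_left d e) h)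
        rw [if_neg h1, if_neg h3]
        ring
    rw [Finset.sum_congr rfl h1, Finset.sum_comm]
    refine Finset.sum_congr rfl (fun d _ => ?_)
    rw [Finset.sum_comm]
    refine Finset.sum_congr rfl (fun e _ => ?_)
    rw [← Finset.mul_sum, ← Finset.sum_filter]
  have hstep3 : ∑ d ∈ Icc 1 D, ∑ e ∈ Icc 1 D, l d * l e * X (Nat.lcm d e) ≤
      ρ * (∑ d ∈ Icc 1 D, ∑ e ∈ Icc 1 D, l d * l e / (Nat.lcm d e : ℝ)) +
      2 * R * E * ∑ d ∈ Icc 1 D, ∑ e ∈ Icc 1 D, 1 / (Nat.lcm d e : ℝ) := by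
    rw [Finset.mul_sum, Finset.mul_sum, ← Finset.sum_add_distrib]
    refine Finset.sum_le_sum (fun d hd => ?_)
    rw [Finset.mul_sum, Finset.mul_sum, ← Finset.sum_add_distrib]
    refine Finset.sum_le_sum (fun e he => ?_)
    rw [Finset.mem_Icc] at hd he
    have hq1 : 1 ≤ Nat.lcm d e := Nat.lcm_pos (by omega) (by omega)
    have hq2 : Nat.lcm d e ≤ D ^ 2 := by
      refine le_trans (Nat.lcm_le_mul (by omega) (by omega)) ?_
      rw [sq]
      exact Nat.mul_le_mul hd.2 he.2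
    by_cases hdg : d.Coprime g
    swap
    · rw [hcop d hdg]
      simp only [zero_mul, zero_div, mul_zero, zero_add]
      positivity
    by_cases heg : e.Coprime g
    swap
    · rw [hcop e heg]
      simp only [zero_mul, zero_div, mul_zero, zero_add]
      positivity
    have hcg : (Nat.lcm d e).Coprime g := (hdg.mul_left heg).coprime_dvd_left (Nat.lcm_dvd_mul d e)
    have h1 := herr (Nat.lcm d e) hq1 hcg hq2
    have h2 : |l d * l e| ≤ 1 := by
      rw [abs_mul]
      exact mul_le_one₀ (hl d) (abs_nonneg _) (hl e)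
    have h3 : l d * l e * (X (Nat.lcm d e) - ρ / (Nat.lcm d e : ℝ)) ≤
        2 * R * E * (1 / (Nat.lcm d e : ℝ)) := by
      refine le_trans (le_abs_self _) ?_
      rw [abs_mul]
      calc |l d * l e| * |X (Nat.lcm d e) - ρ / (Nat.lcm d e : ℝ)|
          ≤ 1 * |X (Nat.lcm d e) - ρ / (Nat.lcm d e : ℝ)| :=
            mul_le_mul_of_nonneg_right h2 (abs_nonneg _)
        _ ≤ _ := by rw [one_mul]; exact h1
    have h4 : l d * l e * X (Nat.lcm d e) =
        ρ * (l d * l e / (Nat.lcm d e : ℝ)) + l d * l e * (X (Nat.lcm d e) - ρ / (Nat.lcm d e : ℝ)) := by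
      ring
    rw [h4]
    linarith
  have hρB : ρ ≤ ∑ r ∈ FK R, B r := by
    refine Finset.sum_le_sum (fun r hr => ?_)
    have h1 := Complex.re_le_norm (er r φ * I r)
    rw [norm_mul, sel_aux_er_norm, one_mul] at h1
    have h2 := hI r hr
    have h3 : (er r φ * I r).re ≤ B r := le_trans h1 h2
    have hB0 : 0 ≤ B r := le_trans (norm_nonneg _) h2
    calc c r * (er r φ * I r).re ≤ c r * B r := mul_le_mul_of_nonneg_left h3 (hc0 r hr).1
      _ ≤ 1 * B r := mul_le_mul_of_nonneg_right (hc0 r hr).2 hB0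
      _ = B r := one_mul _
  have hfin1 := mul_le_mul_of_nonneg_right hρB hSel0
  have hfin2 : 2 * R * E * ∑ d ∈ Icc 1 D, ∑ e ∈ Icc 1 D, 1 / (Nat.lcm d e : ℝ) ≤
      2 * R * E * (1 + Real.log D) ^ 3 :=
    mul_le_mul_of_nonneg_left (sel_aux_lcm D) (by positivity)
  calc _ ≤ _ := hstep1
    _ = _ := hstep2
    _ ≤ _ := hstep3
    _ ≤ _ := add_le_add hfin1 hfin2

theorem selq_lim (H R T₀ q : ℕ) (hH : 1 ≤ H) (hq : 1 ≤ q) (C η' : ℝ) (hη' : 0 < η') :
    Tendsto (fun v : ℕ => (v : ℝ) * ((1 / ((q : ℝ) * H) + 4 * R / T₀) * q /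
      ((v : ℝ) / (8 * H) - Real.log 2) +
      q * (2 * R * (C * Real.exp (-(η' * v))) * (1 + v) ^ 3))) atTop
      (nhds ((1 / ((q : ℝ) * H) + 4 * R / T₀) * (q * (8 * H)) + 0)) := by
  have hHpos : (0 : ℝ) < H := by exact_mod_cast hH
  have hqpos : (0 : ℝ) < q := by exact_mod_cast hq
  have h := sel_aux_lim H (R * q) T₀ hH C η' hη'
  have e1 : (1 / ((q : ℝ) * H) + 4 * R / T₀) * q = 1 / (H : ℝ) + 4 * ((R * q : ℕ) : ℝ) / T₀ := by
    push_cast
    have h1 : 1 / ((q : ℝ) * H) * q = 1 / (H : ℝ) := by field_simp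
    rw [add_mul, h1]
    ring
  have e2 : (1 / ((q : ℝ) * H) + 4 * R / T₀) * (q * (8 * H)) + 0 =
      (1 / (H : ℝ) + 4 * ((R * q : ℕ) : ℝ) / T₀) * (8 * H) + 0 := by
    rw [← e1]; ring
  rw [e2]
  refine h.congr fun v => ?_
  rw [e1]
  push_cast
  ring

theorem selq_mem (Q : ℕ → Prop) (H v p : ℕ) : p ∈ cellQ Q H v ↔ p ∈ cell H v ∧ Q p := by
  classical
  unfold cellQ
  rw [Finset.mem_filter]

theorem selberg_cell_q (q M H R : ℕ) (hq : 1 ≤ q) (hH : 1 ≤ H) (hR : 1 ≤ R) {η : ℝ} (hη : 0 < η) :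
    ∃ T₀ v₀ : ℕ, ∀ v : ℕ, v₀ ≤ v → ∀ k : ℤ, (T₀ : ℝ) ≤ |(k : ℝ)| →
    |(k : ℝ)| ≤ Real.exp (M * (v : ℝ) / H) →
    ∀ φ : ℝ, ∑ p ∈ cellQ (Q1 q) H v, FR R (k * Real.log p + φ) / (p : ℝ) ≤
      (8 + η) / (Nat.totient q * v) := by
  have hHpos : (0 : ℝ) < H := by exact_mod_cast hH
  have hRpos : (0 : ℝ) < R := by exact_mod_cast hR
  have hqpos : (0 : ℝ) < q := by exact_mod_cast hq
  have htpos : (0 : ℝ) < Nat.totient q := by exact_mod_cast Nat.totient_pos.2 hq
  obtain ⟨η', C, hη', hC, hprog⟩ := prog_q (M + 1) H q hH hq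
  obtain ⟨T₀, hT₀⟩ := exists_nat_gt (32 * R * q * H / η)
  have hT0pos : (0 : ℝ) < T₀ := lt_trans (by positivity) hT₀
  have hlim := selq_lim H R T₀ q hH hq C η' hη'
  have hval : (1 / ((q : ℝ) * H) + 4 * R / T₀) * (q * (8 * H)) + 0 < 8 + η := by
    have h1 : (1 / ((q : ℝ) * H) + 4 * R / T₀) * (q * (8 * H)) + 0 = 8 + 32 * R * q * H / T₀ := by
      field_simp
      ring
    rw [h1]
    have h2 : 32 * R * q * H / T₀ < η := by
      rw [div_lt_iff₀ hT0pos]
      rw [div_lt_iff₀ hη] at hT₀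
      linarith
    linarith
  have hev1 := hlim.eventually (gt_mem_nhds hval)
  have hev2 : ∀ᶠ v : ℕ in atTop, (R : ℝ) ≤ Real.exp ((v : ℝ) / H) := by
    have h1 : Tendsto (fun v : ℕ => Real.exp ((v : ℝ) / H)) atTop atTop :=
      Real.tendsto_exp_atTop.comp (tendsto_natCast_atTop_atTop.atTop_div_const hHpos)
    exact h1.eventually_ge_atTop _
  have hev3 : ∀ᶠ v : ℕ in atTop, (2 : ℝ) ≤ Real.exp ((v : ℝ) / (8 * H)) := by
    have h1 : Tendsto (fun v : ℕ => Real.exp ((v : ℝ) / (8 * H))) atTop atTop :=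
      Real.tendsto_exp_atTop.comp (tendsto_natCast_atTop_atTop.atTop_div_const (by positivity))
    exact h1.eventually_ge_atTop _
  have hev4 : ∀ᶠ v : ℕ in atTop, (1 : ℝ) ≤ (v : ℝ) / (8 * H) - Real.log 2 := by
    have h1 : Tendsto (fun v : ℕ => (v : ℝ) / (8 * H) - Real.log 2) atTop atTop :=
      tendsto_atTop_add_const_right _ _
        (tendsto_natCast_atTop_atTop.atTop_div_const (by positivity))
    exact h1.eventually_ge_atTop _
  obtain ⟨v₀, hv₀⟩ := eventually_atTop.1 (hev1.and (hev2.and (hev3.and (hev4.and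
    (eventually_ge_atTop 1)))))
  refine ⟨T₀, v₀, fun v hv k hk1 hk2 φ => ?_⟩
  obtain ⟨h1, h2, h3, h4, h5⟩ := hv₀ v hv
  have hv1 : (1 : ℝ) ≤ v := by exact_mod_cast h5
  have hvpos : (0 : ℝ) < v := by linarith
  set D : ℕ := ⌊Real.exp ((v : ℝ) / (8 * H))⌋₊ with hD
  have hD2 : 2 ≤ D := by
    rw [hD]
    exact Nat.le_floor (by exact_mod_cast h3)
  have hDle : (D : ℝ) ≤ Real.exp ((v : ℝ) / (8 * H)) := Nat.floor_le (Real.exp_pos _).le
  have hDge : Real.exp ((v : ℝ) / (8 * H)) / 2 ≤ D := by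
    have := Nat.lt_floor_add_one (Real.exp ((v : ℝ) / (8 * H)))
    rw [← hD] at this
    linarith
  have hlogD1 : (v : ℝ) / (8 * H) - Real.log 2 ≤ Real.log D := by
    have h6 := Real.log_le_log (by positivity) hDge
    rwa [Real.log_div (Real.exp_pos _).ne' (by norm_num), Real.log_exp] at h6
  have hDpos : (0 : ℝ) < D := by
    have : 0 < D := by omega
    exact_mod_cast this
  have hlogD2 : Real.log D ≤ v := by
    have h6 := Real.log_le_log hDpos hDle
    rw [Real.log_exp] at h6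
    refine le_trans h6 ?_
    refine div_le_self hvpos.le ?_
    have : (1 : ℝ) ≤ H := by exact_mod_cast hH
    linarith
  have hlogDpos : 0 ≤ Real.log D := by linarith
  obtain ⟨l, hl1, hl, hlD, hl0, hcop, hSel0, hSel1⟩ := sel_weights_q q hq D hD2
  have hcell : ∀ p ∈ cellQ (Q1 q) H v, D < p := by
    intro p hp
    replace hp := ((selq_mem _ _ _ _).1 hp).1
    unfold cell at hp
    rw [Finset.mem_filter] at hp
    have hp0 : (0 : ℝ) < p := by exact_mod_cast hp.2.1.pos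
    have h6 := (Real.le_log_iff_exp_le hp0).1 hp.2.2.1
    have h7 : Real.exp ((v : ℝ) / (8 * H)) < Real.exp ((v : ℝ) / H) := by
      rw [Real.exp_lt_exp]
      refine div_lt_div_of_pos_left hvpos hHpos ?_
      linarith
    have h8 : (D : ℝ) < p := by linarith
    exact_mod_cast h8
  set I : ℤ → ℂ := fun r => (1 / (q : ℂ)) * ∫ s in ((v : ℝ) / H)..(((v : ℝ) + 1) / H), er (r * k) s with hIdef
  set B : ℤ → ℝ := fun r => (if r = 0 then 1 / ((q : ℝ) * H) else 0) + 2 / T₀ with hBdef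
  have hqn : ‖(1 / (q : ℂ))‖ = 1 / (q : ℝ) := by
    rw [norm_div, norm_one, Complex.norm_natCast]
  have hq1 : 1 / (q : ℝ) ≤ 1 := by
    rw [div_le_one hqpos]; exact_mod_cast hq
  have hI : ∀ r ∈ FK R, ‖I r‖ ≤ B r := by
    intro r _
    simp only [hIdef, hBdef]
    by_cases hr : r = 0
    · rw [if_pos hr]
      have h6 : ‖∫ s in ((v : ℝ) / H)..(((v : ℝ) + 1) / H), er (r * k) s‖ ≤
          1 * |(((v : ℝ) + 1) / H) - ((v : ℝ) / H)| := by
        refine intervalIntegral.norm_integral_le_of_norm_le_const (fun s _ => ?_)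
        rw [sel_aux_er_norm]
      have h7 : (((v : ℝ) + 1) / H) - ((v : ℝ) / H) = 1 / H := by ring
      rw [h7, abs_of_pos (by positivity), one_mul] at h6
      have h8 : 0 ≤ 2 / (T₀ : ℝ) := by positivity
      rw [norm_mul, hqn]
      have h9 := mul_le_mul_of_nonneg_left h6 (show 0 ≤ 1 / (q : ℝ) by positivity)
      have h10 : 1 / (q : ℝ) * (1 / H) = 1 / ((q : ℝ) * H) := by
        rw [one_div_mul_one_div]
      linarith
    · rw [if_neg hr, zero_add]
      have hk0 : (0 : ℝ) < |(k : ℝ)| := lt_of_lt_of_le hT0pos hk1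
      have hr1 : (1 : ℝ) ≤ |(r : ℝ)| := by
        have := Int.one_le_abs hr
        exact_mod_cast this
      have h6 : (T₀ : ℝ) ≤ |(r : ℝ) * k| := by
        rw [abs_mul]
        nlinarith
      have h7 : ((r : ℝ) * k) ≠ 0 := by
        intro h
        rw [h, abs_zero] at h6
        linarith
      rw [norm_mul, hqn]
      refine le_trans (mul_le_mul hq1 (sel_aux_int _ _ _ h7) (norm_nonneg _) zero_le_one) ?_
      rw [one_mul]
      exact div_le_div_of_nonneg_left (by norm_num) hT0pos h6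
  have hA : ∀ r ∈ FK R, ∀ d : ℕ, 1 ≤ d → d.Coprime q → d ≤ D ^ 2 →
      ‖(∑ n ∈ ((nint H v).filter (fun n => n % q = 1 % q)).filter (fun n => d ∣ n),
          er (r * k) (Real.log n) / (n : ℂ)) -
        (1 / (d : ℂ)) * I r‖ ≤ (C * Real.exp (-(η' * v))) / d := by
    intro r hr d hd1 hdc hd2
    have e1 : ((nint H v).filter (fun n => n % q = 1 % q)).filter (fun n => d ∣ n) =
        (nint H v).filter (fun n => d ∣ n ∧ n % q = 1 % q) := by
      rw [Finset.filter_filter]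
      exact Finset.filter_congr fun n _ => and_comm
    have e2 : (1 / (d : ℂ)) * I r = (1 / ((d : ℂ) * q)) *
        ∫ s in ((v : ℝ) / H)..(((v : ℝ) + 1) / H), er (r * k) s := by
      simp only [hIdef]
      rw [← mul_assoc, one_div_mul_one_div]
    rw [e1, e2]
    refine hprog v d 1 _ h5 hd1 hdc ?_ ?_
    · have h6 : (d : ℝ) ≤ (D : ℝ) ^ 2 := by exact_mod_cast hd2
      refine le_trans h6 ?_
      refine le_trans (pow_le_pow_left₀ hDpos.le hDle 2) ?_
      rw [← Real.exp_nat_mul]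
      rw [Real.exp_le_exp]
      push_cast
      apply le_of_eq
      field_simp
      ring
    · rw [abs_mul]
      have hr1 : |(r : ℝ)| ≤ R := by
        unfold FK at hr
        rw [Finset.mem_Ioo] at hr
        rw [abs_le]
        constructor
        · have := hr.1.le
          exact_mod_cast this
        · have := hr.2.le
          exact_mod_cast this
      calc |(r : ℝ)| * |(k : ℝ)| ≤ Real.exp ((v : ℝ) / H) * Real.exp (M * (v : ℝ) / H) :=
            mul_le_mul (le_trans hr1 h2) hk2 (abs_nonneg _) (Real.exp_pos _).le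
        _ = Real.exp (((M + 1 : ℕ) : ℝ) * (v : ℝ) / H) := by
            rw [← Real.exp_add]
            congr 1
            push_cast
            ring
  have hsub : cellQ (Q1 q) H v ⊆ (nint H v).filter (fun n => n % q = 1 % q) := by
    intro p hp
    obtain ⟨hp1, hp2⟩ := (selq_mem _ _ _ _).1 hp
    unfold cell at hp1
    unfold nint
    rw [Finset.mem_filter] at hp1
    rw [Finset.mem_filter, Finset.mem_filter]
    exact ⟨⟨hp1.1, hp1.2.2⟩, hp2⟩
  have hP : ∀ p ∈ cellQ (Q1 q) H v, p.Prime := by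
    intro p hp
    replace hp := ((selq_mem _ _ _ _).1 hp).1
    unfold cell at hp
    exact (Finset.mem_filter.1 hp).2.1
  have hmain := selq_main q R D (cellQ (Q1 q) H v) ((nint H v).filter (fun n => n % q = 1 % q))
    hsub hP k φ l hl1 hl (by omega) hcell hcop (C * Real.exp (-(η' * v)))
    (by positivity) I B hSel0 hI hA
  refine le_trans hmain ?_
  have hBsum : ∑ r ∈ FK R, B r ≤ 1 / ((q : ℝ) * H) + 4 * R / T₀ := by
    simp only [hBdef]
    rw [Finset.sum_add_distrib]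
    have h6 : ∑ r ∈ FK R, (if r = 0 then 1 / ((q : ℝ) * H) else 0) ≤ 1 / ((q : ℝ) * H) := by
      rw [Finset.sum_ite_eq' (FK R) (0 : ℤ) (fun _ => 1 / ((q : ℝ) * H))]
      split_ifs
      · exact le_refl _
      · positivity
    have h7 : ∑ r ∈ FK R, 2 / (T₀ : ℝ) ≤ 4 * R / T₀ := by
      rw [Finset.sum_const, nsmul_eq_mul]
      have h8 := sel_aux_card R
      calc ((FK R).card : ℝ) * (2 / T₀) ≤ (2 * R) * (2 / T₀) :=
            mul_le_mul_of_nonneg_right h8 (by positivity)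
        _ = 4 * R / T₀ := by ring
    linarith
  have hSel2 : (∑ d ∈ Icc 1 D, ∑ e ∈ Icc 1 D, l d * l e / (Nat.lcm d e : ℝ)) ≤
      ((q : ℝ) / Nat.totient q) / ((v : ℝ) / (8 * H) - Real.log 2) := by
    refine le_trans hSel1 ?_
    exact div_le_div_of_nonneg_left (by positivity) (by linarith) hlogD1
  have hp1 : (∑ r ∈ FK R, B r) * (∑ d ∈ Icc 1 D, ∑ e ∈ Icc 1 D, l d * l e / (Nat.lcm d e : ℝ)) ≤
      (1 / ((q : ℝ) * H) + 4 * R / T₀) * (((q : ℝ) / Nat.totient q) /
        ((v : ℝ) / (8 * H) - Real.log 2)) := by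
    calc _ ≤ (1 / ((q : ℝ) * H) + 4 * R / T₀) *
          (∑ d ∈ Icc 1 D, ∑ e ∈ Icc 1 D, l d * l e / (Nat.lcm d e : ℝ)) :=
          mul_le_mul_of_nonneg_right hBsum hSel0
      _ ≤ _ :=
          mul_le_mul_of_nonneg_left hSel2 (by positivity)
  have hp2 : 2 * R * (C * Real.exp (-(η' * v))) * (1 + Real.log D) ^ 3 ≤
      2 * R * (C * Real.exp (-(η' * v))) * (1 + v) ^ 3 := by
    refine mul_le_mul_of_nonneg_left ?_ (by positivity)
    exact pow_le_pow_left₀ (by linarith) (by linarith) 3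
  have htq : (Nat.totient q : ℝ) ≤ q := by exact_mod_cast Nat.totient_le q
  have hE0 : 0 ≤ 2 * R * (C * Real.exp (-(η' * v))) * (1 + (v : ℝ)) ^ 3 := by positivity
  rw [le_div_iff₀ (by positivity)]
  calc _ ≤ ((1 / ((q : ℝ) * H) + 4 * R / T₀) * (((q : ℝ) / Nat.totient q) /
        ((v : ℝ) / (8 * H) - Real.log 2)) +
        2 * R * (C * Real.exp (-(η' * v))) * (1 + v) ^ 3) * (Nat.totient q * v) :=
        mul_le_mul_of_nonneg_right (add_le_add hp1 hp2) (by positivity)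
    _ = (v : ℝ) * ((1 / ((q : ℝ) * H) + 4 * R / T₀) * q / ((v : ℝ) / (8 * H) - Real.log 2)) +
        (Nat.totient q : ℝ) * (v * (2 * R * (C * Real.exp (-(η' * v))) * (1 + v) ^ 3)) := by
        have h0 : (Nat.totient q : ℝ) ≠ 0 := htpos.ne'
        have h4' : (v : ℝ) / (8 * H) - Real.log 2 ≠ 0 := by linarith
        generalize (v : ℝ) / (8 * H) - Real.log 2 = Z at *
        field_simp
    _ ≤ (v : ℝ) * ((1 / ((q : ℝ) * H) + 4 * R / T₀) * q / ((v : ℝ) / (8 * H) - Real.log 2)) +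
        (q : ℝ) * (v * (2 * R * (C * Real.exp (-(η' * v))) * (1 + v) ^ 3)) := by
        have := mul_le_mul_of_nonneg_right htq (mul_nonneg hvpos.le hE0)
        linarith
    _ ≤ 8 + η := by
        refine le_trans (le_of_eq ?_) h1.le
        ring

end Pool.Agent.H376R2.TT
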