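import Pool.Agent.H376R2.TT.CellqAux
import Pool.Agent.H376R2.TT.Selq
import Pool.Agent.H376R2.TT.Pntq

/-!
Project TT, task CELLQ: the cell bound for the primes `p ≡ 1 (mod q)`.
-/

set_option autoImplicit false

namespace Pool.Agent.H376R2.TT

open Finset Filter Pool.Agent.H376R2.MR

theorem cell_q (q : ℕ) (hq : 1 ≤ q) : CB (Q1 q) :=
  cell_q_of selberg_cell_q cell_pnt_q q hq

end Pool.Agent.H376R2.TT
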