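import Pool.Agent.H376R2.TT.Defs
import Pool.Agent.H376R2.MR.CellAux

/-!
Project TT (helper376), task CELLQ (helper965): `|P_v(k)| ≤ (1 - 1/1000) m_v` for the primes
`≡ 1 mod q`, from the statements of `SELQ` and `PNTQ`. Adapted from `MR/CellAux.lean` (helper465).
-/

set_option autoImplicit false

namespace Pool.Agent.H376R2.TT

open Finset Filter Pool.Agent.H376R2.MR

theorem cellq_bound_of (q : ℕ) (hq : 1 ≤ q) (M H : ℕ)
    (hsel0 : ∃ T₀ v₀ : ℕ, ∀ v : ℕ, v₀ ≤ v → ∀ k : ℤ, (T₀ : ℝ) ≤ |(k : ℝ)| →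
      |(k : ℝ)| ≤ Real.exp (M * (v : ℝ) / H) →
      ∀ φ : ℝ, ∑ p ∈ cellQ (Q1 q) H v, FR 20 (k * Real.log p + φ) / (p : ℝ) ≤
        (8 + 1 / 10) / (Nat.totient q * v))
    (hp : Tendsto (fun v : ℕ => (v : ℝ) * mmQ (Q1 q) H v) atTop
      (nhds (1 / (Nat.totient q : ℝ)))) : ∃ T₀ v₀ : ℕ,
    ∀ v : ℕ, v₀ ≤ v → ∀ k : ℤ, (T₀ : ℝ) ≤ |(k : ℝ)| → |(k : ℝ)| ≤ Real.exp (M * (v : ℝ) / H) →
    ‖PPQ (Q1 q) H v k‖ ≤ (1 - 1 / 1000) * mmQ (Q1 q) H v := by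
  obtain ⟨T₀, v₀, hsel⟩ := hsel0
  have hφq : (0 : ℝ) < (Nat.totient q : ℝ) := by exact_mod_cast Nat.totient_pos.2 hq
  have hp2 : ∀ᶠ v : ℕ in atTop, (9 / 10 : ℝ) * (1 / (Nat.totient q : ℝ)) <
      (v : ℝ) * mmQ (Q1 q) H v :=
    hp.eventually (lt_mem_nhds (by
      have : (0 : ℝ) < 1 / (Nat.totient q : ℝ) := by positivity
      linarith))
  obtain ⟨v₁, hv₁⟩ := eventually_atTop.1 hp2
  refine ⟨T₀, max (max v₀ v₁) 1, ?_⟩
  intro v hv k hk1 hk2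
  have hv0 : v₀ ≤ v := le_trans (le_trans (le_max_left _ _) (le_max_left _ _)) hv
  have hv1 : v₁ ≤ v := le_trans (le_trans (le_max_right _ _) (le_max_left _ _)) hv
  have hv2 : 1 ≤ v := le_trans (le_max_right _ _) hv
  have hvpos : (0 : ℝ) < v := by exact_mod_cast hv2
  by_contra hcon
  push Not at hcon
  -- the phase
  set P := PPQ (Q1 q) H v k with hP
  obtain ⟨φ, hφ⟩ : ∃ φ : ℝ, ‖P‖ = ∑ p ∈ cellQ (Q1 q) H v, Real.cos (k * Real.log p + φ) / (p : ℝ) := by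
    refine ⟨Complex.arg P, ?_⟩
    have h1 : (‖P‖ : ℂ) = P * Complex.exp (-(Complex.arg P : ℝ) * Complex.I) := by
      have h0 := Complex.norm_mul_exp_arg_mul_I P
      calc (‖P‖ : ℂ) = (‖P‖ : ℂ) * Complex.exp ((Complex.arg P : ℝ) * Complex.I) *
            Complex.exp (-(Complex.arg P : ℝ) * Complex.I) := by
            rw [mul_assoc, ← Complex.exp_add]; simp
        _ = P * Complex.exp (-(Complex.arg P : ℝ) * Complex.I) := by rw [h0]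
    have h2 : ‖P‖ = (P * Complex.exp (-(Complex.arg P : ℝ) * Complex.I)).re := by
      rw [← h1, Complex.ofReal_re]
    rw [h2, hP]
    unfold PPQ
    rw [Finset.sum_mul, Complex.re_sum]
    refine Finset.sum_congr rfl fun p _ => ?_
    unfold ch
    rw [div_mul_eq_mul_div, ← Complex.exp_add]
    have h3 : (-((k * Real.log p : ℝ) : ℂ)) * Complex.I +
        -((Complex.arg (∑ p ∈ cellQ (Q1 q) H v, Complex.exp (-((k * Real.log p : ℝ) : ℂ) * Complex.I) /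
          (p : ℂ)) : ℝ) : ℂ) * Complex.I =
        ((-(k * Real.log p + Complex.arg (∑ p ∈ cellQ (Q1 q) H v,
          Complex.exp (-((k * Real.log p : ℝ) : ℂ) * Complex.I) / (p : ℂ))) : ℝ) : ℂ) * Complex.I := by
      push_cast; ring
    rw [h3, show ((p : ℕ) : ℂ) = (((p : ℕ) : ℝ) : ℂ) by push_cast; rfl, Complex.div_ofReal_re,
      Complex.exp_ofReal_mul_I_re, Real.cos_neg]
  have hs := hsel v hv0 k hk1 hk2 φ
  have hm := hv₁ v hv1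
  rw [mul_one_div, div_lt_iff₀ hφq] at hm
  have hlow : 20 * mmQ (Q1 q) H v - 4940 * (mmQ (Q1 q) H v - ‖P‖) ≤
      ∑ p ∈ cellQ (Q1 q) H v, FR 20 (k * Real.log p + φ) / (p : ℝ) := by
    rw [hφ]
    unfold mmQ
    rw [← Finset.sum_sub_distrib, Finset.mul_sum, Finset.mul_sum, ← Finset.sum_sub_distrib]
    refine Finset.sum_le_sum fun p _ => ?_
    have h := cell_aux_FR (k * Real.log p + φ)
    have hp0 : (0 : ℝ) ≤ 1 / (p : ℝ) := by positivity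
    have := mul_le_mul_of_nonneg_right h hp0
    calc 20 * (1 / (p : ℝ)) - 4940 * (1 / (p : ℝ) - Real.cos (k * Real.log p + φ) / (p : ℝ))
        = (20 - 4940 * (1 - Real.cos (k * Real.log p + φ))) * (1 / (p : ℝ)) := by ring
      _ ≤ FR 20 (k * Real.log p + φ) * (1 / (p : ℝ)) := this
      _ = FR 20 (k * Real.log p + φ) / (p : ℝ) := by ring
  have hmpos : 0 < mmQ (Q1 q) H v := by
    by_contra hneg
    push Not at hneg
    have h7 : (v : ℝ) * mmQ (Q1 q) H v * (Nat.totient q : ℝ) ≤ 0 :=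
      mul_nonpos_of_nonpos_of_nonneg (mul_nonpos_of_nonneg_of_nonpos hvpos.le hneg) hφq.le
    linarith
  have h5 : 15 * mmQ (Q1 q) H v < 20 * mmQ (Q1 q) H v - 4940 * (mmQ (Q1 q) H v - ‖P‖) := by
    nlinarith
  have h6 : 15 * mmQ (Q1 q) H v < (8 + 1 / 10) / (Nat.totient q * v) := by linarith
  rw [lt_div_iff₀ (mul_pos hφq hvpos)] at h6
  nlinarith

/-- `cell_q` from the statements of `SELQ` and `PNTQ` -/
theorem cell_q_of
    (hsel : ∀ (q M H R : ℕ) (_ : 1 ≤ q) (_ : 1 ≤ H) (_ : 1 ≤ R) {η : ℝ} (_ : 0 < η),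
      ∃ T₀ v₀ : ℕ, ∀ v : ℕ, v₀ ≤ v → ∀ k : ℤ, (T₀ : ℝ) ≤ |(k : ℝ)| →
      |(k : ℝ)| ≤ Real.exp (M * (v : ℝ) / H) →
      ∀ φ : ℝ, ∑ p ∈ cellQ (Q1 q) H v, FR R (k * Real.log p + φ) / (p : ℝ) ≤
        (8 + η) / (Nat.totient q * v))
    (hpnt : ∀ (q H : ℕ) (_ : 1 ≤ q) (_ : 1 ≤ H),
      Tendsto (fun v : ℕ => (v : ℝ) * mmQ (Q1 q) H v) atTop (nhds (1 / (Nat.totient q : ℝ))))
    (q : ℕ) (hq : 1 ≤ q) : CB (Q1 q) :=
  ⟨fun M H hH => cellq_bound_of q hq M H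
    (hsel q M H 20 hq hH (by norm_num) (by norm_num : (0 : ℝ) < 1 / 10)) (hpnt q H hq hH)⟩

end Pool.Agent.H376R2.TT
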