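import Pool.Agent.H376R2.TT.Defs
import Pool.Agent.H376R2.MR.Mom

/-! Task MOM2 of project TT: moment bounds for `PPQ^ℓ GGg` (adaptation of `MR/Mom.lean` by
helper497). -/

set_option autoImplicit false

namespace Pool.Agent.H376R2.TT

open Finset Filter Pool.Agent.H376R2.MR

theorem mom2_sub (Q : ℕ → Prop) (H v : ℕ) : cellQ Q H v ⊆ cell H v := by
  classical
  intro p hp
  unfold cellQ at hp
  exact (Finset.mem_filter.1 hp).1

theorem mom2_pi (Q : ℕ → Prop) (H r ℓ : ℕ) :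
    Fintype.piFinset (fun _ : Fin ℓ => cellQ Q H r) ⊆
      Fintype.piFinset (fun _ : Fin ℓ => cell H r) :=
  Fintype.piFinset_subset _ _ fun _ => mom2_sub Q H r

theorem mom2_ge (Q : ℕ → Prop) (H r ℓ n : ℕ) : ge (cellQ Q H r) ℓ n ≤ ge (cell H r) ℓ n := by
  unfold ge
  exact Finset.card_le_card (Finset.filter_subset_filter _ (mom2_pi Q H r ℓ))

theorem mom2_gd (Q : ℕ → Prop) (H r ℓ n : ℕ) : gd (cellQ Q H r) ℓ n ≤ gd (cell H r) ℓ n := by
  unfold gd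
  exact Finset.card_le_card (Finset.filter_subset_filter _ (mom2_pi Q H r ℓ))

theorem mom2_ge_sum (Q : ℕ → Prop) (H r ℓ : ℕ) (t : Finset ℕ) :
    ∑ n ∈ t, ((ge (cellQ Q H r) ℓ n : ℝ) ^ 2 / n) ≤ ∑ n ∈ t, ((ge (cell H r) ℓ n : ℝ) ^ 2 / n) := by
  apply Finset.sum_le_sum
  intro n _
  have h : (ge (cellQ Q H r) ℓ n : ℝ) ≤ (ge (cell H r) ℓ n : ℝ) := by
    exact_mod_cast mom2_ge Q H r ℓ n
  gcongr

theorem mom2_gd_sum (Q : ℕ → Prop) (H r ℓ : ℕ) (t : Finset ℕ) :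
    ∑ n ∈ t, ((gd (cellQ Q H r) ℓ n : ℝ) ^ 2 / n) ≤ ∑ n ∈ t, ((gd (cell H r) ℓ n : ℝ) ^ 2 / n) := by
  apply Finset.sum_le_sum
  intro n _
  have h : (gd (cellQ Q H r) ℓ n : ℝ) ≤ (gd (cell H r) ℓ n : ℝ) := by
    exact_mod_cast mom2_gd Q H r ℓ n
  gcongr

theorem mom2_PP_pow (Q : ℕ → Prop) (H r ℓ : ℕ) (k : ℤ) :
    PPQ Q H r k ^ ℓ = ∑ p ∈ Fintype.piFinset (fun _ : Fin ℓ => cellQ Q H r),
      ch k (Real.log ((∏ i, p i : ℕ) : ℝ)) / ((∏ i, p i : ℕ) : ℂ) := by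
  unfold PPQ
  rw [Finset.sum_pow']
  apply Finset.sum_congr rfl
  intro p hp
  rw [Fintype.mem_piFinset] at hp
  exact mom_ch_prod k p fun i => mom_cell_pos (mom2_sub Q H r (hp i))

/-- `c_n` for `PPQ^ℓ` -/
noncomputable def momCPQ (Q : ℕ → Prop) (H r ℓ n : ℕ) : ℂ := (ge (cellQ Q H r) ℓ n : ℂ) / (n : ℂ)

theorem mom2_PP_DP (Q : ℕ → Prop) (H r ℓ : ℕ) (k : ℤ) :
    PPQ Q H r k ^ ℓ = DP ((Fintype.piFinset (fun _ : Fin ℓ => cellQ Q H r)).image (fun p => ∏ i, p i))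
      (momCPQ Q H r ℓ) k := by
  rw [mom2_PP_pow]
  unfold DP
  rw [← Finset.sum_fiberwise_of_maps_to (g := fun p : Fin ℓ → ℕ => ∏ i, p i)
    (fun p hp => Finset.mem_image_of_mem _ hp)]
  apply Finset.sum_congr rfl
  intro n _
  unfold momCPQ ge
  rw [Finset.sum_congr rfl (g := fun _ => ch k (Real.log n) / (n : ℂ))]
  · rw [Finset.sum_const, nsmul_eq_mul]
    ring
  · intro p hp
    rw [Finset.mem_filter] at hp
    rw [hp.2]

theorem momP2 : ∃ C : ℝ, 0 < C ∧ ∀ (Q : ℕ → Prop) (H r ℓ K : ℕ), 1 ≤ H → 1 ≤ K →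
    (K : ℝ) ≤ Real.exp ((r : ℝ) * ℓ / H) →
    ∑ k ∈ FK K, ‖PPQ Q H r k‖ ^ (2 * ℓ) ≤ C * (1 + (ℓ : ℝ) / H) * 2 ^ ℓ * (ℓ.factorial : ℝ) := by
  obtain ⟨C, hC, hmv⟩ := mv
  refine ⟨2 * C, by positivity, ?_⟩
  intro Q H r ℓ K hH hK hKe
  set t := (Fintype.piFinset (fun _ : Fin ℓ => cellQ Q H r)).image (fun p => ∏ i, p i) with ht
  set N₁ : ℝ := Real.exp ((r : ℝ) * ℓ / H) with hN1
  set N₂ : ℝ := Real.exp (((r : ℝ) + 1) * ℓ / H) with hN2
  have hHpos : (0 : ℝ) < H := by exact_mod_cast hH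
  have h1 : (1 : ℝ) ≤ N₁ := Real.one_le_exp (by positivity)
  have h12 : N₁ ≤ N₂ := by
    apply Real.exp_le_exp.2
    gcongr
    linarith
  have hmem : ∀ n ∈ t, N₁ ≤ (n : ℝ) ∧ (n : ℝ) ≤ N₂ := by
    intro n hn
    rw [ht, Finset.mem_image] at hn
    obtain ⟨p, hp, rfl⟩ := hn
    have hpos : (0 : ℝ) < ((∏ i, p i : ℕ) : ℝ) := by exact_mod_cast mom_prod_pos (mom2_pi Q H r ℓ hp)
    have := mom_prod_log (mom2_pi Q H r ℓ hp)
    constructor
    · rw [hN1, ← Real.le_log_iff_exp_le hpos]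
      exact this.1
    · rw [hN2, ← Real.log_le_iff_le_exp hpos]
      exact this.2
  have hlog : Real.log (N₂ / N₁) = ℓ / H := by
    rw [hN1, hN2, ← Real.exp_sub, Real.log_exp]
    ring
  have hm := hmv t (momCPQ Q H r ℓ) N₁ N₂ K h1 h12 hmem hK
  rw [hlog] at hm
  calc ∑ k ∈ FK K, ‖PPQ Q H r k‖ ^ (2 * ℓ) = ∑ k ∈ FK K, ‖DP t (momCPQ Q H r ℓ) k‖ ^ 2 := by
        apply Finset.sum_congr rfl
        intro k _
        rw [← mom2_PP_DP, norm_pow, ← pow_mul, mul_comm]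
    _ ≤ _ := hm
    _ ≤ C * (1 + (ℓ : ℝ) / H) * ∑ n ∈ t, 2 * ((ge (cellQ Q H r) ℓ n : ℝ) ^ 2 / n) := by
        apply mul_le_mul_of_nonneg_left _ (by positivity)
        apply Finset.sum_le_sum
        intro n hn
        have hn1 := (hmem n hn).1
        have hnpos : (0 : ℝ) < n := by linarith
        have hKn : (K : ℝ) ≤ n := hKe.trans hn1
        unfold momCPQ
        rw [norm_div, Complex.norm_natCast, Complex.norm_natCast]
        calc ((ge (cellQ Q H r) ℓ n : ℝ) / n) ^ 2 * ((n : ℝ) + K)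
            ≤ ((ge (cellQ Q H r) ℓ n : ℝ) / n) ^ 2 * ((n : ℝ) + n) := by gcongr
          _ = 2 * ((ge (cellQ Q H r) ℓ n : ℝ) ^ 2 / n) := by
              field_simp
              ring
    _ = C * (1 + (ℓ : ℝ) / H) * (2 * ∑ n ∈ t, ((ge (cellQ Q H r) ℓ n : ℝ) ^ 2 / n)) := by
        rw [← Finset.mul_sum]
    _ ≤ C * (1 + (ℓ : ℝ) / H) * (2 * ((ℓ.factorial : ℝ) * 2 ^ ℓ)) := by
        have := (mom2_ge_sum Q H r ℓ t).trans (sum_ge_sq H r ℓ hH t)
        gcongr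
    _ = 2 * C * (1 + (ℓ : ℝ) / H) * 2 ^ ℓ * (ℓ.factorial : ℝ) := by ring

/-! ### window coefficients -/

theorem mom2_coef_norm {g : ℕ → ℝ} (hg : ∀ n, |g n| ≤ 1) (Z : ℝ) (n : ℕ) :
    ‖(g n : ℂ) * (bw Z n : ℂ)‖ ≤ 1 / n := by
  rw [norm_mul, Complex.norm_real, Complex.norm_real, Real.norm_of_nonneg (mom_bw_nonneg Z n),
    Real.norm_eq_abs]
  calc |g n| * bw Z n ≤ 1 * bw Z n := mul_le_mul_of_nonneg_right (hg n) (mom_bw_nonneg Z n)
    _ = bw Z n := one_mul _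
    _ ≤ _ := mom_bw_le Z n

theorem mom2_GG_filter (g : ℕ → ℝ) (Z : ℝ) (k : ℤ) :
    GGg g Z k = DP ((WN Z).filter (fun n => bw Z n ≠ 0)) (fun n => (g n : ℂ) * (bw Z n : ℂ)) k := by
  unfold GGg DP
  rw [Finset.sum_filter_of_ne]
  intro n _ hn h0
  apply hn
  simp only [h0]
  simp

theorem mom_zero2 : ∃ C : ℝ, 0 < C ∧ ∀ g : ℕ → ℝ, (∀ n, |g n| ≤ 1) → ∀ (K : ℕ) (Z : ℝ), 3 ≤ Z → 1 ≤ K →
    ∑ k ∈ FK K, ‖GGg g Z k‖ ^ 2 ≤ C * (1 + K / Z) := by
  obtain ⟨C, hC, hmv⟩ := mv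
  set e := Real.exp 1 with he
  have he0 : 0 < e := Real.exp_pos 1
  have he3 : e < 3 := Real.exp_one_lt_three
  have he1 : 1 ≤ e := Real.one_le_exp zero_le_one
  refine ⟨C * 3 * e ^ 3, by positivity, ?_⟩
  intro g hg K Z hZ hK
  have hZ0 : 0 < Z := by linarith
  set t := (WN Z).filter (fun n => bw Z n ≠ 0) with ht
  have hmem : ∀ n ∈ t, Z / e ≤ (n : ℝ) ∧ (n : ℝ) ≤ e * Z := by
    intro n hn
    rw [ht, Finset.mem_filter] at hn
    obtain ⟨h0, h1, h2⟩ := mom_bw_ne hn.2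
    have hpos : (0 : ℝ) < n := by exact_mod_cast h0
    constructor
    · rw [← Real.log_le_log_iff (by positivity) hpos, Real.log_div hZ0.ne' he0.ne', he,
        Real.log_exp]
      exact h1
    · rw [← Real.log_le_log_iff hpos (by positivity), Real.log_mul he0.ne' hZ0.ne', he,
        Real.log_exp]
      linarith
  have h1 : (1 : ℝ) ≤ Z / e := by
    rw [le_div_iff₀ he0]
    linarith
  have h12 : Z / e ≤ e * Z := by
    rw [div_le_iff₀ he0]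
    calc Z = 1 * Z * 1 := by ring
      _ ≤ e * Z * e := by gcongr
  have hlog : Real.log (e * Z / (Z / e)) = 2 := by
    have : e * Z / (Z / e) = e ^ 2 := by field_simp
    rw [this, he, Real.log_pow, Real.log_exp]
    norm_num
  have hm := hmv t (fun n => (g n : ℂ) * (bw Z n : ℂ)) (Z / e) (e * Z) K h1 h12 hmem hK
  rw [hlog] at hm
  have hcard : (t.card : ℝ) ≤ e * Z := by
    have h1 : t.card ≤ ⌊e * Z⌋₊ := by
      calc t.card ≤ (WN Z).card := Finset.card_filter_le _ _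
        _ = ⌊e * Z⌋₊ := by
          unfold WN
          rw [Nat.card_Icc]
          simp [he]
    calc (t.card : ℝ) ≤ (⌊e * Z⌋₊ : ℝ) := by exact_mod_cast h1
      _ ≤ e * Z := Nat.floor_le (by positivity)
  calc ∑ k ∈ FK K, ‖GGg g Z k‖ ^ 2
      = ∑ k ∈ FK K, ‖DP t (fun n => (g n : ℂ) * (bw Z n : ℂ)) k‖ ^ 2 := by
        apply Finset.sum_congr rfl
        intro k _
        rw [mom2_GG_filter]
    _ ≤ _ := hm
    _ ≤ C * (1 + 2) * ∑ n ∈ t, (e / Z + K * (e / Z) ^ 2) := by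
        apply mul_le_mul_of_nonneg_left _ (by positivity)
        apply Finset.sum_le_sum
        intro n hn
        have hn1 := (hmem n hn).1
        have hnpos : (0 : ℝ) < n := by linarith
        have hinv : 1 / (n : ℝ) ≤ e / Z := by
          rw [div_le_div_iff₀ hnpos hZ0, one_mul]
          rw [div_le_iff₀ he0] at hn1
          linarith
        calc ‖(g n : ℂ) * (bw Z n : ℂ)‖ ^ 2 * ((n : ℝ) + K)
            ≤ (1 / (n : ℝ)) ^ 2 * ((n : ℝ) + K) := by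
              gcongr
              exact mom2_coef_norm hg Z n
          _ = 1 / (n : ℝ) + K * (1 / (n : ℝ)) ^ 2 := by
              field_simp
          _ ≤ e / Z + K * (e / Z) ^ 2 := by gcongr
    _ = C * 3 * (t.card * (e / Z + K * (e / Z) ^ 2)) := by
        rw [Finset.sum_const, nsmul_eq_mul]
        norm_num
    _ ≤ C * 3 * (e * Z * (e / Z + K * (e / Z) ^ 2)) := by gcongr
    _ = C * 3 * (e ^ 2 + e ^ 3 * (K / Z)) := by
        field_simp
    _ ≤ C * 3 * (e ^ 3 + e ^ 3 * (K / Z)) := by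
        gcongr
        norm_num
    _ = C * 3 * e ^ 3 * (1 + K / Z) := by ring

/-! ### the product -/

/-- index pairs -/
noncomputable def momPrQ (Q : ℕ → Prop) (H r ℓ : ℕ) (Z : ℝ) : Finset ((Fin ℓ → ℕ) × ℕ) :=
  (Fintype.piFinset (fun _ : Fin ℓ => cellQ Q H r)) ×ˢ ((WN Z).filter (fun n => bw Z n ≠ 0))

/-- coefficients of the product -/
noncomputable def momCQ (g : ℕ → ℝ) (Q : ℕ → Prop) (H r ℓ : ℕ) (Z : ℝ) (n : ℕ) : ℂ :=
  ∑ x ∈ (momPrQ Q H r ℓ Z).filter (fun x => x.2 * ∏ i, x.1 i = n),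
    ((g x.2 : ℂ) * (bw Z x.2 : ℂ)) / ((∏ i, x.1 i : ℕ) : ℂ)

theorem mom2_prod_DP (g : ℕ → ℝ) (Q : ℕ → Prop) (H r ℓ : ℕ) (Z : ℝ) (k : ℤ) (t : Finset ℕ)
    (ht : ∀ x ∈ momPrQ Q H r ℓ Z, x.2 * ∏ i, x.1 i ∈ t) :
    PPQ Q H r k ^ ℓ * GGg g Z k = DP t (momCQ g Q H r ℓ Z) k := by
  rw [mom2_PP_pow, mom2_GG_filter]
  unfold DP
  rw [Finset.sum_mul_sum, ← Finset.sum_product']
  change ∑ x ∈ momPrQ Q H r ℓ Z, _ = _
  rw [← Finset.sum_fiberwise_of_maps_to ht]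
  apply Finset.sum_congr rfl
  intro n _
  unfold momCQ
  rw [Finset.sum_mul]
  apply Finset.sum_congr rfl
  intro x hx
  rw [Finset.mem_filter] at hx
  obtain ⟨hx1, hx2⟩ := hx
  unfold momPrQ at hx1
  rw [Finset.mem_product, Finset.mem_filter] at hx1
  have hp := mom_prod_pos (mom2_pi Q H r ℓ hx1.1)
  have hm := (mom_bw_ne hx1.2.2).1
  have hlog : Real.log (n : ℝ) = Real.log (x.2 : ℝ) + Real.log ((∏ i, x.1 i : ℕ) : ℝ) := by
    rw [← hx2, Nat.cast_mul, Real.log_mul]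
    · positivity
    · exact_mod_cast hp.ne'
  rw [hlog, mom_ch_add]
  ring

theorem mom2_C_norm {g : ℕ → ℝ} (hg : ∀ n, |g n| ≤ 1) (Q : ℕ → Prop) (H r ℓ : ℕ) (Z : ℝ) (n : ℕ) :
    ‖momCQ g Q H r ℓ Z n‖ ≤ (gd (cellQ Q H r) ℓ n : ℝ) / n := by
  unfold momCQ
  calc _ ≤ ∑ x ∈ (momPrQ Q H r ℓ Z).filter (fun x => x.2 * ∏ i, x.1 i = n),
        ‖((g x.2 : ℂ) * (bw Z x.2 : ℂ)) / ((∏ i, x.1 i : ℕ) : ℂ)‖ := norm_sum_le _ _
    _ ≤ ∑ x ∈ (momPrQ Q H r ℓ Z).filter (fun x => x.2 * ∏ i, x.1 i = n), 1 / (n : ℝ) := by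
        apply Finset.sum_le_sum
        intro x hx
        rw [Finset.mem_filter] at hx
        obtain ⟨hx1, hx2⟩ := hx
        rw [norm_div, Complex.norm_natCast, ← hx2]
        have := mom2_coef_norm hg Z x.2
        calc _ ≤ (1 / (x.2 : ℝ)) / ((∏ i, x.1 i : ℕ) : ℝ) := by gcongr
          _ = _ := by
            push_cast
            rw [div_div]
    _ = (((momPrQ Q H r ℓ Z).filter (fun x => x.2 * ∏ i, x.1 i = n)).card : ℝ) / n := by
        rw [Finset.sum_const, nsmul_eq_mul]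
        ring
    _ ≤ (gd (cellQ Q H r) ℓ n : ℝ) / n := by
        have : ((momPrQ Q H r ℓ Z).filter (fun x => x.2 * ∏ i, x.1 i = n)).card ≤
            gd (cellQ Q H r) ℓ n := by
          unfold gd
          apply Finset.card_le_card_of_injOn (fun x => x.1)
          · intro x hx
            rw [Finset.mem_coe, Finset.mem_filter] at hx
            obtain ⟨hx1, hx2⟩ := hx
            unfold momPrQ at hx1
            rw [Finset.mem_product] at hx1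
            rw [Finset.mem_coe, Finset.mem_filter]
            exact ⟨hx1.1, ⟨x.2, by rw [← hx2]; ring⟩⟩
          · intro x hx y hy hxy
            rw [Finset.mem_coe, Finset.mem_filter] at hx hy
            obtain ⟨hx1, hx2⟩ := hx
            obtain ⟨_, hy2⟩ := hy
            unfold momPrQ at hx1
            rw [Finset.mem_product] at hx1
            have hp := mom_prod_pos (mom2_pi Q H r ℓ hx1.1)
            have hxy' : x.1 = y.1 := hxy
            apply Prod.ext hxy'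
            rw [← hxy'] at hy2
            exact Nat.eq_of_mul_eq_mul_right hp (hx2.trans hy2.symm)
        gcongr

theorem mom2 : ∃ C : ℝ, 0 < C ∧ ∀ (g : ℕ → ℝ) (Q : ℕ → Prop), (∀ n, |g n| ≤ 1) →
    ∀ (H r ℓ K : ℕ) (Z : ℝ), 1 ≤ H → 3 ≤ Z → 1 ≤ K →
    (K : ℝ) ≤ Z * Real.exp ((r : ℝ) * ℓ / H) →
    ∑ k ∈ FK K, ‖PPQ Q H r k ^ ℓ * GGg g Z k‖ ^ 2 ≤ C * (3 + (ℓ : ℝ) / H) ^ 2 * (ℓ.factorial : ℝ) ^ 2 := by
  obtain ⟨C, hC, hmv⟩ := mv
  obtain ⟨C', hC', hgd⟩ := sum_gd_sq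
  set e := Real.exp 1 with he
  have he0 : 0 < e := Real.exp_pos 1
  have he3 : e < 3 := Real.exp_one_lt_three
  have he1 : 1 ≤ e := Real.one_le_exp zero_le_one
  refine ⟨C * 4 * C', by positivity, ?_⟩
  intro g Q hg0 H r ℓ K Z hH hZ hK hKe
  have hZ0 : 0 < Z := by linarith
  have hHpos : (0 : ℝ) < H := by exact_mod_cast hH
  set A : ℝ := Real.exp ((r : ℝ) * ℓ / H) with hA
  set B : ℝ := Real.exp (((r : ℝ) + 1) * ℓ / H) with hB
  have hA1 : (1 : ℝ) ≤ A := Real.one_le_exp (by positivity)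
  have hAB : A ≤ B := by
    apply Real.exp_le_exp.2
    gcongr
    linarith
  have hA0 : 0 < A := by linarith
  have hB0 : 0 < B := by linarith
  have hZe : (1 : ℝ) ≤ Z / e := by
    rw [le_div_iff₀ he0]
    linarith
  have h1 : (1 : ℝ) ≤ Z / e * A := by nlinarith
  have h12 : Z / e * A ≤ e * Z * B := by
    have : Z / e ≤ e * Z := by
      rw [div_le_iff₀ he0]
      calc Z = 1 * Z * 1 := by ring
        _ ≤ e * Z * e := by gcongr
    gcongr
  set t := Icc ⌈Z / e * A⌉₊ ⌊e * Z * B⌋₊ with ht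
  have hmem : ∀ n ∈ t, Z / e * A ≤ (n : ℝ) ∧ (n : ℝ) ≤ e * Z * B := by
    intro n hn
    rw [ht, Finset.mem_Icc] at hn
    exact ⟨Nat.ceil_le.1 hn.1, (Nat.le_floor_iff (by positivity)).1 hn.2⟩
  have hmaps : ∀ x ∈ momPrQ Q H r ℓ Z, x.2 * ∏ i, x.1 i ∈ t := by
    intro x hx
    unfold momPrQ at hx
    rw [Finset.mem_product, Finset.mem_filter] at hx
    obtain ⟨hx1, hx2, hx3⟩ := hx
    obtain ⟨h0, hl1, hl2⟩ := mom_bw_ne hx3
    have hp := mom_prod_pos (mom2_pi Q H r ℓ hx1)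
    obtain ⟨hq1, hq2⟩ := mom_prod_log (mom2_pi Q H r ℓ hx1)
    have hpr : (0 : ℝ) < ((∏ i, x.1 i : ℕ) : ℝ) := by exact_mod_cast hp
    have hx2r : (0 : ℝ) < (x.2 : ℝ) := by exact_mod_cast h0
    have hlogn : Real.log ((x.2 * ∏ i, x.1 i : ℕ) : ℝ) =
        Real.log (x.2 : ℝ) + Real.log ((∏ i, x.1 i : ℕ) : ℝ) := by
      rw [Nat.cast_mul, Real.log_mul hx2r.ne' hpr.ne']
    have hnpos : (0 : ℝ) < ((x.2 * ∏ i, x.1 i : ℕ) : ℝ) := by
      rw [Nat.cast_mul]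
      positivity
    rw [ht, Finset.mem_Icc]
    constructor
    · apply Nat.ceil_le.2
      rw [← Real.log_le_log_iff (by positivity) hnpos, hlogn, Real.log_mul (by positivity) hA0.ne',
        Real.log_div hZ0.ne' he0.ne', he, Real.log_exp, hA, Real.log_exp]
      linarith
    · apply (Nat.le_floor_iff (by positivity)).2
      rw [← Real.log_le_log_iff hnpos (by positivity), hlogn, Real.log_mul (by positivity) hB0.ne',
        Real.log_mul he0.ne' hZ0.ne', he, Real.log_exp, hB, Real.log_exp]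
      linarith
  have hlog : Real.log (e * Z * B / (Z / e * A)) = 2 + ℓ / H := by
    rw [Real.log_div (by positivity) (by positivity), Real.log_mul (by positivity) hB0.ne',
      Real.log_mul he0.ne' hZ0.ne', Real.log_mul (by positivity) hA0.ne',
      Real.log_div hZ0.ne' he0.ne', he, hA, hB, Real.log_exp, Real.log_exp, Real.log_exp]
    ring
  have hm := hmv t (momCQ g Q H r ℓ Z) (Z / e * A) (e * Z * B) K h1 h12 hmem hK
  rw [hlog] at hm
  have hg := hgd H r ℓ (Z / e * A) (e * Z * B) hH h1 h12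
  rw [hlog, ← ht] at hg
  replace hg := (mom2_gd_sum Q H r ℓ t).trans hg
  calc ∑ k ∈ FK K, ‖PPQ Q H r k ^ ℓ * GGg g Z k‖ ^ 2
      = ∑ k ∈ FK K, ‖DP t (momCQ g Q H r ℓ Z) k‖ ^ 2 := by
        apply Finset.sum_congr rfl
        intro k _
        rw [mom2_prod_DP g Q H r ℓ Z k t hmaps]
    _ ≤ _ := hm
    _ ≤ C * (1 + (2 + (ℓ : ℝ) / H)) * ∑ n ∈ t, 4 * ((gd (cellQ Q H r) ℓ n : ℝ) ^ 2 / n) := by
        apply mul_le_mul_of_nonneg_left _ (by positivity)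
        apply Finset.sum_le_sum
        intro n hn
        have hn1 := (hmem n hn).1
        have hnpos : (0 : ℝ) < n := by linarith
        have hKn : (K : ℝ) ≤ 3 * n := by
          calc (K : ℝ) ≤ Z * A := hKe
            _ = e * (Z / e * A) := by field_simp
            _ ≤ e * n := by gcongr
            _ ≤ 3 * n := by gcongr
        have hcn := mom2_C_norm hg0 Q H r ℓ Z n
        calc ‖momCQ g Q H r ℓ Z n‖ ^ 2 * ((n : ℝ) + K)
            ≤ ((gd (cellQ Q H r) ℓ n : ℝ) / n) ^ 2 * ((n : ℝ) + 3 * n) := by gcongr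
          _ = 4 * ((gd (cellQ Q H r) ℓ n : ℝ) ^ 2 / n) := by
              field_simp
              ring
    _ = C * (1 + (2 + (ℓ : ℝ) / H)) * (4 * ∑ n ∈ t, ((gd (cellQ Q H r) ℓ n : ℝ) ^ 2 / n)) := by
        rw [← Finset.mul_sum]
    _ ≤ C * (1 + (2 + (ℓ : ℝ) / H)) *
        (4 * (C' * (ℓ.factorial : ℝ) ^ 2 * (1 + (2 + (ℓ : ℝ) / H)))) := by gcongr
    _ = C * 4 * C' * (3 + (ℓ : ℝ) / H) ^ 2 * (ℓ.factorial : ℝ) ^ 2 := by ring

end Pool.Agent.H376R2.TT
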