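import Pool.Agent.H376R2.TT.Cnt2a
import Pool.Agent.H376R2.TT.Mom2

/-! Task CNT2 (helper541): few frequencies are bad at the last level. -/

set_option autoImplicit false

namespace Pool.Agent.H376R2.TT
open Finset Filter Pool.Agent.H376R2.MR

/-! ### CNT2 : file Cnt2.lean -/

theorem cnt2 (Q : ℕ → Prop) : ∀ α : ℝ, 0 < α → α ≤ 1 → ∃ L₀ : ℕ, ∀ L : ℕ, L₀ ≤ L → ∃ Y₀ : ℝ, ∀ Y : ℝ, Y₀ ≤ Y →
    ∀ j K : ℕ, (LL L j : ℝ) ^ 4 ≤ Real.log Y → Real.log Y < (LL L (j + 1) : ℝ) ^ 4 → (K : ℝ) ≤ Y →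
    (open scoped Classical in
      (((FK K).filter (fun k => ¬ SmjQ Q L α j k)).card : ℝ)) ≤ Y ^ (4 * α) :=
  cnt2_of momP2 Q

end Pool.Agent.H376R2.TT
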