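import Pool.Agent.H376R2.TT.Defs

/-!
Task POLY: a polynomial identity over the field with two elements.
-/

set_option autoImplicit false

namespace Pool.Agent.H376R2.TT
open Finset Filter Pool.Agent.H376R2.MR

/-- sign of a residue class mod 2 -/
def polySg (a : ZMod 2) : ℤ := if a = 0 then 1 else -1

theorem poly_sg_add (a b : ZMod 2) : polySg (a + b) = polySg a * polySg b := by
  revert a b
  unfold polySg
  decide

theorem poly_sg_sum {ι : Type*} [DecidableEq ι] (S : Finset ι) (g : ι → ZMod 2) :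
    ∏ i ∈ S, polySg (g i) = polySg (∑ i ∈ S, g i) := by
  induction S using Finset.induction with
  | empty => simp [polySg]
  | insert i S hi ih => rw [Finset.prod_insert hi, Finset.sum_insert hi, poly_sg_add, ih]

/-- the linear functional with values `g n` at `X ^ n` -/
noncomputable def polyPhi (g : ℕ → ZMod 2) : Polynomial (ZMod 2) →ₗ[ZMod 2] ZMod 2 :=
  Polynomial.lsum (fun n => (g n) • LinearMap.id)

theorem poly_phi_X (g : ℕ → ZMod 2) (n : ℕ) : polyPhi g (Polynomial.X ^ n) = g n := by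
  unfold polyPhi
  rw [Polynomial.lsum_apply, Polynomial.X_pow_eq_monomial, Polynomial.sum_monomial_index]
  · simp
  · simp

theorem poly_zmod2 (a : ZMod 2) (h : a ≠ 0) : a = 1 := by
  revert a
  decide

theorem poly_eq_sum (R : Polynomial (ZMod 2)) :
    R = ∑ τ ∈ R.support, (Polynomial.X : Polynomial (ZMod 2)) ^ τ := by
  conv_lhs => rw [R.as_sum_support_C_mul_X_pow]
  refine Finset.sum_congr rfl fun τ hτ => ?_
  rw [poly_zmod2 _ (Polynomial.mem_support_iff.1 hτ)]
  simp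

theorem poly_prod {r : ℕ} (G : Fin r → ℕ) :
    ∏ i, (1 + (Polynomial.X : Polynomial (ZMod 2)) ^ G i) =
      ∑ V ∈ (univ : Finset (Fin r)).powerset, Polynomial.X ^ (∑ i ∈ V, G i) := by
  rw [Finset.prod_one_add]
  refine Finset.sum_congr rfl fun V _ => ?_
  rw [Finset.prod_pow_eq_pow_sum]

theorem poly_dvd {r : ℕ} (G : Fin r → ℕ) (hG : ∀ i, 1 ≤ G i) :
    ∃ M : ℕ, 1 ≤ M ∧
      ∏ i, (1 + (Polynomial.X : Polynomial (ZMod 2)) ^ G i) ∣ Polynomial.X ^ M - 1 := by
  have hm : 1 ≤ ∏ i, G i := Nat.one_le_iff_ne_zero.2 (Finset.prod_ne_zero_iff.2 fun i _ => by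
    have := hG i
    omega)
  refine ⟨(∏ i, G i) * 2 ^ r, Nat.one_le_iff_ne_zero.2 (Nat.mul_ne_zero (by omega) (by positivity)),
    ?_⟩
  have h1 : ∀ i ∈ (univ : Finset (Fin r)),
      (1 + (Polynomial.X : Polynomial (ZMod 2)) ^ G i) ∣ Polynomial.X ^ (∏ i, G i) - 1 := by
    intro i _
    have h2 : (1 + (Polynomial.X : Polynomial (ZMod 2)) ^ G i) = Polynomial.X ^ G i - 1 := by
      rw [CharTwo.sub_eq_add, add_comm]
    rw [h2]
    obtain ⟨k, hk⟩ := Finset.dvd_prod_of_mem G (Finset.mem_univ i)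
    rw [hk, pow_mul]
    exact sub_one_dvd_pow_sub_one _ k
  have h3 := Finset.prod_dvd_prod_of_dvd _ _ h1
  rw [Finset.prod_const, Finset.card_univ, Fintype.card_fin] at h3
  have h4 : (Polynomial.X ^ ((∏ i, G i) * 2 ^ r) - 1 : Polynomial (ZMod 2)) =
      (Polynomial.X ^ (∏ i, G i) - 1) ^ 2 ^ r := by
    haveI : Fact (Nat.Prime 2) := ⟨Nat.prime_two⟩
    rw [sub_pow_char_pow, one_pow, pow_mul]
  rw [h4]
  exact h3.trans (pow_dvd_pow _ Nat.lt_two_pow_self.le)

theorem poly {r : ℕ} (G : Fin r → ℕ) (hG : ∀ i, 1 ≤ G i) : ∃ (T : Finset ℕ) (M : ℕ), 1 ≤ M ∧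
    Even (T.card * 2 ^ r) ∧ ∀ f : ℕ → ℤ, (∀ n, f n = 1 ∨ f n = -1) →
      ∏ τ ∈ T, ∏ V ∈ (univ : Finset (Fin r)).powerset, f (τ + ∑ i ∈ V, G i) = f 0 * f M := by
  rcases Nat.eq_zero_or_pos r with hr | hr
  · subst hr
    refine ⟨{0, 1}, 1, le_rfl, by simp, fun f _ => ?_⟩
    simp
  · obtain ⟨M, hM, R, hR⟩ := poly_dvd G hG
    refine ⟨R.support, M, hM, ?_, fun f hf => ?_⟩
    · exact ((Nat.even_pow.2 ⟨even_two, by omega⟩)).mul_left _
    · set g : ℕ → ZMod 2 := fun n => if f n = 1 then 0 else 1 with hg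
      have hfg : ∀ n, f n = polySg (g n) := by
        intro n
        rcases hf n with h | h
        · simp [hg, h, polySg]
        · simp [hg, h, polySg]
      have key : ∑ τ ∈ R.support, ∑ V ∈ (univ : Finset (Fin r)).powerset,
          g (τ + ∑ i ∈ V, G i) = g 0 + g M := by
        have h1 : ∀ τ ∈ R.support, ∑ V ∈ (univ : Finset (Fin r)).powerset,
            g (τ + ∑ i ∈ V, G i) =
            polyPhi g (Polynomial.X ^ τ * ∏ i, (1 + (Polynomial.X : Polynomial (ZMod 2)) ^ G i)) := by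
          intro τ _
          rw [poly_prod, Finset.mul_sum, map_sum]
          refine Finset.sum_congr rfl fun V _ => ?_
          rw [← pow_add, poly_phi_X]
        rw [Finset.sum_congr rfl h1, ← map_sum, ← Finset.sum_mul, ← poly_eq_sum, mul_comm, ← hR,
          map_sub, poly_phi_X, ← pow_zero (Polynomial.X : Polynomial (ZMod 2)), poly_phi_X,
          CharTwo.sub_eq_add, add_comm]
      simp only [hfg]
      rw [← poly_sg_add, ← key, ← poly_sg_sum]
      refine Finset.prod_congr rfl fun τ _ => ?_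
      rw [← poly_sg_sum]

end Pool.Agent.H376R2.TT
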