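import Pool.Agent.H376R2.TT.ConfC
import Pool.Agent.H376R2.TT.Poly

/-! Project TT, task CONF: assembly. -/

set_option autoImplicit false

namespace Pool.Agent.H376R2.TT

open Finset Filter Pool.Agent.H376R2.MR

lemma conf_reindex {M : Type*} [CommMonoid M] (T : Finset ℕ) (r : ℕ)
    (f : {τ // τ ∈ T} × Finset (Fin r) → M) (g : ℕ → Finset (Fin r) → M)
    (h : ∀ x : {τ // τ ∈ T} × Finset (Fin r), f x = g x.1 x.2) :
    ∏ x, f x = ∏ τ ∈ T, ∏ V ∈ (univ : Finset (Fin r)).powerset, g τ V := by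
  rw [Fintype.prod_prod_type, powerset_univ, ← Finset.prod_coe_sort T]
  refine prod_congr rfl fun τ _ => prod_congr rfl fun V _ => h (τ, V)

theorem conf {r s : ℕ} (a b : Fin (r + 1) → ℕ) (c d : Fin s → ℕ) (ha : ∀ i, 1 ≤ a i) (hc : ∀ j, 1 ≤ c j)
    (hne : ∀ i i', i ≠ i' → a i * b i' ≠ a i' * b i) (n₀ : ℕ) (hn : 1 ≤ n₀)
    (h1 : ∀ i, Squarefree (a i * n₀ + b i)) (h2 : ∀ j, Squarefree (c j * n₀ + d j)) :
    Nonempty (Cfg r s a b c d) := by
  classical
  obtain ⟨T, M', hM', heven, hT⟩ := poly (cG a b) (fun i => cG_pos a b hne i)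
  let Λ := {τ // τ ∈ T} × Finset (Fin r)
  have hΛ : Fintype.card Λ = T.card * 2 ^ r := by
    change Fintype.card ({τ // τ ∈ T} × Finset (Fin r)) = _
    rw [Fintype.card_prod, Fintype.card_coe, Fintype.card_finset, Fintype.card_fin]
  set J : ℕ := Fintype.card Λ + 1 with hJ
  set w : ℕ := 2 + ∑ i, a i + ∑ j, c j + J * (r + 1 + s) + 2 * J with hw
  set W' : ℕ := w.factorial ^ 3 with hW'
  have hW'0 : 0 < W' := pow_pos w.factorial_pos 3
  have ha0 : 0 < a 0 := ha 0
  have hpW' : ∀ p : ℕ, p.Prime → p ≤ w → p ^ 3 ∣ W' := by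
    intro p hp hpw
    exact pow_dvd_pow_of_dvd (Nat.dvd_factorial hp.pos hpw) 3
  set cs : Finset ℕ := (univ : Finset Λ).image (fun x => cEn a b x.1 x.2) with hcs
  have hcsJ : cs.card ≤ J := by
    refine card_image_le.trans ?_
    rw [card_univ, hJ]
    omega
  obtain ⟨t, -, -, hclean⟩ := Pool.Agent.H376R2.choice (a 0 * W') J (Nat.mul_pos ha0 hW'0) (by omega)
    (by
      intro p hp hp2
      have h3 : p ≤ w := by omega
      exact ((dvd_pow_self p three_ne_zero).trans (hpW' p hp h3)).mul_left _) ∅ cs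
    ⟨by simp, by simp⟩ hcsJ 0 0
  rw [empty_union] at hclean
  have hmem : ∀ x : Λ, cEn a b x.1 x.2 + t ∈ cs.image (fun x => x + t) := by
    intro x
    exact mem_image_of_mem _ (mem_image_of_mem (fun x : Λ => cEn a b x.1 x.2) (mem_univ x))
  let Dx : Λ → ℕ := fun x => cD a b W' t x.1 x.2
  let hx : Λ → ℤ := fun x => cH a b W' t x.1 x.2
  have hDx : ∀ x : Λ, Dx x = 1 + a 0 * W' * (cEn a b x.1 x.2 + t) := fun x => rfl
  have hDsq : ∀ x : Λ, Squarefree (Dx x) := fun x => hclean.1 _ (hmem x)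
  have hDcop : ∀ x y : Λ, x ≠ y → Nat.Coprime (Dx x) (Dx y) := by
    intro x y hxy
    refine hclean.2 _ (hmem x) _ (hmem y) ?_
    intro h
    have h3 : cEn a b x.1 x.2 = cEn a b y.1 y.2 := by omega
    obtain ⟨h4, h5⟩ := cEn_inj a b ha hne h3
    exact hxy (Prod.ext (Subtype.ext h4) h5)
  let e := Fintype.equivFin Λ
  refine ⟨{
    m := Fintype.card Λ
    D := fun l => Dx (e.symm l)
    h := fun l => hx (e.symm l)
    M := a 0 * W' * M'
    κ := ∏ τ ∈ T, ∏ V ∈ (univ : Finset (Fin r)).powerset, lam (cD a b W' t τ V) ^ (r + 1)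
    hm := by rw [hΛ]; exact heven
    hM := Nat.succ_le_of_lt (Nat.mul_pos (Nat.mul_pos ha0 hW'0) hM')
    hκ := by
      refine conf_prod_pm _ _ fun τ _ => conf_prod_pm _ _ fun V _ => ?_
      rcases conf_lam_pm (cD a b W' t τ V) with h | h
      · rw [h]; left; simp
      · rw [h]; exact neg_one_pow_eq_or ℤ _
    hD := fun l => ⟨by rw [hDx]; omega, hDsq _⟩
    hcop := fun l l' hll => hDcop _ _ (fun h => hll (e.symm.injective h))
    ident := ?_
    loc := ?_ }⟩
  · intro X n hX hn1 hnn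
    set n' : ℕ → Finset (Fin r) → ℕ := fun τ V => if h : τ ∈ T then n (e (⟨τ, h⟩, V)) else 0 with hn'
    have key := ident_aux a b W' t ha hne T M' hT X hX n'
      (by
        intro τ hτ V
        simp only [hn', hτ, dif_pos]
        exact hn1 _)
      (by
        intro τ hτ V
        simp only [hn', hτ, dif_pos]
        have := hnn (e (⟨τ, hτ⟩, V))
        simpa [Dx, hx] using this)
    rw [← key]
    rw [← Equiv.prod_comp e]
    refine conf_reindex T r _ (fun τ V => ∏ i, lam (a i * n' τ V + b i)) ?_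
    intro x
    simp only [hn', x.1.2, dif_pos]
  · intro p hp
    obtain ⟨x, hx'⟩ := conf_local (κ := Fin (r + 1) ⊕ Fin s) Dx hx (Sum.elim a c) (Sum.elim b d) w W'
      hpW' (fun l => ⟨a 0 * (cEn a b l.1 l.2 + t), by rw [hDx]; ring⟩)
      (fun l => by simp only [hx, cH]; exact dvd_mul_right _ _) hDsq hDcop
      (by
        rintro (i | j)
        · refine ⟨ha i, ?_⟩
          have : a i ≤ ∑ i, a i := single_le_sum (f := a) (fun _ _ => Nat.zero_le _) (mem_univ _)
          simp only [Sum.elim_inl]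
          omega
        · refine ⟨hc j, ?_⟩
          have : c j ≤ ∑ i, c i := single_le_sum (f := c) (fun _ _ => Nat.zero_le _) (mem_univ _)
          simp only [Sum.elim_inr]
          omega)
      (by
        rw [Fintype.card_sum, Fintype.card_fin, Fintype.card_fin, ← hJ]
        omega) (by omega) n₀
      (by
        rintro (i | j)
        · exact h1 i
        · exact h2 j) p hp
    refine ⟨x, fun X hX => ?_⟩
    obtain ⟨h3, h4⟩ := hx' X hX
    refine ⟨fun l => h3 _, fun l n hn2 => ⟨fun i => ?_, fun j => ?_⟩⟩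
    · exact h4 (e.symm l) n hn2 (Sum.inl i)
    · exact h4 (e.symm l) n hn2 (Sum.inr j)

end Pool.Agent.H376R2.TT
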