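import Pool.Agent.H376R2.TT.Defs
import Pool.Agent.H376R2.Choice

/-! Project TT, task CONF, part A: elementary lemmas. -/

set_option autoImplicit false

namespace Pool.Agent.H376R2.TT

open Finset Filter Pool.Agent.H376R2.MR

lemma conf_avoid (p : ℕ) {κ : Type*} (S : Finset κ) (a : κ → ℤ)
    (ha : ∀ k ∈ S, IsCoprime (a k) (p : ℤ)) (C : κ → ℤ) (hS : S.card < p) :
    ∃ z : ℕ, z < p ∧ ∀ k ∈ S, ¬ (p : ℤ) ∣ a k * z + C k := by
  classical
  by_contra hcon
  push Not at hcon
  have hf : ∀ z ∈ range p, ∃ k ∈ S, (p : ℤ) ∣ a k * z + C k := fun z hz => hcon z (mem_range.mp hz)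
  haveI : Nonempty κ := ⟨(hf 0 (mem_range.mpr (by omega))).choose⟩
  choose! f hf1 hf2 using hf
  obtain ⟨z, hz, z', hz', hne, heq⟩ :=
    exists_ne_map_eq_of_card_lt_of_maps_to (s := range p) (t := S) (by simpa using hS) hf1
  have h1 := hf2 z hz
  have h2 := hf2 z' hz'
  have h0 := hf1 z' hz'
  rw [heq] at h1
  have h3 : (p : ℤ) ∣ a (f z') * ((z : ℤ) - z') := by
    have := dvd_sub h1 h2
    have e : a (f z') * (z : ℤ) + C (f z') - (a (f z') * (z' : ℤ) + C (f z')) =
      a (f z') * ((z : ℤ) - z') := by ring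
    rwa [e] at this
  have h4 : (p : ℤ) ∣ (z : ℤ) - z' := (ha _ h0).symm.dvd_of_dvd_mul_left h3
  have h5 : (z : ℤ) ≡ z' [ZMOD p] := (Int.modEq_iff_dvd.mpr h4).symm
  have h6 : z ≡ z' [MOD p] := Int.natCast_modEq_iff.mp h5
  rw [mem_range] at hz hz'
  exact hne (Nat.ModEq.eq_of_lt_of_lt h6 hz hz')

lemma conf_sum_lt (B : ℕ) (hB : 1 ≤ B) (r : ℕ) :
    ∑ i : Fin r, ((B : ℤ) - 1) * (B : ℤ) ^ (i : ℕ) = (B : ℤ) ^ r - 1 := by
  induction r with
  | zero => simp
  | succ r ih =>
    rw [Fin.sum_univ_castSucc]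
    simp only [Fin.val_castSucc, Fin.val_last]
    rw [ih]
    ring

/-- distinct subset sums -/
lemma conf_distinct (B : ℕ) (hB : 1 ≤ B) : ∀ (r : ℕ) (y : Fin r → ℤ),
    (∀ i : Fin r, (B : ℤ) ^ (i : ℕ) ≤ |y i| ∧ |y i| ≤ ((B : ℤ) - 1) * (B : ℤ) ^ (i : ℕ)) →
    ∀ ε : Fin r → ℤ, (∀ i, |ε i| ≤ 1) → ∑ i, ε i * y i = 0 → ∀ i, ε i = 0 := by
  intro r
  induction r with
  | zero => intro y _ ε _ _ i; exact i.elim0
  | succ r ih =>
    intro y hy ε hε hsum
    rw [Fin.sum_univ_castSucc] at hsum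
    have h1 : |∑ i : Fin r, ε (Fin.castSucc i) * y (Fin.castSucc i)| ≤ (B : ℤ) ^ r - 1 := by
      rw [← conf_sum_lt B hB r]
      refine (Finset.abs_sum_le_sum_abs _ _).trans (sum_le_sum fun i _ => ?_)
      rw [abs_mul]
      have h2 := hy (Fin.castSucc i)
      simp only [Fin.val_castSucc] at h2
      have h3 := hε (Fin.castSucc i)
      calc |ε (Fin.castSucc i)| * |y (Fin.castSucc i)| ≤ 1 * |y (Fin.castSucc i)| :=
            mul_le_mul_of_nonneg_right h3 (abs_nonneg _)
        _ = |y (Fin.castSucc i)| := one_mul _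
        _ ≤ _ := h2.2
    have hlast : ε (Fin.last r) = 0 := by
      by_contra hne
      have h4 : 1 ≤ |ε (Fin.last r)| := Int.one_le_abs hne
      have h5 := (hy (Fin.last r)).1
      simp only [Fin.val_last] at h5
      have h6 : ε (Fin.last r) * y (Fin.last r) =
          - ∑ i : Fin r, ε (Fin.castSucc i) * y (Fin.castSucc i) := by linarith
      have h7 : |ε (Fin.last r)| * |y (Fin.last r)| ≤ (B : ℤ) ^ r - 1 := by
        rw [← abs_mul, h6, abs_neg]
        exact h1
      have h8 : (B : ℤ) ^ r ≤ |ε (Fin.last r)| * |y (Fin.last r)| := by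
        calc (B : ℤ) ^ r ≤ |y (Fin.last r)| := h5
          _ = 1 * |y (Fin.last r)| := (one_mul _).symm
          _ ≤ _ := mul_le_mul_of_nonneg_right h4 (abs_nonneg _)
      omega
    rw [hlast, zero_mul, add_zero] at hsum
    have h9 := ih (fun i => y (Fin.castSucc i)) (fun i => by simpa using hy (Fin.castSucc i))
      (fun i : Fin r => ε (Fin.castSucc i)) (fun i => hε _) hsum
    intro i
    refine Fin.lastCases hlast (fun j => ?_) i
    exact h9 j

lemma conf_lam_mul {m n : ℕ} (hm : m ≠ 0) (hn : n ≠ 0) : lam (m * n) = lam m * lam n := by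
  unfold lam
  rw [ArithmeticFunction.cardFactors_mul hm hn, pow_add]

lemma conf_lam_pm (n : ℕ) : lam n = 1 ∨ lam n = -1 := neg_one_pow_eq_or ℤ _

lemma conf_lam_sq (n : ℕ) : lam n * lam n = 1 := by
  rcases conf_lam_pm n with h | h <;> rw [h] <;> norm_num

lemma conf_prod_pm {κ : Type*} (S : Finset κ) (f : κ → ℤ) (h : ∀ k ∈ S, f k = 1 ∨ f k = -1) :
    (∏ k ∈ S, f k) = 1 ∨ (∏ k ∈ S, f k) = -1 := by
  classical
  induction S using Finset.induction_on with
  | empty => left; simp
  | insert k S hk ih =>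
    rw [prod_insert hk]
    have h1 := h k (mem_insert_self _ _)
    have h2 := ih fun j hj => h j (mem_insert_of_mem hj)
    rcases h1 with h1 | h1 <;> rcases h2 with h2 | h2 <;> rw [h1, h2] <;> norm_num

/-- product over all subsets of an expression invariant under toggling `j` -/
lemma conf_toggle {r : ℕ} (j : Fin r) (F : Finset (Fin r) → ℤ) (hF : ∀ V, F V = 1 ∨ F V = -1)
    (hinv : ∀ V, j ∉ V → F (insert j V) = F V) :
    ∏ V ∈ (univ : Finset (Fin r)).powerset, F V = 1 := by
  classical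
  rw [← insert_erase (mem_univ j), powerset_insert, prod_union]
  · rw [prod_image]
    · rw [← prod_mul_distrib]
      refine prod_eq_one fun V hV => ?_
      have hj : j ∉ V := fun h => by
        have := mem_powerset.1 hV h
        simp at this
      rw [hinv V hj]
      rcases hF V with h | h <;> rw [h] <;> norm_num
    · intro V hV V' hV' h
      have hj : j ∉ V := fun h => by
        have := mem_powerset.1 (mem_coe.1 hV) h
        simp at this
      have hj' : j ∉ V' := fun h => by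
        have := mem_powerset.1 (mem_coe.1 hV') h
        simp at this
      have := congrArg (fun s => erase s j) h
      simpa [erase_insert hj, erase_insert hj'] using this
  · rw [disjoint_left]
    intro V hV hV'
    obtain ⟨V'', _, rfl⟩ := mem_image.1 hV'
    have := mem_powerset.1 hV (mem_insert_self j V'')
    simp at this

end Pool.Agent.H376R2.TT
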