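import Pool.Agent.H376R2.TT.ConfA

/-! Project TT, task CONF, part B: the local conditions, abstractly. -/

set_option autoImplicit false

namespace Pool.Agent.H376R2.TT

open Finset Filter Pool.Agent.H376R2.MR

/-- Local solvability at a prime `p` for a family of dilated copies. `f : κ` are the forms
`A f n + B f`. -/
lemma conf_local {Λ κ : Type*} [Fintype Λ] [Fintype κ] [DecidableEq Λ] (D : Λ → ℕ) (h : Λ → ℤ)
    (A : κ → ℕ) (B : κ → ℕ) (w : ℕ) (W' : ℕ)
    (hW : ∀ p : ℕ, p.Prime → p ≤ w → p ^ 3 ∣ W')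
    (hD1 : ∀ l, ∃ u : ℕ, D l = 1 + W' * u) (hh : ∀ l, (W' : ℤ) ∣ h l)
    (hsq : ∀ l, Squarefree (D l)) (hcop : ∀ l l', l ≠ l' → Nat.Coprime (D l) (D l'))
    (hA : ∀ f, 1 ≤ A f ∧ A f ≤ w) (hcard : (Fintype.card Λ + 1) * Fintype.card κ ≤ w) (hw2 : 2 ≤ w)
    (n₀ : ℕ) (hn : ∀ f, Squarefree (A f * n₀ + B f)) (p : ℕ) (hp : p.Prime) :
    ∃ x : ℤ, ∀ X : ℤ, X ≡ x [ZMOD (p : ℤ) ^ 3] →
      (∀ l, p ∣ D l → (p : ℤ) ∣ X + h l) ∧
      ∀ (l) (n : ℤ), (D l : ℤ) * n = X + h l → ∀ f, ¬ (p : ℤ) ^ 2 ∣ A f * n + B f := by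
  classical
  have hp2 : (2 : ℕ) ≤ p := hp.two_le
  rcases le_or_gt p w with hpw | hpw
  · -- small primes
    refine ⟨n₀, fun X hX => ⟨?_, ?_⟩⟩
    · intro l hl
      exfalso
      obtain ⟨u, hu⟩ := hD1 l
      have h1 : p ∣ W' := (dvd_pow_self p three_ne_zero).trans (hW p hp hpw)
      rw [hu] at hl
      have h2 : p ∣ 1 := (Nat.dvd_add_left (h1.mul_right u)).mp hl
      exact hp.one_lt.ne' (Nat.dvd_one.mp h2)
    · intro l n hn' f hdiv
      obtain ⟨u, hu⟩ := hD1 l
      have h3 : ((p : ℤ) ^ 3) ∣ (W' : ℤ) := by exact_mod_cast hW p hp hpw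
      have h4 : ((p : ℤ) ^ 3) ∣ h l := h3.trans (hh l)
      have h5 : ((p : ℤ) ^ 3) ∣ n - n₀ := by
        have e1 : (D l : ℤ) * n = n + W' * (u * n) := by rw [hu]; push_cast; ring
        have e2 : n - n₀ = (X - n₀) + h l - W' * (u * n) := by
          have := hn'
          rw [e1] at this
          linarith
        rw [e2]
        refine dvd_sub (dvd_add ?_ h4) (h3.mul_right _)
        exact (Int.modEq_iff_dvd.1 hX.symm)
      have h6 : ((p : ℤ) ^ 2) ∣ n - n₀ := (pow_dvd_pow (p : ℤ) (by norm_num)).trans h5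
      have h7 : ((p : ℤ) ^ 2) ∣ (A f : ℤ) * n₀ + B f := by
        have e3 : (A f : ℤ) * n₀ + B f = (A f * n + B f) - A f * (n - n₀) := by ring
        rw [e3]
        exact dvd_sub hdiv (h6.mul_left _)
      have h8 : p ^ 2 ∣ A f * n₀ + B f := by exact_mod_cast h7
      have h9 := hn f
      rw [Nat.squarefree_iff_prime_squarefree] at h9
      exact h9 p hp (by rw [← pow_two]; exact h8)
  · -- large primes
    have hAp : ∀ f, IsCoprime (A f : ℤ) (p : ℤ) := by
      intro f
      rw [Nat.isCoprime_iff_coprime]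
      refine (Nat.Coprime.symm ((Nat.Prime.coprime_iff_not_dvd hp).2 fun hdv => ?_))
      have h1 := Nat.le_of_dvd (hA f).1 hdv
      have h2 := (hA f).2
      omega
    have hpZ : Prime (p : ℤ) := Nat.prime_iff_prime_int.1 hp
    have hp0 : (p : ℤ) ≠ 0 := by exact_mod_cast hp.ne_zero
    by_cases hex : ∃ l₀, p ∣ D l₀
    · obtain ⟨l₀, hl₀⟩ := hex
      have huniq : ∀ l, p ∣ D l → l = l₀ := by
        intro l hl
        by_contra hne
        exact Nat.not_coprime_of_dvd_of_dvd hp.one_lt hl hl₀ (hcop l l₀ hne)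
      obtain ⟨D', hD'⟩ := hl₀
      have hD'p : ¬ p ∣ D' := by
        intro hdv
        have := hsq l₀
        rw [Nat.squarefree_iff_prime_squarefree] at this
        apply this p hp
        rw [hD']
        exact mul_dvd_mul_left p hdv
      -- constants: for `l ≠ l₀`, `C = A f (h l - h l₀) + B f D l`
      set Cst : Λ → κ → ℤ := fun l f => A f * (h l - h l₀) + B f * D l with hCst
      obtain ⟨y, -, hy⟩ := conf_avoid p (univ : Finset (Option Λ × κ)) (fun x => (A x.2 : ℤ))
        (fun x _ => hAp x.2)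
        (fun x => match x.1 with
          | none => (B x.2 : ℤ) * D'
          | some l => Cst l x.2 / p) (by
          rw [card_univ, Fintype.card_prod, Fintype.card_option]
          exact lt_of_le_of_lt hcard hpw)
      refine ⟨-h l₀ + p * y, fun X hX => ⟨?_, ?_⟩⟩
      · intro l hl
        rw [huniq l hl]
        have h1 : ((p : ℤ) ^ 3) ∣ X - (-h l₀ + p * y) := Int.modEq_iff_dvd.1 hX.symm
        have h2 : (p : ℤ) ∣ X - (-h l₀ + p * y) := (dvd_pow_self (p : ℤ) three_ne_zero).trans h1
        have e1 : X + h l₀ = (X - (-h l₀ + p * y)) + p * y := by ring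
        rw [e1]
        exact dvd_add h2 (dvd_mul_right _ _)
      · intro l n hn' f hdiv
        obtain ⟨k, hk⟩ : ((p : ℤ) ^ 3) ∣ X - (-h l₀ + p * y) := Int.modEq_iff_dvd.1 hX.symm
        by_cases hl : l = l₀
        · subst hl
          have e1 : (D' : ℤ) * n = y + p ^ 2 * k := by
            have h1 : (D l : ℤ) * n = p * (D' * n) := by rw [hD']; push_cast; ring
            have h2 : (p : ℤ) * (D' * n) = p * (y + p ^ 2 * k) := by
              rw [← h1, hn']
              have : X = -h l + p * y + p ^ 3 * k := by linarith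
              rw [this]; ring
            exact mul_left_cancel₀ hp0 h2
          have h3 : (p : ℤ) ∣ (D' : ℤ) * (A f * n + B f) :=
            ((dvd_pow_self (p : ℤ) two_ne_zero).trans hdiv).mul_left _
          have e2 : (D' : ℤ) * (A f * n + B f) = (A f * y + B f * D') + p * (p * A f * k) := by
            have : (D' : ℤ) * (A f * n + B f) = A f * (D' * n) + B f * D' := by ring
            rw [this, e1]; ring
          rw [e2] at h3
          have h4 : (p : ℤ) ∣ (A f : ℤ) * y + B f * D' := (dvd_add_left (dvd_mul_right _ _)).1 h3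
          exact hy (none, f) (mem_univ _) h4
        · have h1 : ((p : ℤ) ^ 2) ∣ (D l : ℤ) * (A f * n + B f) := hdiv.mul_left _
          have e2 : (D l : ℤ) * (A f * n + B f) = Cst l f + p * (A f * y) + p ^ 2 * (p * A f * k) := by
            have : (D l : ℤ) * (A f * n + B f) = A f * (D l * n) + B f * D l := by ring
            rw [this, hn']
            have hX' : X = -h l₀ + p * y + p ^ 3 * k := by linarith
            rw [hX', hCst]; ring
          rw [e2] at h1
          have h2 : ((p : ℤ) ^ 2) ∣ Cst l f + p * (A f * y) :=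
            (dvd_add_left (dvd_mul_right _ _)).1 h1
          have h3 : (p : ℤ) ∣ Cst l f := by
            have := (dvd_pow_self (p : ℤ) two_ne_zero).trans h2
            exact (dvd_add_left (dvd_mul_right _ _)).1 this
          have h4 : (p : ℤ) * (A f * y + Cst l f / p) = Cst l f + p * (A f * y) := by
            rw [mul_add, Int.mul_ediv_cancel' h3]; ring
          rw [← h4, pow_two] at h2
          have h5 := (mul_dvd_mul_iff_left hp0).1 h2
          exact hy (some l, f) (mem_univ _) h5
    · push Not at hex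
      -- choose `x` avoiding the classes mod `p`
      obtain ⟨y, -, hy⟩ := conf_avoid p (univ : Finset (Λ × κ)) (fun x => (A x.2 : ℤ))
        (fun x _ => hAp x.2) (fun x => A x.2 * h x.1 + B x.2 * D x.1) (by
          rw [card_univ, Fintype.card_prod]
          calc Fintype.card Λ * Fintype.card κ ≤ (Fintype.card Λ + 1) * Fintype.card κ :=
                Nat.mul_le_mul_right _ (by omega)
            _ ≤ w := hcard
            _ < p := hpw)
      refine ⟨y, fun X hX => ⟨fun l hl => absurd hl (hex l), ?_⟩⟩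
      intro l n hn' f hdiv
      have h1 : (p : ℤ) ∣ (D l : ℤ) * (A f * n + B f) :=
        ((dvd_pow_self (p : ℤ) two_ne_zero).trans hdiv).mul_left _
      obtain ⟨k, hk⟩ : ((p : ℤ) ^ 3) ∣ X - y := Int.modEq_iff_dvd.1 hX.symm
      have e2 : (D l : ℤ) * (A f * n + B f) =
          (A f * y + (A f * h l + B f * D l)) + p * (p ^ 2 * k * A f) := by
        have : (D l : ℤ) * (A f * n + B f) = A f * (D l * n) + B f * D l := by ring
        rw [this, hn']
        have hX' : X = y + p ^ 3 * k := by linarith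
        rw [hX']; ring
      rw [e2] at h1
      exact hy (l, f) (mem_univ _) ((dvd_add_left (dvd_mul_right _ _)).1 h1)

end Pool.Agent.H376R2.TT
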