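import Pool.Agent.H376R2.TT.ConfB

/-! Project TT, task CONF, part C: parameters and identity. -/

set_option autoImplicit false

namespace Pool.Agent.H376R2.TT

open Finset Filter Pool.Agent.H376R2.MR

section
variable {r : ℕ} (a b : Fin (r + 1) → ℕ)

/-- determinant -/
def cE (i : Fin r) : ℤ := (a i.succ : ℤ) * b 0 - a 0 * b i.succ
/-- base -/
def cB : ℕ := 1 + ∑ i, a i
/-- signed step -/
def cT (i : Fin r) : ℤ := Int.sign (cE a b i) * (cB a : ℤ) ^ (i : ℕ)
def cX (i : Fin r) : ℤ := a i.succ * cT a b i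
def cG (i : Fin r) : ℕ := (cE a b i).natAbs * (cB a) ^ (i : ℕ)
def cC : ℕ := ∑ i : Fin r, a i.succ * (cB a) ^ (i : ℕ)
def cEv (τ : ℕ) (V : Finset (Fin r)) : ℤ := cC a + (1 + 2 * cC a) * τ + ∑ i ∈ V, cX a b i
def cEn (τ : ℕ) (V : Finset (Fin r)) : ℕ := (cEv a b τ V).toNat

lemma cG_eq (i : Fin r) : (cG a b i : ℤ) = cT a b i * cE a b i := by
  unfold cG cT
  rw [Nat.cast_mul, ← Int.sign_mul_self_eq_natAbs, Nat.cast_pow]
  ring

lemma cB_pos : 1 ≤ cB a := by unfold cB; omega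

lemma cG_pos (hne : ∀ i i', i ≠ i' → a i * b i' ≠ a i' * b i) (i : Fin r) : 1 ≤ cG a b i := by
  unfold cG
  have h1 : cE a b i ≠ 0 := by
    unfold cE
    intro h
    apply hne i.succ 0 (Fin.succ_ne_zero i)
    have : (a i.succ : ℤ) * b 0 = a 0 * b i.succ := by linarith
    exact_mod_cast this
  have h2 : 0 < (cE a b i).natAbs := Int.natAbs_pos.2 h1
  have h3 : 0 < cB a := cB_pos a
  exact Nat.succ_le_of_lt (Nat.mul_pos h2 (pow_pos h3 _))

lemma cX_abs (hne : ∀ i i', i ≠ i' → a i * b i' ≠ a i' * b i) (i : Fin r) :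
    |cX a b i| = (a i.succ : ℤ) * (cB a : ℤ) ^ (i : ℕ) := by
  unfold cX cT
  have h1 : cE a b i ≠ 0 := by
    unfold cE
    intro h
    apply hne i.succ 0 (Fin.succ_ne_zero i)
    have : (a i.succ : ℤ) * b 0 = a 0 * b i.succ := by linarith
    exact_mod_cast this
  rw [abs_mul, abs_mul, Int.abs_sign_of_ne_zero h1]
  simp

lemma sum_abs_le (hne : ∀ i i', i ≠ i' → a i * b i' ≠ a i' * b i) (V : Finset (Fin r)) :
    |∑ i ∈ V, cX a b i| ≤ cC a := by
  refine (abs_sum_le_sum_abs _ _).trans ?_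
  unfold cC
  push_cast
  calc ∑ i ∈ V, |cX a b i| ≤ ∑ i, |cX a b i| :=
        sum_le_sum_of_subset_of_nonneg (subset_univ _) (fun _ _ _ => abs_nonneg _)
    _ = _ := sum_congr rfl fun i _ => cX_abs a b hne i

lemma cEv_nonneg (hne : ∀ i i', i ≠ i' → a i * b i' ≠ a i' * b i) (τ : ℕ) (V : Finset (Fin r)) :
    0 ≤ cEv a b τ V := by
  unfold cEv
  have h := sum_abs_le a b hne V
  rw [abs_le] at h
  have : (0 : ℤ) ≤ (1 + 2 * cC a) * τ := by positivity
  linarith [h.1]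

lemma cEn_eq (hne : ∀ i i', i ≠ i' → a i * b i' ≠ a i' * b i) (τ : ℕ) (V : Finset (Fin r)) :
    (cEn a b τ V : ℤ) = cEv a b τ V := Int.toNat_of_nonneg (cEv_nonneg a b hne τ V)

lemma cEn_inj (ha : ∀ i, 1 ≤ a i) (hne : ∀ i i', i ≠ i' → a i * b i' ≠ a i' * b i)
    {τ τ' : ℕ} {V V' : Finset (Fin r)} (h : cEn a b τ V = cEn a b τ' V') : τ = τ' ∧ V = V' := by
  have h0 : cEv a b τ V = cEv a b τ' V' := by
    rw [← cEn_eq a b hne, ← cEn_eq a b hne, h]
  unfold cEv at h0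
  have h1 := abs_le.1 (sum_abs_le a b hne V)
  have h2 := abs_le.1 (sum_abs_le a b hne V')
  have hτ : (τ : ℤ) = τ' := by
    set c : ℤ := (cC a : ℤ) with hc
    have hc0 : (0 : ℤ) ≤ c := by positivity
    have h3 : (1 + 2 * c) * ((τ : ℤ) - τ') = (∑ i ∈ V', cX a b i) - ∑ i ∈ V, cX a b i := by
      linarith
    by_contra hne'
    rcases lt_or_gt_of_ne hne' with hlt | hgt
    · have : (τ : ℤ) - τ' ≤ -1 := by omega
      nlinarith
    · have : 1 ≤ (τ : ℤ) - τ' := by omega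
      nlinarith
  have hττ : τ = τ' := by exact_mod_cast hτ
  refine ⟨hττ, ?_⟩
  subst hττ
  have h4 : ∑ i ∈ V, cX a b i = ∑ i ∈ V', cX a b i := by linarith
  -- distinct subset sums
  classical
  have h5 := conf_distinct (cB a) (cB_pos a) r (cX a b) (by
    intro i
    rw [cX_abs a b hne i]
    have e1 : (1 : ℤ) ≤ a i.succ := by exact_mod_cast ha i.succ
    have e2 : (a i.succ : ℤ) ≤ (cB a : ℤ) - 1 := by
      have : a i.succ ≤ ∑ i, a i := single_le_sum (f := a) (fun _ _ => Nat.zero_le _) (mem_univ _)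
      unfold cB
      push_cast
      have : (a i.succ : ℤ) ≤ ∑ i, (a i : ℤ) := by exact_mod_cast this
      linarith
    have e3 : (0 : ℤ) ≤ (cB a : ℤ) ^ (i : ℕ) := by positivity
    constructor
    · nlinarith
    · exact mul_le_mul_of_nonneg_right e2 e3)
    (fun i => (if i ∈ V then 1 else 0) - (if i ∈ V' then 1 else 0)) (by
      intro i
      by_cases h1 : i ∈ V <;> by_cases h2 : i ∈ V' <;> simp [h1, h2]) (by
      simp only [sub_mul, ite_mul, one_mul, zero_mul, sum_sub_distrib]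
      rw [sum_ite_mem, sum_ite_mem, univ_inter, univ_inter]
      linarith)
  ext i
  have h6 := h5 i
  by_cases h1 : i ∈ V <;> by_cases h2 : i ∈ V' <;> simp [h1, h2] at h6 ⊢

end

section
variable {r : ℕ} (a b : Fin (r + 1) → ℕ) (W' t : ℕ)

def cD (τ : ℕ) (V : Finset (Fin r)) : ℕ := 1 + a 0 * W' * (cEn a b τ V + t)
def cH (τ : ℕ) (V : Finset (Fin r)) : ℤ :=
  W' * (τ + ∑ i ∈ V, (cG a b i : ℤ) - b 0 * (cEn a b τ V + t))

lemma pos_zero (τ : ℕ) (V : Finset (Fin r)) :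
    (a 0 : ℤ) * cH a b W' t τ V + b 0 * cD a b W' t τ V =
      b 0 + a 0 * W' * ((τ : ℤ) + ∑ i ∈ V, (cG a b i : ℤ)) := by
  unfold cH cD
  push_cast
  ring

lemma toggle_inv (hne : ∀ i i', i ≠ i' → a i * b i' ≠ a i' * b i) (τ : ℕ) (V : Finset (Fin r))
    (j : Fin r) (hj : j ∉ V) :
    (a j.succ : ℤ) * cH a b W' t τ (insert j V) + b j.succ * cD a b W' t τ (insert j V) =
    (a j.succ : ℤ) * cH a b W' t τ V + b j.succ * cD a b W' t τ V := by
  classical
  unfold cH cD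
  push_cast
  rw [cEn_eq a b hne, cEn_eq a b hne]
  unfold cEv
  rw [sum_insert hj, sum_insert hj, cG_eq]
  have : cX a b j = a j.succ * cT a b j := rfl
  rw [this]
  have : cE a b j = (a j.succ : ℤ) * b 0 - a 0 * b j.succ := rfl
  rw [this]
  ring

lemma ident_aux (ha : ∀ i, 1 ≤ a i) (hne : ∀ i i', i ≠ i' → a i * b i' ≠ a i' * b i)
    (T : Finset ℕ) (M : ℕ)
    (hT : ∀ f : ℕ → ℤ, (∀ n, f n = 1 ∨ f n = -1) →
      ∏ τ ∈ T, ∏ V ∈ (univ : Finset (Fin r)).powerset, f (τ + ∑ i ∈ V, cG a b i) = f 0 * f M)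
    (X : ℕ) (hX : 1 ≤ X) (n : ℕ → Finset (Fin r) → ℕ)
    (hn : ∀ τ ∈ T, ∀ V, 1 ≤ n τ V)
    (hnn : ∀ τ ∈ T, ∀ V, (cD a b W' t τ V : ℤ) * n τ V = X + cH a b W' t τ V) :
    ∏ τ ∈ T, ∏ V ∈ (univ : Finset (Fin r)).powerset, ∏ i, lam (a i * n τ V + b i) =
      (∏ τ ∈ T, ∏ V ∈ (univ : Finset (Fin r)).powerset, lam (cD a b W' t τ V) ^ (r + 1)) *
        (lam (a 0 * X + b 0) * lam (a 0 * X + b 0 + a 0 * W' * M)) := by
  classical
  have hD : ∀ τ V, cD a b W' t τ V ≠ 0 := fun τ V => by unfold cD; omega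
  -- the positions
  have hstep : ∀ τ ∈ T, ∀ V, ∀ i, lam (a i * n τ V + b i) =
      lam (cD a b W' t τ V) * lam (cD a b W' t τ V * (a i * n τ V + b i)) := by
    intro τ hτ V i
    have h1 : a i * n τ V + b i ≠ 0 := by
      have := Nat.mul_pos (ha i) (hn τ hτ V)
      omega
    rw [conf_lam_mul (hD τ V) h1, ← mul_assoc, conf_lam_sq, one_mul]
  have h1 : ∏ τ ∈ T, ∏ V ∈ (univ : Finset (Fin r)).powerset, ∏ i, lam (a i * n τ V + b i) =
      (∏ τ ∈ T, ∏ V ∈ (univ : Finset (Fin r)).powerset, lam (cD a b W' t τ V) ^ (r + 1)) *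
      ∏ τ ∈ T, ∏ V ∈ (univ : Finset (Fin r)).powerset,
        ∏ i, lam (cD a b W' t τ V * (a i * n τ V + b i)) := by
    rw [← prod_mul_distrib]
    refine prod_congr rfl fun τ hτ => ?_
    rw [← prod_mul_distrib]
    refine prod_congr rfl fun V _ => ?_
    rw [prod_congr rfl (fun i _ => hstep τ hτ V i), prod_mul_distrib]
    congr 1
    simp
  rw [h1]
  congr 1
  have h2 : ∀ τ ∈ T, ∏ V ∈ (univ : Finset (Fin r)).powerset,
      ∏ i, lam (cD a b W' t τ V * (a i * n τ V + b i)) =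
      ∏ V ∈ (univ : Finset (Fin r)).powerset,
        lam (a 0 * X + b 0 + a 0 * W' * (τ + ∑ i ∈ V, cG a b i)) := by
    intro τ hτ
    rw [Finset.prod_comm, Fin.prod_univ_succ]
    have hz : ∀ i : Fin r, ∏ V ∈ (univ : Finset (Fin r)).powerset,
        lam (cD a b W' t τ V * (a i.succ * n τ V + b i.succ)) = 1 := by
      intro i
      refine conf_toggle i _ (fun V => conf_lam_pm _) fun V hV => ?_
      have e : ∀ V, ((cD a b W' t τ V * (a i.succ * n τ V + b i.succ) : ℕ) : ℤ) =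
          a i.succ * X + (a i.succ * cH a b W' t τ V + b i.succ * cD a b W' t τ V) := by
        intro V
        push_cast
        have := hnn τ hτ V
        linear_combination (a i.succ : ℤ) * this
      have e2 : cD a b W' t τ (insert i V) * (a i.succ * n τ (insert i V) + b i.succ) =
          cD a b W' t τ V * (a i.succ * n τ V + b i.succ) := by
        have : ((cD a b W' t τ (insert i V) * (a i.succ * n τ (insert i V) + b i.succ) : ℕ) : ℤ) =
          ((cD a b W' t τ V * (a i.succ * n τ V + b i.succ) : ℕ) : ℤ) := by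
          rw [e, e, toggle_inv a b W' t hne τ V i hV]
        exact_mod_cast this
      rw [e2]
    rw [prod_congr rfl (fun i _ => hz i), prod_const_one, mul_one]
    refine prod_congr rfl fun V _ => ?_
    congr 1
    have e : ((cD a b W' t τ V * (a 0 * n τ V + b 0) : ℕ) : ℤ) =
        ((a 0 * X + b 0 + a 0 * W' * (τ + ∑ i ∈ V, cG a b i) : ℕ) : ℤ) := by
      push_cast
      have h3 := hnn τ hτ V
      have h4 := pos_zero a b W' t τ V
      linear_combination (a 0 : ℤ) * h3 + h4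
    exact_mod_cast e
  rw [prod_congr rfl h2]
  have h3 := hT (fun m => lam (a 0 * X + b 0 + a 0 * W' * m)) (fun m => conf_lam_pm _)
  simp only [mul_zero, add_zero] at h3
  exact h3

end

end Pool.Agent.H376R2.TT
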