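import Pool.Agent.H376R2.TT.Defs
import Pool.Agent.H376R2.MR.Dec

set_option autoImplicit false

namespace Pool.Agent.H376R2.TT
open Finset Filter Pool.Agent.H376R2.MR

theorem dec2_GG (g : ℕ → ℝ) {Y : ℝ} (hY : 1 ≤ Y) (k : ℤ) :
    GGg g Y k = ∑ n ∈ decS Y, ((g n : ℂ) * ((w (Real.log n - Real.log Y) / n : ℝ) : ℂ)) *
      ch k (Real.log n) := by
  unfold GGg DP bw
  refine Finset.sum_congr_of_eq_on_inter ?_ ?_ ?_
  · intro n hn hn'
    have hn1 : 1 ≤ n := by unfold WN at hn; exact (mem_Icc.mp hn).1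
    have : w (Real.log n - Real.log Y) = 0 := by
      apply dec_w_zero
      rcases dec_not_mem hY hn1 hn' with h | h
      · rw [abs_of_neg (by linarith)]; linarith
      · rw [abs_of_pos (by linarith)]; linarith
    beta_reduce
    rw [this]; simp
  · intro n hn hn'
    have hn1 := (dec_mem hY hn).1
    have : w (Real.log n - Real.log Y) = 0 := by
      apply dec_w_zero
      have := dec_not_WN (by linarith) hn1 hn'
      rw [abs_of_pos (by linarith)]; linarith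
    rw [this]; simp
  · intro n _ _; rfl

theorem dec2_cell {Q : ℕ → Prop} {H v p : ℕ} (hp : p ∈ cellQ Q H v) :
    p.Prime ∧ (v : ℝ) / H ≤ Real.log p ∧ Real.log p < ((v : ℝ) + 1) / H := by
  classical
  unfold cellQ at hp
  exact dec_cell (mem_filter.mp hp).1

theorem dec2_Q {Q : ℕ → Prop} {H v p : ℕ} (hp : p ∈ cellQ Q H v) : Q p := by
  classical
  unfold cellQ at hp
  exact (mem_filter.mp hp).2

theorem dec2_one {g : ℕ → ℝ} {Q : ℕ → Prop} (hmul : ∀ p m : ℕ, p.Prime → Q p → 1 ≤ m → g (p * m) = - g m) {H v p : ℕ} (hH : 1 ≤ H) (hp : p ∈ cellQ Q H v) {Y : ℝ} (hY : 1 ≤ Y) (k : ℤ) :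
    ch k (Real.log p) / (p : ℂ) * GGg g (Y * Real.exp (-((v : ℝ) / H))) k =
      - ∑ n ∈ (decS Y).filter (fun n => p ∣ n),
        ((g n : ℂ) * ((w (Real.log n - Real.log Y - (Real.log p - (v : ℝ) / H)) / n : ℝ) : ℂ)) *
          ch k (Real.log n) := by
  obtain ⟨hpp, hp1, hp2⟩ := dec2_cell hp
  have hp0 : (0:ℝ) < p := by exact_mod_cast hpp.pos
  have hpc : (p : ℂ) ≠ 0 := by exact_mod_cast hpp.ne_zero
  have hY0 : 0 < Y := by linarith
  have hH0 : (0:ℝ) < H := by exact_mod_cast hH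
  have hlogZ : Real.log (Y * Real.exp (-((v : ℝ) / H))) = Real.log Y - (v : ℝ) / H := by
    rw [Real.log_mul hY0.ne' (Real.exp_pos _).ne', Real.log_exp]; ring
  set Z : ℝ := Y * Real.exp (-((v : ℝ) / H)) with hZ
  have hZ0 : 0 < Z := by positivity
  set G : ℕ → ℂ := fun n =>
    ((g n : ℂ) * ((w (Real.log n - Real.log Y - (Real.log p - (v : ℝ) / H)) / n : ℝ) : ℂ)) *
          ch k (Real.log n) with hG
  have hδ0 : 0 ≤ Real.log p - (v : ℝ) / H := by linarith
  have hδ1 : Real.log p - (v : ℝ) / H ≤ 1 := by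
    have h3 : ((v : ℝ) + 1) / H = (v : ℝ) / H + 1 / H := by ring
    have h4 : (1 : ℝ) / H ≤ 1 := by
      rw [div_le_one hH0]; exact_mod_cast hH
    linarith
  have step1 : ch k (Real.log p) / (p : ℂ) * GGg g Z k = - ∑ m ∈ WN Z, G (p * m) := by
    unfold GGg DP bw
    rw [Finset.mul_sum, ← Finset.sum_neg_distrib]
    refine Finset.sum_congr rfl fun m hm => ?_
    have hm1 : 1 ≤ m := by unfold WN at hm; exact (mem_Icc.mp hm).1
    have hm0 : (0:ℝ) < m := by exact_mod_cast hm1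
    have hmc : (m : ℂ) ≠ 0 := by exact_mod_cast (by omega : m ≠ 0)
    beta_reduce
    rw [show G (p * m) = ((g (p * m) : ℂ) *
      ((w (Real.log ((p * m : ℕ) : ℝ) - Real.log Y - (Real.log p - (v : ℝ) / H)) /
        ((p * m : ℕ) : ℝ) : ℝ) : ℂ)) * ch k (Real.log ((p * m : ℕ) : ℝ)) from rfl]
    rw [hmul p m hpp (dec2_Q hp) hm1]
    have hl : Real.log ((p * m : ℕ) : ℝ) = Real.log p + Real.log m := by
      push_cast; rw [Real.log_mul hp0.ne' hm0.ne']
    rw [hl, dec_ch_add, hlogZ]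
    have e1 : Real.log p + Real.log m - Real.log Y - (Real.log p - (v : ℝ) / H) =
      Real.log m - (Real.log Y - (v : ℝ) / H) := by ring
    rw [e1]
    push_cast
    field_simp
  rw [step1]
  congr 1
  have hinj : Set.InjOn (fun m => p * m) (WN Z : Set ℕ) := by
    intro a _ b _ hab
    exact Nat.eq_of_mul_eq_mul_left hpp.pos hab
  rw [← Finset.sum_image (f := G) hinj]
  refine Finset.sum_congr_of_eq_on_inter ?_ ?_ ?_
  · intro n hn hn'
    rw [mem_image] at hn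
    obtain ⟨m, hm, rfl⟩ := hn
    have hm1 : 1 ≤ m := by unfold WN at hm; exact (mem_Icc.mp hm).1
    have hnS : p * m ∉ decS Y := by
      intro h; exact hn' (mem_filter.mpr ⟨h, Dvd.intro m rfl⟩)
    have hw : w (Real.log ((p * m : ℕ) : ℝ) - Real.log Y - (Real.log p - (v : ℝ) / H)) = 0 := by
      apply dec_w_zero
      rcases dec_not_mem hY (Nat.mul_pos hpp.pos hm1) hnS with h | h
      · rw [abs_of_neg (by linarith)]; linarith
      · rw [abs_of_pos (by linarith)]; linarith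
    rw [show G (p * m) = ((g (p * m) : ℂ) *
      ((w (Real.log ((p * m : ℕ) : ℝ) - Real.log Y - (Real.log p - (v : ℝ) / H)) /
        ((p * m : ℕ) : ℝ) : ℝ) : ℂ)) * ch k (Real.log ((p * m : ℕ) : ℝ)) from rfl]
    rw [hw]; simp
  · intro n hn hn'
    rw [mem_filter] at hn
    obtain ⟨hn1, m, rfl⟩ := hn
    have hn2 := (dec_mem hY hn1).1
    have hm1 : 1 ≤ m := by
      rcases Nat.eq_zero_or_pos m with h | h
      · subst h; simp at hn2
      · exact h
    have hm0 : (0:ℝ) < m := by exact_mod_cast hm1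
    have hm2 : m ∉ WN Z := by
      intro h; exact hn' (mem_image.mpr ⟨m, h, rfl⟩)
    have h3 := dec_not_WN hZ0 hm1 hm2
    have hl : Real.log ((p * m : ℕ) : ℝ) = Real.log p + Real.log m := by
      push_cast; rw [Real.log_mul hp0.ne' hm0.ne']
    have hw : w (Real.log ((p * m : ℕ) : ℝ) - Real.log Y - (Real.log p - (v : ℝ) / H)) = 0 := by
      apply dec_w_zero
      rw [hl]
      rw [hlogZ] at h3
      rw [abs_of_pos (by linarith)]; linarith
    rw [hw]; simp
  · intro n _ _; rfl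

/-- the smoothed number of prime factors -/
noncomputable def decTQ (Q : ℕ → Prop) (H v₀ v₁ : ℕ) (Y : ℝ) (n : ℕ) : ℝ :=
  ∑ v ∈ Ico v₀ v₁, ∑ p ∈ (cellQ Q H v).filter (fun p => p ∣ n),
    w (Real.log n - Real.log Y - (Real.log p - (v : ℝ) / H))

theorem dec2_sum {g : ℕ → ℝ} {Q : ℕ → Prop} (hmul : ∀ p m : ℕ, p.Prime → Q p → 1 ≤ m → g (p * m) = - g m) {H v₀ v₁ : ℕ} (hH : 1 ≤ H) {Y : ℝ} (hY : 1 ≤ Y) (k : ℤ) :
    ∑ v ∈ Ico v₀ v₁, PPQ Q H v k * GGg g (Y * Real.exp (-((v : ℝ) / H))) k =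
      - ∑ n ∈ decS Y, ((g n : ℂ) * ((decTQ Q H v₀ v₁ Y n / n : ℝ) : ℂ)) * ch k (Real.log n) := by
  have h1 : ∀ v ∈ Ico v₀ v₁, PPQ Q H v k * GGg g (Y * Real.exp (-((v : ℝ) / H))) k =
      ∑ n ∈ decS Y, ∑ p ∈ (cellQ Q H v).filter (fun p => p ∣ n),
        -(((g n : ℂ) * ((w (Real.log n - Real.log Y - (Real.log p - (v : ℝ) / H)) / n : ℝ) : ℂ)) *
          ch k (Real.log n)) := by
    intro v _
    unfold PPQ
    rw [Finset.sum_mul]
    have : ∀ p ∈ cellQ Q H v, ch k (Real.log p) / (p : ℂ) * GGg g (Y * Real.exp (-((v : ℝ) / H))) k =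
        ∑ n ∈ decS Y, if p ∣ n then 
          -(((g n : ℂ) * ((w (Real.log n - Real.log Y - (Real.log p - (v : ℝ) / H)) / n : ℝ) : ℂ)) *
          ch k (Real.log n)) else 0 := by
      intro p hp
      rw [dec2_one hmul hH hp hY k, ← Finset.sum_neg_distrib, Finset.sum_filter]
    rw [Finset.sum_congr rfl this, Finset.sum_comm]
    refine Finset.sum_congr rfl fun n _ => ?_
    rw [Finset.sum_filter]
  rw [Finset.sum_congr rfl h1, Finset.sum_comm, ← Finset.sum_neg_distrib]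
  refine Finset.sum_congr rfl fun n _ => ?_
  unfold decTQ
  push_cast
  simp only [Finset.sum_neg_distrib, Finset.sum_div, Finset.mul_sum, Finset.sum_mul]

theorem dec2_disj {Q : ℕ → Prop} {H : ℕ} (hH : 1 ≤ H) {v v' p : ℕ} (h : p ∈ cellQ Q H v) (h' : p ∈ cellQ Q H v') :
    v = v' := by
  obtain ⟨_, h1, h2⟩ := dec2_cell h
  obtain ⟨_, h3, h4⟩ := dec2_cell h'
  have hH0 : (0:ℝ) < H := by exact_mod_cast hH
  have e1 : (v : ℝ) / H < ((v' : ℝ) + 1) / H := lt_of_le_of_lt h1 h4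
  have e2 : (v' : ℝ) / H < ((v : ℝ) + 1) / H := lt_of_le_of_lt h3 h2
  rw [div_lt_div_iff_of_pos_right hH0] at e1 e2
  have e3 : v < v' + 1 := by exact_mod_cast e1
  have e4 : v' < v + 1 := by exact_mod_cast e2
  omega

theorem dec2 : ∃ C : ℝ, 0 < C ∧ ∀ (g : ℕ → ℝ) (Q : ℕ → Prop), (∀ n, |g n| ≤ 1) →
    (∀ p m : ℕ, p.Prime → Q p → 1 ≤ m → g (p * m) = - g m) →
    ∀ H v₀ v₁ : ℕ, 1 ≤ H → 1 ≤ WWQ Q H v₀ v₁ → ∀ Y : ℝ,
    Real.exp (4 * (v₁ : ℝ) / H) ≤ Y → ∃ (s : Finset ℕ) (a : ℕ → ℂ),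
      (∀ n ∈ s, Y / Real.exp 2 ≤ (n : ℝ) ∧ (n : ℝ) ≤ Real.exp 2 * Y) ∧
      (∀ k : ℤ, GGg g Y k = -(1 / (WWQ Q H v₀ v₁ : ℂ)) *
        ∑ v ∈ Ico v₀ v₁, PPQ Q H v k * GGg g (Y * Real.exp (-((v : ℝ) / H))) k + DP s a k) ∧
      ∑ n ∈ s, (n : ℝ) * ‖a n‖ ^ 2 ≤ C * (1 / WWQ Q H v₀ v₁ + 1 / (H : ℝ) ^ 2) := by
  obtain ⟨C, hC, htk⟩ := tk
  refine ⟨6 * C + 4 * (Real.exp 2 * Real.exp 2), by positivity, ?_⟩
  intro g Q hgb hmul H v₀ v₁ hH hW Y hexp
  set W := WWQ Q H v₀ v₁ with hWdef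
  have hY : 1 ≤ Y := by
    refine le_trans ?_ hexp
    rw [← Real.exp_zero]
    apply Real.exp_le_exp.mpr; positivity
  have hY0 : 0 < Y := by linarith
  have hH0 : (0:ℝ) < H := by exact_mod_cast hH
  have hH1 : (1:ℝ) ≤ H := by exact_mod_cast hH
  have hW0 : 0 < W := by linarith
  have hWc : (W : ℂ) ≠ 0 := by exact_mod_cast hW0.ne'
  set S : Finset ℕ := (Ico v₀ v₁).biUnion (cellQ Q H) with hS
  have hdisj : Set.PairwiseDisjoint (↑(Ico v₀ v₁) : Set ℕ) (cellQ Q H) := by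
    intro v _ v' _ hne
    rw [Function.onFun, Finset.disjoint_left]
    intro p hp hp'
    exact hne (dec2_disj hH hp hp')
  have hWS : ∑ p ∈ S, 1 / (p : ℝ) = W := by
    rw [hS, Finset.sum_biUnion hdisj, hWdef]; rfl
  have hom : ∀ n : ℕ, ((S.filter (fun p => p ∣ n)).card : ℝ) =
      ∑ v ∈ Ico v₀ v₁, (((cellQ Q H v).filter (fun p => p ∣ n)).card : ℝ) := by
    intro n
    rw [hS, Finset.filter_biUnion, Finset.card_biUnion]
    · push_cast; rfl
    · intro v hv v' hv' hne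
      rw [Function.onFun, Finset.disjoint_left]
      intro p hp hp'
      exact hne (dec2_disj hH (mem_filter.mp hp).1 (mem_filter.mp hp').1)
  have hTK := htk S (Real.exp ((v₁ : ℝ) / H)) Y (by
    intro p hp
    rw [hS, mem_biUnion] at hp
    obtain ⟨v, hv, hp⟩ := hp
    obtain ⟨h1, h2, h3⟩ := dec2_cell hp
    refine ⟨h1, ?_⟩
    have hp0 : (0:ℝ) < p := by exact_mod_cast h1.pos
    rw [← Real.log_le_iff_le_exp hp0]
    refine h3.le.trans ?_
    apply div_le_div_of_nonneg_right _ hH0.le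
    have := (mem_Ico.mp hv).2
    exact_mod_cast this) (by rw [hWS]; exact hW) (by
    rw [← Real.exp_nat_mul]
    refine le_trans (le_of_eq ?_) hexp
    congr 1; push_cast; ring)
  rw [hWS] at hTK
  refine ⟨decS Y, fun n => (g n : ℂ) *
    (((w (Real.log n - Real.log Y) - decTQ Q H v₀ v₁ Y n / W) / n : ℝ) : ℂ), ?_, ?_, ?_⟩
  · intro n hn
    exact ⟨(dec_mem hY hn).2.1, (dec_mem hY hn).2.2⟩
  · intro k
    rw [dec2_sum hmul hH hY k, dec2_GG g hY k]
    unfold DP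
    rw [neg_mul_neg, Finset.mul_sum, ← Finset.sum_add_distrib]
    refine Finset.sum_congr rfl fun n hn => ?_
    have hn1 := (dec_mem hY hn).1
    have hnc : (n : ℂ) ≠ 0 := by exact_mod_cast (by omega : n ≠ 0)
    push_cast
    field_simp
    ring
  · have hterm : ∀ n ∈ decS Y, (n : ℝ) * ‖(g n : ℂ) *
        (((w (Real.log n - Real.log Y) - decTQ Q H v₀ v₁ Y n / W) / n : ℝ) : ℂ)‖ ^ 2 ≤
        (2 / W ^ 2 + 4 / (H ^ 2 * W ^ 2)) * ((((S.filter (fun p => p ∣ n)).card : ℝ) - W) ^ 2 / n) +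
          4 / H ^ 2 * (1 / n) := by
      intro n hn
      have hn1 := (dec_mem hY hn).1
      have hn0 : (0:ℝ) < n := by exact_mod_cast hn1
      have hgn : ‖(g n : ℂ) *
          (((w (Real.log n - Real.log Y) - decTQ Q H v₀ v₁ Y n / W) / n : ℝ) : ℂ)‖ ≤
          ‖(((w (Real.log n - Real.log Y) - decTQ Q H v₀ v₁ Y n / W) / n : ℝ) : ℂ)‖ := by
        rw [norm_mul]
        refine mul_le_of_le_one_left (norm_nonneg _) ?_
        rw [Complex.norm_real, Real.norm_eq_abs]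
        exact hgb n
      refine (mul_le_mul_of_nonneg_left (pow_le_pow_left₀ (norm_nonneg _) hgn 2) hn0.le).trans ?_
      rw [Complex.norm_real, Real.norm_eq_abs, sq_abs, div_pow]
      set om : ℝ := ((S.filter (fun p => p ∣ n)).card : ℝ) with hom'
      have hT : |om * w (Real.log n - Real.log Y) - decTQ Q H v₀ v₁ Y n| ≤ om / H := by
        have e1 : om * w (Real.log n - Real.log Y) - decTQ Q H v₀ v₁ Y n =
          ∑ v ∈ Ico v₀ v₁, ∑ p ∈ (cellQ Q H v).filter (fun p => p ∣ n),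
            (w (Real.log n - Real.log Y) -
              w (Real.log n - Real.log Y - (Real.log p - (v : ℝ) / H))) := by
          unfold decTQ
          rw [hom', hom n, Finset.sum_mul, ← Finset.sum_sub_distrib]
          refine Finset.sum_congr rfl fun v _ => ?_
          rw [Finset.sum_sub_distrib, Finset.sum_const, nsmul_eq_mul]
        have e2 : om / H = ∑ v ∈ Ico v₀ v₁, ∑ p ∈ (cellQ Q H v).filter (fun p => p ∣ n), 1 / (H : ℝ) := by
          rw [hom', hom n, Finset.sum_div]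
          refine Finset.sum_congr rfl fun v _ => ?_
          rw [Finset.sum_const, nsmul_eq_mul]; ring
        rw [e1, e2]
        refine (Finset.abs_sum_le_sum_abs _ _).trans (Finset.sum_le_sum fun v _ => ?_)
        refine (Finset.abs_sum_le_sum_abs _ _).trans (Finset.sum_le_sum fun p hp => ?_)
        obtain ⟨h1, h2, h3⟩ := dec2_cell (mem_filter.mp hp).1
        refine (dec_w_lip _ _).trans ?_
        have e3 : Real.log n - Real.log Y - (Real.log n - Real.log Y - (Real.log p - (v : ℝ) / H)) =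
          Real.log p - (v : ℝ) / H := by ring
        rw [e3, abs_of_nonneg (by linarith)]
        have e4 : ((v : ℝ) + 1) / H = (v : ℝ) / H + 1 / H := by ring
        linarith
      have hr := dec_real hW hH1 (dec_w_nonneg (Real.log n - Real.log Y))
        (dec_w_le (Real.log n - Real.log Y)) (by positivity : 0 ≤ om) hT
      calc (n : ℝ) * ((w (Real.log n - Real.log Y) - decTQ Q H v₀ v₁ Y n / W) ^ 2 / (n : ℝ) ^ 2)
          = (1 / n) * (w (Real.log n - Real.log Y) - decTQ Q H v₀ v₁ Y n / W) ^ 2 := by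
            field_simp
        _ ≤ (1 / n) * (2 * ((om - W) ^ 2 / W ^ 2 +
              (2 * (om - W) ^ 2 + 2 * W ^ 2) / ((H : ℝ) ^ 2 * W ^ 2))) := by
            apply mul_le_mul_of_nonneg_left hr; positivity
        _ = _ := by field_simp; ring
    refine (Finset.sum_le_sum hterm).trans ?_
    rw [Finset.sum_add_distrib, ← Finset.mul_sum, ← Finset.mul_sum]
    have hinv := dec_sum_inv hY
    have hTK' : ∑ n ∈ decS Y, (((S.filter (fun p => p ∣ n)).card : ℝ) - W) ^ 2 / n ≤ C * W := hTK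
    have hc : 0 ≤ 2 / W ^ 2 + 4 / ((H : ℝ) ^ 2 * W ^ 2) := by positivity
    calc (2 / W ^ 2 + 4 / ((H : ℝ) ^ 2 * W ^ 2)) *
          ∑ n ∈ decS Y, (((S.filter (fun p => p ∣ n)).card : ℝ) - W) ^ 2 / n +
          4 / (H : ℝ) ^ 2 * ∑ n ∈ decS Y, (1 : ℝ) / n
        ≤ (2 / W ^ 2 + 4 / ((H : ℝ) ^ 2 * W ^ 2)) * (C * W) +
          4 / (H : ℝ) ^ 2 * (Real.exp 2 * Real.exp 2) := by
          apply add_le_add
          · exact mul_le_mul_of_nonneg_left hTK' hc
          · apply mul_le_mul_of_nonneg_left hinv; positivity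
      _ ≤ (6 / W ^ 2) * (C * W) + 4 / (H : ℝ) ^ 2 * (Real.exp 2 * Real.exp 2) := by
          have h6 : 4 / ((H : ℝ) ^ 2 * W ^ 2) ≤ 4 / W ^ 2 := by
            apply div_le_div_of_nonneg_left (by norm_num) (by positivity)
            have : (1:ℝ) ≤ (H : ℝ) ^ 2 := by nlinarith
            nlinarith [sq_nonneg W]
          have h7 : 2 / W ^ 2 + 4 / ((H : ℝ) ^ 2 * W ^ 2) ≤ 6 / W ^ 2 := by
            have : (6:ℝ) / W ^ 2 = 2 / W ^ 2 + 4 / W ^ 2 := by ring
            linarith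
          have := mul_le_mul_of_nonneg_right h7 (by positivity : 0 ≤ C * W)
          linarith
      _ = 6 * C * (1 / W) + 4 * (Real.exp 2 * Real.exp 2) * (1 / (H : ℝ) ^ 2) := by
          field_simp
      _ ≤ (6 * C + 4 * (Real.exp 2 * Real.exp 2)) * (1 / W + 1 / (H : ℝ) ^ 2) := by
          have ha : 0 ≤ 1 / W := by positivity
          have hb : 0 ≤ 1 / (H : ℝ) ^ 2 := by positivity
          have he : 0 ≤ 4 * (Real.exp 2 * Real.exp 2) := by positivity
          have h1 : 0 ≤ 6 * C * (1 / (H : ℝ) ^ 2) := by positivity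
          have h2 : 0 ≤ 4 * (Real.exp 2 * Real.exp 2) * (1 / W) := by positivity
          nlinarith

end Pool.Agent.H376R2.TT
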