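import Pool.Agent.H376R2.TT.Defs

/-! Task DVAR (helper36): the Donsker-Varadhan inequality for finite-valued functions. -/

set_option autoImplicit false

namespace Pool.Agent.H376R2.TT

open Finset Filter Pool.Agent.H376R2.MR

theorem dvar_bd_mul {φ ψ : ℕ → ℝ} (h1 : Bd φ) (h2 : Bd ψ) : Bd (fun n => φ n * ψ n) := by
  obtain ⟨C, hC⟩ := h1
  obtain ⟨D, hD⟩ := h2
  refine ⟨C * D, fun n => ?_⟩
  rw [abs_mul]
  exact mul_le_mul (hC n) (hD n) (abs_nonneg _) ((abs_nonneg _).trans (hC n))

theorem dvar_bd_sum {ι : Type*} (s : Finset ι) (φ : ι → ℕ → ℝ) (h : ∀ i ∈ s, Bd (φ i)) :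
    Bd (fun n => ∑ i ∈ s, φ i n) := by
  classical
  induction s using Finset.induction_on with
  | empty => exact ⟨0, fun n => by simp⟩
  | insert i s hi ih =>
    obtain ⟨C, hC⟩ := h i (Finset.mem_insert_self _ _)
    obtain ⟨D, hD⟩ := ih (fun j hj => h j (Finset.mem_insert_of_mem hj))
    refine ⟨C + D, fun n => ?_⟩
    show |∑ i ∈ insert i s, φ i n| ≤ C + D
    rw [Finset.sum_insert hi]
    exact (abs_add_le _ _).trans (add_le_add (hC n) (hD n))

theorem dvar_mean_sum (μ : SMean) {ι : Type*} (s : Finset ι) (φ : ι → ℕ → ℝ)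
    (h : ∀ i ∈ s, Bd (φ i)) :
    μ.m (fun n => ∑ i ∈ s, φ i n) = ∑ i ∈ s, μ.m (φ i) := by
  classical
  induction s using Finset.induction_on with
  | empty =>
    have h1 := μ.smul 0 (fun _ => 1) ⟨1, fun n => by simp⟩
    simp only [zero_mul] at h1
    simpa using h1
  | insert i s hi ih =>
    have h1 := h i (Finset.mem_insert_self _ _)
    have h2 := fun j hj => h j (Finset.mem_insert_of_mem hj)
    rw [Finset.sum_insert hi, ← ih h2, ← μ.add _ _ h1 (dvar_bd_sum s φ h2)]
    congr 1
    funext n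
    rw [Finset.sum_insert hi]

theorem dvar_bd_ind (p : ℕ → Prop) [DecidablePred p] : Bd (fun n => if p n then (1:ℝ) else 0) := by
  refine ⟨1, fun n => ?_⟩
  show |if p n then (1:ℝ) else 0| ≤ 1
  split_ifs <;> simp

theorem dvar_pr_nonneg {α : Type*} [DecidableEq α] (μ : SMean) (X : ℕ → α) (x : α) :
    0 ≤ pr μ X x := by
  refine μ.nonneg _ (dvar_bd_ind _) fun n => ?_
  split_ifs <;> simp

section

variable {α β : Type*} [DecidableEq α] [Fintype α] [DecidableEq β] [Fintype β]

theorem dvar_expect (μ : SMean) (X : ℕ → α) (f : α → ℝ) :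
    μ.m (fun n => f (X n)) = ∑ x, pr μ X x * f x := by
  have h1 : (fun n => f (X n)) = fun n => ∑ x : α, (f x * if X n = x then (1:ℝ) else 0) := by
    funext n
    simp
  have hb : ∀ x : α, Bd (fun n => f x * if X n = x then (1:ℝ) else 0) := fun x =>
    dvar_bd_mul ⟨|f x|, fun _ => le_rfl⟩ (dvar_bd_ind _)
  rw [h1, dvar_mean_sum μ Finset.univ _ (fun x _ => hb x)]
  refine Finset.sum_congr rfl fun x _ => ?_
  rw [μ.smul _ _ (dvar_bd_ind _), mul_comm]
  rfl

theorem dvar_pr_sum (μ : SMean) (X : ℕ → α) : ∑ x, pr μ X x = 1 := by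
  have h := dvar_expect μ X (fun _ => 1)
  simp only [mul_one] at h
  rw [← h, μ.one]

omit [Fintype α] in
theorem dvar_marg_left (μ : SMean) (X : ℕ → α) (Y : ℕ → β) (x : α) :
    pr μ X x = ∑ y, pr μ (fun n => (X n, Y n)) (x, y) := by
  unfold pr
  rw [← dvar_mean_sum μ Finset.univ (fun y n => if (X n, Y n) = (x, y) then (1:ℝ) else 0)
    (fun y _ => dvar_bd_ind _)]
  congr 1
  funext n
  by_cases hx : X n = x
  · simp [hx]
  · simp [hx]

omit [Fintype β] in
theorem dvar_marg_right (μ : SMean) (X : ℕ → α) (Y : ℕ → β) (y : β) :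
    pr μ Y y = ∑ x, pr μ (fun n => (X n, Y n)) (x, y) := by
  unfold pr
  rw [← dvar_mean_sum μ Finset.univ (fun x n => if (X n, Y n) = (x, y) then (1:ℝ) else 0)
    (fun x _ => dvar_bd_ind _)]
  congr 1
  funext n
  by_cases hy : Y n = y
  · simp [hy]
  · simp [hy]

theorem dvar_MI (μ : SMean) (X : ℕ → α) (Y : ℕ → β) :
    MI μ X Y = ∑ x, ∑ y, pr μ (fun n => (X n, Y n)) (x, y) *
      (Real.log (pr μ (fun n => (X n, Y n)) (x, y)) - Real.log (pr μ X x) -
        Real.log (pr μ Y y)) := by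
  unfold MI Ent
  rw [Fintype.sum_prod_type]
  have h1 : ∑ x, Real.negMulLog (pr μ X x) =
      ∑ x, ∑ y, -(pr μ (fun n => (X n, Y n)) (x, y) * Real.log (pr μ X x)) := by
    refine Finset.sum_congr rfl fun x _ => ?_
    rw [Finset.sum_neg_distrib, ← Finset.sum_mul, ← dvar_marg_left, Real.negMulLog, neg_mul]
  have h2 : ∑ y, Real.negMulLog (pr μ Y y) =
      ∑ x, ∑ y, -(pr μ (fun n => (X n, Y n)) (x, y) * Real.log (pr μ Y y)) := by
    rw [Finset.sum_comm]
    refine Finset.sum_congr rfl fun y _ => ?_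
    rw [Finset.sum_neg_distrib, ← Finset.sum_mul, ← dvar_marg_right, Real.negMulLog, neg_mul]
  rw [h1, h2, ← Finset.sum_add_distrib, ← Finset.sum_sub_distrib]
  refine Finset.sum_congr rfl fun x _ => ?_
  rw [← Finset.sum_add_distrib, ← Finset.sum_sub_distrib]
  refine Finset.sum_congr rfl fun y _ => ?_
  rw [Real.negMulLog]
  ring

theorem dvar (μ : SMean) (X : ℕ → α) (Y : ℕ → β) (F : α → β → ℝ) (K : ℝ) (hK : 0 < K)
    (h : ∀ x, ∑ y, pr μ Y y * Real.exp (F x y) ≤ K) :
    μ.m (fun n => F (X n) (Y n)) ≤ MI μ X Y + Real.log K := by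
  set r : α → β → ℝ := fun x y => pr μ (fun n => (X n, Y n)) (x, y) with hr
  set p : α → ℝ := fun x => pr μ X x with hp
  set u : β → ℝ := fun y => pr μ Y y with hu
  have e1 : μ.m (fun n => F (X n) (Y n)) = ∑ x, ∑ y, r x y * F x y := by
    have := dvar_expect μ (fun n => (X n, Y n)) (fun z => F z.1 z.2)
    rw [Fintype.sum_prod_type] at this
    exact this
  have e2 : MI μ X Y = ∑ x, ∑ y, r x y * (Real.log (r x y) - Real.log (p x) - Real.log (u y)) :=
    dvar_MI μ X Y
  have e3 : ∑ x, ∑ y, r x y = 1 := by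
    have h1 : ∀ x, ∑ y, r x y = p x := fun x => (dvar_marg_left μ X Y x).symm
    simp only [h1]
    exact dvar_pr_sum μ X
  have hr0 : ∀ x y, 0 ≤ r x y := fun x y => dvar_pr_nonneg μ _ _
  have hp0 : ∀ x, 0 ≤ p x := fun x => dvar_pr_nonneg μ _ _
  have hu0 : ∀ y, 0 ≤ u y := fun y => dvar_pr_nonneg μ _ _
  have hrp : ∀ x y, r x y ≤ p x := by
    intro x y
    rw [hp]
    simp only
    rw [dvar_marg_left μ X Y x]
    exact Finset.single_le_sum (f := fun y => r x y) (fun y _ => hr0 x y) (Finset.mem_univ y)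
  have hru : ∀ x y, r x y ≤ u y := by
    intro x y
    rw [hu]
    simp only
    rw [dvar_marg_right μ X Y y]
    exact Finset.single_le_sum (f := fun x => r x y) (fun x _ => hr0 x y) (Finset.mem_univ x)
  have key : ∀ x y, r x y * F x y - r x y * (Real.log (r x y) - Real.log (p x) - Real.log (u y)) -
      r x y * Real.log K ≤ p x * (u y * Real.exp (F x y)) / K - r x y := by
    intro x y
    rcases (hr0 x y).eq_or_lt with h0 | hpos
    · rw [← h0]
      simp only [zero_mul, sub_zero]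
      have := hp0 x
      have := hu0 y
      positivity
    · have hpp : 0 < p x := hpos.trans_le (hrp x y)
      have huu : 0 < u y := hpos.trans_le (hru x y)
      have h1 := Real.log_le_sub_one_of_pos
        (show 0 < p x * (u y * Real.exp (F x y)) / (r x y * K) by positivity)
      rw [Real.log_div (by positivity) (by positivity), Real.log_mul hpp.ne' (by positivity),
        Real.log_mul huu.ne' (Real.exp_pos _).ne', Real.log_exp,
        Real.log_mul hpos.ne' hK.ne'] at h1
      have h2 := mul_le_mul_of_nonneg_left h1 hpos.le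
      have h3 : r x y * (p x * (u y * Real.exp (F x y)) / (r x y * K) - 1) =
          p x * (u y * Real.exp (F x y)) / K - r x y := by
        field_simp
      rw [h3] at h2
      calc _ = r x y * (Real.log (p x) + (Real.log (u y) + F x y) -
            (Real.log (r x y) + Real.log K)) := by ring
        _ ≤ _ := h2
  have hsum := Finset.sum_le_sum fun x (_ : x ∈ Finset.univ) =>
    Finset.sum_le_sum fun y (_ : y ∈ Finset.univ) => key x y
  simp only [Finset.sum_sub_distrib] at hsum
  rw [← e1, ← e2, e3] at hsum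
  have h4 : ∑ x, ∑ y, r x y * Real.log K = Real.log K := by
    simp only [← Finset.sum_mul]
    rw [e3, one_mul]
  rw [h4] at hsum
  have h5 : ∑ x, ∑ y, p x * (u y * Real.exp (F x y)) / K ≤ 1 := by
    have h6 : ∀ x, ∑ y, p x * (u y * Real.exp (F x y)) / K ≤ p x := by
      intro x
      rw [← Finset.sum_div, ← Finset.mul_sum, div_le_iff₀ hK]
      exact mul_le_mul_of_nonneg_left (h x) (hp0 x)
    calc _ ≤ ∑ x, p x := Finset.sum_le_sum fun x _ => h6 x
      _ = 1 := dvar_pr_sum μ X
  linarith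

end

end Pool.Agent.H376R2.TT
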