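import Pool.Agent.H376R2.TT.Defs

/-!
Project TT, task ENT: entropy of finite-valued functions with respect to a mean.
-/

set_option autoImplicit false

namespace Pool.Agent.H376R2.TT

open Finset Filter Pool.Agent.H376R2.MR

theorem ent_aux_bd (P : ℕ → Prop) [DecidablePred P] : Bd (fun n => if P n then (1:ℝ) else 0) :=
  ⟨1, fun n => by dsimp only; split_ifs <;> simp⟩

theorem ent_aux_sum (μ : SMean) {ι : Type*} (s : Finset ι) (φ : ι → ℕ → ℝ)
    (h : ∀ i, Bd (φ i)) :
    Bd (fun n => ∑ i ∈ s, φ i n) ∧ μ.m (fun n => ∑ i ∈ s, φ i n) = ∑ i ∈ s, μ.m (φ i) := by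
  classical
  induction s using Finset.induction_on with
  | empty =>
    simp only [Finset.sum_empty]
    refine ⟨⟨0, fun n => by simp⟩, ?_⟩
    have h1 := μ.smul 0 (fun _ => 1) ⟨1, fun n => by simp⟩
    simpa using h1
  | insert a s ha ih =>
    have e : (fun n => ∑ i ∈ insert a s, φ i n) = fun n => φ a n + ∑ i ∈ s, φ i n := by
      funext n
      rw [Finset.sum_insert ha]
    rw [e, Finset.sum_insert ha]
    refine ⟨?_, ?_⟩
    · obtain ⟨C, hC⟩ := h a
      obtain ⟨D, hD⟩ := ih.1
      refine ⟨C + D, fun n => (abs_add_le _ _).trans (add_le_add (hC n) (hD n))⟩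
    · rw [μ.add _ _ (h a) ih.1, ih.2]

theorem ent_aux_shift (μ : SMean) {φ : ℕ → ℝ} (h : Bd φ) (k : ℕ) :
    μ.m (fun n => φ (n + k)) = μ.m φ := by
  induction k with
  | zero => rfl
  | succ k ih =>
    rw [← ih]
    have hb : Bd (fun n => φ (n + k)) := by
      obtain ⟨C, hC⟩ := h
      exact ⟨C, fun n => hC _⟩
    have h1 := μ.shift (fun n => φ (n + k)) hb
    rw [← h1]
    congr 1
    funext n
    congr 1
    omega

section
variable {α β γ : Type*} [DecidableEq α] [Fintype α] [DecidableEq β] [Fintype β] [DecidableEq γ] [Fintype γ]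

omit [Fintype α] in
theorem ent_aux_nonneg (μ : SMean) (X : ℕ → α) (x : α) : 0 ≤ pr μ X x := by
  unfold pr
  apply μ.nonneg _ (ent_aux_bd _)
  intro n
  split_ifs <;> norm_num

omit [Fintype β] in
theorem ent_aux_comp (μ : SMean) (X : ℕ → α) (f : α → β) (b : β) :
    pr μ (fun n => f (X n)) b = ∑ x, if f x = b then pr μ X x else 0 := by
  unfold pr
  have h1 := (ent_aux_sum μ (univ.filter (fun x => f x = b))
    (fun x n => if X n = x then (1:ℝ) else 0) (fun x => ent_aux_bd _)).2
  rw [← Finset.sum_filter, ← h1]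
  congr 1
  funext n
  rw [Finset.sum_ite_eq]
  simp

theorem ent_aux_one (μ : SMean) (X : ℕ → α) : ∑ x, pr μ X x = 1 := by
  unfold pr
  have h1 := (ent_aux_sum μ (univ : Finset α)
    (fun x n => if X n = x then (1:ℝ) else 0) (fun x => ent_aux_bd _)).2
  rw [← h1]
  have e : (fun n => ∑ x, if X n = x then (1:ℝ) else 0) = fun _ => 1 := by
    funext n
    rw [Finset.sum_ite_eq]
    simp
  rw [e]
  exact μ.one

/-- transfer of expectations -/
theorem ent_aux_exp (μ : SMean) (X : ℕ → α) (f : α → β) (h : β → ℝ) :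
    ∑ b, pr μ (fun n => f (X n)) b * h b = ∑ x, pr μ X x * h (f x) := by
  have h1 : ∀ b, pr μ (fun n => f (X n)) b * h b =
      ∑ x, if f x = b then pr μ X x * h (f x) else 0 := by
    intro b
    rw [ent_aux_comp, Finset.sum_mul]
    apply Finset.sum_congr rfl
    intro x _
    split_ifs with hb
    · rw [hb]
    · rw [zero_mul]
  rw [Finset.sum_congr rfl (fun b _ => h1 b), Finset.sum_comm]
  apply Finset.sum_congr rfl
  intro x _
  rw [Finset.sum_ite_eq]
  simp

theorem ent_aux_le (μ : SMean) (X : ℕ → α) (f : α → β) (x : α) :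
    pr μ X x ≤ pr μ (fun n => f (X n)) (f x) := by
  rw [ent_aux_comp μ X f]
  have h1 : ∀ y ∈ (univ : Finset α), 0 ≤ (if f y = f x then pr μ X y else 0) := by
    intro y _
    split_ifs
    · exact ent_aux_nonneg μ X y
    · exact le_rfl
  have h2 := Finset.single_le_sum h1 (Finset.mem_univ x)
  rwa [if_pos rfl] at h2

theorem ent_aux_le_one (μ : SMean) (X : ℕ → α) (x : α) : pr μ X x ≤ 1 := by
  rw [← ent_aux_one μ X]
  exact Finset.single_le_sum (fun y _ => ent_aux_nonneg μ X y) (Finset.mem_univ x)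

theorem ent_aux_eq (μ : SMean) (X : ℕ → α) :
    Ent μ X = - ∑ x, pr μ X x * Real.log (pr μ X x) := by
  unfold Ent Real.negMulLog
  rw [← Finset.sum_neg_distrib]
  apply Finset.sum_congr rfl
  intro x _
  ring

/-- entropy of a function of `X` as an expectation over `X` -/
theorem ent_aux_eq_comp (μ : SMean) (X : ℕ → α) (f : α → β) :
    Ent μ (fun n => f (X n)) =
      - ∑ x, pr μ X x * Real.log (pr μ (fun n => f (X n)) (f x)) := by
  rw [ent_aux_eq, ent_aux_exp μ X f (fun b => Real.log (pr μ (fun n => f (X n)) b))]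

/-- Gibbs' inequality -/
theorem ent_aux_gibbs {ι : Type*} (s : Finset ι) (p q : ι → ℝ) (hp : ∀ i, 0 ≤ p i)
    (hq : ∀ i, 0 ≤ q i) (hpq : ∀ i, q i = 0 → p i = 0) :
    ∑ i ∈ s, p i * (Real.log (q i) - Real.log (p i)) ≤ ∑ i ∈ s, q i - ∑ i ∈ s, p i := by
  rw [← Finset.sum_sub_distrib]
  apply Finset.sum_le_sum
  intro i _
  rcases eq_or_lt_of_le (hp i) with h0 | h0
  · rw [← h0]
    simp only [zero_mul, sub_zero]
    exact hq i
  · have hq0 : 0 < q i := lt_of_le_of_ne (hq i) (fun h => h0.ne' (hpq i h.symm))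
    rw [← Real.log_div hq0.ne' h0.ne']
    have h1 := Real.log_le_sub_one_of_pos (div_pos hq0 h0)
    calc p i * Real.log (q i / p i) ≤ p i * (q i / p i - 1) :=
          mul_le_mul_of_nonneg_left h1 h0.le
      _ = q i - p i := by field_simp

theorem ent_nonneg (μ : SMean) (X : ℕ → α) : 0 ≤ Ent μ X := by
  unfold Ent
  exact Finset.sum_nonneg (fun x _ =>
    Real.negMulLog_nonneg (ent_aux_nonneg μ X x) (ent_aux_le_one μ X x))

theorem ent_le_log (μ : SMean) (X : ℕ → α) : Ent μ X ≤ Real.log (Fintype.card α) := by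
  have : Nonempty α := ⟨X 0⟩
  have hc : (0:ℝ) < Fintype.card α := by exact_mod_cast Fintype.card_pos
  have h1 := ent_aux_gibbs (univ : Finset α) (pr μ X) (fun _ => 1 / (Fintype.card α : ℝ))
    (ent_aux_nonneg μ X) (fun _ => by positivity)
    (fun i h => absurd h (by positivity))
  rw [ent_aux_one, Finset.sum_const, Finset.card_univ, nsmul_eq_mul, mul_one_div_cancel hc.ne',
    sub_self] at h1
  have h2 : ∑ x, pr μ X x * (Real.log (1 / (Fintype.card α : ℝ)) - Real.log (pr μ X x)) =
      Real.log (1 / (Fintype.card α : ℝ)) + Ent μ X := by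
    rw [ent_aux_eq]
    simp only [mul_sub]
    rw [Finset.sum_sub_distrib, ← Finset.sum_mul, ent_aux_one, one_mul, sub_eq_add_neg]
  rw [h2, one_div, Real.log_inv] at h1
  linarith

theorem ent_comp_le (μ : SMean) (X : ℕ → α) (f : α → β) : Ent μ (fun n => f (X n)) ≤ Ent μ X := by
  rw [ent_aux_eq_comp, ent_aux_eq]
  apply neg_le_neg
  apply Finset.sum_le_sum
  intro x _
  rcases eq_or_lt_of_le (ent_aux_nonneg μ X x) with h0 | h0
  · rw [← h0]; simp
  · exact mul_le_mul_of_nonneg_left (Real.log_le_log h0 (ent_aux_le μ X f x)) h0.le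

theorem ent_comp_inj (μ : SMean) (X : ℕ → α) (f : α → β) (hf : Function.Injective f) :
    Ent μ (fun n => f (X n)) = Ent μ X := by
  have : Nonempty α := ⟨X 0⟩
  apply le_antisymm (ent_comp_le μ X f)
  have h1 := ent_comp_le μ (fun n => f (X n)) (Function.invFun f)
  have h2 : (fun n => Function.invFun f (f (X n))) = X := by
    funext n
    exact Function.leftInverse_invFun hf (X n)
  rw [h2] at h1
  exact h1

theorem ent_shift (μ : SMean) (X : ℕ → α) (k : ℕ) : Ent μ (fun n => X (n + k)) = Ent μ X := by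
  unfold Ent
  apply Finset.sum_congr rfl
  intro x _
  congr 1
  unfold pr
  exact ent_aux_shift μ (ent_aux_bd (fun n => X n = x)) k

theorem ent_submod (μ : SMean) (X : ℕ → α) (Y : ℕ → β) (Z : ℕ → γ) :
    Ent μ (fun n => (X n, Y n, Z n)) + Ent μ Z ≤
      Ent μ (fun n => (X n, Z n)) + Ent μ (fun n => (Y n, Z n)) := by
  set W : ℕ → α × β × γ := fun n => (X n, Y n, Z n) with hW
  have eZ : Ent μ Z = - ∑ w, pr μ W w * Real.log (pr μ Z w.2.2) :=
    ent_aux_eq_comp μ W (fun w => w.2.2)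
  have eXZ : Ent μ (fun n => (X n, Z n)) =
      - ∑ w, pr μ W w * Real.log (pr μ (fun n => (X n, Z n)) (w.1, w.2.2)) :=
    ent_aux_eq_comp μ W (fun w => (w.1, w.2.2))
  have eYZ : Ent μ (fun n => (Y n, Z n)) =
      - ∑ w, pr μ W w * Real.log (pr μ (fun n => (Y n, Z n)) (w.2.1, w.2.2)) :=
    ent_aux_eq_comp μ W (fun w => (w.2.1, w.2.2))
  have lZ : ∀ w : α × β × γ, pr μ W w ≤ pr μ Z w.2.2 := fun w =>
    ent_aux_le μ W (fun w => w.2.2) w
  have lXZ : ∀ w : α × β × γ, pr μ W w ≤ pr μ (fun n => (X n, Z n)) (w.1, w.2.2) := fun w =>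
    ent_aux_le μ W (fun w => (w.1, w.2.2)) w
  have lYZ : ∀ w : α × β × γ, pr μ W w ≤ pr μ (fun n => (Y n, Z n)) (w.2.1, w.2.2) := fun w =>
    ent_aux_le μ W (fun w => (w.2.1, w.2.2)) w
  -- marginals of the pairs
  have mX : ∀ z, ∑ x, pr μ (fun n => (X n, Z n)) (x, z) = pr μ Z z := by
    intro z
    have h1 := ent_aux_comp μ (fun n => (X n, Z n)) (fun w => w.2) z
    have h2 : (fun n => (fun w : α × γ => w.2) ((fun n => (X n, Z n)) n)) = Z := rfl
    rw [h2] at h1
    rw [h1, Fintype.sum_prod_type]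
    apply Finset.sum_congr rfl
    intro x _
    simp
  have mY : ∀ z, ∑ y, pr μ (fun n => (Y n, Z n)) (y, z) = pr μ Z z := by
    intro z
    have h1 := ent_aux_comp μ (fun n => (Y n, Z n)) (fun w => w.2) z
    have h2 : (fun n => (fun w : β × γ => w.2) ((fun n => (Y n, Z n)) n)) = Z := rfl
    rw [h2] at h1
    rw [h1, Fintype.sum_prod_type]
    apply Finset.sum_congr rfl
    intro x _
    simp
  set q : α × β × γ → ℝ := fun w =>
    pr μ (fun n => (X n, Z n)) (w.1, w.2.2) * pr μ (fun n => (Y n, Z n)) (w.2.1, w.2.2) /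
      pr μ Z w.2.2 with hq
  have q0 : ∀ w, 0 ≤ q w := fun w => div_nonneg
    (mul_nonneg (ent_aux_nonneg _ _ _) (ent_aux_nonneg _ _ _)) (ent_aux_nonneg _ _ _)
  have qsum : ∑ w, q w = 1 := by
    have h1 : ∑ w, q w = ∑ z, ∑ x, ∑ y, q (x, y, z) := by
      rw [Fintype.sum_prod_type]
      rw [Finset.sum_comm (s := (univ : Finset γ))]
      apply Finset.sum_congr rfl
      intro x _
      rw [Fintype.sum_prod_type, Finset.sum_comm]
    rw [h1, ← ent_aux_one μ Z]
    apply Finset.sum_congr rfl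
    intro z _
    have h2 : ∑ x, ∑ y, q (x, y, z) =
        (∑ x, pr μ (fun n => (X n, Z n)) (x, z)) * (∑ y, pr μ (fun n => (Y n, Z n)) (y, z)) /
          pr μ Z z := by
      rw [Finset.sum_mul_sum, Finset.sum_div]
      apply Finset.sum_congr rfl
      intro x _
      rw [Finset.sum_div]
    rw [h2, mX, mY]
    by_cases hz : pr μ Z z = 0
    · rw [hz]; simp
    · field_simp
  have pq : ∀ w, q w = 0 → pr μ W w = 0 := by
    intro w hw
    by_contra hne
    have hpos : 0 < pr μ W w := lt_of_le_of_ne (ent_aux_nonneg _ _ _) (Ne.symm hne)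
    have h1 : 0 < q w := div_pos
      (mul_pos (hpos.trans_le (lXZ w)) (hpos.trans_le (lYZ w))) (hpos.trans_le (lZ w))
    exact h1.ne' hw
  have hg := ent_aux_gibbs (univ : Finset (α × β × γ)) (pr μ W) q (ent_aux_nonneg μ W) q0 pq
  rw [qsum, ent_aux_one, sub_self] at hg
  have hterm : ∀ w, pr μ W w * (Real.log (q w) - Real.log (pr μ W w)) =
      pr μ W w * Real.log (pr μ (fun n => (X n, Z n)) (w.1, w.2.2)) +
      pr μ W w * Real.log (pr μ (fun n => (Y n, Z n)) (w.2.1, w.2.2)) -
      pr μ W w * Real.log (pr μ Z w.2.2) - pr μ W w * Real.log (pr μ W w) := by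
    intro w
    rcases eq_or_lt_of_le (ent_aux_nonneg μ W w) with h0 | h0
    · rw [← h0]; simp
    · have a1 := (h0.trans_le (lXZ w)).ne'
      have a2 := (h0.trans_le (lYZ w)).ne'
      have a3 := (h0.trans_le (lZ w)).ne'
      simp only [hq]
      rw [Real.log_div (mul_ne_zero a1 a2) a3, Real.log_mul a1 a2]
      ring
  rw [Finset.sum_congr rfl (fun w _ => hterm w), Finset.sum_sub_distrib, Finset.sum_sub_distrib,
    Finset.sum_add_distrib] at hg
  have eW := ent_aux_eq μ W
  linarith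

theorem ent_sub (μ : SMean) (X : ℕ → α) (Y : ℕ → β) :
    Ent μ (fun n => (X n, Y n)) ≤ Ent μ X + Ent μ Y := by
  have h1 := ent_submod μ X Y (fun _ => ())
  have h2 : Ent μ (fun n => (X n, Y n, ())) = Ent μ (fun n => (X n, Y n)) := by
    have := ent_comp_inj μ (fun n => (X n, Y n)) (fun w : α × β => (w.1, w.2, ()))
      (fun a b h => by
        simp only [Prod.mk.injEq, and_true] at h
        exact Prod.ext h.1 h.2)
    exact this
  have h3 : Ent μ (fun n => (X n, ())) = Ent μ X := by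
    have := ent_comp_inj μ X (fun w : α => (w, ())) (fun a b h => by
        simp only [Prod.mk.injEq, and_true] at h
        exact h)
    exact this
  have h4 : Ent μ (fun n => (Y n, ())) = Ent μ Y := by
    have := ent_comp_inj μ Y (fun w : β => (w, ())) (fun a b h => by
        simp only [Prod.mk.injEq, and_true] at h
        exact h)
    exact this
  have h5 := ent_nonneg μ (fun _ : ℕ => ())
  rw [h2, h3, h4] at h1
  linarith

end

end Pool.Agent.H376R2.TT
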