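import Pool.Agent.H376R2.TT.Mean
import Pool.Agent.H376R2.TT.Ent
import Pool.Agent.H376R2.TT.Dvar

/-! Project TT, task DECO: decoupling (Hoeffding + Donsker-Varadhan). -/

set_option autoImplicit false

namespace Pool.Agent.H376R2.TT
open Finset Filter Pool.Agent.H376R2.MR

/-- Chinese remainder theorem for sums, two factors. -/
theorem deco_crt2 {a b : ℕ} (ha : 0 < a) (hb : 0 < b) (hab : Nat.Coprime a b) (F G : ℕ → ℝ)
    (hF : ∀ n, F (n % a) = F n) (hG : ∀ n, G (n % b) = G n) :
    ∑ n ∈ range (a * b), F n * G n = (∑ n ∈ range a, F n) * ∑ n ∈ range b, G n := by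
  rw [Finset.sum_mul_sum, ← Finset.sum_product']
  refine Finset.sum_nbij' (fun n => (n % a, n % b))
    (fun x => (Nat.chineseRemainder hab x.1 x.2 : ℕ)) ?_ ?_ ?_ ?_ ?_
  · intro n _
    simp only [mem_product, mem_range]
    exact ⟨Nat.mod_lt _ ha, Nat.mod_lt _ hb⟩
  · intro x _
    simp only [mem_range]
    exact Nat.chineseRemainder_lt_mul hab x.1 x.2 ha.ne' hb.ne'
  · intro n hn
    simp only [mem_range] at hn
    have h1 := (Nat.chineseRemainder hab (n % a) (n % b)).2
    have h2 : (Nat.chineseRemainder hab (n % a) (n % b) : ℕ) ≡ n [MOD a * b] := by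
      refine (Nat.modEq_and_modEq_iff_modEq_mul hab).1 ⟨?_, ?_⟩
      · exact h1.1.trans (Nat.mod_modEq n a)
      · exact h1.2.trans (Nat.mod_modEq n b)
    exact Nat.ModEq.eq_of_lt_of_lt h2
      (Nat.chineseRemainder_lt_mul hab _ _ ha.ne' hb.ne') hn
  · intro x hx
    simp only [mem_product, mem_range] at hx
    have h1 := (Nat.chineseRemainder hab x.1 x.2).2
    ext
    · exact Nat.mod_eq_of_modEq h1.1 hx.1
    · exact Nat.mod_eq_of_modEq h1.2 hx.2
  · intro n _
    simp only [hF, hG]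

theorem deco_dvd_per (P : Finset ℕ) (f : ℕ → ℕ → ℝ) (hf : ∀ p ∈ P, ∀ n, f p (n % p) = f p n) (n : ℕ) :
    ∏ p ∈ P, f p (n % ∏ p ∈ P, p) = ∏ p ∈ P, f p n := by
  refine Finset.prod_congr rfl fun p hp => ?_
  rw [← hf p hp (n % ∏ p ∈ P, p), ← hf p hp n, Nat.mod_mod_of_dvd n (Finset.dvd_prod_of_mem _ hp)]

/-- Chinese remainder theorem for sums. -/
theorem deco_crt (P : Finset ℕ) (f : ℕ → ℕ → ℝ) (hP : ∀ p ∈ P, p.Prime)
    (hf : ∀ p ∈ P, ∀ n, f p (n % p) = f p n) :
    ∑ n ∈ range (∏ p ∈ P, p), ∏ p ∈ P, f p n = ∏ p ∈ P, ∑ n ∈ range p, f p n := by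
  classical
  induction P using Finset.induction_on with
  | empty => simp
  | insert a S ha ih =>
    have hS : ∀ p ∈ S, p.Prime := fun p hp => hP p (mem_insert_of_mem hp)
    have hfS : ∀ p ∈ S, ∀ n, f p (n % p) = f p n := fun p hp => hf p (mem_insert_of_mem hp)
    have hpa : a.Prime := hP a (mem_insert_self _ _)
    simp only [Finset.prod_insert ha]
    rw [← ih hS hfS]
    refine deco_crt2 hpa.pos (Finset.prod_pos fun p hp => (hS p hp).pos) ?_ _ _
      (hf a (mem_insert_self _ _)) (deco_dvd_per S f hfS)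
    refine Nat.Coprime.prod_right fun p hp => ?_
    refine (Nat.coprime_primes hpa (hS p hp)).2 ?_
    rintro rfl
    exact ha hp

/-- Hoeffding's lemma for a finite average. -/
theorem deco_hoeff {p : ℕ} (hp : 0 < p) (g : ℕ → ℝ) (c s : ℝ) (hc : 0 < c) (hg : ∀ n, |g n| ≤ c)
    (h0 : ∑ n ∈ range p, g n = 0) :
    ∑ n ∈ range p, Real.exp (s * g n) ≤ p * Real.exp (s ^ 2 * c ^ 2) := by
  have key : ∀ n, Real.exp (s * g n) ≤ Real.cosh (s * c) + g n * (Real.sinh (s * c) / c) := by
    intro n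
    have hgn := abs_le.1 (hg n)
    have ha1 : 0 ≤ (c + g n) / (2 * c) := div_nonneg (by linarith) (by linarith)
    have hb1 : 0 ≤ (c - g n) / (2 * c) := div_nonneg (by linarith) (by linarith)
    have hab1 : (c + g n) / (2 * c) + (c - g n) / (2 * c) = 1 := by field_simp; ring
    have hconv := convexOn_exp.2 (Set.mem_univ (s * c)) (Set.mem_univ (-(s * c))) ha1 hb1 hab1
    simp only [smul_eq_mul] at hconv
    have e1 : (c + g n) / (2 * c) * (s * c) + (c - g n) / (2 * c) * -(s * c) = s * g n := by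
      field_simp
      ring
    rw [e1] at hconv
    refine hconv.trans (le_of_eq ?_)
    rw [Real.cosh_eq, Real.sinh_eq]
    field_simp
    ring
  calc ∑ n ∈ range p, Real.exp (s * g n)
      ≤ ∑ n ∈ range p, (Real.cosh (s * c) + g n * (Real.sinh (s * c) / c)) :=
        Finset.sum_le_sum fun n _ => key n
    _ = p * Real.cosh (s * c) := by
        rw [Finset.sum_add_distrib, ← Finset.sum_mul, h0]
        simp
    _ ≤ p * Real.exp (s ^ 2 * c ^ 2) := by
        refine mul_le_mul_of_nonneg_left ?_ (Nat.cast_nonneg _)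
        refine (Real.cosh_le_exp_half_sq _).trans (Real.exp_le_exp.2 ?_)
        nlinarith [sq_nonneg (s * c)]

/-- number of multiples of `p` in an interval of length `H` -/
theorem deco_count {p : ℕ} (hp : 0 < p) (H n : ℕ) :
    (((range H).filter (fun j => p ∣ n + j)).card : ℝ) ≤ H / p + 1 := by
  have h1 : ((range H).filter (fun j => p ∣ n + j)).card ≤ H / p + 1 := by
    have h2 : (range H).filter (fun j => p ∣ n + j) ⊆
        (range (H / p + 1)).image (fun i => (p - n % p) % p + i * p) := by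
      intro j hj
      simp only [mem_filter, mem_range] at hj
      simp only [mem_image, mem_range]
      have hmod : j % p = (p - n % p) % p := by
        have h3 : (n + j) ≡ (n + (p - n % p)) [MOD p] := by
          have h4 : n + (p - n % p) ≡ 0 [MOD p] := by
            have h5 : n + (p - n % p) = p * (n / p) + p := by
              have := Nat.div_add_mod n p
              have := Nat.mod_lt n hp
              omega
            rw [h5]
            exact (Nat.modEq_zero_iff_dvd).2 (Dvd.dvd.add (dvd_mul_right _ _) dvd_rfl)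
          exact ((Nat.modEq_zero_iff_dvd).2 hj.2).trans h4.symm
        exact Nat.ModEq.add_left_cancel' n h3
      refine ⟨j / p, ?_, ?_⟩
      · have := Nat.div_le_div_right (c := p) hj.1.le
        omega
      · rw [← hmod]
        have := Nat.mod_add_div j p
        rw [mul_comm] at this
        linarith
    calc _ ≤ ((range (H / p + 1)).image (fun i => (p - n % p) % p + i * p)).card :=
          Finset.card_le_card h2
      _ ≤ _ := by
          refine Finset.card_image_le.trans ?_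
          simp
  calc (((range H).filter (fun j => p ∣ n + j)).card : ℝ) ≤ ((H / p + 1 : ℕ) : ℝ) := by
        exact_mod_cast h1
    _ ≤ H / p + 1 := by
        push_cast
        have := @Nat.cast_div_le ℝ _ _ _ H p
        linarith

/-- one summand -/
theorem deco_G_bd {p : ℕ} (hp : 0 < p) (H n : ℕ) (hpH : p ≤ H) (c : ℕ → ℝ) (hc : ∀ j, |c j| ≤ 1) :
    |∑ j ∈ range H, ((if p ∣ n + j then (p : ℝ) else 0) - 1) * c j| ≤ 3 * H := by
  have hp' : (0 : ℝ) < p := by exact_mod_cast hp
  have hpH' : (p : ℝ) ≤ H := by exact_mod_cast hpH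
  calc |∑ j ∈ range H, ((if p ∣ n + j then (p : ℝ) else 0) - 1) * c j|
      ≤ ∑ j ∈ range H, |((if p ∣ n + j then (p : ℝ) else 0) - 1) * c j| :=
        Finset.abs_sum_le_sum_abs _ _
    _ ≤ ∑ j ∈ range H, ((if p ∣ n + j then (p : ℝ) else 0) + 1) := by
        refine Finset.sum_le_sum fun j _ => ?_
        rw [abs_mul]
        have h1 : |(if p ∣ n + j then (p : ℝ) else 0) - 1| ≤ (if p ∣ n + j then (p : ℝ) else 0) + 1 := by
          refine abs_le.2 ⟨?_, ?_⟩ <;> split_ifs <;> linarith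
        calc _ ≤ |(if p ∣ n + j then (p : ℝ) else 0) - 1| * 1 :=
              mul_le_mul_of_nonneg_left (hc j) (abs_nonneg _)
          _ ≤ _ := by rw [mul_one]; exact h1
    _ = p * (((range H).filter (fun j => p ∣ n + j)).card : ℝ) + H := by
        rw [Finset.sum_add_distrib, ← Finset.sum_filter]
        simp [mul_comm]
    _ ≤ p * (H / p + 1) + H := by
        have := deco_count hp H n
        have := mul_le_mul_of_nonneg_left this hp'.le
        linarith
    _ = H + p + H := by field_simp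
    _ ≤ 3 * H := by linarith

/-- mean zero -/
theorem deco_G_zero {p : ℕ} (hp : 0 < p) (H : ℕ) (c : ℕ → ℝ) :
    ∑ n ∈ range p, ∑ j ∈ range H, ((if p ∣ n + j then (p : ℝ) else 0) - 1) * c j = 0 := by
  rw [Finset.sum_comm]
  refine Finset.sum_eq_zero fun j _ => ?_
  rw [← Finset.sum_mul]
  have h1 : ∑ n ∈ range p, ((if p ∣ n + j then (p : ℝ) else 0) - 1) = 0 := by
    rw [Finset.sum_sub_distrib, ← Finset.sum_filter]
    have h2 : ((range p).filter (fun n => p ∣ n + j)) = {(p - j % p) % p} := by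
      ext n
      simp only [mem_filter, mem_range, mem_singleton]
      have hj := Nat.mod_lt j hp
      have hdj := Nat.div_add_mod j p
      constructor
      · rintro ⟨hn, hd⟩
        have h3 : (n + j) ≡ ((p - j % p) + j) [MOD p] := by
          have h4 : (p - j % p) + j ≡ 0 [MOD p] := by
            have h5 : (p - j % p) + j = p * (j / p) + p := by omega
            rw [h5]
            exact (Nat.modEq_zero_iff_dvd).2 (Dvd.dvd.add (dvd_mul_right _ _) dvd_rfl)
          exact ((Nat.modEq_zero_iff_dvd).2 hd).trans h4.symm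
        have h6 := Nat.ModEq.add_right_cancel' j h3
        have h7 : n % p = (p - j % p) % p := h6
        rwa [Nat.mod_eq_of_lt hn] at h7
      · rintro rfl
        refine ⟨Nat.mod_lt _ hp, ?_⟩
        have h4 : (p - j % p) % p + j ≡ 0 [MOD p] := by
          have h5 : (p - j % p) + j = p * (j / p) + p := by omega
          have h6 : (p - j % p) % p + j ≡ (p - j % p) + j [MOD p] :=
            Nat.ModEq.add_right j (Nat.mod_modEq _ _)
          refine h6.trans ?_
          rw [h5]
          exact (Nat.modEq_zero_iff_dvd).2 (Dvd.dvd.add (dvd_mul_right _ _) dvd_rfl)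
        exact (Nat.modEq_zero_iff_dvd).1 h4
    rw [h2]
    simp
  rw [h1, zero_mul]

/-- the exponential moment -/
theorem deco_mgf (P : Finset ℕ) (H : ℕ) (hP : ∀ p ∈ P, p.Prime ∧ p ≤ H) (c : ℕ → ℕ → ℝ)
    (hc : ∀ p j, |c p j| ≤ 1) (s : ℝ) :
    ∑ n ∈ range (∏ p ∈ P, p), Real.exp (s * ∑ p ∈ P, ∑ j ∈ range H,
      ((if p ∣ n + j then (p : ℝ) else 0) - 1) * c p j) ≤
    ((∏ p ∈ P, p : ℕ) : ℝ) * Real.exp (s ^ 2 * (9 * (H : ℝ) ^ 2 * P.card)) := by
  have h1 : ∀ n, Real.exp (s * ∑ p ∈ P, ∑ j ∈ range H,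
      ((if p ∣ n + j then (p : ℝ) else 0) - 1) * c p j) =
      ∏ p ∈ P, Real.exp (s * ∑ j ∈ range H, ((if p ∣ n + j then (p : ℝ) else 0) - 1) * c p j) := by
    intro n
    rw [Finset.mul_sum, Real.exp_sum]
  simp only [h1]
  have hper : ∀ p ∈ P, ∀ n, Real.exp (s * ∑ j ∈ range H,
        ((if p ∣ (n % p) + j then (p : ℝ) else 0) - 1) * c p j) =
      Real.exp (s * ∑ j ∈ range H, ((if p ∣ n + j then (p : ℝ) else 0) - 1) * c p j) := by
    intro p _ n
    congr 2
    refine Finset.sum_congr rfl fun j _ => ?_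
    have h2 : p ∣ (n % p) + j ↔ p ∣ n + j := by
      rw [← Nat.modEq_zero_iff_dvd, ← Nat.modEq_zero_iff_dvd]
      have h3 : (n % p) + j ≡ n + j [MOD p] := Nat.ModEq.add_right j (Nat.mod_modEq _ _)
      exact ⟨fun h => h3.symm.trans h, fun h => h3.trans h⟩
    simp only [h2]
  have h4 := deco_crt P (fun p n => Real.exp (s * ∑ j ∈ range H,
    ((if p ∣ n + j then (p : ℝ) else 0) - 1) * c p j)) (fun p hp => (hP p hp).1) hper
  rw [h4]
  have h5 : ((∏ p ∈ P, p : ℕ) : ℝ) * Real.exp (s ^ 2 * (9 * (H : ℝ) ^ 2 * P.card)) =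
      ∏ p ∈ P, ((p : ℝ) * Real.exp (s ^ 2 * (3 * (H : ℝ)) ^ 2)) := by
    rw [Finset.prod_mul_distrib, Finset.prod_const, ← Real.exp_nat_mul, Nat.cast_prod]
    congr 2
    ring
  rw [h5]
  refine Finset.prod_le_prod (fun p _ => Finset.sum_nonneg fun n _ => (Real.exp_pos _).le) fun p hp => ?_
  have hp0 : 0 < p := (hP p hp).1.pos
  have hH : 0 < H := lt_of_lt_of_le hp0 (hP p hp).2
  have hH' : (0 : ℝ) < H := by exact_mod_cast hH
  exact deco_hoeff hp0 _ (3 * H) s (by linarith)
    (fun n => deco_G_bd hp0 H n (hP p hp).2 (c p) (hc p)) (deco_G_zero hp0 H (c p))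

/-- optimisation in `s` -/
theorem deco_opt (m a b : ℝ) (ha : 0 ≤ a) (hb : 0 ≤ b) (h : ∀ s : ℝ, 0 < s → s * m ≤ a + s ^ 2 * b) :
    m ≤ 2 * Real.sqrt (a * b) := by
  by_contra hcon
  rw [not_le] at hcon
  have h0 : 0 ≤ Real.sqrt (a * b) := Real.sqrt_nonneg _
  have hm : 0 < m := by linarith
  have hsq : Real.sqrt (a * b) ^ 2 = a * b := Real.sq_sqrt (mul_nonneg ha hb)
  have h4 : 4 * (a * b) < m ^ 2 := by nlinarith
  rcases hb.eq_or_lt with hb0 | hb0
  · have h1 := h ((a + 1) / m) (by positivity)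
    rw [← hb0] at h1
    have h2 : (a + 1) / m * m = a + 1 := by field_simp
    rw [h2] at h1
    linarith
  · have h1 := h (m / (2 * b)) (by positivity)
    have h2 : m / (2 * b) * m = m ^ 2 / (2 * b) := by ring
    have h3 : (m / (2 * b)) ^ 2 * b = m ^ 2 / (4 * b) := by
      field_simp
      ring
    rw [h2, h3] at h1
    have h5 : m ^ 2 / (2 * b) - m ^ 2 / (4 * b) = m ^ 2 / (4 * b) := by
      field_simp
      ring
    have h6 : m ^ 2 / (4 * b) ≤ a := by linarith
    rw [div_le_iff₀ (by positivity)] at h6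
    nlinarith

theorem deco_zmod_sum (Q : ℕ) [NeZero Q] (f : ℕ → ℝ) :
    ∑ y : ZMod Q, f y.val = ∑ n ∈ range Q, f n := by
  refine Finset.sum_nbij' (fun y => y.val) (fun n => (n : ZMod Q)) ?_ ?_ ?_ ?_ ?_
  · intro y _
    simp only [mem_range]
    exact ZMod.val_lt y
  · intro n _
    exact mem_univ _
  · intro y _
    simp
  · intro n hn
    simp only [mem_range] at hn
    exact ZMod.val_cast_of_lt hn
  · intro y _
    rfl

section
variable {α β γ : Type*} [DecidableEq α] [Fintype α] [DecidableEq β] [Fintype β] [DecidableEq γ] [Fintype γ]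

theorem deco (μ : SMean) (X : ℕ → α) (P : Finset ℕ) (H : ℕ) (hP : ∀ p ∈ P, p.Prime ∧ p ≤ H)
    (Q : ℕ) [NeZero Q] (hQ : Q = ∏ p ∈ P, p) (c : ℕ → α → ℕ → ℝ) (hc : ∀ p x j, |c p x j| ≤ 1) :
    μ.m (fun n => ∑ p ∈ P, ∑ j ∈ range H, ((if p ∣ n + j then (p : ℝ) else 0) - 1) * c p (X n) j) ≤
      6 * H * Real.sqrt (MI μ X (fun n => (n : ZMod Q)) * P.card) := by
  have hQ0 : 0 < Q := Nat.pos_of_ne_zero (NeZero.ne Q)
  have hQ0' : (0 : ℝ) < Q := by exact_mod_cast hQ0
  -- the function F
  set F : α → ℕ → ℝ := fun x n => ∑ p ∈ P, ∑ j ∈ range H,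
    ((if p ∣ n + j then (p : ℝ) else 0) - 1) * c p x j with hF
  have hFper : ∀ (x : α) (n : ℕ), F x ((n : ZMod Q)).val = F x n := by
    intro x n
    simp only [hF]
    refine Finset.sum_congr rfl fun p hp => Finset.sum_congr rfl fun j _ => ?_
    have hpQ : p ∣ Q := hQ ▸ Finset.dvd_prod_of_mem _ hp
    have h2 : p ∣ ((n : ZMod Q)).val + j ↔ p ∣ n + j := by
      rw [ZMod.val_natCast, ← Nat.modEq_zero_iff_dvd, ← Nat.modEq_zero_iff_dvd]
      have h3 : (n % Q) + j ≡ n + j [MOD p] :=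
        Nat.ModEq.add_right j ((Nat.mod_modEq n Q).of_dvd hpQ)
      exact ⟨fun h => h3.symm.trans h, fun h => h3.trans h⟩
    simp only [h2]
  have hFbd : Bd (fun n => F (X n) n) := by
    refine ⟨∑ p ∈ P, 3 * (H : ℝ), fun n => ?_⟩
    simp only [hF]
    refine (Finset.abs_sum_le_sum_abs _ _).trans (Finset.sum_le_sum fun p hp => ?_)
    exact deco_G_bd (hP p hp).1.pos H n (hP p hp).2 (c p (X n)) (hc p (X n))
  have hpr : ∀ y : ZMod Q, pr μ (fun n => (n : ZMod Q)) y = 1 / Q := by
    intro y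
    rw [← mean_mod μ Q y.val hQ0]
    unfold pr
    congr 1
    funext n
    have h1 : ((n : ZMod Q) = y) ↔ (n % Q = y.val % Q) := by
      constructor
      · rintro rfl
        rw [ZMod.val_natCast, Nat.mod_mod]
      · intro h
        rw [← ZMod.natCast_zmod_val y]
        exact (ZMod.natCast_eq_natCast_iff' n y.val Q).2 h
    simp only [h1]
  have hMI : 0 ≤ MI μ X (fun n => (n : ZMod Q)) := by
    unfold MI
    have := ent_sub μ X (fun n => (n : ZMod Q))
    linarith
  have hb : (0 : ℝ) ≤ 9 * (H : ℝ) ^ 2 * P.card := by positivity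
  have key : ∀ s : ℝ, 0 < s → s * μ.m (fun n => F (X n) n) ≤
      MI μ X (fun n => (n : ZMod Q)) + s ^ 2 * (9 * (H : ℝ) ^ 2 * P.card) := by
    intro s _
    have h1 := dvar μ X (fun n => (n : ZMod Q)) (fun x y => s * F x y.val)
      (Real.exp (s ^ 2 * (9 * (H : ℝ) ^ 2 * P.card))) (Real.exp_pos _) (by
        intro x
        simp only [hpr]
        rw [← Finset.mul_sum, deco_zmod_sum Q (fun n => Real.exp (s * F x n))]
        have h2 := deco_mgf P H hP (fun p j => c p x j) (fun p j => hc p x j) s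
        rw [← hQ] at h2
        rw [div_mul_eq_mul_div, one_mul, div_le_iff₀ hQ0', mul_comm]
        exact h2)
    rw [Real.log_exp] at h1
    have h3 : (fun n => s * F (X n) ((n : ZMod Q)).val) = fun n => s * F (X n) n := by
      funext n
      rw [hFper]
    rw [h3, μ.smul s _ hFbd] at h1
    exact h1
  have h2 := deco_opt _ _ _ hMI hb key
  refine h2.trans (le_of_eq ?_)
  have h3 : MI μ X (fun n => (n : ZMod Q)) * (9 * (H : ℝ) ^ 2 * P.card) =
      (3 * (H : ℝ)) ^ 2 * (MI μ X (fun n => (n : ZMod Q)) * P.card) := by ring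
  rw [h3, Real.sqrt_mul (by positivity), Real.sqrt_sq (by positivity)]
  ring

end

end Pool.Agent.H376R2.TT
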