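import Pool.Agent.H376R2.TT.Defs
import Pool.Agent.H376R2.TT.Ent

/-! DECR: entropy decrement. -/

set_option autoImplicit false

namespace Pool.Agent.H376R2.TT
open Finset Filter Pool.Agent.H376R2.MR


variable {α : Type*} [DecidableEq α] [Fintype α]

theorem decr_blk_add (x : ℕ → α) (a h : ℕ) : ∃ f : (Fin a → α) × (Fin h → α) → (Fin (a + h) → α),
    ∀ n, blk x (a + h) n = f (blk x a n, blk x h (n + a)) := by
  refine ⟨fun p => Fin.append p.1 p.2, fun n => ?_⟩
  funext j
  show _ = Fin.append (blk x a n) (blk x h (n + a)) j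
  refine Fin.addCases (fun i => ?_) (fun i => ?_) j
  · rw [Fin.append_left]
    rfl
  · rw [Fin.append_right]
    show x (n + (a + i)) = x (n + a + i)
    rw [add_assoc]

theorem decr_iter (μ : SMean) (x : ℕ → α) (Q : ℕ) [NeZero Q] (h k : ℕ) :
    Ent μ (fun n => (blk x (k * h) n, (n : ZMod Q))) ≤ Ent μ (fun n => (n : ZMod Q)) +
      k * (Ent μ (fun n => (blk x h n, (n : ZMod Q))) - Ent μ (fun n => (n : ZMod Q))) := by
  induction k with
  | zero =>
    have h1 := ent_comp_le μ (fun n => (n : ZMod Q))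
      (fun y => ((fun j => Fin.elim0 (Fin.cast (Nat.zero_mul h) j) : Fin (0 * h) → α), y))
    have h2 : (fun n : ℕ => (blk x (0 * h) n, (n : ZMod Q))) = (fun n : ℕ =>
        (fun y : ZMod Q => ((fun j => Fin.elim0 (Fin.cast (Nat.zero_mul h) j) : Fin (0 * h) → α), y))
          (n : ZMod Q)) := by
      funext n
      refine Prod.ext ?_ rfl
      funext j
      exact Fin.elim0 (Fin.cast (Nat.zero_mul h) j)
    rw [h2]
    simp only [Nat.cast_zero, zero_mul, add_zero]
    exact h1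
  | succ k ih =>
    obtain ⟨f, hf⟩ := decr_blk_add x (k * h) h
    have e1 : (k + 1) * h = k * h + h := by ring
    rw [e1]
    have h1 : Ent μ (fun n => (blk x (k * h + h) n, (n : ZMod Q))) ≤
        Ent μ (fun n => (blk x (k * h) n, blk x h (n + k * h), (n : ZMod Q))) := by
      have h2 := ent_comp_le μ (fun n => (blk x (k * h) n, blk x h (n + k * h), (n : ZMod Q)))
        (fun t => (f (t.1, t.2.1), t.2.2))
      have h3 : (fun n : ℕ => (blk x (k * h + h) n, (n : ZMod Q))) = (fun n : ℕ =>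
          (fun t : (Fin (k * h) → α) × (Fin h → α) × ZMod Q => (f (t.1, t.2.1), t.2.2))
            (blk x (k * h) n, blk x h (n + k * h), (n : ZMod Q))) := by
        funext n
        refine Prod.ext ?_ rfl
        exact hf n
      rw [h3]
      exact h2
    have h2 := ent_submod μ (fun n => blk x (k * h) n) (fun n => blk x h (n + k * h))
      (fun n => (n : ZMod Q))
    have h3 : Ent μ (fun n => (blk x h (n + k * h), (n : ZMod Q))) ≤
        Ent μ (fun n => (blk x h n, (n : ZMod Q))) := by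
      have h4 := ent_comp_le μ (fun n => (blk x h (n + k * h), ((n + k * h : ℕ) : ZMod Q)))
        (fun t => (t.1, t.2 - ((k * h : ℕ) : ZMod Q)))
      have h5 : (fun n : ℕ => (blk x h (n + k * h), (n : ZMod Q))) = (fun n : ℕ =>
          (fun t : (Fin h → α) × ZMod Q => (t.1, t.2 - ((k * h : ℕ) : ZMod Q)))
            (blk x h (n + k * h), ((n + k * h : ℕ) : ZMod Q))) := by
        funext n
        refine Prod.ext rfl ?_
        show (n : ZMod Q) = ((n + k * h : ℕ) : ZMod Q) - ((k * h : ℕ) : ZMod Q)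
        rw [Nat.cast_add, add_sub_cancel_right]
      rw [h5]
      refine h4.trans (le_of_eq ?_)
      exact ent_shift μ (fun n => (blk x h n, (n : ZMod Q))) (k * h)
    push_cast
    nlinarith [ih, h1, h2, h3]

theorem decr_ineq (μ : SMean) (x : ℕ → α) (Q : ℕ) [NeZero Q] (h k : ℕ) :
    Ent μ (blk x (k * h)) ≤ Real.log Q +
      k * (Ent μ (blk x h) - MI μ (blk x h) (fun n => (n : ZMod Q))) := by
  have h1 := decr_iter μ x Q h k
  have h2 : Ent μ (blk x (k * h)) ≤ Ent μ (fun n => (blk x (k * h) n, (n : ZMod Q))) :=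
    ent_comp_le μ (fun n => (blk x (k * h) n, (n : ZMod Q))) Prod.fst
  have h3 : Ent μ (fun n => (n : ZMod Q)) ≤ Real.log Q := by
    have := ent_le_log μ (fun n => (n : ZMod Q))
    rwa [ZMod.card] at this
  have h4 : Ent μ (fun n => (blk x h n, (n : ZMod Q))) - Ent μ (fun n => (n : ZMod Q)) =
      Ent μ (blk x h) - MI μ (blk x h) (fun n => (n : ZMod Q)) := by
    unfold MI
    ring
  rw [h4] at h1
  linarith

theorem decr_HH_succ (j : ℕ) : HH (j + 1) = (j + 1) ^ 4 * HH j := by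
  unfold HH
  rw [Nat.factorial_succ, mul_pow]

theorem decr_HH_pos (j : ℕ) : 0 < HH j := by
  unfold HH
  positivity

theorem decr_log_HH (j : ℕ) (hj : 1 ≤ j) : Real.log (HH j) ≤ 4 * (j : ℝ) ^ 2 := by
  unfold HH
  push_cast
  rw [Real.log_pow]
  have h1 : (j.factorial : ℝ) ≤ (j : ℝ) ^ j := by exact_mod_cast Nat.factorial_le_pow j
  have h2 : Real.log (j.factorial : ℝ) ≤ j * Real.log j := by
    rw [← Real.log_pow]
    exact Real.log_le_log (by positivity) h1
  have h3 : Real.log j ≤ j := by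
    have := Real.log_le_sub_one_of_pos (show (0 : ℝ) < j by exact_mod_cast hj)
    linarith
  have h4 : (j : ℝ) * Real.log j ≤ j * j := by gcongr
  push_cast
  nlinarith

/-- one step of the decrement -/
theorem decr_step (μ : SMean) (x : ℕ → α) (Q : ℕ) [NeZero Q] (j : ℕ) (hj : 1 ≤ j)
    (hQ : Real.log Q ≤ HH j * Real.log (HH j)) :
    Ent μ (blk x (HH (j + 1))) / HH (j + 1) ≤ Ent μ (blk x (HH j)) / HH j -
      MI μ (blk x (HH j)) (fun n => (n : ZMod Q)) / HH j + (4 / (j : ℝ) - 4 / ((j : ℝ) + 1)) := by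
  have h1 := decr_ineq μ x Q (HH j) ((j + 1) ^ 4)
  rw [← decr_HH_succ] at h1
  have hj0 : (0 : ℝ) < j := by exact_mod_cast hj
  have hH : (0 : ℝ) < HH j := by exact_mod_cast decr_HH_pos j
  have hH' : (HH (j + 1) : ℝ) = ((j : ℝ) + 1) ^ 4 * HH j := by
    rw [decr_HH_succ]; push_cast; ring
  have hK : (0 : ℝ) < ((j : ℝ) + 1) ^ 4 := by positivity
  have h2 := decr_log_HH j hj
  have h3 : Real.log Q ≤ HH j * (4 * (j : ℝ) ^ 2) :=
    hQ.trans (mul_le_mul_of_nonneg_left h2 hH.le)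
  rw [hH', div_le_iff₀ (by positivity)]
  have h4 : (Ent μ (blk x (HH j)) / HH j - MI μ (blk x (HH j)) (fun n => (n : ZMod Q)) / HH j +
      (4 / (j : ℝ) - 4 / ((j : ℝ) + 1))) * (((j : ℝ) + 1) ^ 4 * HH j) =
      ((j : ℝ) + 1) ^ 4 * (Ent μ (blk x (HH j)) - MI μ (blk x (HH j)) (fun n => (n : ZMod Q))) +
      HH j * (4 / (j : ℝ) * ((j : ℝ) + 1) ^ 3) := by
    field_simp
    ring
  rw [h4]
  push_cast at h1
  have h5 : 4 * (j : ℝ) ^ 2 ≤ 4 / (j : ℝ) * ((j : ℝ) + 1) ^ 3 := by
    rw [div_mul_eq_mul_div, le_div_iff₀ hj0]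
    have : (j : ℝ) ^ 3 ≤ ((j : ℝ) + 1) ^ 3 := by gcongr; linarith
    nlinarith
  have h6 : HH j * (4 * (j : ℝ) ^ 2) ≤ HH j * (4 / (j : ℝ) * ((j : ℝ) + 1) ^ 3) :=
    mul_le_mul_of_nonneg_left h5 hH.le
  linarith

theorem decr_loglog (j : ℕ) (hj : 2 ≤ j) :
    Real.log (Real.log ((j : ℝ) + 1)) - Real.log (Real.log j) ≤ 1 / (j * Real.log j) := by
  have hj0 : (1 : ℝ) < j := by exact_mod_cast (by omega : 1 < j)
  have hl : 0 < Real.log j := Real.log_pos hj0
  have hl' : 0 < Real.log ((j : ℝ) + 1) := Real.log_pos (by linarith)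
  rw [← Real.log_div hl'.ne' hl.ne']
  have h1 := Real.log_le_sub_one_of_pos (div_pos hl' hl)
  have h2 : Real.log ((j : ℝ) + 1) - Real.log j ≤ 1 / j := by
    rw [← Real.log_div (by linarith) (by linarith)]
    have := Real.log_le_sub_one_of_pos (show (0 : ℝ) < ((j : ℝ) + 1) / j by positivity)
    have h3 : ((j : ℝ) + 1) / j - 1 = 1 / j := by field_simp; ring
    linarith
  have h3 : Real.log ((j : ℝ) + 1) / Real.log j - 1 =
      (Real.log ((j : ℝ) + 1) - Real.log j) / Real.log j := by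
    field_simp
  have h4 : (Real.log ((j : ℝ) + 1) - Real.log j) / Real.log j ≤ 1 / j / Real.log j := by
    gcongr
  have h5 : 1 / (j : ℝ) / Real.log j = 1 / (j * Real.log j) := by
    rw [div_div]
  linarith

theorem decr (μ : SMean) (x : ℕ → α) (Qm : ℕ → ℕ) [∀ j, NeZero (Qm j)]
    (hQ : ∀ j, Real.log (Qm j) ≤ HH j * Real.log (HH j)) :
    ∀ ε : ℝ, 0 < ε → ∀ j₀ : ℕ, ∃ j : ℕ, j₀ ≤ j ∧ 2 ≤ j ∧
      MI μ (blk x (HH j)) (fun n => (n : ZMod (Qm j))) ≤ ε * HH j / (j * Real.log j) := by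
  intro ε hε j₀
  by_contra hcon
  push Not at hcon
  set j₁ := max j₀ 2 with hj₁
  have hind : ∀ J : ℕ, j₁ ≤ J → Ent μ (blk x (HH J)) / HH J + ε * Real.log (Real.log J) ≤
      Ent μ (blk x (HH j₁)) / HH j₁ + 4 / (j₁ : ℝ) - 4 / (J : ℝ) +
        ε * Real.log (Real.log j₁) := by
    intro J hJ
    induction J, hJ using Nat.le_induction with
    | base => linarith
    | succ J hJ ih =>
      have hJ2 : 2 ≤ J := (le_max_right _ _).trans hJ
      have hJ0 : j₀ ≤ J := (le_max_left _ _).trans hJ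
      have h1 := decr_step μ x (Qm J) J (by omega) (hQ J)
      have h2 := hcon J hJ0 hJ2
      have h3 := decr_loglog J hJ2
      have hH : (0 : ℝ) < HH J := by exact_mod_cast decr_HH_pos J
      have h4 : ε * (1 / (J * Real.log J)) ≤
          MI μ (blk x (HH J)) (fun n => (n : ZMod (Qm J))) / HH J := by
        rw [le_div_iff₀ hH]
        have : ε * (1 / (J * Real.log J)) * HH J = ε * HH J / (J * Real.log J) := by ring
        rw [this]
        exact h2.le
      have h5 : ε * (Real.log (Real.log ((J : ℝ) + 1)) - Real.log (Real.log J)) ≤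
          ε * (1 / (J * Real.log J)) := mul_le_mul_of_nonneg_left h3 hε.le
      push_cast
      linarith
  have htend : Tendsto (fun J : ℕ => Real.log (Real.log J)) atTop atTop :=
    Real.tendsto_log_atTop.comp (Real.tendsto_log_atTop.comp tendsto_natCast_atTop_atTop)
  set B := (Ent μ (blk x (HH j₁)) / HH j₁ + 4 / (j₁ : ℝ) + ε * Real.log (Real.log j₁)) / ε with hB
  obtain ⟨J, hJ⟩ := ((htend.eventually_gt_atTop B).and (eventually_ge_atTop j₁)).exists
  have h1 := hind J hJ.2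
  have h2 : 0 ≤ Ent μ (blk x (HH J)) / HH J := div_nonneg (ent_nonneg μ _) (Nat.cast_nonneg _)
  have h3 : (0 : ℝ) ≤ 4 / (J : ℝ) := by positivity
  have h4 : ε * B = Ent μ (blk x (HH j₁)) / HH j₁ + 4 / (j₁ : ℝ) + ε * Real.log (Real.log j₁) := by
    rw [hB]; field_simp
  have h5 : ε * B < ε * Real.log (Real.log J) := mul_lt_mul_of_pos_left hJ.1 hε
  linarith

end Pool.Agent.H376R2.TT
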