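import Pool.Agent.H376R2.MR.Defs

/-!
Project TT (helper376): two-point correlations of the Liouville function in arithmetic progressions
(entropy decrement, soft short-interval theorem) and non-trivial bounds for all Moebius correlations
over systems of linear forms. Definitions.
-/

set_option autoImplicit false

namespace Pool.Agent.H376R2.TT

open Finset Filter Pool.Agent.H376R2.MR

/-! ### Part 1: short intervals, general coefficients -/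

/-- `∑ g(n) w(log(n/Y)) n^{-1-ik}` -/
noncomputable def GGg (g : ℕ → ℝ) (Y : ℝ) (k : ℤ) : ℂ :=
  DP (WN Y) (fun n => (g n : ℂ) * (bw Y n : ℂ)) k

open scoped Classical in
/-- primes `p` of the cell with `Q p` -/
noncomputable def cellQ (Q : ℕ → Prop) (H v : ℕ) : Finset ℕ := (cell H v).filter Q

noncomputable def PPQ (Q : ℕ → Prop) (H v : ℕ) (k : ℤ) : ℂ :=
  ∑ p ∈ cellQ Q H v, ch k (Real.log p) / (p : ℂ)

noncomputable def mmQ (Q : ℕ → Prop) (H v : ℕ) : ℝ := ∑ p ∈ cellQ Q H v, 1 / (p : ℝ)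

noncomputable def WWQ (Q : ℕ → Prop) (H v₀ v₁ : ℕ) : ℝ := ∑ v ∈ Ico v₀ v₁, mmQ Q H v

def SmQ (Q : ℕ → Prop) (H v₀ v₁ : ℕ) (α : ℝ) (k : ℤ) : Prop :=
  ∀ v ∈ Ico v₀ v₁, ‖PPQ Q H v k‖ ≤ Real.exp (-(α * v / H))

def SmjQ (Q : ℕ → Prop) (L : ℕ) (α : ℝ) (j : ℕ) (k : ℤ) : Prop :=
  SmQ Q (LL L j) (LL L j ^ 2) (LL L j ^ 3) (aa α j) k

/-- `g` is bounded by `1`, changes sign under multiplication by the primes with `Q`, and these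
primes have positive relative density -/
structure GQ (g : ℕ → ℝ) (Q : ℕ → Prop) : Prop where
  bd : ∀ n, |g n| ≤ 1
  mul : ∀ p m : ℕ, p.Prime → Q p → 1 ≤ m → g (p * m) = - g m
  mass : ∃ c C : ℝ, 0 < c ∧ 0 ≤ C ∧ ∀ H v₀ v₁ : ℕ, 1 ≤ H → H ≤ v₀ → v₀ ≤ v₁ →
    c * Real.log ((v₁ : ℝ) / v₀) - C ≤ WWQ Q H v₀ v₁

/-- no cell correlates fully with `p^{ik}`, `|k|` large -/
structure CB (Q : ℕ → Prop) : Prop where
  cb : ∀ M H : ℕ, 1 ≤ H → ∃ T₀ v₀ : ℕ, ∀ v : ℕ, v₀ ≤ v → ∀ k : ℤ, (T₀ : ℝ) ≤ |(k : ℝ)| →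
    |(k : ℝ)| ≤ Real.exp (M * (v : ℝ) / H) → ‖PPQ Q H v k‖ ≤ (1 - 1 / 1000) * mmQ Q H v

/-- mean value zero -/
def MZero (g : ℕ → ℝ) : Prop :=
  ∀ ε : ℝ, 0 < ε → ∃ N₀ : ℕ, ∀ N : ℕ, N₀ ≤ N → |∑ n ∈ Icc 1 N, g n| ≤ ε * N

/-- the Liouville function restricted to the class `a mod q` -/
noncomputable def lamq (q a : ℕ) (n : ℕ) : ℝ := if n % q = a % q then (lam n : ℝ) else 0

/-- primes `≡ 1 mod q` -/
def Q1 (q : ℕ) (p : ℕ) : Prop := p % q = 1 % q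

/-- normalisation `∫_{-π}^{π} Fj K² = 2π CJ K` -/
noncomputable def CJ (K : ℕ) : ℝ := ∑ k ∈ FK K, (1 - |(k : ℝ)| / K) ^ 2

/-- smoothed local average at `x` -/
noncomputable def AJ (g : ℕ → ℝ) (Y : ℝ) (K : ℕ) (x : ℝ) : ℝ :=
  (1 / CJ K) * ∑ n ∈ WN Y, g n * bw Y n * Fj K (x - Real.log n) ^ 2

/-! ### Part 2: means, entropy -/

/-- bounded functions -/
def Bd (φ : ℕ → ℝ) : Prop := ∃ C : ℝ, ∀ n, |φ n| ≤ C

/-- shift-invariant means on bounded real functions on `ℕ` -/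
structure SMean where
  m : (ℕ → ℝ) → ℝ
  add : ∀ φ ψ, Bd φ → Bd ψ → m (fun n => φ n + ψ n) = m φ + m ψ
  smul : ∀ (c : ℝ) (φ), Bd φ → m (fun n => c * φ n) = c * m φ
  nonneg : ∀ φ, Bd φ → (∀ n, 0 ≤ φ n) → 0 ≤ m φ
  one : m (fun _ => 1) = 1
  shift : ∀ φ, Bd φ → m (fun n => φ (n + 1)) = m φ

/-- probability of `X = x` -/
noncomputable def pr {α : Type*} [DecidableEq α] (μ : SMean) (X : ℕ → α) (x : α) : ℝ :=
  μ.m (fun n => if X n = x then 1 else 0)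

/-- entropy -/
noncomputable def Ent {α : Type*} [DecidableEq α] [Fintype α] (μ : SMean) (X : ℕ → α) : ℝ :=
  ∑ x : α, Real.negMulLog (pr μ X x)

/-- mutual information -/
noncomputable def MI {α β : Type*} [DecidableEq α] [Fintype α] [DecidableEq β] [Fintype β]
    (μ : SMean) (X : ℕ → α) (Y : ℕ → β) : ℝ :=
  Ent μ X + Ent μ Y - Ent μ (fun n => (X n, Y n))

/-- block of length `H` -/
def blk {α : Type*} (x : ℕ → α) (H : ℕ) (n : ℕ) : Fin H → α := fun j => x (n + j)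

/-- the scales -/
def HH (j : ℕ) : ℕ := j.factorial ^ 4

/-- primes `p ≡ 1 mod q` in `(P, 2P]` -/
def PQ (q P : ℕ) : Finset ℕ := (Ioc P (2 * P)).filter (fun p => p.Prime ∧ p % q = 1 % q)

/-- local exponential sums of the Liouville function, mean square `≤ ε H²` for large `H` -/
def PW (θ : ℝ) : Prop :=
  ∀ ε : ℝ, 0 < ε → ∃ H₀ : ℕ, ∀ H : ℕ, H₀ ≤ H → ∃ N₀ : ℕ, ∀ N : ℕ, N₀ ≤ N →
    ∑ n ∈ Icc 1 N, ‖∑ j ∈ range H, (lam (n + j) : ℂ) * er (2 * Real.pi * θ) j‖ ^ 2 ≤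
      ε * (H : ℝ) ^ 2 * N

/-- uniform version for a mean -/
def UA (μ : SMean) : Prop :=
  ∀ ε : ℝ, 0 < ε → ∃ H₀ : ℕ, ∀ H : ℕ, H₀ ≤ H → ∀ θ : ℝ,
    μ.m (fun n => ‖∑ j ∈ range H, (lam (n + j) : ℂ) * er (2 * Real.pi * θ) j‖ ^ 2) ≤
      ε * (H : ℝ) ^ 2

/-! ### Part 3: linear forms -/

/-- the product `∏ μ(a_i n + b_i) ∏ μ(c_j n + d_j)²` -/
def PF {r s : ℕ} (a b : Fin r → ℕ) (c d : Fin s → ℕ) (n : ℕ) : ℤ :=
  (∏ i, ArithmeticFunction.moebius (a i * n + b i)) *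
    ∏ j, ArithmeticFunction.moebius (c j * n + d j) ^ 2

/-- finite configuration of dilated copies of the system of forms: the `l`-th copy is used at
`n_l = (X + h_l)/D_l` -/
structure Cfg (r s : ℕ) (a b : Fin (r + 1) → ℕ) (c d : Fin s → ℕ) where
  m : ℕ
  D : Fin m → ℕ
  h : Fin m → ℤ
  M : ℕ
  κ : ℤ
  hm : Even m
  hM : 1 ≤ M
  hκ : κ = 1 ∨ κ = -1
  hD : ∀ l, 1 ≤ D l ∧ Squarefree (D l)
  hcop : ∀ l l', l ≠ l' → Nat.Coprime (D l) (D l')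
  ident : ∀ (X : ℕ) (n : Fin m → ℕ), 1 ≤ X → (∀ l, 1 ≤ n l) →
    (∀ l, (D l : ℤ) * n l = X + h l) →
    ∏ l, ∏ i, lam (a i * n l + b i) = κ * (lam (a 0 * X + b 0) * lam (a 0 * X + b 0 + M))
  loc : ∀ p : ℕ, p.Prime → ∃ x : ℤ, ∀ X : ℤ, X ≡ x [ZMOD (p : ℤ) ^ 3] →
    (∀ l, p ∣ D l → (p : ℤ) ∣ X + h l) ∧
    ∀ (l) (n : ℤ), (D l : ℤ) * n = X + h l →
      (∀ i, ¬ (p : ℤ) ^ 2 ∣ a i * n + b i) ∧ ∀ j, ¬ (p : ℤ) ^ 2 ∣ c j * n + d j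

end Pool.Agent.H376R2.TT
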