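import Pool.Agent.H376R2.TT.Defs

/-! DINI: pointwise bounds for the local exponential sums become uniform for a mean
(compactness of `[0,1]` and splitting into blocks). -/

set_option autoImplicit false

namespace Pool.Agent.H376R2.TT

open Finset Filter Pool.Agent.H376R2.MR

theorem dini_bd_const (c : ℝ) : Bd (fun _ => c) := ⟨|c|, fun _ => le_rfl⟩

theorem dini_bd_add {φ ψ : ℕ → ℝ} (h1 : Bd φ) (h2 : Bd ψ) : Bd (fun n => φ n + ψ n) := by
  obtain ⟨C, hC⟩ := h1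
  obtain ⟨D, hD⟩ := h2
  exact ⟨C + D, fun n => (abs_add_le _ _).trans (add_le_add (hC n) (hD n))⟩

theorem dini_bd_smul (c : ℝ) {φ : ℕ → ℝ} (h1 : Bd φ) : Bd (fun n => c * φ n) := by
  obtain ⟨C, hC⟩ := h1
  refine ⟨|c| * C, fun n => ?_⟩
  rw [abs_mul]
  exact mul_le_mul_of_nonneg_left (hC n) (abs_nonneg c)

theorem dini_bd_shift {φ : ℕ → ℝ} (h1 : Bd φ) (k : ℕ) : Bd (fun n => φ (n + k)) := by
  obtain ⟨C, hC⟩ := h1
  exact ⟨C, fun n => hC _⟩

theorem dini_bd_sum {ι : Type*} (s : Finset ι) (φ : ι → ℕ → ℝ) (h : ∀ i ∈ s, Bd (φ i)) :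
    Bd (fun n => ∑ i ∈ s, φ i n) := by
  classical
  induction s using Finset.induction_on with
  | empty => simpa using dini_bd_const 0
  | insert a s ha ih =>
    have h1 : Bd (fun n => φ a n + ∑ i ∈ s, φ i n) :=
      dini_bd_add (h a (mem_insert_self a s)) (ih (fun i hi => h i (mem_insert_of_mem hi)))
    simpa [Finset.sum_insert ha] using h1

theorem dini_zero (μ : SMean) : μ.m (fun _ => 0) = 0 := by
  have h := μ.smul 0 (fun _ => 1) (dini_bd_const 1)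
  simpa using h

theorem dini_const (μ : SMean) (c : ℝ) : μ.m (fun _ => c) = c := by
  have h := μ.smul c (fun _ => 1) (dini_bd_const 1)
  rw [μ.one] at h
  simpa using h

theorem dini_mono (μ : SMean) {φ ψ : ℕ → ℝ} (h1 : Bd φ) (h2 : Bd ψ) (h : ∀ n, φ n ≤ ψ n) :
    μ.m φ ≤ μ.m ψ := by
  have h3 : Bd (fun n => (-1) * φ n) := dini_bd_smul (-1) h1
  have h4 := μ.add ψ (fun n => (-1) * φ n) h2 h3
  have h5 := μ.smul (-1) φ h1
  have h6 := μ.nonneg (fun n => ψ n + (-1) * φ n) (dini_bd_add h2 h3) (fun n => by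
    have := h n
    linarith)
  rw [h4, h5] at h6
  linarith

theorem dini_sum (μ : SMean) {ι : Type*} (s : Finset ι) (φ : ι → ℕ → ℝ) (h : ∀ i ∈ s, Bd (φ i)) :
    μ.m (fun n => ∑ i ∈ s, φ i n) = ∑ i ∈ s, μ.m (φ i) := by
  classical
  induction s using Finset.induction_on with
  | empty => simpa using dini_zero μ
  | insert a s ha ih =>
    have h1 := ih (fun i hi => h i (mem_insert_of_mem hi))
    have h2 := μ.add (φ a) (fun n => ∑ i ∈ s, φ i n) (h a (mem_insert_self a s))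
      (dini_bd_sum s φ (fun i hi => h i (mem_insert_of_mem hi)))
    rw [h1] at h2
    simpa [Finset.sum_insert ha] using h2

theorem dini_shift (μ : SMean) {φ : ℕ → ℝ} (h : Bd φ) (k : ℕ) : μ.m (fun n => φ (n + k)) = μ.m φ := by
  induction k with
  | zero => simp
  | succ k ih =>
    have h1 := μ.shift (fun n => φ (n + k)) (dini_bd_shift h k)
    rw [← ih, ← h1]
    congr 1
    funext n
    congr 1
    omega

/-- the local exponential sum -/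
noncomputable def diniE (θ : ℝ) (H n : ℕ) : ℂ :=
  ∑ j ∈ range H, (lam (n + j) : ℂ) * er (2 * Real.pi * θ) j

theorem dini_norm_er (τ x : ℝ) : ‖er τ x‖ = 1 := by
  unfold er
  rw [Complex.norm_exp_ofReal_mul_I]

theorem dini_norm_lam (n : ℕ) : ‖(lam n : ℂ)‖ = 1 := by
  unfold lam
  push_cast
  simp

theorem dini_norm_le (θ : ℝ) (H n : ℕ) : ‖diniE θ H n‖ ≤ H := by
  unfold diniE
  refine (norm_sum_le _ _).trans ?_
  have : ∀ j ∈ range H, ‖(lam (n + j) : ℂ) * er (2 * Real.pi * θ) j‖ ≤ 1 := by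
    intro j _
    rw [norm_mul, dini_norm_er, dini_norm_lam, one_mul]
  calc ∑ j ∈ range H, ‖(lam (n + j) : ℂ) * er (2 * Real.pi * θ) j‖ ≤ ∑ j ∈ range H, (1 : ℝ) :=
        Finset.sum_le_sum this
    _ = H := by simp

theorem dini_bd (θ : ℝ) (H : ℕ) : Bd (fun n => ‖diniE θ H n‖ ^ 2) := by
  refine ⟨(H : ℝ) ^ 2, fun n => ?_⟩
  rw [abs_of_nonneg (by positivity)]
  exact pow_le_pow_left₀ (norm_nonneg _) (dini_norm_le θ H n) 2

theorem dini_er_add (τ x y : ℝ) : er τ (x + y) = er τ x * er τ y := by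
  unfold er
  rw [← Complex.exp_add]
  congr 1
  push_cast
  ring

/-- splitting off the first block -/
theorem dini_split (θ : ℝ) (H K n : ℕ) :
    diniE θ (H + K) n = diniE θ H n + er (2 * Real.pi * θ) H * diniE θ K (n + H) := by
  unfold diniE
  rw [Finset.sum_range_add, Finset.mul_sum]
  congr 1
  refine Finset.sum_congr rfl (fun j _ => ?_)
  rw [Nat.cast_add, dini_er_add, Nat.add_assoc]
  ring

/-- the norm of a long sum is at most the sum of the norms of the blocks -/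
theorem dini_blocks (θ : ℝ) (K t r n : ℕ) :
    ‖diniE θ (K * t + r) n‖ ≤ (∑ i ∈ range t, ‖diniE θ K (n + i * K)‖) + r := by
  induction t generalizing n with
  | zero => simpa using dini_norm_le θ r n
  | succ t ih =>
    have h1 : K * (t + 1) + r = K + (K * t + r) := by ring
    rw [h1, dini_split]
    refine (norm_add_le _ _).trans ?_
    rw [norm_mul, dini_norm_er, one_mul, Finset.sum_range_succ']
    have h2 := ih (n + K)
    have h3 : ∀ i ∈ range t, ‖diniE θ K (n + K + i * K)‖ = ‖diniE θ K (n + (i + 1) * K)‖ := by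
      intro i _
      congr 2
      ring
    rw [Finset.sum_congr rfl h3] at h2
    simp only [Nat.zero_mul, Nat.add_zero]
    linarith

/-- square of the bound, by Cauchy-Schwarz -/
theorem dini_blocks_sq (θ : ℝ) (K t r n : ℕ) :
    ‖diniE θ (K * t + r) n‖ ^ 2 ≤
      2 * t * (∑ i ∈ range t, ‖diniE θ K (n + i * K)‖ ^ 2) + 2 * (r : ℝ) ^ 2 := by
  have h1 := dini_blocks θ K t r n
  have h2 : (∑ i ∈ range t, ‖diniE θ K (n + i * K)‖) ^ 2 ≤
      t * (∑ i ∈ range t, ‖diniE θ K (n + i * K)‖ ^ 2) := by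
    have := sq_sum_le_card_mul_sum_sq (s := range t) (f := fun i => ‖diniE θ K (n + i * K)‖)
    simpa using this
  have h3 : (0 : ℝ) ≤ ∑ i ∈ range t, ‖diniE θ K (n + i * K)‖ :=
    Finset.sum_nonneg (fun i _ => norm_nonneg _)
  have h4 : (0 : ℝ) ≤ ‖diniE θ (K * t + r) n‖ := norm_nonneg _
  have h5 : ‖diniE θ (K * t + r) n‖ ^ 2 ≤ ((∑ i ∈ range t, ‖diniE θ K (n + i * K)‖) + r) ^ 2 :=
    pow_le_pow_left₀ h4 h1 2
  nlinarith [sq_nonneg ((∑ i ∈ range t, ‖diniE θ K (n + i * K)‖) - r)]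

/-- the mean square of a long sum -/
theorem dini_long (μ : SMean) (θ : ℝ) (K t r : ℕ) :
    μ.m (fun n => ‖diniE θ (K * t + r) n‖ ^ 2) ≤
      2 * (t : ℝ) ^ 2 * μ.m (fun n => ‖diniE θ K n‖ ^ 2) + 2 * (r : ℝ) ^ 2 := by
  have hb : ∀ i ∈ range t, Bd (fun n => ‖diniE θ K (n + i * K)‖ ^ 2) := by
    intro i _
    exact dini_bd_shift (dini_bd θ K) (i * K)
  have hs : Bd (fun n => ∑ i ∈ range t, ‖diniE θ K (n + i * K)‖ ^ 2) :=
    dini_bd_sum (range t) (fun i n => ‖diniE θ K (n + i * K)‖ ^ 2) hb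
  have h1 : μ.m (fun n => ‖diniE θ (K * t + r) n‖ ^ 2) ≤
      μ.m (fun n => 2 * t * (∑ i ∈ range t, ‖diniE θ K (n + i * K)‖ ^ 2) + 2 * (r : ℝ) ^ 2) :=
    dini_mono μ (dini_bd θ _) (dini_bd_add (dini_bd_smul (2 * t) hs) (dini_bd_const _))
      (fun n => dini_blocks_sq θ K t r n)
  have h2 := μ.add (fun n => 2 * t * (∑ i ∈ range t, ‖diniE θ K (n + i * K)‖ ^ 2))
    (fun _ => 2 * (r : ℝ) ^ 2) (dini_bd_smul (2 * t) hs) (dini_bd_const _)
  have h3 := μ.smul (2 * t) (fun n => ∑ i ∈ range t, ‖diniE θ K (n + i * K)‖ ^ 2) hs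
  have h4 := dini_sum μ (range t) (fun i n => ‖diniE θ K (n + i * K)‖ ^ 2) hb
  have h5 : ∀ i ∈ range t, μ.m (fun n => ‖diniE θ K (n + i * K)‖ ^ 2) =
      μ.m (fun n => ‖diniE θ K n‖ ^ 2) := fun i _ => dini_shift μ (dini_bd θ K) (i * K)
  rw [Finset.sum_congr rfl h5, Finset.sum_const, card_range, nsmul_eq_mul] at h4
  rw [h2, h3, h4, dini_const] at h1
  linarith [h1, mul_assoc (2 * (t : ℝ)) (t : ℝ) (μ.m (fun n => ‖diniE θ K n‖ ^ 2)),
    (by ring : 2 * (t : ℝ) * (t * μ.m (fun n => ‖diniE θ K n‖ ^ 2)) =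
      2 * (t : ℝ) ^ 2 * μ.m (fun n => ‖diniE θ K n‖ ^ 2))]

theorem dini_er_lip (a b x : ℝ) : ‖er a x - er b x‖ ≤ |a - b| * |x| := by
  unfold er
  have h := Real.norm_exp_I_mul_ofReal_sub_one_le (x := (a - b) * x)
  have h1 : Complex.exp ((a * x : ℝ) * Complex.I) - Complex.exp ((b * x : ℝ) * Complex.I) =
      Complex.exp ((b * x : ℝ) * Complex.I) * (Complex.exp (Complex.I * (((a - b) * x : ℝ) : ℂ)) - 1) := by
    rw [mul_sub, ← Complex.exp_add, mul_one]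
    congr 2
    push_cast
    ring
  rw [h1, norm_mul, Complex.norm_exp_ofReal_mul_I, one_mul]
  refine h.trans ?_
  rw [Real.norm_eq_abs, abs_mul]

theorem dini_lip (θ θ' : ℝ) (K n : ℕ) :
    ‖diniE θ K n‖ ≤ ‖diniE θ' K n‖ + 2 * Real.pi * (K : ℝ) ^ 2 * |θ - θ'| := by
  have h1 : ‖diniE θ K n - diniE θ' K n‖ ≤ 2 * Real.pi * (K : ℝ) ^ 2 * |θ - θ'| := by
    unfold diniE
    rw [← Finset.sum_sub_distrib]
    refine (norm_sum_le _ _).trans ?_
    have h2 : ∀ j ∈ range K, ‖(lam (n + j) : ℂ) * er (2 * Real.pi * θ) j -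
        (lam (n + j) : ℂ) * er (2 * Real.pi * θ') j‖ ≤ 2 * Real.pi * |θ - θ'| * K := by
      intro j hj
      rw [← mul_sub, norm_mul, dini_norm_lam, one_mul]
      refine (dini_er_lip _ _ _).trans ?_
      rw [← mul_sub, abs_mul, abs_of_pos (by positivity : (0 : ℝ) < 2 * Real.pi)]
      have h3 : |(j : ℝ)| ≤ K := by
        rw [abs_of_nonneg (Nat.cast_nonneg j)]
        exact_mod_cast (mem_range.mp hj).le
      exact mul_le_mul_of_nonneg_left h3 (by positivity)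
    refine (Finset.sum_le_sum h2).trans ?_
    rw [Finset.sum_const, card_range, nsmul_eq_mul]
    apply le_of_eq
    ring
  have h2 : ‖diniE θ K n‖ ≤ ‖diniE θ' K n‖ + ‖diniE θ K n - diniE θ' K n‖ := by
    have := norm_add_le (diniE θ' K n) (diniE θ K n - diniE θ' K n)
    simpa using this
  linarith

/-- a pointwise bound propagates to a neighbourhood and to all long lengths -/
theorem dini_nbhd (μ : SMean) (θ' : ℝ)
    (hp : ∀ ε : ℝ, 0 < ε → ∃ H₀ : ℕ, ∀ H : ℕ, H₀ ≤ H →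
      μ.m (fun n => ‖diniE θ' H n‖ ^ 2) ≤ ε * (H : ℝ) ^ 2) {ε : ℝ} (hε : 0 < ε) :
    ∃ (δ : ℝ) (H₀ : ℕ), 0 < δ ∧ ∀ θ : ℝ, |θ - θ'| < δ → ∀ H : ℕ, H₀ ≤ H →
      μ.m (fun n => ‖diniE θ H n‖ ^ 2) ≤ ε * (H : ℝ) ^ 2 := by
  obtain ⟨H₁, hH₁⟩ := hp (ε / 16) (by positivity)
  set K : ℕ := H₁ + 1 with hK
  have hK1 : (1 : ℝ) ≤ K := by
    rw [hK]
    push_cast
    linarith [(Nat.cast_nonneg H₁ : (0 : ℝ) ≤ (H₁ : ℝ))]
  have hKpos : (0 : ℝ) < K := by linarith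
  have hpi := Real.pi_pos
  -- choose the neighbourhood
  set δ : ℝ := Real.sqrt (ε / 16) / (2 * Real.pi * K) with hδ
  have hsq : 0 < Real.sqrt (ε / 16) := Real.sqrt_pos.mpr (by positivity)
  have hδpos : 0 < δ := by positivity
  -- long lengths
  obtain ⟨H₂, hH₂⟩ := exists_nat_ge (2 * (K : ℝ) / Real.sqrt ε)
  refine ⟨δ, H₂, hδpos, ?_⟩
  intro θ hθ H hH
  have h1 : μ.m (fun n => ‖diniE θ' K n‖ ^ 2) ≤ (ε / 16) * (K : ℝ) ^ 2 := hH₁ K (by omega)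
  have h2 : μ.m (fun n => ‖diniE θ K n‖ ^ 2) ≤ ε / 4 * (K : ℝ) ^ 2 := by
    have hd : 2 * Real.pi * (K : ℝ) ^ 2 * |θ - θ'| ≤ Real.sqrt (ε / 16) * K := by
      have : |θ - θ'| ≤ δ := hθ.le
      calc 2 * Real.pi * (K : ℝ) ^ 2 * |θ - θ'| ≤ 2 * Real.pi * (K : ℝ) ^ 2 * δ :=
            mul_le_mul_of_nonneg_left this (by positivity)
        _ = Real.sqrt (ε / 16) * K := by
            rw [hδ]
            field_simp
    have h3 : ∀ n, ‖diniE θ K n‖ ^ 2 ≤ 2 * ‖diniE θ' K n‖ ^ 2 + ε / 8 * (K : ℝ) ^ 2 := by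
      intro n
      have h4 := (dini_lip θ θ' K n).trans (add_le_add_right hd _)
      have h5 : ‖diniE θ K n‖ ^ 2 ≤ (‖diniE θ' K n‖ + Real.sqrt (ε / 16) * K) ^ 2 :=
        pow_le_pow_left₀ (norm_nonneg _) h4 2
      have h6 : Real.sqrt (ε / 16) ^ 2 = ε / 16 := Real.sq_sqrt (by positivity)
      have h7 : (Real.sqrt (ε / 16) * K) ^ 2 = ε / 16 * (K : ℝ) ^ 2 := by rw [mul_pow, h6]
      nlinarith [sq_nonneg (‖diniE θ' K n‖ - Real.sqrt (ε / 16) * K)]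
    have h4 := dini_mono μ (dini_bd θ K)
      (dini_bd_add (dini_bd_smul 2 (dini_bd θ' K)) (dini_bd_const (ε / 8 * (K : ℝ) ^ 2))) h3
    have h5 := μ.add (fun n => 2 * ‖diniE θ' K n‖ ^ 2) (fun _ => ε / 8 * (K : ℝ) ^ 2)
      (dini_bd_smul 2 (dini_bd θ' K)) (dini_bd_const _)
    have h6 := μ.smul 2 (fun n => ‖diniE θ' K n‖ ^ 2) (dini_bd θ' K)
    rw [h5, h6, dini_const] at h4
    linarith
  have h3 := dini_long μ θ K (H / K) (H % K)
  rw [Nat.div_add_mod] at h3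
  have h4 : ((H / K : ℕ) : ℝ) * K ≤ H := by
    have := Nat.div_mul_le_self H K
    exact_mod_cast this
  have h5 : ((H % K : ℕ) : ℝ) ≤ K := by
    exact_mod_cast (Nat.mod_lt H (by omega)).le
  have hse : 0 < Real.sqrt ε := Real.sqrt_pos.mpr hε
  have h6 : 2 * (K : ℝ) ≤ Real.sqrt ε * H := by
    have h7 : 2 * (K : ℝ) / Real.sqrt ε ≤ H := hH₂.trans (by exact_mod_cast hH)
    rw [div_le_iff₀ hse] at h7
    linarith
  have h7 : 4 * (K : ℝ) ^ 2 ≤ ε * (H : ℝ) ^ 2 := by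
    have h8 : (2 * (K : ℝ)) ^ 2 ≤ (Real.sqrt ε * H) ^ 2 := pow_le_pow_left₀ (by positivity) h6 2
    rw [mul_pow, mul_pow, Real.sq_sqrt hε.le] at h8
    linarith
  have h8 : (((H / K : ℕ) : ℝ) * K) ^ 2 ≤ (H : ℝ) ^ 2 := pow_le_pow_left₀ (by positivity) h4 2
  have h9 : ((H % K : ℕ) : ℝ) ^ 2 ≤ (K : ℝ) ^ 2 := pow_le_pow_left₀ (by positivity) h5 2
  have h10 : 2 * ((H / K : ℕ) : ℝ) ^ 2 * μ.m (fun n => ‖diniE θ K n‖ ^ 2) ≤
      2 * ((H / K : ℕ) : ℝ) ^ 2 * (ε / 4 * (K : ℝ) ^ 2) :=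
    mul_le_mul_of_nonneg_left h2 (by positivity)
  have h11 : 2 * ((H / K : ℕ) : ℝ) ^ 2 * (ε / 4 * (K : ℝ) ^ 2) =
      ε / 2 * (((H / K : ℕ) : ℝ) * K) ^ 2 := by ring
  have h12 : ε / 2 * (((H / K : ℕ) : ℝ) * K) ^ 2 ≤ ε / 2 * (H : ℝ) ^ 2 :=
    mul_le_mul_of_nonneg_left h8 (by positivity)
  linarith

theorem dini_er_int (k : ℤ) (j : ℕ) (θ : ℝ) :
    er (2 * Real.pi * (θ + k)) j = er (2 * Real.pi * θ) j := by
  unfold er
  have h : ((2 * Real.pi * (θ + k) * j : ℝ) : ℂ) * Complex.I =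
      ((2 * Real.pi * θ * j : ℝ) : ℂ) * Complex.I + ((k * j : ℤ) : ℂ) * (2 * Real.pi * Complex.I) := by
    push_cast
    ring
  rw [h, Complex.exp_add, Complex.exp_int_mul_two_pi_mul_I, mul_one]

theorem dini_periodic (θ : ℝ) (k : ℤ) (H n : ℕ) : diniE (θ + k) H n = diniE θ H n := by
  unfold diniE
  exact Finset.sum_congr rfl (fun j _ => by rw [dini_er_int])

theorem dini (μ : SMean) (s : ℕ → ℕ) (hs : Tendsto s atTop atTop)
    (hμ : ∀ (φ : ℕ → ℝ) (c : ℝ), Bd φ →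
      (∀ ε : ℝ, 0 < ε → ∀ᶠ i in atTop, (∑ n ∈ Icc 1 (s i), φ n) / (s i : ℝ) ≤ c + ε) → μ.m φ ≤ c)
    (hpw : ∀ θ : ℝ, PW θ) : UA μ := by
  -- pointwise bounds for the mean
  have hp : ∀ θ : ℝ, ∀ ε : ℝ, 0 < ε → ∃ H₀ : ℕ, ∀ H : ℕ, H₀ ≤ H →
      μ.m (fun n => ‖diniE θ H n‖ ^ 2) ≤ ε * (H : ℝ) ^ 2 := by
    intro θ ε hε
    obtain ⟨H₀, hH₀⟩ := hpw θ ε hε
    refine ⟨H₀, fun H hH => ?_⟩
    obtain ⟨N₀, hN₀⟩ := hH₀ H hH
    refine hμ _ _ (dini_bd θ H) ?_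
    intro ε' hε'
    filter_upwards [hs.eventually_ge_atTop (N₀ + 1)] with i hi
    have h1 := hN₀ (s i) (by omega)
    have h2 : (0 : ℝ) < (s i : ℝ) := by
      have : 0 < s i := by omega
      exact_mod_cast this
    rw [div_le_iff₀ h2]
    have h3 : (ε * (H : ℝ) ^ 2) * (s i : ℝ) ≤ (ε * (H : ℝ) ^ 2 + ε') * (s i : ℝ) :=
      mul_le_mul_of_nonneg_right (by linarith) h2.le
    exact h1.trans h3
  intro ε hε
  choose δ H₀ hδ hH₀ using fun θ' : ℝ => dini_nbhd μ θ' (hp θ') hε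
  obtain ⟨T, hT2⟩ := isCompact_Icc.elim_nhds_subcover' (s := Set.Icc (0 : ℝ) 1)
    (fun x _ => Metric.ball x (δ x)) (fun x _ => Metric.ball_mem_nhds x (hδ x))
  refine ⟨T.sup (fun x => H₀ x), ?_⟩
  intro H hH θ
  have h1 : Int.fract θ ∈ Set.Icc (0 : ℝ) 1 := ⟨Int.fract_nonneg θ, (Int.fract_lt_one θ).le⟩
  have h2 := hT2 h1
  rw [Set.mem_iUnion₂] at h2
  obtain ⟨x, hx, hx2⟩ := h2
  have h3 := hH₀ x (Int.fract θ) (by simpa [Metric.mem_ball, Real.dist_eq] using hx2) H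
    ((Finset.le_sup (f := fun x : Set.Icc (0 : ℝ) 1 => H₀ x) hx).trans hH)
  have h4 : ∀ n, diniE θ H n = diniE (Int.fract θ) H n := by
    intro n
    have := dini_periodic (Int.fract θ) ⌊θ⌋ H n
    rw [Int.fract_add_floor] at this
    exact this
  have h5 : (fun n => ‖∑ j ∈ range H, (lam (n + j) : ℂ) * er (2 * Real.pi * θ) j‖ ^ 2) =
      fun n => ‖diniE (Int.fract θ) H n‖ ^ 2 := by
    funext n
    rw [← h4 n]
    rfl
  rw [h5]
  exact h3

end Pool.Agent.H376R2.TT
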