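import Pool.Agent.H376R2.TT.Defs
import Pool.Agent.H376R2.MR.LevB
import Pool.Agent.H376R2.TT.Dec2
import Pool.Agent.H376R2.TT.Mom2

/-!
Task LEVB2 (helper640): the level `j+1`, general coefficients. Adapted from `MR/LevB.lean`.
-/

set_option autoImplicit false

namespace Pool.Agent.H376R2.TT
open Finset Filter Pool.Agent.H376R2.MR

/-- one cell on each of the two levels -/
theorem levb2_vr {g : ℕ → ℝ} {Q : ℕ → Prop} {C₀ : ℝ} (hC₀ : 0 ≤ C₀)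
    (hmom : ∀ (H r ℓ K : ℕ) (Z : ℝ), 1 ≤ H → 3 ≤ Z → 1 ≤ K →
    (K : ℝ) ≤ Z * Real.exp ((r : ℝ) * ℓ / H) →
    ∑ k ∈ FK K, ‖PPQ Q H r k ^ ℓ * GGg g Z k‖ ^ 2 ≤
      C₀ * (3 + (ℓ : ℝ) / H) ^ 2 * (ℓ.factorial : ℝ) ^ 2)
    {α : ℝ} (hα : 0 < α) (hα1 : α ≤ 1) {lN hN v r K : ℕ} (j : ℕ) {Y : ℝ} (hl : 1 ≤ lN)
    (hh1 : 1 ≤ hN) (hv2 : v < hN ^ 3) (hr1 : lN ^ 2 ≤ r)
    (hr2 : r < lN ^ 3) (hK : 1 ≤ K) (hKY : (K : ℝ) ≤ Y) (hY : Real.exp (4 * (hN : ℝ) ^ 2) ≤ Y)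
    (T : Finset ℤ) (hT : T ⊆ FK K)
    (hT1 : ∀ k ∈ T, ‖PPQ Q hN v k‖ ≤ Real.exp (-(aa α (j + 1) * v / hN))) :
    ∃ n : ℕ, (n : ℝ) ≤ ((v : ℝ) / hN) / lN + 1 ∧
    (open scoped Classical in
    ∑ k ∈ T, (if Real.exp (-(aa α j * r / lN)) < ‖PPQ Q lN r k‖ then
      ‖PPQ Q hN v k * GGg g (Y * Real.exp (-((v : ℝ) / hN))) k‖ ^ 2 else 0)) ≤
      C₀ * (Real.exp (-(α / 2 ^ (j + 1)) * ((v : ℝ) / hN) + 2 * (lN : ℝ) ^ 2) *
        ((3 + (n : ℝ) / lN) ^ 2 * (n.factorial : ℝ) ^ 2)) := by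
  classical
  have hlr : (1 : ℝ) ≤ lN := by exact_mod_cast hl
  have hhr : (1 : ℝ) ≤ hN := by exact_mod_cast hh1
  set x : ℝ := (v : ℝ) / hN with hx
  set y : ℝ := (r : ℝ) / lN with hy
  have hx0 : 0 ≤ x := by positivity
  have hxlt : x < (hN : ℝ) ^ 2 := by
    rw [hx, div_lt_iff₀ (by linarith)]
    have h1 : (v : ℝ) < (hN : ℝ) ^ 3 := by exact_mod_cast hv2
    calc (v : ℝ) < (hN : ℝ) ^ 3 := h1
      _ = (hN : ℝ) ^ 2 * hN := by ring
  have hy1 : (lN : ℝ) ≤ y := by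
    rw [hy, le_div_iff₀ (by linarith)]
    have h1 : (lN : ℝ) ^ 2 ≤ r := by exact_mod_cast hr1
    calc (lN : ℝ) * lN = (lN : ℝ) ^ 2 := by ring
      _ ≤ r := h1
  have hy2 : y ≤ (lN : ℝ) ^ 2 := by
    rw [hy, div_le_iff₀ (by linarith)]
    have h1 : (r : ℝ) ≤ (lN : ℝ) ^ 3 := by exact_mod_cast hr2.le
    calc (r : ℝ) ≤ (lN : ℝ) ^ 3 := h1
      _ = (lN : ℝ) ^ 2 * lN := by ring
  have hy0 : 0 < y := by linarith
  set n : ℕ := ⌈x / y⌉₊ with hn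
  have hn1 : x ≤ n * y := by
    have := Nat.le_ceil (x / y)
    rwa [div_le_iff₀ hy0] at this
  have hn2 : (n : ℝ) < x / y + 1 := Nat.ceil_lt_add_one (by positivity)
  have hn3 : n * y ≤ x + (lN : ℝ) ^ 2 := by
    have : (n : ℝ) * y ≤ (x / y + 1) * y := mul_le_mul_of_nonneg_right hn2.le hy0.le
    rw [add_mul, div_mul_cancel₀ _ hy0.ne', one_mul] at this
    linarith
  have hn4 : (n : ℝ) ≤ x / lN + 1 := by
    have : x / y ≤ x / lN := div_le_div_of_nonneg_left hx0 (by linarith) hy1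
    linarith
  refine ⟨n, hn4, ?_⟩
  set Z : ℝ := Y * Real.exp (-x) with hZ
  have hZ3 : 3 ≤ Z := by
    have h1 : Real.exp 3 ≤ Z := by
      have h2 : Real.exp (4 * (hN : ℝ) ^ 2) * Real.exp (-x) ≤ Z :=
        mul_le_mul_of_nonneg_right hY (Real.exp_pos _).le
      rw [← Real.exp_add] at h2
      refine le_trans (Real.exp_le_exp.2 ?_) h2
      nlinarith
    have h3 : (3 : ℝ) + 1 ≤ Real.exp 3 := Real.add_one_le_exp 3
    linarith
  have hKZ : (K : ℝ) ≤ Z * Real.exp ((r : ℝ) * n / lN) := by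
    have h1 : (r : ℝ) * n / lN = n * y := by rw [hy]; ring
    rw [h1, hZ, mul_assoc, ← Real.exp_add]
    have h2 : 1 ≤ Real.exp (-x + n * y) := Real.one_le_exp (by linarith)
    have hY0 : 0 ≤ Y := le_trans (Nat.cast_nonneg K) hKY
    calc (K : ℝ) ≤ Y := hKY
      _ = Y * 1 := (mul_one Y).symm
      _ ≤ _ := mul_le_mul_of_nonneg_left h2 hY0
  have hmain := hmom lN r n K Z hl hZ3 hK hKZ
  set E₀ : ℝ := Real.exp (-(2 * aa α (j + 1) * x) + 2 * aa α j * (n * y)) with hE₀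
  have hE₀pos : 0 < E₀ := Real.exp_pos _
  have hpt : ∀ k ∈ T, (if Real.exp (-(aa α j * r / lN)) < ‖PPQ Q lN r k‖ then
      ‖PPQ Q hN v k * GGg g Z k‖ ^ 2 else 0) ≤ E₀ * ‖PPQ Q lN r k ^ n * GGg g Z k‖ ^ 2 := by
    intro k hk
    split_ifs with hc
    · rw [norm_mul, norm_mul, norm_pow, mul_pow, mul_pow]
      have h1 := hT1 k hk
      have e1 : aa α (j + 1) * v / hN = aa α (j + 1) * x := by rw [hx]; ring
      have e2 : aa α j * r / lN = aa α j * y := by rw [hy]; ring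
      rw [e1] at h1
      rw [e2] at hc
      have h2 : ‖PPQ Q hN v k‖ ^ 2 ≤ Real.exp (-(aa α (j + 1) * x)) ^ 2 :=
        pow_le_pow_left₀ (norm_nonneg _) h1 2
      have h3 : (Real.exp (-(aa α j * y)) ^ n) ^ 2 ≤ (‖PPQ Q lN r k‖ ^ n) ^ 2 :=
        pow_le_pow_left₀ (by positivity) (pow_le_pow_left₀ (Real.exp_pos _).le hc.le n) 2
      have h4 : Real.exp (-(aa α (j + 1) * x)) ^ 2 =
          E₀ * (Real.exp (-(aa α j * y)) ^ n) ^ 2 := by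
        rw [← Real.exp_nat_mul, ← Real.exp_nat_mul, ← Real.exp_nat_mul, hE₀, ← Real.exp_add]
        congr 1
        push_cast
        ring
      rw [← mul_assoc]
      apply mul_le_mul_of_nonneg_right _ (by positivity)
      calc ‖PPQ Q hN v k‖ ^ 2 ≤ E₀ * (Real.exp (-(aa α j * y)) ^ n) ^ 2 := by rw [← h4]; exact h2
        _ ≤ E₀ * (‖PPQ Q lN r k‖ ^ n) ^ 2 := mul_le_mul_of_nonneg_left h3 hE₀pos.le
    · positivity
  have hEE : E₀ ≤ Real.exp (-(α / 2 ^ (j + 1)) * x + 2 * (lN : ℝ) ^ 2) := by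
    rw [hE₀]
    apply Real.exp_le_exp.2
    have h1 := levb_aa (α := α) j
    have h2 := levb_aa_nonneg hα j
    have h3 := levb_aa_le hα hα1 j
    have h4 : aa α j * (n * y) ≤ aa α j * (x + (lN : ℝ) ^ 2) := mul_le_mul_of_nonneg_left hn3 h2
    have h5 : aa α j * (lN : ℝ) ^ 2 ≤ 1 * (lN : ℝ) ^ 2 :=
      mul_le_mul_of_nonneg_right h3 (by positivity)
    rw [← h1]
    nlinarith
  calc ∑ k ∈ T, (if Real.exp (-(aa α j * r / lN)) < ‖PPQ Q lN r k‖ then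
      ‖PPQ Q hN v k * GGg g Z k‖ ^ 2 else 0)
      ≤ ∑ k ∈ T, E₀ * ‖PPQ Q lN r k ^ n * GGg g Z k‖ ^ 2 := Finset.sum_le_sum hpt
    _ ≤ ∑ k ∈ FK K, E₀ * ‖PPQ Q lN r k ^ n * GGg g Z k‖ ^ 2 :=
        Finset.sum_le_sum_of_subset_of_nonneg hT fun k _ _ => by positivity
    _ = E₀ * ∑ k ∈ FK K, ‖PPQ Q lN r k ^ n * GGg g Z k‖ ^ 2 := by rw [Finset.mul_sum]
    _ ≤ E₀ * (C₀ * (3 + (n : ℝ) / lN) ^ 2 * (n.factorial : ℝ) ^ 2) :=
        mul_le_mul_of_nonneg_left hmain hE₀pos.le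
    _ ≤ Real.exp (-(α / 2 ^ (j + 1)) * x + 2 * (lN : ℝ) ^ 2) *
        (C₀ * (3 + (n : ℝ) / lN) ^ 2 * (n.factorial : ℝ) ^ 2) := by
        apply mul_le_mul_of_nonneg_right hEE
        positivity
    _ = _ := by ring


theorem lev_succ2 {g : ℕ → ℝ} {Q : ℕ → Prop} (hg : GQ g Q) : ∃ C : ℝ, 0 < C ∧ ∀ α : ℝ, 0 < α → α ≤ 1 →
    ∃ L₀ : ℕ, ∀ L : ℕ, L₀ ≤ L →
    ∀ (j : ℕ) (Y : ℝ) (K : ℕ), Real.exp (4 * (LL L (j + 1) : ℝ) ^ 2) ≤ Y → 1 ≤ K → (K : ℝ) ≤ Y →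
    (open scoped Classical in
      ∑ k ∈ (FK K).filter (fun k => SmjQ Q L α (j + 1) k ∧ ¬ SmjQ Q L α j k), ‖GGg g Y k‖ ^ 2) ≤
      C / (3 ^ (j + 1) * Real.log L) := by
  classical
  obtain ⟨CM, hCM, hmv⟩ := mv
  obtain ⟨CD, hCD, hdec⟩ := dec2
  replace hdec := hdec g Q hg.bd hg.mul
  obtain ⟨C₀, hC₀, hmom⟩ := mom2
  replace hmom := hmom g Q hg.bd
  obtain ⟨c, CW, hc, hCW, hWW⟩ := hg.mass
  refine ⟨C₀ + 10 * (1 + Real.exp 2) * CM * CD * (2 / c + 1), by positivity, fun α hα hα1 => ?_⟩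
  refine ⟨max 4 (max ⌈(240 / α) ^ 2⌉₊ ⌈Real.exp ((2 * CW + 2) / c)⌉₊),
    fun L hL j Y K hY hK hKY => ?_⟩
  have hL4 : 4 ≤ L := le_trans (le_max_left _ _) hL
  have hL2 : (240 / α) ^ 2 ≤ (L : ℝ) := by
    have h1 : ⌈(240 / α) ^ 2⌉₊ ≤ L := le_trans (le_trans (le_max_left _ _) (le_max_right _ _)) hL
    exact (Nat.le_ceil _).trans (by exact_mod_cast h1)
  have hL3 : Real.exp ((2 * CW + 2) / c) ≤ (L : ℝ) := by
    have h1 : ⌈Real.exp ((2 * CW + 2) / c)⌉₊ ≤ L :=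
      le_trans (le_trans (le_max_right _ _) (le_max_right _ _)) hL
    exact (Nat.le_ceil _).trans (by exact_mod_cast h1)
  have hLr : (4 : ℝ) ≤ L := by exact_mod_cast hL4
  have hLα : 240 ≤ α * Real.sqrt L := by
    have h1 : 240 / α ≤ Real.sqrt L := Real.le_sqrt_of_sq_le hL2
    rw [div_le_iff₀ hα] at h1
    linarith
  have hlogL : (2 * CW + 2) / c ≤ Real.log L := by
    rw [Real.le_log_iff_exp_le (by linarith)]
    exact hL3
  -- the two levels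
  set lN : ℕ := LL L j with hlN
  have hhN : LL L (j + 1) = lN ^ 3 := levb_LL_succ L j
  set hN : ℕ := LL L (j + 1) with hhNdef
  have hl1 : 1 ≤ lN := Nat.one_le_pow _ _ (by omega)
  have hh1 : 1 ≤ hN := Nat.one_le_pow _ _ (by omega)
  have hlr : (1 : ℝ) ≤ lN := by exact_mod_cast hl1
  have hhr : (1 : ℝ) ≤ hN := by exact_mod_cast hh1
  have hlreal : (lN : ℝ) = (L : ℝ) ^ 3 ^ j := by
    rw [hlN]
    unfold LL
    push_cast
    rfl
  have hhreal : (hN : ℝ) = (lN : ℝ) ^ 3 := by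
    rw [hhN]
    push_cast
    rfl
  have hlogl : 3 * Real.log (lN : ℝ) = 3 ^ (j + 1) * Real.log L := by
    rw [hlreal, Real.log_pow]
    push_cast
    ring
  have hlogh : Real.log (hN : ℝ) = 3 ^ (j + 1) * Real.log L := by
    rw [hhreal, Real.log_pow, ← hlogl]
    push_cast
    ring
  set D : ℝ := 3 ^ (j + 1) * Real.log L with hD
  have h3j : (1 : ℝ) ≤ 3 ^ (j + 1) := one_le_pow₀ (by norm_num)
  have hlogL0 : 0 < (2 * CW + 2) / c := by positivity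
  have hDge' : (2 * CW + 2) / c ≤ D := by
    rw [hD]
    nlinarith
  have hD0 : 0 < D := by linarith
  have hDge : 2 * CW + 2 ≤ c * D := by
    rw [div_le_iff₀ hc] at hDge'
    linarith
  -- `W`
  have hhh2 : hN ≤ hN ^ 2 := Nat.le_self_pow (by norm_num) _
  have hh23 : hN ^ 2 ≤ hN ^ 3 := Nat.pow_le_pow_right hh1 (by norm_num)
  have hWb := hWW hN (hN ^ 2) (hN ^ 3) hh1 hhh2 hh23
  have hratio : ((hN ^ 3 : ℕ) : ℝ) / ((hN ^ 2 : ℕ) : ℝ) = hN := by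
    push_cast
    field_simp
  rw [hratio, hlogh] at hWb
  set W := WWQ Q hN (hN ^ 2) (hN ^ 3) with hWdef
  have hWge : c * D / 2 ≤ W := by
    linarith
  have hW1 : 1 ≤ W := by linarith
  have hYdec : Real.exp (4 * ((hN ^ 3 : ℕ) : ℝ) / hN) ≤ Y := by
    have : 4 * ((hN ^ 3 : ℕ) : ℝ) / hN = 4 * (hN : ℝ) ^ 2 := by
      push_cast
      field_simp
    rw [this]
    exact hY
  obtain ⟨s, a, hs, hGG, hsum⟩ := hdec hN (hN ^ 2) (hN ^ 3) hh1 hW1 Y hYdec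
  -- second part
  have hYe : Real.exp 4 ≤ Y := by
    refine le_trans (Real.exp_le_exp.2 ?_) hY
    nlinarith
  have hY0 : 0 < Y := lt_of_lt_of_le (Real.exp_pos _) hYe
  have hN1 : 1 ≤ Y / Real.exp 2 := by
    rw [le_div_iff₀ (Real.exp_pos _), one_mul]
    exact le_trans (Real.exp_le_exp.2 (by norm_num)) hYe
  have he2 : 1 ≤ Real.exp 2 := Real.one_le_exp (by norm_num)
  have hN12 : Y / Real.exp 2 ≤ Real.exp 2 * Y := by
    rw [div_le_iff₀ (Real.exp_pos _)]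
    have h1 : Y ≤ Real.exp 2 * Y := by nlinarith
    have h2 : Real.exp 2 * Y ≤ Real.exp 2 * Y * Real.exp 2 := by
      have : 0 ≤ Real.exp 2 * Y := by positivity
      nlinarith
    linarith
  have hlog4 : Real.log (Real.exp 2 * Y / (Y / Real.exp 2)) = 4 := by
    have : Real.exp 2 * Y / (Y / Real.exp 2) = Real.exp 4 := by
      rw [show (4 : ℝ) = 2 + 2 by norm_num, Real.exp_add]
      field_simp
    rw [this, Real.log_exp]
  have hpart2 : ∑ k ∈ FK K, ‖DP s a k‖ ^ 2 ≤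
      5 * (1 + Real.exp 2) * CM * CD * (2 / c + 1) / D := by
    have h1 := hmv s a (Y / Real.exp 2) (Real.exp 2 * Y) K hN1 hN12 hs hK
    rw [hlog4] at h1
    have h2 : ∑ n ∈ s, ‖a n‖ ^ 2 * ((n : ℝ) + K) ≤
        (1 + Real.exp 2) * ∑ n ∈ s, (n : ℝ) * ‖a n‖ ^ 2 := by
      rw [Finset.mul_sum]
      refine Finset.sum_le_sum fun n hn => ?_
      have h3 : (K : ℝ) ≤ Real.exp 2 * n := by
        have := (hs n hn).1
        rw [div_le_iff₀ (Real.exp_pos _)] at this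
        linarith
      have h4 : (n : ℝ) + K ≤ (1 + Real.exp 2) * n := by linarith
      calc ‖a n‖ ^ 2 * ((n : ℝ) + K) ≤ ‖a n‖ ^ 2 * ((1 + Real.exp 2) * n) :=
            mul_le_mul_of_nonneg_left h4 (by positivity)
        _ = _ := by ring
    have h5 : 1 / W + 1 / (hN : ℝ) ^ 2 ≤ (2 / c + 1) / D := by
      have h6 : 1 / W ≤ (2 / c) / D := by
        rw [div_div, div_le_div_iff₀ (by linarith) (by positivity)]
        linarith
      have h7 : 1 / (hN : ℝ) ^ 2 ≤ 1 / D := by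
        apply one_div_le_one_div_of_le hD0
        rw [← hlogh]
        have := Real.log_le_sub_one_of_pos (show (0:ℝ) < hN by linarith)
        nlinarith
      have h8 : (2 / c + 1) / D = (2 / c) / D + 1 / D := by ring
      rw [h8]
      linarith
    calc ∑ k ∈ FK K, ‖DP s a k‖ ^ 2 ≤ CM * (1 + 4) * ∑ n ∈ s, ‖a n‖ ^ 2 * ((n : ℝ) + K) := h1
      _ ≤ CM * (1 + 4) * ((1 + Real.exp 2) * (CD * ((2 / c + 1) / D))) := by
          apply mul_le_mul_of_nonneg_left _ (by positivity)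
          refine h2.trans ?_
          apply mul_le_mul_of_nonneg_left _ (by positivity)
          refine hsum.trans ?_
          exact mul_le_mul_of_nonneg_left h5 hCD.le
      _ = _ := by ring
  -- first part
  set T := (FK K).filter (fun k => SmjQ Q L α (j + 1) k ∧ ¬ SmjQ Q L α j k) with hT
  have hTs : T ⊆ FK K := Finset.filter_subset _ _
  have hvbound : ∀ v ∈ Ico (hN ^ 2) (hN ^ 3),
      ∑ k ∈ T, ‖PPQ Q hN v k * GGg g (Y * Real.exp (-((v : ℝ) / hN))) k‖ ^ 2 ≤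
        (lN : ℝ) ^ 3 * (C₀ * (1 / D / (2 * (lN : ℝ) ^ 21))) := by
    intro v hv
    rw [Finset.mem_Ico] at hv
    have hcover : ∀ k ∈ T, ‖PPQ Q hN v k * GGg g (Y * Real.exp (-((v : ℝ) / hN))) k‖ ^ 2 ≤
        ∑ r ∈ Ico (lN ^ 2) (lN ^ 3), (if Real.exp (-(aa α j * r / lN)) < ‖PPQ Q lN r k‖ then
          ‖PPQ Q hN v k * GGg g (Y * Real.exp (-((v : ℝ) / hN))) k‖ ^ 2 else 0) := by
      intro k hk
      rw [hT, Finset.mem_filter] at hk
      have h1 := hk.2.2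
      unfold SmjQ SmQ at h1
      push Not at h1
      obtain ⟨r, hr, hr2⟩ := h1
      have h2 := Finset.single_le_sum (f := fun r : ℕ => (if Real.exp (-(aa α j * r / lN)) < ‖PPQ Q lN r k‖
          then ‖PPQ Q hN v k * GGg g (Y * Real.exp (-((v : ℝ) / hN))) k‖ ^ 2 else 0))
          (fun r _ => by split_ifs <;> positivity) hr
      rw [if_pos hr2] at h2
      exact h2
    refine (Finset.sum_le_sum hcover).trans ?_
    rw [Finset.sum_comm]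
    have hrb : ∀ r ∈ Ico (lN ^ 2) (lN ^ 3),
        ∑ k ∈ T, (if Real.exp (-(aa α j * r / lN)) < ‖PPQ Q lN r k‖ then
          ‖PPQ Q hN v k * GGg g (Y * Real.exp (-((v : ℝ) / hN))) k‖ ^ 2 else 0) ≤
        C₀ * (1 / D / (2 * (lN : ℝ) ^ 21)) := by
      intro r hr
      rw [Finset.mem_Ico] at hr
      obtain ⟨n, hn1, hn2⟩ := levb2_vr hC₀.le hmom hα hα1 (lN := lN) (hN := hN) (v := v) (r := r)
        (K := K) j (Y := Y) hl1 hh1 hv.2 hr.1 hr.2 hK hKY hY T hTs (fun k hk => by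
          rw [hT, Finset.mem_filter] at hk
          exact hk.2.1 v (Finset.mem_Ico.2 hv))
      refine hn2.trans ?_
      apply mul_le_mul_of_nonneg_left _ hC₀.le
      have hx1 : (lN : ℝ) ^ 3 ≤ (v : ℝ) / hN := by
        rw [le_div_iff₀ (by linarith), ← hhreal]
        have h1 : (hN : ℝ) ^ 2 ≤ v := by exact_mod_cast hv.1
        calc (hN : ℝ) * hN = (hN : ℝ) ^ 2 := by ring
          _ ≤ v := h1
      have hx2 : (v : ℝ) / hN ≤ (lN : ℝ) ^ 6 := by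
        rw [div_le_iff₀ (by linarith)]
        have h1 : (v : ℝ) ≤ (hN : ℝ) ^ 3 := by exact_mod_cast hv.2.le
        have h2 : (lN : ℝ) ^ 6 * hN = (hN : ℝ) ^ 3 := by rw [hhreal]; ring
        rw [h2]
        exact h1
      have hreal := levb_real hα hα1 hL4 hLα j hlreal hx1 hx2 n hn1
      rw [hlogl] at hreal
      rw [le_div_iff₀ (by positivity)]
      linarith
    calc ∑ r ∈ Ico (lN ^ 2) (lN ^ 3), ∑ k ∈ T, (if Real.exp (-(aa α j * r / lN)) < ‖PPQ Q lN r k‖ then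
          ‖PPQ Q hN v k * GGg g (Y * Real.exp (-((v : ℝ) / hN))) k‖ ^ 2 else 0)
        ≤ ∑ r ∈ Ico (lN ^ 2) (lN ^ 3), C₀ * (1 / D / (2 * (lN : ℝ) ^ 21)) :=
          Finset.sum_le_sum hrb
      _ = ((Ico (lN ^ 2) (lN ^ 3)).card : ℝ) * (C₀ * (1 / D / (2 * (lN : ℝ) ^ 21))) := by
          rw [Finset.sum_const, nsmul_eq_mul]
      _ ≤ (lN : ℝ) ^ 3 * (C₀ * (1 / D / (2 * (lN : ℝ) ^ 21))) := by
          apply mul_le_mul_of_nonneg_right _ (by positivity)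
          rw [Nat.card_Ico]
          have : lN ^ 3 - lN ^ 2 ≤ lN ^ 3 := Nat.sub_le _ _
          exact_mod_cast this
  have hcard : ((Ico (hN ^ 2) (hN ^ 3)).card : ℝ) ≤ (lN : ℝ) ^ 9 := by
    rw [Nat.card_Ico]
    have h1 : hN ^ 3 - hN ^ 2 ≤ hN ^ 3 := Nat.sub_le _ _
    have h2 : hN ^ 3 = lN ^ 9 := by rw [hhN, ← pow_mul]
    rw [h2] at h1
    have h3 : hN ^ 3 - hN ^ 2 ≤ lN ^ 9 := by rw [h2]; exact h1
    exact_mod_cast h3
  have hpart1 : ∑ k ∈ T, 2 * (((Ico (hN ^ 2) (hN ^ 3)).card : ℝ) *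
      ∑ v ∈ Ico (hN ^ 2) (hN ^ 3), ‖PPQ Q hN v k * GGg g (Y * Real.exp (-((v : ℝ) / hN))) k‖ ^ 2) ≤
      C₀ / D := by
    rw [← Finset.mul_sum, ← Finset.mul_sum, Finset.sum_comm]
    have h1 : ∑ v ∈ Ico (hN ^ 2) (hN ^ 3), ∑ k ∈ T,
        ‖PPQ Q hN v k * GGg g (Y * Real.exp (-((v : ℝ) / hN))) k‖ ^ 2 ≤
        (lN : ℝ) ^ 9 * ((lN : ℝ) ^ 3 * (C₀ * (1 / D / (2 * (lN : ℝ) ^ 21)))) := by
      refine (Finset.sum_le_sum hvbound).trans ?_
      rw [Finset.sum_const, nsmul_eq_mul]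
      exact mul_le_mul_of_nonneg_right hcard (by positivity)
    have h2 : (0 : ℝ) < (lN : ℝ) ^ 21 := by positivity
    calc 2 * (((Ico (hN ^ 2) (hN ^ 3)).card : ℝ) * ∑ v ∈ Ico (hN ^ 2) (hN ^ 3), ∑ k ∈ T,
        ‖PPQ Q hN v k * GGg g (Y * Real.exp (-((v : ℝ) / hN))) k‖ ^ 2)
        ≤ 2 * ((lN : ℝ) ^ 9 * ((lN : ℝ) ^ 9 * ((lN : ℝ) ^ 3 *
          (C₀ * (1 / D / (2 * (lN : ℝ) ^ 21)))))) := by
          apply mul_le_mul_of_nonneg_left _ (by norm_num)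
          apply mul_le_mul hcard h1 (Finset.sum_nonneg fun v _ =>
            Finset.sum_nonneg fun k _ => by positivity) (by positivity)
      _ = C₀ / D := by
          field_simp
  -- the total
  have htotal : ∑ k ∈ T, ‖GGg g Y k‖ ^ 2 ≤ ∑ k ∈ T, (2 * (((Ico (hN ^ 2) (hN ^ 3)).card : ℝ) *
      ∑ v ∈ Ico (hN ^ 2) (hN ^ 3), ‖PPQ Q hN v k * GGg g (Y * Real.exp (-((v : ℝ) / hN))) k‖ ^ 2) +
        2 * ‖DP s a k‖ ^ 2) := by
    refine Finset.sum_le_sum fun k _ => ?_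
    exact levb_sq _ _ _ _ W hW1 (hGG k)
  rw [Finset.sum_add_distrib] at htotal
  have hlast : ∑ k ∈ T, 2 * ‖DP s a k‖ ^ 2 ≤ 2 * (5 * (1 + Real.exp 2) * CM * CD * (2 / c + 1) / D) := by
    rw [← Finset.mul_sum]
    apply mul_le_mul_of_nonneg_left _ (by norm_num)
    refine le_trans ?_ hpart2
    exact Finset.sum_le_sum_of_subset_of_nonneg hTs fun k _ _ => by positivity
  have hfin : (C₀ + 10 * (1 + Real.exp 2) * CM * CD * (2 / c + 1)) / D =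
      C₀ / D + 2 * (5 * (1 + Real.exp 2) * CM * CD * (2 / c + 1) / D) := by ring
  rw [hfin]
  linarith

end Pool.Agent.H376R2.TT
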