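import Pool.Agent.H376R2.TT.Tpart2A
import Pool.Agent.H376R2.TT.LevA2
import Pool.Agent.H376R2.TT.LevB2
import Pool.Agent.H376R2.TT.Cnt2

set_option autoImplicit false

namespace Pool.Agent.H376R2.TT

open Finset Filter Pool.Agent.H376R2.MR

/-- **TPART2**: the mean square of `GGg g Y k` outside a small exceptional set. -/
theorem tpart2 {g : ℕ → ℝ} {Q : ℕ → Prop} (hg : GQ g Q) {α η : ℝ} (hα : 0 < α) (hη : 0 < η) :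
    ∃ h : ℝ, 1 ≤ h ∧ ∃ Y₀ : ℝ, ∀ Y : ℝ, Y₀ ≤ Y →
    ∃ U : Finset ℤ, (U.card : ℝ) ≤ Y ^ α ∧ ∑ k ∈ FK ⌊Y / h⌋₊ \ U, ‖GGg g Y k‖ ^ 2 ≤ η :=
  tpart2_of (lev_zero2 hg) (lev_succ2 hg) (cnt2 Q) hα hη

end Pool.Agent.H376R2.TT
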