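import Pool.Agent.H376R2.TT.Small2
import Pool.Agent.H376R2.TT.Tpart2
import Pool.Agent.H376R2.TT.Upart2

set_option autoImplicit false

namespace Pool.Agent.H376R2.TT
open Finset Filter Pool.Agent.H376R2.MR

theorem energy_aux1 {g : ℕ → ℝ} (hb : ∀ n, |g n| ≤ 1) (hz : MZero g) (T₀ : ℕ) :
    ∀ η : ℝ, 0 < η → ∃ Y₀ : ℝ, ∀ Y : ℝ, Y₀ ≤ Y →
    ∑ k ∈ FK T₀, ‖GGg g Y k‖ ^ 2 ≤ η := by
  intro η hη
  have h : Tendsto (fun Y : ℝ => ∑ k ∈ FK T₀, ‖GGg g Y k‖ ^ 2) atTop (nhds 0) := by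
    have h1 : Tendsto (fun Y : ℝ => ∑ k ∈ FK T₀, ‖GGg g Y k‖ ^ 2) atTop
        (nhds (∑ _k ∈ FK T₀, (0 : ℝ))) := by
      refine tendsto_finsetSum _ fun k _ => ?_
      have h2 := (small2 hb hz k).norm.pow 2
      simpa using h2
    simpa using h1
  have h3 := (h.eventually (ge_mem_nhds hη))
  obtain ⟨Y₀, hY₀⟩ := eventually_atTop.1 h3
  exact ⟨Y₀, fun Y hY => hY₀ Y hY⟩

theorem energy {g : ℕ → ℝ} {Q : ℕ → Prop} (hg : GQ g Q) (hc : CB Q) (hz : MZero g) {η : ℝ} (hη : 0 < η) :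
    ∃ h : ℝ, 1 ≤ h ∧ ∃ Y₀ : ℝ, ∀ Y : ℝ, Y₀ ≤ Y → ∑ k ∈ FK ⌊Y / h⌋₊, ‖GGg g Y k‖ ^ 2 ≤ η := by
  obtain ⟨al, hal, T₀, Y1, hup⟩ := upart2 hg hc (show (0 : ℝ) < η / 3 by linarith)
  obtain ⟨h, hh, Y2, htp⟩ := tpart2 hg hal (show (0 : ℝ) < η / 3 by linarith)
  obtain ⟨Y4, hsm⟩ := energy_aux1 hg.bd hz T₀ (η / 3) (by linarith)
  refine ⟨h, hh, max 1 (max (max Y1 Y2) Y4), fun Y hY => ?_⟩
  have hY0 : 1 ≤ Y := le_trans (le_max_left _ _) hY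
  have hY' : max (max Y1 Y2) Y4 ≤ Y := le_trans (le_max_right _ _) hY
  have hY1 : Y1 ≤ Y := le_trans (le_trans (le_max_left _ _) (le_max_left _ _)) hY'
  have hY2 : Y2 ≤ Y := le_trans (le_trans (le_max_right _ _) (le_max_left _ _)) hY'
  have hY4 : Y4 ≤ Y := le_trans (le_max_right _ _) hY'
  obtain ⟨U, hU1, hU2⟩ := htp Y hY2
  set F := FK ⌊Y / h⌋₊ with hF
  have hsplit : ∑ k ∈ F, ‖GGg g Y k‖ ^ 2 =
      ∑ k ∈ F ∩ U, ‖GGg g Y k‖ ^ 2 + ∑ k ∈ F \ U, ‖GGg g Y k‖ ^ 2 :=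
    (Finset.sum_inter_add_sum_sdiff F U _).symm
  have hsplit2 : ∑ k ∈ F ∩ U, ‖GGg g Y k‖ ^ 2 =
      ∑ k ∈ (F ∩ U).filter (fun k : ℤ => (T₀ : ℝ) ≤ |(k : ℝ)|), ‖GGg g Y k‖ ^ 2 +
      ∑ k ∈ (F ∩ U).filter (fun k : ℤ => ¬ (T₀ : ℝ) ≤ |(k : ℝ)|), ‖GGg g Y k‖ ^ 2 :=
    (Finset.sum_filter_add_sum_filter_not (F ∩ U) _ _).symm
  have h2 : ∑ k ∈ (F ∩ U).filter (fun k : ℤ => (T₀ : ℝ) ≤ |(k : ℝ)|), ‖GGg g Y k‖ ^ 2 ≤
      η / 3 := by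
    refine hup Y hY1 _ ?_ ?_
    · intro k hk
      rw [Finset.mem_filter, Finset.mem_inter] at hk
      refine ⟨hk.2, ?_⟩
      have hkF : k ∈ FK ⌊Y / h⌋₊ := hk.1.1
      rw [FK, Finset.mem_Ioo] at hkF
      have h3 : |(k : ℝ)| ≤ (⌊Y / h⌋₊ : ℝ) := by
        rw [abs_le]
        constructor
        · have : (-(⌊Y / h⌋₊ : ℤ) : ℤ) ≤ k := hkF.1.le
          have := (Int.cast_le (R := ℝ)).2 this
          push_cast at this
          linarith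
        · have : k ≤ (⌊Y / h⌋₊ : ℤ) := hkF.2.le
          have := (Int.cast_le (R := ℝ)).2 this
          push_cast at this
          linarith
      have h4 : (⌊Y / h⌋₊ : ℝ) ≤ Y / h := Nat.floor_le (by positivity)
      have h5 : Y / h ≤ Y := div_le_self (by linarith) hh
      linarith
    · refine le_trans ?_ hU1
      have : ((F ∩ U).filter (fun k : ℤ => (T₀ : ℝ) ≤ |(k : ℝ)|)).card ≤ U.card :=
        Finset.card_le_card ((Finset.filter_subset _ _).trans Finset.inter_subset_right)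
      exact_mod_cast this
  have h3 : ∑ k ∈ (F ∩ U).filter (fun k : ℤ => ¬ (T₀ : ℝ) ≤ |(k : ℝ)|), ‖GGg g Y k‖ ^ 2 ≤
      η / 3 := by
    refine le_trans ?_ (hsm Y hY4)
    refine Finset.sum_le_sum_of_subset_of_nonneg ?_ (fun _ _ _ => by positivity)
    intro k hk
    rw [Finset.mem_filter] at hk
    have hk2 := lt_of_not_ge hk.2
    rw [abs_lt] at hk2
    rw [FK, Finset.mem_Ioo]
    constructor
    · have : ((-(T₀ : ℤ) : ℤ) : ℝ) < (k : ℝ) := by push_cast; exact hk2.1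
      exact_mod_cast this
    · have : (k : ℝ) < ((T₀ : ℤ) : ℝ) := by push_cast; exact hk2.2
      exact_mod_cast this
  rw [hsplit, hsplit2]
  linarith

end Pool.Agent.H376R2.TT
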