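import Pool.Agent.H376R2.TT.Defs
import Pool.Agent.H357R2.SI.PairFinal

/-!
ENPR (helper204): additive energy of the primes, from the upper bound sieve for prime pairs
(`Pool.Agent.H357R2.SI.pair_sieve`).
-/

set_option autoImplicit false

namespace Pool.Agent.H376R2.TT

open Finset Filter Pool.Agent.H376R2.MR

open Pool.Agent.H357R2.SI (sg)

/-- average of the fourth power of `σ_{-1}(h)` -/
theorem enpr_sum_sg4 : ∃ C : ℝ, 1 ≤ C ∧ ∀ T : ℕ, ∑ h ∈ Finset.Icc 1 T, sg h ^ 4 ≤ C * T := by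
  have hsum : Summable (fun n : ℕ => (n : ℝ) ^ (-(9 / 8) : ℝ)) :=
    Real.summable_nat_rpow.mpr (by norm_num)
  set C₀ : ℝ := ∑' n : ℕ, (n : ℝ) ^ (-(9 / 8) : ℝ) with hC₀
  have hC₀0 : 0 ≤ C₀ := tsum_nonneg (fun n => by positivity)
  have hpart : ∀ s : Finset ℕ, ∑ d ∈ s, (d : ℝ) ^ (-(9 / 8) : ℝ) ≤ C₀ :=
    fun s => hsum.sum_le_tsum s (fun n _ => by positivity)
  have hsum2 : Summable (fun n : ℕ => (n : ℝ) ^ (-(13 / 8) : ℝ)) :=
    Real.summable_nat_rpow.mpr (by norm_num)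
  set C₁ : ℝ := ∑' n : ℕ, (n : ℝ) ^ (-(13 / 8) : ℝ) with hC₁
  have hC₁0 : 0 ≤ C₁ := tsum_nonneg (fun n => by positivity)
  have hpart1 : ∀ s : Finset ℕ, ∑ d ∈ s, (d : ℝ) ^ (-(13 / 8) : ℝ) ≤ C₁ :=
    fun s => hsum2.sum_le_tsum s (fun n _ => by positivity)
  -- Cauchy-Schwarz with a general exponent
  have hcs : ∀ (h : ℕ) (e f : ℝ), -(9 / 8 : ℝ) + f = 2 * e →
      (∑ d ∈ h.divisors, (d : ℝ) ^ e) ^ 2 ≤ C₀ * ∑ d ∈ h.divisors, (d : ℝ) ^ f := by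
    intro h e f hef
    have h2 : ∑ d ∈ h.divisors, (d : ℝ) ^ e =
        ∑ d ∈ h.divisors, (d : ℝ) ^ (-(9 / 16) : ℝ) * (d : ℝ) ^ (f / 2 : ℝ) := by
      apply Finset.sum_congr rfl
      intro d hd
      have hd0 : (0 : ℝ) < d := by exact_mod_cast Nat.pos_of_mem_divisors hd
      rw [← Real.rpow_add hd0]
      congr 1
      linarith
    rw [h2]
    refine (Finset.sum_mul_sq_le_sq_mul_sq _ _ _).trans ?_
    have h3 : ∑ d ∈ h.divisors, ((d : ℝ) ^ (-(9 / 16) : ℝ)) ^ 2 =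
        ∑ d ∈ h.divisors, (d : ℝ) ^ (-(9 / 8) : ℝ) := by
      apply Finset.sum_congr rfl
      intro d _
      rw [← Real.rpow_natCast, ← Real.rpow_mul (Nat.cast_nonneg d)]
      norm_num
    have h4 : ∑ d ∈ h.divisors, ((d : ℝ) ^ (f / 2 : ℝ)) ^ 2 =
        ∑ d ∈ h.divisors, (d : ℝ) ^ f := by
      apply Finset.sum_congr rfl
      intro d _
      rw [← Real.rpow_natCast, ← Real.rpow_mul (Nat.cast_nonneg d)]
      norm_num
    rw [h3, h4]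
    apply mul_le_mul_of_nonneg_right (hpart _)
    exact Finset.sum_nonneg (fun _ _ => by positivity)
  refine ⟨C₀ ^ 3 * C₁ + 1, by nlinarith [mul_nonneg (pow_nonneg hC₀0 3) hC₁0], fun T => ?_⟩
  have h1 : ∀ h ∈ Finset.Icc 1 T, sg h ^ 4 ≤
      C₀ ^ 3 * ∑ d ∈ h.divisors, (d : ℝ) ^ (-(5 / 8) : ℝ) := by
    intro h _
    have e1 : sg h = ∑ d ∈ h.divisors, (d : ℝ) ^ (-1 : ℝ) := by
      unfold sg
      apply Finset.sum_congr rfl
      intro d _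
      rw [Real.rpow_neg_one, one_div]
    have e2 := hcs h (-1) (-(7 / 8)) (by norm_num)
    have e3 := hcs h (-(7 / 8)) (-(5 / 8)) (by norm_num)
    rw [← e1] at e2
    have e4 : 0 ≤ ∑ d ∈ h.divisors, (d : ℝ) ^ (-(7 / 8) : ℝ) :=
      Finset.sum_nonneg (fun _ _ => by positivity)
    calc sg h ^ 4 = (sg h ^ 2) ^ 2 := by ring
      _ ≤ (C₀ * ∑ d ∈ h.divisors, (d : ℝ) ^ (-(7 / 8) : ℝ)) ^ 2 := by
          apply pow_le_pow_left₀ (sq_nonneg _) e2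
      _ = C₀ ^ 2 * (∑ d ∈ h.divisors, (d : ℝ) ^ (-(7 / 8) : ℝ)) ^ 2 := by ring
      _ ≤ C₀ ^ 2 * (C₀ * ∑ d ∈ h.divisors, (d : ℝ) ^ (-(5 / 8) : ℝ)) := by
          apply mul_le_mul_of_nonneg_left e3 (by positivity)
      _ = _ := by ring
  have h5 : ∑ h ∈ Finset.Icc 1 T, ∑ d ∈ h.divisors, (d : ℝ) ^ (-(5 / 8) : ℝ) ≤ C₁ * T := by
    have h6 : ∀ h ∈ Finset.Icc 1 T, ∑ d ∈ h.divisors, (d : ℝ) ^ (-(5 / 8) : ℝ) =
        ∑ d ∈ Finset.Icc 1 T, if d ∣ h then (d : ℝ) ^ (-(5 / 8) : ℝ) else 0 := by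
      intro h hh
      rw [Finset.mem_Icc] at hh
      rw [← Finset.sum_filter]
      apply Finset.sum_congr _ (fun _ _ => rfl)
      ext d
      rw [Nat.mem_divisors, Finset.mem_filter, Finset.mem_Icc]
      constructor
      · rintro ⟨h7, h8⟩
        exact ⟨⟨Nat.pos_of_dvd_of_pos h7 (by omega), (Nat.le_of_dvd (by omega) h7).trans hh.2⟩, h7⟩
      · rintro ⟨_, h7⟩
        exact ⟨h7, by omega⟩
    rw [Finset.sum_congr rfl h6, Finset.sum_comm]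
    have h7 : ∀ d ∈ Finset.Icc 1 T, (∑ h ∈ Finset.Icc 1 T,
        if d ∣ h then (d : ℝ) ^ (-(5 / 8) : ℝ) else 0) ≤ (d : ℝ) ^ (-(13 / 8) : ℝ) * T := by
      intro d hd
      rw [Finset.mem_Icc] at hd
      have hd0 : (0 : ℝ) < d := by exact_mod_cast hd.1
      rw [← Finset.sum_filter, Finset.sum_const, nsmul_eq_mul]
      have h8 : ((Finset.Icc 1 T).filter (fun h => d ∣ h)).card = T / d := by
        have := Nat.Ioc_filter_dvd_card_eq_div T d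
        rw [← this]
        congr 1
      rw [h8]
      have h9 : ((T / d : ℕ) : ℝ) ≤ (T : ℝ) / d := Nat.cast_div_le
      calc ((T / d : ℕ) : ℝ) * (d : ℝ) ^ (-(5 / 8) : ℝ) ≤ (T : ℝ) / d * (d : ℝ) ^ (-(5 / 8) : ℝ) := by
            gcongr
        _ = (d : ℝ) ^ (-(13 / 8) : ℝ) * T := by
            rw [show (-(13 / 8) : ℝ) = -1 + -(5 / 8) by norm_num, Real.rpow_add hd0,
              Real.rpow_neg_one]
            field_simp
    refine (Finset.sum_le_sum h7).trans ?_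
    rw [← Finset.sum_mul]
    exact mul_le_mul_of_nonneg_right (hpart1 _) (Nat.cast_nonneg T)
  calc ∑ h ∈ Finset.Icc 1 T, sg h ^ 4
      ≤ ∑ h ∈ Finset.Icc 1 T, C₀ ^ 3 * ∑ d ∈ h.divisors, (d : ℝ) ^ (-(5 / 8) : ℝ) :=
        Finset.sum_le_sum h1
    _ = C₀ ^ 3 * ∑ h ∈ Finset.Icc 1 T, ∑ d ∈ h.divisors, (d : ℝ) ^ (-(5 / 8) : ℝ) := by
        rw [Finset.mul_sum]
    _ ≤ C₀ ^ 3 * (C₁ * T) := mul_le_mul_of_nonneg_left h5 (by positivity)
    _ ≤ (C₀ ^ 3 * C₁ + 1) * T := by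
        have : (0 : ℝ) ≤ T := Nat.cast_nonneg T
        nlinarith

/-- primes `n` in `(P, 2P]` with `n + h` prime -/
def enprR (P h : ℕ) : Finset ℕ := (Ioc P (P + P)).filter (fun n => n.Prime ∧ (n + h).Prime)

theorem enpr_half (P : ℕ) :
    (((PQ 1 P ×ˢ PQ 1 P) ×ˢ (PQ 1 P ×ˢ PQ 1 P)).filter
      (fun x => x.1.1 + x.1.2 = x.2.1 + x.2.2 ∧ x.2.1 ≤ x.1.1)).card ≤
    ∑ h ∈ range (P + 1), (enprR P h).card ^ 2 := by
  classical
  have h1 : ∑ h ∈ range (P + 1), (enprR P h).card ^ 2 =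
      ((range (P + 1)).sigma (fun h => enprR P h ×ˢ enprR P h)).card := by
    rw [Finset.card_sigma]
    apply Finset.sum_congr rfl
    intro h _
    rw [Finset.card_product, sq]
  rw [h1]
  apply Finset.card_le_card_of_injOn (fun x => ⟨x.1.1 - x.2.1, (x.2.1, x.1.2)⟩)
  · rintro ⟨⟨p1, p2⟩, ⟨p3, p4⟩⟩ hx
    simp only [PQ, enprR, Finset.coe_filter, Finset.mem_product, Finset.mem_filter, Finset.mem_Ioc,
      Set.mem_setOf_eq, Finset.mem_coe, Finset.mem_sigma, Finset.mem_range] at hx ⊢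
    obtain ⟨⟨⟨⟨h1, h2, _⟩, ⟨h3, h4, _⟩⟩, ⟨h5, h6, _⟩, ⟨h7, h8, _⟩⟩, h9, h10⟩ := hx
    refine ⟨by omega, ⟨by omega, h6, ?_⟩, by omega, h4, ?_⟩
    · rw [show p3 + (p1 - p3) = p1 by omega]; exact h2
    · rw [show p2 + (p1 - p3) = p4 by omega]; exact h8
  · rintro ⟨⟨p1, p2⟩, ⟨p3, p4⟩⟩ hx ⟨⟨q1, q2⟩, ⟨q3, q4⟩⟩ hy hxy
    simp only [Finset.coe_filter, Finset.mem_product, Set.mem_setOf_eq] at hx hy
    simp only [Sigma.mk.injEq, heq_eq_eq, Prod.mk.injEq] at hxy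
    obtain ⟨_, h9, h10⟩ := hx
    obtain ⟨_, k9, k10⟩ := hy
    obtain ⟨e1, e2, e3⟩ := hxy
    simp only [Prod.mk.injEq]
    refine ⟨⟨by omega, by omega⟩, by omega, by omega⟩

theorem enpr_all (P : ℕ) :
    (((PQ 1 P ×ˢ PQ 1 P) ×ˢ (PQ 1 P ×ˢ PQ 1 P)).filter
      (fun x => x.1.1 + x.1.2 = x.2.1 + x.2.2)).card ≤
    2 * ∑ h ∈ range (P + 1), (enprR P h).card ^ 2 := by
  classical
  set A := ((PQ 1 P ×ˢ PQ 1 P) ×ˢ (PQ 1 P ×ˢ PQ 1 P)).filter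
      (fun x => x.1.1 + x.1.2 = x.2.1 + x.2.2 ∧ x.2.1 ≤ x.1.1) with hA
  set B := ((PQ 1 P ×ˢ PQ 1 P) ×ˢ (PQ 1 P ×ˢ PQ 1 P)).filter
      (fun x => x.1.1 + x.1.2 = x.2.1 + x.2.2 ∧ x.1.1 ≤ x.2.1) with hB
  have hAB : ((PQ 1 P ×ˢ PQ 1 P) ×ˢ (PQ 1 P ×ˢ PQ 1 P)).filter
      (fun x => x.1.1 + x.1.2 = x.2.1 + x.2.2) ⊆ A ∪ B := by
    intro x hx
    rw [Finset.mem_filter] at hx
    rw [Finset.mem_union, hA, hB, Finset.mem_filter, Finset.mem_filter]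
    rcases le_total x.2.1 x.1.1 with h | h
    · exact Or.inl ⟨hx.1, hx.2, h⟩
    · exact Or.inr ⟨hx.1, hx.2, h⟩
  have hBA : B.card ≤ A.card := by
    apply Finset.card_le_card_of_injOn (fun x => (x.2, x.1))
    · intro x hx
      simp only [hA, hB, Finset.coe_filter, Finset.mem_product, Set.mem_setOf_eq] at hx ⊢
      exact ⟨⟨hx.1.2, hx.1.1⟩, hx.2.1.symm, hx.2.2⟩
    · intro x _ y _ hxy
      simp only [Prod.mk.injEq] at hxy
      exact Prod.ext hxy.2 hxy.1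
  have h1 := (Finset.card_le_card hAB).trans (Finset.card_union_le _ _)
  have h2 := enpr_half P
  rw [← hA] at h2
  omega

theorem prime_energy : ∃ C : ℝ, 0 < C ∧ ∃ P₀ : ℕ, ∀ P : ℕ, P₀ ≤ P →
    ((((PQ 1 P ×ˢ PQ 1 P) ×ˢ (PQ 1 P ×ˢ PQ 1 P)).filter
      (fun x => x.1.1 + x.1.2 = x.2.1 + x.2.2)).card : ℝ) ≤ C * (P : ℝ) ^ 3 / Real.log P ^ 4 := by
  obtain ⟨C, hC, u0, hsieve⟩ := Pool.Agent.H357R2.SI.pair_sieve
  obtain ⟨D, hD, hsum⟩ := enpr_sum_sg4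
  -- log^4 P ≤ P for large P
  have hlog : ∀ᶠ x : ℝ in atTop, Real.log x ^ 4 ≤ x := by
    have h2 := (isLittleO_log_rpow_atTop (by norm_num : (0 : ℝ) < 1 / 4)).bound
      (by norm_num : (0 : ℝ) < 1)
    filter_upwards [h2, eventually_gt_atTop 1] with x h2 h3
    have hx0 : 0 < x := by linarith
    have hlog : 0 < Real.log x := Real.log_pos h3
    rw [Real.norm_of_nonneg hlog.le, Real.norm_of_nonneg (by positivity), one_mul] at h2
    calc Real.log x ^ 4 ≤ (x ^ (1 / 4 : ℝ)) ^ 4 := pow_le_pow_left₀ hlog.le h2 4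
      _ = x := by
        rw [← Real.rpow_natCast, ← Real.rpow_mul hx0.le]; norm_num
  obtain ⟨x0, hx0⟩ := Filter.eventually_atTop.mp hlog
  refine ⟨2 * (C ^ 2 * D + 1), by positivity, max (max u0 ⌈x0⌉₊) 2, ?_⟩
  intro P hP
  have hPu : u0 ≤ P := (le_max_left _ _).trans ((le_max_left _ _).trans hP)
  have hPx : x0 ≤ (P : ℝ) := Nat.ceil_le.mp ((le_max_right _ _).trans ((le_max_left _ _).trans hP))
  have hP2 : 2 ≤ P := (le_max_right _ _).trans hP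
  have hP2r : (2 : ℝ) ≤ P := by exact_mod_cast hP2
  have hl4 := hx0 P hPx
  have hlogP : 0 < Real.log P := Real.log_pos (by linarith)
  have h1 : ((((PQ 1 P ×ˢ PQ 1 P) ×ˢ (PQ 1 P ×ˢ PQ 1 P)).filter
      (fun x => x.1.1 + x.1.2 = x.2.1 + x.2.2)).card : ℝ) ≤
      2 * ∑ h ∈ range (P + 1), ((enprR P h).card : ℝ) ^ 2 := by
    exact_mod_cast enpr_all P
  refine h1.trans ?_
  rw [Finset.sum_range_succ']
  have h0 : ((enprR P 0).card : ℝ) ^ 2 ≤ (P : ℝ) ^ 3 / Real.log P ^ 4 := by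
    have h2 : (enprR P 0).card ≤ P := by
      refine (Finset.card_filter_le _ _).trans ?_
      rw [Nat.card_Ioc]; omega
    have h3 : ((enprR P 0).card : ℝ) ≤ P := by exact_mod_cast h2
    rw [le_div_iff₀ (by positivity)]
    calc ((enprR P 0).card : ℝ) ^ 2 * Real.log P ^ 4 ≤ (P : ℝ) ^ 2 * P := by
          apply mul_le_mul _ hl4 (by positivity) (by positivity)
          exact pow_le_pow_left₀ (by positivity) h3 2
      _ = (P : ℝ) ^ 3 := by ring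
  have hk : ∑ k ∈ range P, ((enprR P (k + 1)).card : ℝ) ^ 2 ≤
      C ^ 2 * (P : ℝ) ^ 2 / Real.log P ^ 4 * ∑ h ∈ Finset.Icc 1 P, sg h ^ 4 := by
    have e1 : ∑ h ∈ Finset.Icc 1 P, sg h ^ 4 = ∑ k ∈ range P, sg (k + 1) ^ 4 := by
      rw [Finset.range_eq_Ico, Finset.sum_Ico_add' (fun h => sg h ^ 4) 0 P 1]
      apply Finset.sum_congr _ (fun _ _ => rfl)
      ext x
      simp only [Finset.mem_Icc, Finset.mem_Ico]
      omega
    rw [e1, Finset.mul_sum]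
    apply Finset.sum_le_sum
    intro k _
    have e2 := hsieve (k + 1) P P (by omega) hPu
    calc ((enprR P (k + 1)).card : ℝ) ^ 2 ≤ (C * sg (k + 1) ^ 2 * P / Real.log P ^ 2) ^ 2 :=
          pow_le_pow_left₀ (by positivity) e2 2
      _ = _ := by ring
  have hs := hsum P
  calc 2 * (∑ k ∈ range P, ((enprR P (k + 1)).card : ℝ) ^ 2 + ((enprR P 0).card : ℝ) ^ 2)
      ≤ 2 * (C ^ 2 * (P : ℝ) ^ 2 / Real.log P ^ 4 * (D * P) + (P : ℝ) ^ 3 / Real.log P ^ 4) := by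
        gcongr
        refine hk.trans ?_
        gcongr
    _ = 2 * (C ^ 2 * D + 1) * (P : ℝ) ^ 3 / Real.log P ^ 4 := by ring

end Pool.Agent.H376R2.TT
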