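import Pool.Agent.H376R2.TT.Defs
import Pool.Agent.H376R2.MR.Fej

/-! Task JACK (helper413): local averages with the kernel `Fj K ^ 2`. -/

set_option autoImplicit false

namespace Pool.Agent.H376R2.TT
open Finset Filter Pool.Agent.H376R2.MR

/-! ### Parseval for trigonometric polynomials -/

lemma jack_int_exp (l : ℤ) (a : ℝ) :
    ∫ x in (a - Real.pi)..(a + Real.pi), Complex.exp (((l * x : ℝ) : ℂ) * Complex.I) =
      if l = 0 then (2 * Real.pi : ℂ) else 0 := by
  split_ifs with h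
  · subst h
    simp
    ring
  · have hl : (l : ℂ) * Complex.I ≠ 0 := by
      simp [h]
    have h1 : ∀ x : ℝ, Complex.exp (((l * x : ℝ) : ℂ) * Complex.I) =
        Complex.exp (((l : ℂ) * Complex.I) * x) := by
      intro x
      congr 1
      push_cast
      ring
    simp_rw [h1]
    rw [integral_exp_mul_complex hl]
    have h2 : Complex.exp ((l : ℂ) * Complex.I * ((a + Real.pi : ℝ) : ℂ)) =
        Complex.exp ((l : ℂ) * Complex.I * ((a - Real.pi : ℝ) : ℂ)) := by
      have h3 : (l : ℂ) * Complex.I * ((a + Real.pi : ℝ) : ℂ) =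
          (l : ℂ) * Complex.I * ((a - Real.pi : ℝ) : ℂ) + (l : ℂ) * (2 * Real.pi * Complex.I) := by
        push_cast
        ring
      rw [h3, Complex.exp_add, Complex.exp_int_mul_two_pi_mul_I, mul_one]
    rw [h2, sub_self, zero_div]

lemma jack_parseval (S : Finset ℤ) (b : ℤ → ℂ) (a : ℝ) (f : ℝ → ℝ)
    (hf : ∀ x, (f x : ℂ) = ∑ m ∈ S, b m * Complex.exp (((m * x : ℝ) : ℂ) * Complex.I)) :
    ∫ x in (a - Real.pi)..(a + Real.pi), f x ^ 2 = 2 * Real.pi * ∑ m ∈ S, ‖b m‖ ^ 2 := by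
  have h1 : ∀ x, ((f x ^ 2 : ℝ) : ℂ) = ∑ m ∈ S, ∑ l ∈ S, b m * (starRingEnd ℂ) (b l) *
      Complex.exp ((((m - l : ℤ) * x : ℝ) : ℂ) * Complex.I) := by
    intro x
    have h2 : ((f x ^ 2 : ℝ) : ℂ) = (f x : ℂ) * (starRingEnd ℂ) (f x : ℂ) := by
      rw [Complex.conj_ofReal]
      push_cast
      ring
    rw [h2, hf, map_sum, Finset.sum_mul_sum]
    refine Finset.sum_congr rfl fun m _ => Finset.sum_congr rfl fun l _ => ?_
    rw [map_mul, ← Complex.exp_conj, map_mul, Complex.conj_ofReal, Complex.conj_I]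
    have h3 : Complex.exp ((((m - l : ℤ) * x : ℝ) : ℂ) * Complex.I) =
        Complex.exp (((m * x : ℝ) : ℂ) * Complex.I) * Complex.exp (((l * x : ℝ) : ℂ) * -Complex.I) := by
      rw [← Complex.exp_add]
      congr 1
      push_cast
      ring
    rw [h3]
    ring
  have h4 : ((∫ x in (a - Real.pi)..(a + Real.pi), f x ^ 2 : ℝ) : ℂ) =
      ((2 * Real.pi * ∑ m ∈ S, ‖b m‖ ^ 2 : ℝ) : ℂ) := by
    rw [← intervalIntegral.integral_ofReal]
    simp_rw [h1]
    rw [intervalIntegral.integral_finsetSum]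
    · have h5 : ∀ m ∈ S, ∫ x in (a - Real.pi)..(a + Real.pi), ∑ l ∈ S, b m * (starRingEnd ℂ) (b l) *
          Complex.exp ((((m - l : ℤ) * x : ℝ) : ℂ) * Complex.I) = 2 * Real.pi * (‖b m‖ ^ 2 : ℝ) := by
        intro m hm
        rw [intervalIntegral.integral_finsetSum]
        · have h6 : ∀ l ∈ S, ∫ x in (a - Real.pi)..(a + Real.pi), b m * (starRingEnd ℂ) (b l) *
              Complex.exp ((((m - l : ℤ) * x : ℝ) : ℂ) * Complex.I) =
              if l = m then 2 * Real.pi * ((‖b m‖ ^ 2 : ℝ) : ℂ) else 0 := by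
            intro l _
            rw [intervalIntegral.integral_const_mul, jack_int_exp]
            by_cases hlm : l = m
            · subst hlm
              rw [if_pos (by omega), if_pos rfl, Complex.mul_conj, Complex.normSq_eq_norm_sq]
              ring
            · rw [if_neg (by omega), if_neg hlm, mul_zero]
          rw [Finset.sum_congr rfl h6, Finset.sum_ite_eq' S m, if_pos hm]
        · intro l _
          apply Continuous.intervalIntegrable
          fun_prop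
      rw [Finset.sum_congr rfl h5]
      push_cast
      rw [Finset.mul_sum]
    · intro m _
      apply Continuous.intervalIntegrable
      fun_prop
  exact_mod_cast h4

/-! ### coefficients of `Fj K ^ 2` -/

noncomputable def jt (K : ℕ) (k : ℤ) : ℝ := 1 - |(k : ℝ)| / K

/-- coefficients of `Fj K ^ 2` -/
noncomputable def jc (K : ℕ) (m : ℤ) : ℝ :=
  ∑ k₁ ∈ FK K, ∑ k₂ ∈ FK K, if k₁ + k₂ = m then jt K k₁ * jt K k₂ else 0

lemma jt_nonneg {K : ℕ} {k : ℤ} (hk : k ∈ FK K) : 0 ≤ jt K k := by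
  unfold FK at hk
  rw [Finset.mem_Ioo] at hk
  have hK : (0 : ℝ) < K := by
    have : (0 : ℤ) < K := by omega
    exact_mod_cast this
  have h1 : |k| < K := abs_lt.2 hk
  have h2 : |(k : ℝ)| < K := by exact_mod_cast h1
  unfold jt
  have : |(k : ℝ)| / K ≤ 1 := by
    rw [div_le_one hK]
    exact h2.le
  linarith

lemma jc_nonneg (K : ℕ) (m : ℤ) : 0 ≤ jc K m := by
  unfold jc
  refine Finset.sum_nonneg fun k₁ h₁ => Finset.sum_nonneg fun k₂ h₂ => ?_
  split_ifs
  · exact mul_nonneg (jt_nonneg h₁) (jt_nonneg h₂)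
  · exact le_refl _

lemma jc_le (K : ℕ) (m : ℤ) : jc K m ≤ CJ K := by
  have h1 : jc K m ≤ ∑ k₁ ∈ FK K, ∑ k₂ ∈ FK K,
      ((if k₂ = m - k₁ then jt K k₁ ^ 2 / 2 else 0) + (if k₁ = m - k₂ then jt K k₂ ^ 2 / 2 else 0)) := by
    unfold jc
    refine Finset.sum_le_sum fun k₁ _ => Finset.sum_le_sum fun k₂ _ => ?_
    by_cases h : k₁ + k₂ = m
    · rw [if_pos h, if_pos (by omega), if_pos (by omega)]
      nlinarith [sq_nonneg (jt K k₁ - jt K k₂)]
    · rw [if_neg h, if_neg (by omega), if_neg (by omega)]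
      simp
  refine h1.trans ?_
  simp_rw [Finset.sum_add_distrib]
  have h2 : ∑ k₁ ∈ FK K, ∑ k₂ ∈ FK K, (if k₂ = m - k₁ then jt K k₁ ^ 2 / 2 else 0) ≤
      ∑ k₁ ∈ FK K, jt K k₁ ^ 2 / 2 := by
    refine Finset.sum_le_sum fun k₁ _ => ?_
    rw [Finset.sum_ite_eq']
    split_ifs
    · exact le_refl _
    · positivity
  have h3 : ∑ k₁ ∈ FK K, ∑ k₂ ∈ FK K, (if k₁ = m - k₂ then jt K k₂ ^ 2 / 2 else 0) ≤
      ∑ k₂ ∈ FK K, jt K k₂ ^ 2 / 2 := by
    rw [Finset.sum_comm]
    refine Finset.sum_le_sum fun k₂ _ => ?_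
    rw [Finset.sum_ite_eq']
    split_ifs
    · exact le_refl _
    · positivity
  have h4 : CJ K = ∑ k₁ ∈ FK K, jt K k₁ ^ 2 / 2 + ∑ k₂ ∈ FK K, jt K k₂ ^ 2 / 2 := by
    rw [← Finset.sum_add_distrib]
    unfold CJ jt
    refine Finset.sum_congr rfl fun k _ => ?_
    ring
  linarith

lemma jack_Fj_neg (K : ℕ) (u : ℝ) : Fj K (-u) = Fj K u := by
  unfold Fj
  refine Finset.sum_congr rfl fun k _ => ?_
  rw [mul_neg, Real.cos_neg]

lemma jack_Fj_exp (K : ℕ) (u : ℝ) : (Fj K u : ℂ) =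
    ∑ k ∈ FK K, (jt K k : ℂ) * Complex.exp (((k * u : ℝ) : ℂ) * Complex.I) := by
  rw [← jack_Fj_neg, ← fej_exp]
  refine Finset.sum_congr rfl fun k _ => ?_
  unfold jt
  congr 2
  push_cast
  ring

lemma jack_Fj_sq (K : ℕ) (u : ℝ) : ((Fj K u ^ 2 : ℝ) : ℂ) =
    ∑ m ∈ FK (2 * K), (jc K m : ℂ) * Complex.exp (((m * u : ℝ) : ℂ) * Complex.I) := by
  have h1 : ((Fj K u ^ 2 : ℝ) : ℂ) = (Fj K u : ℂ) * (Fj K u : ℂ) := by
    push_cast
    ring
  rw [h1, jack_Fj_exp, Finset.sum_mul_sum]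
  unfold jc
  have h2 : ∀ m ∈ FK (2 * K), (((∑ k₁ ∈ FK K, ∑ k₂ ∈ FK K,
      if k₁ + k₂ = m then jt K k₁ * jt K k₂ else 0 : ℝ)) : ℂ) *
      Complex.exp (((m * u : ℝ) : ℂ) * Complex.I) =
      ∑ k₁ ∈ FK K, ∑ k₂ ∈ FK K, if m = k₁ + k₂ then (jt K k₁ : ℂ) * (jt K k₂ : ℂ) *
        Complex.exp ((((k₁ + k₂ : ℤ) * u : ℝ) : ℂ) * Complex.I) else 0 := by
    intro m _
    push_cast
    rw [Finset.sum_mul]
    refine Finset.sum_congr rfl fun k₁ _ => ?_
    rw [Finset.sum_mul]
    refine Finset.sum_congr rfl fun k₂ _ => ?_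
    by_cases h : k₁ + k₂ = m
    · subst h
      rw [if_pos rfl, if_pos rfl]
      push_cast
      ring
    · rw [if_neg h, if_neg (fun h' => h h'.symm)]
      simp
  rw [Finset.sum_congr rfl h2]
  conv_rhs => rw [Finset.sum_comm]
  refine Finset.sum_congr rfl fun k₁ hk₁ => ?_
  conv_rhs => rw [Finset.sum_comm]
  refine Finset.sum_congr rfl fun k₂ hk₂ => ?_
  rw [Finset.sum_ite_eq', if_pos]
  · have h3 : Complex.exp ((((k₁ + k₂ : ℤ) * u : ℝ) : ℂ) * Complex.I) =
        Complex.exp (((k₁ * u : ℝ) : ℂ) * Complex.I) * Complex.exp (((k₂ * u : ℝ) : ℂ) * Complex.I) := by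
      rw [← Complex.exp_add]
      congr 1
      push_cast
      ring
    rw [h3]
    ring
  · unfold FK at *
    rw [Finset.mem_Ioo] at *
    push_cast
    omega

lemma CJ_pos {K : ℕ} (hK : 1 ≤ K) : (K : ℝ) / 2 ≤ CJ K := by
  have hK0 : (0 : ℝ) < K := by exact_mod_cast hK
  have h1 : (∑ k ∈ FK K, jt K k) = K := by
    have h2 : Fj K 0 = ∑ k ∈ FK K, jt K k := by
      unfold Fj jt
      simp
    have h3 := fej_eq_norm K 0
    simp at h3
    rw [← h2]
    have h4 : (K : ℝ) * Fj K 0 = K * K := by rw [h3]; ring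
    exact mul_left_cancel₀ hK0.ne' h4
  have h2 := Finset.sum_mul_sq_le_sq_mul_sq (FK K) (fun _ => (1 : ℝ)) (fun k => jt K k)
  simp only [one_mul, one_pow, Finset.sum_const, nsmul_eq_mul, mul_one] at h2
  rw [h1] at h2
  have h3 : ((FK K).card : ℝ) ≤ 2 * K := by
    have : (FK K).card ≤ 2 * K := by
      unfold FK
      rw [Int.card_Ioo]
      omega
    exact_mod_cast this
  have h4 : ∑ k ∈ FK K, jt K k ^ 2 = CJ K := rfl
  rw [h4] at h2
  have h5 : 0 ≤ CJ K := by
    rw [← h4]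
    exact Finset.sum_nonneg fun _ _ => sq_nonneg _
  have h6 : (K : ℝ) ^ 2 ≤ 2 * K * CJ K := h2.trans (mul_le_mul_of_nonneg_right h3 h5)
  have h7 : (K : ℝ) * K ≤ K * (2 * CJ K) := by nlinarith
  have h8 := le_of_mul_le_mul_left h7 hK0
  linarith

theorem jack_energy (g : ℕ → ℝ) (Y : ℝ) (K : ℕ) (hK : 1 ≤ K) :
    ∫ x in (Real.log Y - Real.pi)..(Real.log Y + Real.pi), AJ g Y K x ^ 2 ≤
      2 * Real.pi * ∑ k ∈ FK (2 * K), ‖GGg g Y k‖ ^ 2 := by
  have hK0 : (0 : ℝ) < K := by exact_mod_cast hK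
  have hC : 0 < CJ K := lt_of_lt_of_le (by positivity) (CJ_pos hK)
  rw [jack_parseval (FK (2 * K)) (fun m => ((jc K m / CJ K : ℝ) : ℂ) * GGg g Y m) (Real.log Y)
    (fun x => AJ g Y K x)]
  · have hpi := Real.pi_pos
    apply mul_le_mul_of_nonneg_left _ (by positivity)
    refine Finset.sum_le_sum fun m _ => ?_
    rw [norm_mul, Complex.norm_real, Real.norm_eq_abs, mul_pow]
    have h1 : |jc K m / CJ K| ≤ 1 := by
      rw [abs_of_nonneg (div_nonneg (jc_nonneg K m) hC.le), div_le_one hC]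
      exact jc_le K m
    have h2 : |jc K m / CJ K| ^ 2 ≤ 1 := pow_le_one₀ (abs_nonneg _) h1
    nlinarith [sq_nonneg ‖GGg g Y m‖]
  · intro x
    unfold AJ
    have h1 : ∀ n : ℕ, (((g n * bw Y n * Fj K (x - Real.log n) ^ 2 : ℝ)) : ℂ) =
        ∑ m ∈ FK (2 * K), (g n : ℂ) * (bw Y n : ℂ) * (jc K m : ℂ) * (ch m (Real.log n) *
          Complex.exp (((m * x : ℝ) : ℂ) * Complex.I)) := by
      intro n
      rw [Complex.ofReal_mul, jack_Fj_sq, Finset.mul_sum]
      refine Finset.sum_congr rfl fun m _ => ?_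
      have h2 : Complex.exp (((m * (x - Real.log n) : ℝ) : ℂ) * Complex.I) =
          ch m (Real.log n) * Complex.exp (((m * x : ℝ) : ℂ) * Complex.I) := by
        unfold ch
        rw [← Complex.exp_add]
        congr 1
        push_cast
        ring
      rw [h2]
      push_cast
      ring
    rw [Complex.ofReal_mul, Complex.ofReal_sum]
    simp_rw [h1]
    rw [Finset.sum_comm, Finset.mul_sum]
    refine Finset.sum_congr rfl fun m _ => ?_
    unfold GGg DP
    rw [Finset.mul_sum, Finset.mul_sum, Finset.sum_mul]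
    refine Finset.sum_congr rfl fun n _ => ?_
    push_cast
    field_simp

/-! ### the primitive of `Fj K ^ 2 / CJ K` -/

/-- `(1/CJ) ∫_0^s Fj²` -/
noncomputable def jP (K : ℕ) (s : ℝ) : ℝ := (1 / CJ K) * ∫ u in (0 : ℝ)..s, Fj K u ^ 2

lemma jack_Fj_cont (K : ℕ) : Continuous (fun u => Fj K u ^ 2) := by
  unfold Fj
  fun_prop

lemma jack_Fj_int (K : ℕ) (a b : ℝ) :
    IntervalIntegrable (fun u => Fj K u ^ 2) MeasureTheory.volume a b :=
  (jack_Fj_cont K).intervalIntegrable a b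

lemma jP_neg (K : ℕ) (s : ℝ) : jP K (-s) = - jP K s := by
  unfold jP
  have h1 : ∫ u in (0 : ℝ)..(-s), Fj K u ^ 2 = - ∫ u in (0 : ℝ)..s, Fj K u ^ 2 := by
    have h2 := intervalIntegral.integral_comp_neg (a := 0) (b := s) (fun u => Fj K u ^ 2)
    simp only [jack_Fj_neg, neg_zero] at h2
    rw [h2, intervalIntegral.integral_symm]
    
  rw [h1]
  ring

lemma jP_pi {K : ℕ} (hK : 1 ≤ K) : jP K Real.pi = Real.pi := by
  have hK0 : (0 : ℝ) < K := by exact_mod_cast hK
  have hC : 0 < CJ K := lt_of_lt_of_le (by positivity) (CJ_pos hK)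
  have h1 := jack_parseval (FK K) (fun m => (jt K m : ℂ)) 0 (fun u => Fj K u) (jack_Fj_exp K)
  rw [zero_sub, zero_add] at h1
  have h2 : ∑ m ∈ FK K, ‖((jt K m : ℝ) : ℂ)‖ ^ 2 = CJ K := by
    unfold CJ
    refine Finset.sum_congr rfl fun m _ => ?_
    rw [Complex.norm_real, Real.norm_eq_abs, sq_abs]
    rfl
  rw [h2] at h1
  have h3 : ∫ x in (-Real.pi)..Real.pi, Fj K x ^ 2 =
      (∫ x in (0 : ℝ)..Real.pi, Fj K x ^ 2) - ∫ x in (0 : ℝ)..(-Real.pi), Fj K x ^ 2 := by
    rw [intervalIntegral.integral_interval_sub_left (jack_Fj_int K _ _) (jack_Fj_int K _ _)]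
  have h4 : CJ K * jP K Real.pi = ∫ x in (0 : ℝ)..Real.pi, Fj K x ^ 2 := by
    unfold jP
    field_simp
  have h5 : CJ K * jP K (-Real.pi) = ∫ x in (0 : ℝ)..(-Real.pi), Fj K x ^ 2 := by
    unfold jP
    field_simp
  rw [h3, ← h4, ← h5, jP_neg] at h1
  have h6 : CJ K * jP K Real.pi = CJ K * Real.pi := by linarith
  exact mul_left_cancel₀ hC.ne' h6

/-- tail -/
lemma jP_tail {K : ℕ} (hK : 1 ≤ K) {s : ℝ} (h0 : 0 ≤ s) (hs : s ≤ Real.pi) :
    0 ≤ Real.pi - jP K s ∧ Real.pi - jP K s ≤ (4 * Real.pi ^ 4 / 3) / (1 + (K * s) ^ 2) := by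
  have hK0 : (0 : ℝ) < K := by exact_mod_cast hK
  have hC2 := CJ_pos hK
  have hC : 0 < CJ K := lt_of_lt_of_le (by positivity) hC2
  have hpi := Real.pi_pos
  have hpi3 := Real.pi_gt_three
  have h1 : Real.pi - jP K s = (1 / CJ K) * ∫ u in s..Real.pi, Fj K u ^ 2 := by
    rw [← jP_pi hK]
    conv_rhs => rw [jP_pi hK]
    unfold jP
    rw [← mul_sub, intervalIntegral.integral_interval_sub_left (jack_Fj_int K _ _) (jack_Fj_int K _ _)]
  have h2 : 0 ≤ ∫ u in s..Real.pi, Fj K u ^ 2 :=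
    intervalIntegral.integral_nonneg hs fun u _ => sq_nonneg _
  have h3 : 0 ≤ jP K s := by
    unfold jP
    exact mul_nonneg (by positivity) (intervalIntegral.integral_nonneg h0 fun u _ => sq_nonneg _)
  refine ⟨by rw [h1]; positivity, ?_⟩
  have hb : (0 : ℝ) < 1 + (K * s) ^ 2 := by positivity
  rcases le_total (K * s) 1 with h | h
  · have h4 : Real.pi - jP K s ≤ Real.pi := by linarith
    refine h4.trans ?_
    rw [le_div_iff₀ hb]
    have h5 : (K * s) ^ 2 ≤ 1 := pow_le_one₀ (by positivity) h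
    have h6 : Real.pi * (1 + (K * s) ^ 2) ≤ Real.pi * 2 := by gcongr; linarith
    have h7 : (3 : ℝ) ^ 3 ≤ Real.pi ^ 3 := by gcongr
    nlinarith
  · have hs0 : 0 < s := by
      by_contra hh
      have : s = 0 := le_antisymm (not_lt.1 hh) h0
      subst this
      simp at h
      linarith
    have h4 : ∫ u in s..Real.pi, Fj K u ^ 2 ≤
        ∫ u in s..Real.pi, Real.pi ^ 4 / K ^ 2 * u ^ (-4 : ℤ) := by
      apply intervalIntegral.integral_mono_on hs (jack_Fj_int K _ _)
      · apply ContinuousOn.intervalIntegrable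
        rw [Set.uIcc_of_le hs]
        apply ContinuousOn.mul continuousOn_const
        intro x hx
        apply ContinuousAt.continuousWithinAt
        exact continuousAt_zpow₀ x _ (Or.inl (by linarith [hx.1] : x ≠ 0)) 
      · intro u hu
        have hu0 : 0 < u := lt_of_lt_of_le hs0 hu.1
        have h5 := Fj_le_sq hK hu0.ne' (by rw [abs_of_pos hu0]; exact hu.2)
        have h6 := Fj_nonneg K u
        have h7 : Fj K u ^ 2 ≤ (Real.pi ^ 2 / (K * u ^ 2)) ^ 2 := by gcongr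
        refine h7.trans (le_of_eq ?_)
        rw [zpow_neg]
        have : u ^ (4 : ℤ) = u ^ 4 := by norm_cast
        rw [this]
        field_simp
    have h5 : ∫ u in s..Real.pi, Real.pi ^ 4 / K ^ 2 * u ^ (-4 : ℤ) ≤
        Real.pi ^ 4 / (3 * K ^ 2 * s ^ 3) := by
      rw [intervalIntegral.integral_const_mul, integral_zpow]
      · have e1 : ((-4 : ℤ) : ℝ) + 1 = -3 := by norm_num
        have e2 : (-4 : ℤ) + 1 = -3 := by norm_num
        rw [e1, e2, zpow_neg, zpow_neg]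
        have e3 : Real.pi ^ (3 : ℤ) = Real.pi ^ 3 := by norm_cast
        have e4 : s ^ (3 : ℤ) = s ^ 3 := by norm_cast
        rw [e3, e4]
        have e5 : ((Real.pi ^ 3)⁻¹ - (s ^ 3)⁻¹) / (-3 : ℝ) ≤ (s ^ 3)⁻¹ / 3 := by
          have : 0 < (Real.pi ^ 3)⁻¹ := by positivity
          linarith
        calc Real.pi ^ 4 / (K : ℝ) ^ 2 * (((Real.pi ^ 3)⁻¹ - (s ^ 3)⁻¹) / (-3 : ℝ))
            ≤ Real.pi ^ 4 / (K : ℝ) ^ 2 * ((s ^ 3)⁻¹ / 3) := by gcongr
          _ = _ := by field_simp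
      · right
        refine ⟨by norm_num, ?_⟩
        rw [Set.uIcc_of_le hs]
        intro h
        linarith [h.1]
    rw [h1]
    have h6 : (1 / CJ K) * ∫ u in s..Real.pi, Fj K u ^ 2 ≤
        (2 / K) * (Real.pi ^ 4 / (3 * K ^ 2 * s ^ 3)) := by
      apply mul_le_mul _ (h4.trans h5) h2 (by positivity)
      rw [div_le_div_iff₀ hC hK0]
      linarith
    refine h6.trans ?_
    have h7 : (2 / K) * (Real.pi ^ 4 / (3 * K ^ 2 * s ^ 3)) = (2 * Real.pi ^ 4 / 3) / (K * s) ^ 3 := by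
      field_simp
    rw [h7, div_le_div_iff₀ (by positivity) hb]
    have h8 : 1 + (K * s) ^ 2 ≤ 2 * (K * s) ^ 3 := by
      set y := K * s
      nlinarith [mul_nonneg (sub_nonneg.2 h) (sq_nonneg y), sq_nonneg (y - 1)]
    calc 2 * Real.pi ^ 4 / 3 * (1 + (K * s) ^ 2) ≤ 2 * Real.pi ^ 4 / 3 * (2 * (K * s) ^ 3) := by gcongr
      _ = _ := by ring

/-- sign, `1` at `0` -/
noncomputable def jsg (s : ℝ) : ℝ := if 0 ≤ s then 1 else -1

lemma jP_sg {K : ℕ} (hK : 1 ≤ K) {s : ℝ} (hs : |s| ≤ Real.pi) :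
    |jP K s - Real.pi * jsg s| ≤ (4 * Real.pi ^ 4 / 3) / (1 + (K * s) ^ 2) := by
  unfold jsg
  rcases le_or_gt 0 s with h | h
  · rw [if_pos h]
    obtain ⟨h1, h2⟩ := jP_tail hK h (by rwa [abs_of_nonneg h] at hs)
    rw [abs_sub_comm, mul_one, abs_of_nonneg h1]
    exact h2
  · rw [if_neg (not_le.2 h)]
    have h3 : s = -(-s) := by ring
    obtain ⟨h1, h2⟩ := jP_tail hK (s := -s) (by linarith) (by rwa [abs_of_neg h] at hs)
    rw [h3, jP_neg]
    have h4 : - jP K (-s) - Real.pi * -1 = Real.pi - jP K (-s) := by ring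
    rw [h4, abs_of_nonneg h1]
    refine h2.trans (le_of_eq ?_)
    ring

/-! ### a sum over integers -/

lemma jack_atan {s h : ℝ} (h0 : 0 < h) (h1 : h ≤ 1) :
    1 / (1 + s ^ 2) ≤ 3 / h * (Real.arctan (s + h) - Real.arctan s) := by
  obtain ⟨c, hc, hc2⟩ := exists_hasDerivAt_eq_slope Real.arctan (fun x => 1 / (1 + x ^ 2))
    (a := s) (b := s + h) (by linarith) Real.continuous_arctan.continuousOn
    (fun x _ => Real.hasDerivAt_arctan x)
  rw [add_sub_cancel_left] at hc2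
  have h2 : 3 / h * (Real.arctan (s + h) - Real.arctan s) = 3 * (1 / (1 + c ^ 2)) := by
    rw [hc2]
    field_simp
  rw [h2]
  rw [← mul_div_assoc, mul_one, div_le_div_iff₀ (by positivity) (by positivity)]
  have h3 : |c| ≤ |s| + 1 := by
    have : c = s + (c - s) := by ring
    rw [this]
    refine (abs_add_le _ _).trans ?_
    have : |c - s| ≤ 1 := by
      rw [abs_le]
      constructor <;> linarith [hc.1, hc.2]
    linarith
  have h4 : c ^ 2 ≤ (|s| + 1) ^ 2 := by
    rw [← sq_abs c]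
    gcongr
  nlinarith [sq_nonneg (|s| - 1), sq_abs s]

lemma jack_sum_atan (X R : ℝ) (hR : 1 ≤ R) (N : ℕ) :
    ∑ n ∈ range N, 1 / (1 + (((n : ℝ) - X) / R) ^ 2) ≤ 3 * Real.pi * R := by
  have hR0 : 0 < R := by linarith
  have h1 : ∀ n ∈ range N, 1 / (1 + (((n : ℝ) - X) / R) ^ 2) ≤
      3 * R * (Real.arctan ((((n + 1 : ℕ) : ℝ) - X) / R) - Real.arctan (((n : ℝ) - X) / R)) := by
    intro n _
    have h2 := jack_atan (s := ((n : ℝ) - X) / R) (h := 1 / R) (by positivity)
      (by rw [div_le_one hR0]; exact hR)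
    have h3 : ((n : ℝ) - X) / R + 1 / R = (((n + 1 : ℕ) : ℝ) - X) / R := by
      push_cast
      ring
    rw [h3] at h2
    have h4 : 3 / (1 / R) = 3 * R := by field_simp
    rw [h4] at h2
    exact h2
  refine (Finset.sum_le_sum h1).trans ?_
  rw [← Finset.mul_sum, Finset.sum_range_sub (fun n : ℕ => Real.arctan (((n : ℝ) - X) / R))]
  have h2 := Real.arctan_lt_pi_div_two (((N : ℝ) - X) / R)
  have h3 := Real.neg_pi_div_two_lt_arctan ((((0 : ℕ) : ℝ) - X) / R)
  have h4 : Real.arctan (((N : ℝ) - X) / R) - Real.arctan ((((0 : ℕ) : ℝ) - X) / R) ≤ Real.pi := by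
    linarith
  calc 3 * R * (Real.arctan (((N : ℝ) - X) / R) - Real.arctan ((((0 : ℕ) : ℝ) - X) / R))
      ≤ 3 * R * Real.pi := by gcongr
    _ = _ := by ring

lemma jack_log_dist {a b M : ℝ} (ha : 0 < a) (hb : 0 < b) (haM : a ≤ M) (hbM : b ≤ M) :
    |a - b| / M ≤ |Real.log a - Real.log b| := by
  wlog hab : b ≤ a generalizing a b
  · have := this hb ha hbM haM (le_of_not_ge hab)
    rwa [abs_sub_comm, abs_sub_comm (Real.log b)] at this
  have hM : 0 < M := by linarith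
  rw [abs_of_nonneg (by linarith), abs_of_nonneg (by linarith [Real.log_le_log hb hab])]
  have h1 : Real.log b - Real.log a ≤ b / a - 1 := by
    rw [← Real.log_div hb.ne' ha.ne']
    exact Real.log_le_sub_one_of_pos (by positivity)
  have h2 : (a - b) / M ≤ (a - b) / a := by
    apply div_le_div_of_nonneg_left (by linarith) ha haM
  have h3 : (a - b) / a = 1 - b / a := by field_simp
  linarith

lemma jack_sum_err {Y x : ℝ} {K : ℕ} (hY : 3 ≤ Y) (hK : 1 ≤ K) (hKY : (K : ℝ) ≤ Y)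
    (hx : x ≤ Real.log Y + 1) :
    ∑ n ∈ WN Y, bw Y n * (1 / (1 + (K * (x - Real.log n)) ^ 2)) ≤ 3 * Real.pi * Real.exp 2 / K := by
  have hK0 : (0 : ℝ) < K := by exact_mod_cast hK
  have hY0 : 0 < Y := by linarith
  set R := Real.exp 1 * Y / K with hR
  have hR0 : 0 < R := by positivity
  have he : (1 : ℝ) ≤ Real.exp 1 := Real.one_le_exp (by norm_num)
  have hR1 : 1 ≤ R := by
    rw [hR, le_div_iff₀ hK0]
    nlinarith
  have h1 : ∀ n ∈ WN Y, bw Y n * (1 / (1 + (K * (x - Real.log n)) ^ 2)) ≤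
      Real.exp 1 / Y * (1 / (1 + (((n : ℝ) - Real.exp x) / R) ^ 2)) := by
    intro n hn
    unfold WN at hn
    rw [Finset.mem_Icc] at hn
    have hn0 : (0 : ℝ) < n := by exact_mod_cast hn.1
    have hnM : (n : ℝ) ≤ Real.exp 1 * Y :=
      (Nat.cast_le.2 hn.2).trans (Nat.floor_le (by positivity))
    have h2 : bw Y n ≤ Real.exp 1 / Y := by
      unfold bw w
      rcases le_or_gt (1 - |Real.log n - Real.log Y|) 0 with h | h
      · rw [max_eq_left h, zero_div]
        positivity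
      · rw [max_eq_right h.le, div_le_div_iff₀ hn0 hY0]
        have h3 : -(1 : ℝ) < Real.log n - Real.log Y := by
          have := neg_abs_le (Real.log n - Real.log Y)
          linarith
        have h4 : Real.log Y ≤ Real.log (Real.exp 1 * n) := by
          rw [Real.log_mul (by positivity) hn0.ne', Real.log_exp]
          linarith
        have h5 : Y ≤ Real.exp 1 * n := (Real.log_le_log_iff hY0 (by positivity)).1 h4
        have h6 : 1 - |Real.log n - Real.log Y| ≤ 1 := by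
          linarith [abs_nonneg (Real.log n - Real.log Y)]
        calc (1 - |Real.log n - Real.log Y|) * Y ≤ 1 * Y := by gcongr
          _ = Y := one_mul _
          _ ≤ _ := h5
    have hxM : Real.exp x ≤ Real.exp 1 * Y := by
      have : Real.exp x ≤ Real.exp (Real.log Y + 1) := Real.exp_le_exp.2 hx
      rw [Real.exp_add, Real.exp_log hY0] at this
      linarith
    have h7 := jack_log_dist hn0 (Real.exp_pos x) hnM hxM
    rw [Real.log_exp] at h7
    have h8 : (((n : ℝ) - Real.exp x) / R) ^ 2 ≤ (K * (x - Real.log n)) ^ 2 := by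
      apply sq_le_sq.2
      rw [abs_div, abs_mul, abs_of_pos hR0, abs_of_pos hK0, abs_sub_comm x]
      have : |(n : ℝ) - Real.exp x| / R = K * (|(n : ℝ) - Real.exp x| / (Real.exp 1 * Y)) := by
        rw [hR]
        field_simp
      rw [this]
      gcongr
    apply mul_le_mul h2 _ (by positivity) (by positivity)
    apply one_div_le_one_div_of_le (by positivity)
    linarith
  refine (Finset.sum_le_sum h1).trans ?_
  rw [← Finset.mul_sum]
  have h2 : ∑ n ∈ WN Y, (1 / (1 + (((n : ℝ) - Real.exp x) / R) ^ 2)) ≤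
      ∑ n ∈ range (⌊Real.exp 1 * Y⌋₊ + 1), (1 / (1 + (((n : ℝ) - Real.exp x) / R) ^ 2)) := by
    apply Finset.sum_le_sum_of_subset_of_nonneg
    · intro n hn
      unfold WN at hn
      rw [Finset.mem_Icc] at hn
      rw [Finset.mem_range]
      omega
    · intro n _ _
      positivity
  have h3 := h2.trans (jack_sum_atan (Real.exp x) R hR1 _)
  calc Real.exp 1 / Y * ∑ n ∈ WN Y, (1 / (1 + (((n : ℝ) - Real.exp x) / R) ^ 2))
      ≤ Real.exp 1 / Y * (3 * Real.pi * R) := by gcongr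
    _ = 3 * Real.pi * Real.exp 2 / K := by
      rw [hR]
      have : Real.exp 2 = Real.exp 1 * Real.exp 1 := by
        rw [← Real.exp_add]
        norm_num
      rw [this]
      field_simp

theorem jack_local : ∃ C : ℝ, 0 < C ∧ ∀ (g : ℕ → ℝ), (∀ n, |g n| ≤ 1) → ∀ (Y : ℝ) (K : ℕ) (x₁ x₂ : ℝ),
    3 ≤ Y → 1 ≤ K → (K : ℝ) ≤ Y → Real.log Y - 1 ≤ x₁ → x₁ ≤ x₂ → x₂ ≤ Real.log Y + 1 →
    |(∫ x in x₁..x₂, AJ g Y K x) -
      2 * Real.pi * ∑ n ∈ (WN Y).filter (fun n : ℕ => x₁ < Real.log n ∧ Real.log n ≤ x₂), g n * bw Y n| ≤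
      C / K := by
  refine ⟨2 * ((4 * Real.pi ^ 4 / 3) * (3 * Real.pi * Real.exp 2)), by positivity, ?_⟩
  intro g hg Y K x₁ x₂ hY hK hKY h1 h12 h2
  have hK0 : (0 : ℝ) < K := by exact_mod_cast hK
  have hC : 0 < CJ K := lt_of_lt_of_le (by positivity) (CJ_pos hK)
  have hpi3 := Real.pi_gt_three
  have hi : (∫ x in x₁..x₂, AJ g Y K x) =
      ∑ n ∈ WN Y, g n * bw Y n * (jP K (x₂ - Real.log n) - jP K (x₁ - Real.log n)) := by
    unfold AJ
    rw [intervalIntegral.integral_const_mul, intervalIntegral.integral_finsetSum]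
    · rw [Finset.mul_sum]
      refine Finset.sum_congr rfl fun n _ => ?_
      rw [intervalIntegral.integral_const_mul,
        intervalIntegral.integral_comp_sub_right (fun u => Fj K u ^ 2) (Real.log n)]
      unfold jP
      rw [← mul_sub, intervalIntegral.integral_interval_sub_left (jack_Fj_int K _ _)
        (jack_Fj_int K _ _)]
      ring
    · intro n _
      apply Continuous.intervalIntegrable
      apply Continuous.mul continuous_const
      exact (jack_Fj_cont K).comp (continuous_id.sub continuous_const)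
  rw [hi, Finset.sum_filter, Finset.mul_sum, ← Finset.sum_sub_distrib]
  refine (Finset.abs_sum_le_sum_abs _ _).trans ?_
  have hb : ∀ n ∈ WN Y, |g n * bw Y n * (jP K (x₂ - Real.log n) - jP K (x₁ - Real.log n)) -
      2 * Real.pi * (if x₁ < Real.log n ∧ Real.log n ≤ x₂ then g n * bw Y n else 0)| ≤
      (4 * Real.pi ^ 4 / 3) * (bw Y n * (1 / (1 + (K * (x₂ - Real.log n)) ^ 2))) +
      (4 * Real.pi ^ 4 / 3) * (bw Y n * (1 / (1 + (K * (x₁ - Real.log n)) ^ 2))) := by
    intro n hn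
    have hbw : 0 ≤ bw Y n := by
      unfold bw w
      positivity
    rcases le_or_gt 1 (|Real.log n - Real.log Y|) with h | h
    · have h0 : bw Y n = 0 := by
        unfold bw w
        rw [max_eq_left (by linarith), zero_div]
      simp [h0]
    · rw [abs_lt] at h
      have hs2 : |x₂ - Real.log n| ≤ Real.pi := by
        rw [abs_le]
        constructor <;> linarith [h.1, h.2]
      have hs1 : |x₁ - Real.log n| ≤ Real.pi := by
        rw [abs_le]
        constructor <;> linarith [h.1, h.2]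
      have e2 := jP_sg hK hs2
      have e1 := jP_sg hK hs1
      have hsg : 2 * Real.pi * (if x₁ < Real.log n ∧ Real.log n ≤ x₂ then g n * bw Y n else 0) =
          g n * bw Y n * (Real.pi * jsg (x₂ - Real.log n) - Real.pi * jsg (x₁ - Real.log n)) := by
        unfold jsg
        by_cases c1 : x₁ < Real.log n
        · by_cases c2 : Real.log n ≤ x₂
          · rw [if_pos ⟨c1, c2⟩, if_pos (by linarith), if_neg (by linarith)]
            ring
          · rw [if_neg (fun h => c2 h.2), if_neg (by linarith), if_neg (by linarith)]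
            ring
        · have c2 : Real.log n ≤ x₂ := by linarith
          rw [if_neg (fun h => c1 h.1), if_pos (by linarith), if_pos (by linarith)]
          ring
      rw [hsg, ← mul_sub]
      have e3 : jP K (x₂ - Real.log n) - jP K (x₁ - Real.log n) -
          (Real.pi * jsg (x₂ - Real.log n) - Real.pi * jsg (x₁ - Real.log n)) =
          (jP K (x₂ - Real.log n) - Real.pi * jsg (x₂ - Real.log n)) -
          (jP K (x₁ - Real.log n) - Real.pi * jsg (x₁ - Real.log n)) := by ring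
      rw [e3, abs_mul, abs_mul, abs_of_nonneg hbw]
      have e4 := (abs_sub (jP K (x₂ - Real.log n) - Real.pi * jsg (x₂ - Real.log n))
        (jP K (x₁ - Real.log n) - Real.pi * jsg (x₁ - Real.log n))).trans (add_le_add e2 e1)
      calc |g n| * bw Y n * _ ≤ 1 * bw Y n * _ := by
            gcongr
            exact hg n
        _ ≤ 1 * bw Y n * ((4 * Real.pi ^ 4 / 3) / (1 + (K * (x₂ - Real.log n)) ^ 2) +
            (4 * Real.pi ^ 4 / 3) / (1 + (K * (x₁ - Real.log n)) ^ 2)) := by gcongr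
        _ = _ := by ring
  refine (Finset.sum_le_sum hb).trans ?_
  rw [Finset.sum_add_distrib, ← Finset.mul_sum, ← Finset.mul_sum]
  have f2 := jack_sum_err (x := x₂) hY hK hKY h2
  have f1 := jack_sum_err (x := x₁) hY hK hKY (h12.trans h2)
  have hp : 0 ≤ 4 * Real.pi ^ 4 / 3 := by positivity
  calc _ ≤ (4 * Real.pi ^ 4 / 3) * (3 * Real.pi * Real.exp 2 / K) +
        (4 * Real.pi ^ 4 / 3) * (3 * Real.pi * Real.exp 2 / K) := by gcongr
    _ = _ := by ring

end Pool.Agent.H376R2.TT
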