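import Pool.Agent.H376R2.TT.Defs

set_option autoImplicit false

namespace Pool.Agent.H376R2.TT

open Finset Filter Pool.Agent.H376R2.MR

/-! Task KAT: local exponential sums of the Liouville function at irrational points. -/

theorem kat_norm_er (t x : ℝ) : ‖er t x‖ = 1 := by
  unfold er
  exact Complex.norm_exp_ofReal_mul_I _

theorem kat_er_add (t x y : ℝ) : er t (x + y) = er t x * er t y := by
  unfold er
  rw [← Complex.exp_add]
  congr 1
  push_cast
  ring

theorem kat_er_zero (t : ℝ) : er t 0 = 1 := by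
  unfold er
  simp

theorem kat_er_conj (t x : ℝ) : (starRingEnd ℂ) (er t x) = er t (-x) := by
  unfold er
  rw [← Complex.exp_conj]
  congr 1
  simp

theorem kat_abs_lam (n : ℕ) : ‖(lam n : ℂ)‖ = 1 := by
  unfold lam
  push_cast
  rw [norm_pow, norm_neg, norm_one, one_pow]

theorem kat_lam_mul {p m : ℕ} (hp : p.Prime) (hm : 1 ≤ m) : lam (p * m) = - lam m := by
  unfold lam
  rw [ArithmeticFunction.cardFactors_mul hp.ne_zero (by omega),
    ArithmeticFunction.cardFactors_apply_prime hp, pow_add]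
  ring

/-- Abel summation -/
theorem kat_abel (a K : ℕ → ℂ) (M : ℕ) :
    ∑ m ∈ Icc 1 M, a m * K m = (∑ i ∈ Icc 1 M, a i) * K (M + 1) -
      ∑ m ∈ Icc 1 M, (∑ i ∈ Icc 1 m, a i) * (K (m + 1) - K m) := by
  induction M with
  | zero => simp
  | succ M ih =>
    rw [Finset.sum_Icc_succ_top (by omega), ih, Finset.sum_Icc_succ_top (by omega) a,
      Finset.sum_Icc_succ_top (by omega) (fun m => (∑ i ∈ Icc 1 m, a i) * (K (m + 1) - K m)),
      Finset.sum_Icc_succ_top (by omega) a]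
    ring

theorem kat_abel_bound (a K : ℕ → ℂ) (M : ℕ) (C D : ℝ) (hC : 0 ≤ C)
    (ha : ∀ m, ‖∑ i ∈ Icc 1 m, a i‖ ≤ C) (hK : ∀ m, ‖K m‖ ≤ 1)
    (hD : ∀ m, ‖K (m + 1) - K m‖ ≤ D) :
    ‖∑ m ∈ Icc 1 M, a m * K m‖ ≤ C * (1 + M * D) := by
  rw [kat_abel]
  calc _ ≤ ‖(∑ i ∈ Icc 1 M, a i) * K (M + 1)‖ +
        ‖∑ m ∈ Icc 1 M, (∑ i ∈ Icc 1 m, a i) * (K (m + 1) - K m)‖ := norm_sub_le _ _
    _ ≤ C * 1 + ∑ m ∈ Icc 1 M, C * D := by
        apply add_le_add
        · rw [norm_mul]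
          exact mul_le_mul (ha _) (hK _) (norm_nonneg _) hC
        · refine (norm_sum_le _ _).trans (Finset.sum_le_sum fun m _ => ?_)
          rw [norm_mul]
          exact mul_le_mul (ha _) (hD _) (norm_nonneg _) hC
    _ = C * (1 + M * D) := by
        rw [Finset.sum_const, Nat.card_Icc, nsmul_eq_mul]
        simp
        ring

theorem kat_geom (z : ℂ) (hz : ‖z‖ = 1) (h1 : z ≠ 1) (m : ℕ) :
    ‖∑ i ∈ Icc 1 m, z ^ i‖ ≤ 2 / ‖z - 1‖ := by
  have hne : z - 1 ≠ 0 := sub_ne_zero.mpr h1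
  have hpos : 0 < ‖z - 1‖ := norm_pos_iff.mpr hne
  have h : (∑ i ∈ Icc 1 m, z ^ i) * (z - 1) = z ^ (m + 1) - z := by
    induction m with
    | zero => simp
    | succ m ih =>
      rw [Finset.sum_Icc_succ_top (by omega), add_mul, ih]
      ring
  rw [le_div_iff₀ hpos, ← norm_mul, h]
  calc _ ≤ ‖z ^ (m + 1)‖ + ‖z‖ := norm_sub_le _ _
    _ = 2 := by rw [norm_pow, hz]; norm_num

theorem kat_er_ne {θ : ℝ} (hθ : Irrational θ) {p p' : ℕ} (h : p ≠ p') :
    er (2 * Real.pi * θ) ((p : ℝ) - p') ≠ 1 := by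
  intro h1
  unfold er at h1
  rw [Complex.exp_eq_one_iff] at h1
  obtain ⟨n, hn⟩ := h1
  have h2 : (((2 * Real.pi * θ * ((p : ℝ) - p') : ℝ) : ℂ)) * Complex.I =
      ((n * (2 * Real.pi) : ℝ) : ℂ) * Complex.I := by
    rw [hn]; push_cast; ring
  have h3 := mul_right_cancel₀ Complex.I_ne_zero h2
  have h4 : 2 * Real.pi * θ * ((p : ℝ) - p') = n * (2 * Real.pi) := by exact_mod_cast h3
  have h5 : ((p : ℝ) - p') ≠ 0 := by
    rw [sub_ne_zero]; exact_mod_cast h
  have h6 : θ = ((n : ℚ) / ((p : ℚ) - p') : ℚ) := by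
    push_cast
    rw [eq_div_iff h5]
    have := Real.pi_pos
    have h7 : (2 * Real.pi) * (θ * ((p : ℝ) - p')) = (2 * Real.pi) * n := by linarith
    exact mul_left_cancel₀ (by positivity) h7
  exact hθ ⟨_, h6.symm⟩

/-- off-diagonal terms -/
theorem kat_off {θ : ℝ} (hθ : Irrational θ) (p p' : ℕ) (h : p ≠ p') :
    ∃ C : ℝ, 0 ≤ C ∧ ∀ (δ : ℝ) (G : ℕ → ℂ), 0 ≤ δ → (∀ m, ‖G m‖ ≤ 1) →
    (∀ m, ‖G (m + 1) - G m‖ ≤ δ) → ∀ M : ℕ,
    ‖∑ m ∈ Icc 1 M, (er (2 * Real.pi * θ) ((p * m : ℕ) : ℝ) * G (p * m)) *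
      (starRingEnd ℂ) (er (2 * Real.pi * θ) ((p' * m : ℕ) : ℝ) * G (p' * m))‖ ≤
      C * (1 + M * ((p + p') * δ)) := by
  set z : ℂ := er (2 * Real.pi * θ) ((p : ℝ) - p') with hz
  have hz1 : ‖z‖ = 1 := kat_norm_er _ _
  have hne : z ≠ 1 := kat_er_ne hθ h
  refine ⟨2 / ‖z - 1‖, by positivity, ?_⟩
  intro δ G hδ hG hG' M
  have hvar : ∀ (k n : ℕ), ‖G (n + k) - G n‖ ≤ k * δ := by
    intro k n
    induction k with
    | zero => simp
    | succ k ih =>
      calc ‖G (n + (k + 1)) - G n‖ = ‖(G (n + k + 1) - G (n + k)) + (G (n + k) - G n)‖ := by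
            congr 1; rw [← add_assoc]; ring
        _ ≤ δ + k * δ := (norm_add_le _ _).trans (add_le_add (hG' _) ih)
        _ = ((k + 1 : ℕ) : ℝ) * δ := by push_cast; ring
  have hpow : ∀ m : ℕ, z ^ m = er (2 * Real.pi * θ) ((p * m : ℕ) : ℝ) *
      (starRingEnd ℂ) (er (2 * Real.pi * θ) ((p' * m : ℕ) : ℝ)) := by
    intro m
    rw [kat_er_conj, ← kat_er_add]
    rw [hz]
    unfold er
    rw [← Complex.exp_nat_mul]
    congr 1
    push_cast
    ring
  have key := kat_abel_bound (fun m => z ^ m) (fun m => G (p * m) * (starRingEnd ℂ) (G (p' * m)))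
    M (2 / ‖z - 1‖) ((p + p') * δ) (by positivity) (kat_geom z hz1 hne)
    (by
      intro m
      rw [norm_mul, RCLike.norm_conj]
      exact mul_le_one₀ (hG _) (norm_nonneg _) (hG _))
    (by
      intro m
      have e1 : G (p * (m + 1)) * (starRingEnd ℂ) (G (p' * (m + 1))) -
          G (p * m) * (starRingEnd ℂ) (G (p' * m)) =
          (G (p * m + p) - G (p * m)) * (starRingEnd ℂ) (G (p' * (m + 1))) +
          G (p * m) * (starRingEnd ℂ) (G (p' * m + p') - G (p' * m)) := by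
        rw [map_sub, mul_add, mul_add, mul_one, mul_one]
        ring
      rw [e1]
      refine (norm_add_le _ _).trans ?_
      rw [norm_mul, norm_mul, RCLike.norm_conj, RCLike.norm_conj]
      calc _ ≤ (p * δ) * 1 + 1 * (p' * δ) := by
            apply add_le_add
            · exact mul_le_mul (hvar _ _) (hG _) (norm_nonneg _) (by positivity)
            · exact mul_le_mul (hG _) (hvar _ _) (norm_nonneg _) (by norm_num)
        _ = _ := by ring)
  refine le_trans (le_of_eq ?_) key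
  congr 1
  apply Finset.sum_congr rfl
  intro m _
  rw [hpow, map_mul]
  ring

theorem kat_card_dvd (N p : ℕ) : ((Icc 1 N).filter (fun n => p ∣ n)).card = N / p := by
  have h : Icc 1 N = Ioc 0 N := by ext; simp [Finset.mem_Icc, Finset.mem_Ioc]; omega
  rw [h, Nat.Ioc_filter_dvd_card_eq_div]

/-- Turan-Kubilius -/
theorem kat_tk (S : Finset ℕ) (hS : ∀ p ∈ S, p.Prime) (N : ℕ) :
    ∑ n ∈ Icc 1 N, ((∑ p ∈ S, if p ∣ n then (1 : ℝ) else 0) - ∑ p ∈ S, 1 / (p : ℝ)) ^ 2 ≤
      N * (∑ p ∈ S, 1 / (p : ℝ)) + 2 * (∑ p ∈ S, 1 / (p : ℝ)) * S.card := by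
  set W : ℝ := ∑ p ∈ S, 1 / (p : ℝ) with hW
  have hW0 : 0 ≤ W := Finset.sum_nonneg fun p _ => by positivity
  have hcard : ∀ p : ℕ, (∑ n ∈ Icc 1 N, if p ∣ n then (1 : ℝ) else 0) = ((N / p : ℕ) : ℝ) := by
    intro p
    rw [← kat_card_dvd N p, Finset.sum_ite, Finset.sum_const_zero, add_zero, Finset.sum_const,
      nsmul_eq_mul, mul_one]
  -- first moment
  have h1 : N * W - S.card ≤ ∑ n ∈ Icc 1 N, (∑ p ∈ S, if p ∣ n then (1 : ℝ) else 0) := by
    rw [Finset.sum_comm]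
    calc N * W - S.card = ∑ p ∈ S, ((N : ℝ) / p - 1) := by
          rw [Finset.sum_sub_distrib, hW, Finset.mul_sum]
          simp [div_eq_mul_inv]
      _ ≤ ∑ p ∈ S, ((N / p : ℕ) : ℝ) := by
          apply Finset.sum_le_sum
          intro p hp
          have hp0 : 0 < p := (hS p hp).pos
          have h3 : (N : ℝ) < p * ((N / p : ℕ) : ℝ) + p := by
            have := Nat.lt_mul_div_succ N hp0
            calc (N : ℝ) < ((p * (N / p + 1) : ℕ) : ℝ) := by exact_mod_cast this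
              _ = _ := by push_cast; ring
          have hpr : (0 : ℝ) < p := by exact_mod_cast hp0
          rw [sub_le_iff_le_add, div_le_iff₀ hpr]
          nlinarith
      _ = _ := by
          apply Finset.sum_congr rfl
          intro p _
          rw [hcard]
  -- second moment
  have h2 : ∑ n ∈ Icc 1 N, (∑ p ∈ S, if p ∣ n then (1 : ℝ) else 0) ^ 2 ≤ N * W ^ 2 + N * W := by
    calc _ = ∑ p ∈ S, ∑ p' ∈ S, ∑ n ∈ Icc 1 N,
          ((if p ∣ n then (1 : ℝ) else 0) * (if p' ∣ n then (1 : ℝ) else 0)) := by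
          simp_rw [sq, Finset.sum_mul_sum]
          rw [Finset.sum_comm]
          apply Finset.sum_congr rfl
          intro p _
          rw [Finset.sum_comm]
      _ ≤ ∑ p ∈ S, ∑ p' ∈ S, ((N : ℝ) * ((1 / (p : ℝ)) * (1 / (p' : ℝ))) +
            if p = p' then (N : ℝ) * (1 / (p : ℝ)) else 0) := by
          apply Finset.sum_le_sum
          intro p hp
          apply Finset.sum_le_sum
          intro p' hp'
          by_cases hpp : p = p'
          · subst hpp
            rw [if_pos rfl]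
            have : ∀ n : ℕ, ((if p ∣ n then (1 : ℝ) else 0) * (if p ∣ n then (1 : ℝ) else 0)) =
                (if p ∣ n then (1 : ℝ) else 0) := by
              intro n; split_ifs <;> simp
            simp_rw [this]
            rw [hcard]
            have h4 : ((N / p : ℕ) : ℝ) ≤ (N : ℝ) / p := Nat.cast_div_le
            have h5 : 0 ≤ (N : ℝ) * ((1 / (p : ℝ)) * (1 / (p : ℝ))) := by positivity
            have h6 : (N : ℝ) / p = N * (1 / (p : ℝ)) := by ring
            linarith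
          · rw [if_neg hpp, add_zero]
            have hco : Nat.Coprime p p' := (Nat.coprime_primes (hS p hp) (hS p' hp')).mpr hpp
            have : ∀ n : ℕ, ((if p ∣ n then (1 : ℝ) else 0) * (if p' ∣ n then (1 : ℝ) else 0)) =
                (if p * p' ∣ n then (1 : ℝ) else 0) := by
              intro n
              by_cases ha : p ∣ n <;> by_cases hb : p' ∣ n
              · rw [if_pos ha, if_pos hb, if_pos (hco.mul_dvd_of_dvd_of_dvd ha hb)]; ring
              · rw [if_neg hb, if_neg (fun h => hb ((Dvd.intro_left _ rfl).trans h))]; ring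
              · rw [if_neg ha, if_neg (fun h => ha ((Dvd.intro _ rfl).trans h))]; ring
              · rw [if_neg ha, if_neg (fun h => ha ((Dvd.intro _ rfl).trans h))]; ring
            simp_rw [this]
            rw [hcard]
            have h4 : ((N / (p * p') : ℕ) : ℝ) ≤ (N : ℝ) / ((p * p' : ℕ) : ℝ) := Nat.cast_div_le
            refine h4.trans (le_of_eq ?_)
            push_cast
            rw [div_eq_mul_inv, mul_inv]
            simp
      _ = N * W ^ 2 + N * W := by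
          simp_rw [Finset.sum_add_distrib]
          congr 1
          · rw [sq, hW, Finset.sum_mul_sum, Finset.mul_sum]
            apply Finset.sum_congr rfl
            intro p _
            rw [Finset.mul_sum]
          · rw [hW, Finset.mul_sum]
            apply Finset.sum_congr rfl
            intro p hp
            rw [Finset.sum_ite_eq, if_pos hp]
  have h3 : ∑ n ∈ Icc 1 N, ((∑ p ∈ S, if p ∣ n then (1 : ℝ) else 0) - W) ^ 2 =
      ∑ n ∈ Icc 1 N, (∑ p ∈ S, if p ∣ n then (1 : ℝ) else 0) ^ 2 -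
      2 * W * ∑ n ∈ Icc 1 N, (∑ p ∈ S, if p ∣ n then (1 : ℝ) else 0) + W ^ 2 * N := by
    have : ∀ n : ℕ, ((∑ p ∈ S, if p ∣ n then (1 : ℝ) else 0) - W) ^ 2 =
      (∑ p ∈ S, if p ∣ n then (1 : ℝ) else 0) ^ 2 -
      2 * W * (∑ p ∈ S, if p ∣ n then (1 : ℝ) else 0) + W ^ 2 := by
      intro n; ring
    simp_rw [this]
    have h7 : ((N + 1 - 1 : ℕ) : ℝ) = N := by simp
    rw [Finset.sum_add_distrib, Finset.sum_sub_distrib, ← Finset.mul_sum, Finset.sum_const,
      Nat.card_Icc, nsmul_eq_mul, h7]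
    ring
  rw [h3]
  nlinarith [mul_le_mul_of_nonneg_left h1 (by positivity : 0 ≤ 2 * W)]

/-- Katai's inequality -/
theorem kat_ineq (S : Finset ℕ) (hS : ∀ p ∈ S, p.Prime) (N : ℕ) (g : ℕ → ℂ) (hg : ∀ n, ‖g n‖ ≤ 1)
    (E : ℝ) (hE : ∀ p ∈ S, ∀ p' ∈ S, p ≠ p' → ∀ M ≤ N,
      ‖∑ m ∈ Icc 1 M, g (p * m) * (starRingEnd ℂ) (g (p' * m))‖ ≤ E) (hE0 : 0 ≤ E) :
    (∑ p ∈ S, 1 / (p : ℝ)) * ‖∑ n ∈ Icc 1 N, (lam n : ℂ) * g n‖ ≤
      Real.sqrt (N * (N * (∑ p ∈ S, 1 / (p : ℝ)) + 2 * (∑ p ∈ S, 1 / (p : ℝ)) * S.card)) +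
      Real.sqrt (N * (N * (∑ p ∈ S, 1 / (p : ℝ)) + (S.card : ℝ) ^ 2 * E)) := by
  set W : ℝ := ∑ p ∈ S, 1 / (p : ℝ) with hW
  have hW0 : 0 ≤ W := Finset.sum_nonneg fun p _ => by positivity
  set om : ℕ → ℝ := fun n => ∑ p ∈ S, if p ∣ n then (1 : ℝ) else 0 with hom
  have hsplit : (W : ℂ) * ∑ n ∈ Icc 1 N, (lam n : ℂ) * g n =
      ∑ n ∈ Icc 1 N, ((W - om n : ℝ) : ℂ) * ((lam n : ℂ) * g n) +
      ∑ n ∈ Icc 1 N, (om n : ℂ) * ((lam n : ℂ) * g n) := by
    rw [← Finset.sum_add_distrib, Finset.mul_sum]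
    apply Finset.sum_congr rfl
    intro n _
    push_cast
    ring
  have hA : ‖∑ n ∈ Icc 1 N, ((W - om n : ℝ) : ℂ) * ((lam n : ℂ) * g n)‖ ≤
      Real.sqrt (N * (N * W + 2 * W * S.card)) := by
    calc _ ≤ ∑ n ∈ Icc 1 N, |om n - W| := by
          refine (norm_sum_le _ _).trans (Finset.sum_le_sum fun n _ => ?_)
          rw [norm_mul, norm_mul, kat_abs_lam, one_mul, Complex.norm_real, Real.norm_eq_abs,
            abs_sub_comm]
          exact mul_le_of_le_one_right (abs_nonneg _) (hg n)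
      _ ≤ Real.sqrt (N * (N * W + 2 * W * S.card)) := by
          apply Real.le_sqrt_of_sq_le
          have h := Finset.sum_mul_sq_le_sq_mul_sq (Icc 1 N) (fun _ => (1 : ℝ)) (fun n => |om n - W|)
          simp only [one_mul, one_pow, Finset.sum_const, Nat.card_Icc, nsmul_eq_mul, mul_one,
            sq_abs] at h
          refine h.trans ?_
          have h2 := kat_tk S hS N
          have h3 : ((N + 1 - 1 : ℕ) : ℝ) = N := by simp
          rw [h3]
          exact mul_le_mul_of_nonneg_left h2 (by positivity)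
  have hB1 : ∑ n ∈ Icc 1 N, (om n : ℂ) * ((lam n : ℂ) * g n) =
      - ∑ m ∈ Icc 1 N, (lam m : ℂ) * ∑ p ∈ S, if p * m ≤ N then g (p * m) else 0 := by
    calc _ = ∑ p ∈ S, ∑ n ∈ Icc 1 N, if p ∣ n then ((lam n : ℂ) * g n) else 0 := by
          rw [Finset.sum_comm]
          apply Finset.sum_congr rfl
          intro n _
          rw [hom]
          push_cast
          rw [Finset.sum_mul]
          apply Finset.sum_congr rfl
          intro p _
          split_ifs <;> simp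
      _ = ∑ p ∈ S, ∑ m ∈ Icc 1 N, if p * m ≤ N then (-(lam m : ℂ) * g (p * m)) else 0 := by
          apply Finset.sum_congr rfl
          intro p hp
          have hpp := hS p hp
          rw [← Finset.sum_filter, ← Finset.sum_filter]
          symm
          apply Finset.sum_bij (fun m _ => p * m)
          · intro m hm
            rw [Finset.mem_filter, Finset.mem_Icc] at hm
            rw [Finset.mem_filter, Finset.mem_Icc]
            have := hpp.pos
            exact ⟨⟨Nat.mul_pos this (by omega), hm.2⟩, Dvd.intro _ rfl⟩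
          · intro m _ m' _ h
            exact Nat.eq_of_mul_eq_mul_left hpp.pos h
          · intro n hn
            rw [Finset.mem_filter, Finset.mem_Icc] at hn
            obtain ⟨m, rfl⟩ := hn.2
            refine ⟨m, ?_, rfl⟩
            rw [Finset.mem_filter, Finset.mem_Icc]
            have h0 : m ≠ 0 := by rintro rfl; simp at hn
            have := hpp.pos
            refine ⟨⟨by omega, ?_⟩, hn.1.2⟩
            exact (Nat.le_mul_of_pos_left m this).trans hn.1.2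
          · intro m hm
            rw [Finset.mem_filter, Finset.mem_Icc] at hm
            rw [kat_lam_mul hpp hm.1.1]
            push_cast
            ring
      _ = _ := by
          rw [Finset.sum_comm, ← Finset.sum_neg_distrib]
          apply Finset.sum_congr rfl
          intro m _
          rw [Finset.mul_sum, ← Finset.sum_neg_distrib]
          apply Finset.sum_congr rfl
          intro p _
          split_ifs <;> simp
  have hB2 : ∑ m ∈ Icc 1 N, ‖∑ p ∈ S, if p * m ≤ N then g (p * m) else 0‖ ^ 2 ≤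
      N * W + (S.card : ℝ) ^ 2 * E := by
    have h1 : ∀ m : ℕ, ((‖∑ p ∈ S, if p * m ≤ N then g (p * m) else 0‖ ^ 2 : ℝ) : ℂ) =
        ∑ p ∈ S, ∑ p' ∈ S, (if p * m ≤ N then g (p * m) else 0) *
          (starRingEnd ℂ) (if p' * m ≤ N then g (p' * m) else 0) := by
      intro m
      rw [← Finset.sum_mul_sum, ← map_sum, Complex.mul_conj, Complex.normSq_eq_norm_sq]
    have h2 : ((∑ m ∈ Icc 1 N, ‖∑ p ∈ S, if p * m ≤ N then g (p * m) else 0‖ ^ 2 : ℝ) : ℂ) =
        ∑ p ∈ S, ∑ p' ∈ S, ∑ m ∈ Icc 1 N, (if p * m ≤ N then g (p * m) else 0) *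
          (starRingEnd ℂ) (if p' * m ≤ N then g (p' * m) else 0) := by
      rw [Complex.ofReal_sum, Finset.sum_congr rfl (fun m _ => h1 m)]
      rw [Finset.sum_comm]
      apply Finset.sum_congr rfl
      intro p _
      rw [Finset.sum_comm]
    have h3 : ∀ p ∈ S, ∀ p' ∈ S, ‖∑ m ∈ Icc 1 N, (if p * m ≤ N then g (p * m) else 0) *
          (starRingEnd ℂ) (if p' * m ≤ N then g (p' * m) else 0)‖ ≤
          (if p = p' then (N : ℝ) * (1 / (p : ℝ)) else 0) + E := by
      intro p hp p' hp'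
      have hp0 : 0 < p := (hS p hp).pos
      have hp0' : 0 < p' := (hS p' hp').pos
      have e1 : ∑ m ∈ Icc 1 N, (if p * m ≤ N then g (p * m) else 0) *
          (starRingEnd ℂ) (if p' * m ≤ N then g (p' * m) else 0) =
          ∑ m ∈ Icc 1 (min (N / p) (N / p')), g (p * m) * (starRingEnd ℂ) (g (p' * m)) := by
        have : ∀ m : ℕ, (if p * m ≤ N then g (p * m) else 0) *
          (starRingEnd ℂ) (if p' * m ≤ N then g (p' * m) else 0) =
          if (p * m ≤ N ∧ p' * m ≤ N) then g (p * m) * (starRingEnd ℂ) (g (p' * m)) else 0 := by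
          intro m
          by_cases ha : p * m ≤ N <;> by_cases hb : p' * m ≤ N <;> simp [ha, hb]
        simp_rw [this]
        rw [← Finset.sum_filter]
        apply Finset.sum_congr _ (fun _ _ => rfl)
        ext m
        rw [Finset.mem_filter, Finset.mem_Icc, Finset.mem_Icc, le_min_iff,
          Nat.le_div_iff_mul_le hp0, Nat.le_div_iff_mul_le hp0', mul_comm m p, mul_comm m p']
        constructor
        · rintro ⟨⟨a, _⟩, b, c⟩
          exact ⟨a, b, c⟩
        · rintro ⟨a, b, c⟩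
          exact ⟨⟨a, (Nat.le_mul_of_pos_left m hp0).trans b⟩, b, c⟩
      rw [e1]
      by_cases hpp : p = p'
      · subst hpp
        rw [if_pos rfl, min_self]
        have : ‖∑ m ∈ Icc 1 (N / p), g (p * m) * (starRingEnd ℂ) (g (p * m))‖ ≤
            ((N / p : ℕ) : ℝ) := by
          refine (norm_sum_le _ _).trans ?_
          calc _ ≤ ∑ m ∈ Icc 1 (N / p), (1 : ℝ) := by
                apply Finset.sum_le_sum
                intro m _
                rw [norm_mul, RCLike.norm_conj]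
                exact mul_le_one₀ (hg _) (norm_nonneg _) (hg _)
            _ = _ := by simp
        have h4 : ((N / p : ℕ) : ℝ) ≤ (N : ℝ) / p := Nat.cast_div_le
        have h6 : (N : ℝ) / p = N * (1 / (p : ℝ)) := by ring
        linarith
      · rw [if_neg hpp, zero_add]
        exact hE p hp p' hp' hpp _ ((min_le_left _ _).trans (Nat.div_le_self _ _))
    have h4 : ∑ m ∈ Icc 1 N, ‖∑ p ∈ S, if p * m ≤ N then g (p * m) else 0‖ ^ 2 =
        ‖((∑ m ∈ Icc 1 N, ‖∑ p ∈ S, if p * m ≤ N then g (p * m) else 0‖ ^ 2 : ℝ) : ℂ)‖ := by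
      rw [Complex.norm_real, Real.norm_of_nonneg]
      exact Finset.sum_nonneg fun _ _ => by positivity
    rw [h4, h2]
    calc _ ≤ ∑ p ∈ S, ∑ p' ∈ S, ((if p = p' then (N : ℝ) * (1 / (p : ℝ)) else 0) + E) := by
          refine (norm_sum_le _ _).trans (Finset.sum_le_sum fun p hp => ?_)
          exact (norm_sum_le _ _).trans (Finset.sum_le_sum fun p' hp' => h3 p hp p' hp')
      _ = _ := by
          simp_rw [Finset.sum_add_distrib]
          congr 1
          · rw [hW, Finset.mul_sum]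
            apply Finset.sum_congr rfl
            intro p hp
            rw [Finset.sum_ite_eq, if_pos hp]
          · simp only [Finset.sum_const, nsmul_eq_mul]
            ring
  have hB : ‖∑ n ∈ Icc 1 N, (om n : ℂ) * ((lam n : ℂ) * g n)‖ ≤
      Real.sqrt (N * (N * W + (S.card : ℝ) ^ 2 * E)) := by
    rw [hB1, norm_neg]
    calc _ ≤ ∑ m ∈ Icc 1 N, ‖∑ p ∈ S, if p * m ≤ N then g (p * m) else 0‖ := by
          refine (norm_sum_le _ _).trans (Finset.sum_le_sum fun m _ => ?_)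
          rw [norm_mul, kat_abs_lam, one_mul]
      _ ≤ _ := by
          apply Real.le_sqrt_of_sq_le
          have h := Finset.sum_mul_sq_le_sq_mul_sq (Icc 1 N) (fun _ => (1 : ℝ))
            (fun m => ‖∑ p ∈ S, if p * m ≤ N then g (p * m) else 0‖)
          simp only [one_mul, one_pow, Finset.sum_const, Nat.card_Icc, nsmul_eq_mul, mul_one] at h
          refine h.trans ?_
          have h3 : ((N + 1 - 1 : ℕ) : ℝ) = N := by simp
          rw [h3]
          exact mul_le_mul_of_nonneg_left hB2 (by positivity)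
  calc W * ‖∑ n ∈ Icc 1 N, (lam n : ℂ) * g n‖ = ‖(W : ℂ) * ∑ n ∈ Icc 1 N, (lam n : ℂ) * g n‖ := by
        rw [norm_mul, Complex.norm_real, Real.norm_of_nonneg hW0]
    _ ≤ _ := by
        rw [hsplit]
        exact (norm_add_le _ _).trans (add_le_add hA hB)

/-- finite sets of primes with large sum of reciprocals -/
theorem kat_primes (B : ℝ) : ∃ S : Finset ℕ, (∀ p ∈ S, p.Prime) ∧ B ≤ ∑ p ∈ S, 1 / (p : ℝ) := by
  have h := not_summable_one_div_on_primes
  rw [not_summable_iff_tendsto_nat_atTop_of_nonneg] at h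
  · obtain ⟨N, hN⟩ := (h.eventually_ge_atTop B).exists
    refine ⟨(range N).filter Nat.Prime, fun p hp => (Finset.mem_filter.mp hp).2, hN.trans ?_⟩
    rw [Finset.sum_filter]
    apply le_of_eq
    apply Finset.sum_congr rfl
    intro p _
    by_cases hp : p.Prime
    · rw [if_pos hp, Set.indicator_of_mem (by exact hp)]
    · rw [if_neg hp, Set.indicator_of_notMem (by exact hp)]
  · intro n
    exact Set.indicator_nonneg (fun _ _ => by positivity) _

/-- correlation of the Liouville function with `e(nθ)` times a slowly varying function -/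
theorem kat_slow {θ : ℝ} (hθ : Irrational θ) {ε : ℝ} (hε : 0 < ε) : ∃ δ : ℝ, 0 < δ ∧ ∃ N₀ : ℕ,
    ∀ G : ℕ → ℂ, (∀ m, ‖G m‖ ≤ 1) → (∀ m, ‖G (m + 1) - G m‖ ≤ δ) → ∀ N : ℕ, N₀ ≤ N →
    ‖∑ n ∈ Icc 1 N, (lam n : ℂ) * (er (2 * Real.pi * θ) n * G n)‖ ≤ ε * N := by
  classical
  obtain ⟨S, hS, hW⟩ := kat_primes (8 / ε ^ 2 + 1)
  set W : ℝ := ∑ p ∈ S, 1 / (p : ℝ) with hWdef
  have hW1 : 1 ≤ W := le_trans (by have : 0 ≤ 8 / ε ^ 2 := by positivity
                                   linarith) hW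
  have hWe : 8 / ε ^ 2 ≤ W := by linarith
  choose! C hC0 hC using fun p p' (h : p ≠ p') => kat_off hθ p p' h
  -- uniform constants
  set C1 : ℝ := ∑ p ∈ S, ∑ p' ∈ S, |C p p'| with hC1
  have hC1le : ∀ p ∈ S, ∀ p' ∈ S, |C p p'| ≤ C1 := by
    intro p hp p' hp'
    calc |C p p'| ≤ ∑ p' ∈ S, |C p p'| :=
          Finset.single_le_sum (f := fun p' => |C p p'|) (fun _ _ => abs_nonneg _) hp'
      _ ≤ C1 := Finset.single_le_sum (f := fun p => ∑ p' ∈ S, |C p p'|)
          (fun _ _ => Finset.sum_nonneg fun _ _ => abs_nonneg _) hp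
  have hC10 : 0 ≤ C1 := Finset.sum_nonneg fun _ _ => Finset.sum_nonneg fun _ _ => abs_nonneg _
  set P1 : ℝ := ∑ p ∈ S, (p : ℝ) with hP1
  have hP1le : ∀ p ∈ S, (p : ℝ) ≤ P1 := fun p hp =>
    Finset.single_le_sum (f := fun p : ℕ => (p : ℝ)) (fun _ _ => by positivity) hp
  have hP10 : 0 ≤ P1 := Finset.sum_nonneg fun _ _ => by positivity
  -- parameters
  set s2 : ℝ := (S.card : ℝ) ^ 2 with hs2
  have hs20 : 0 ≤ s2 := by positivity
  refine ⟨1 / (2 * (s2 * (C1 * (P1 + P1)) + 1)), by positivity,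
    max (2 * S.card) ⌈2 * (s2 * C1)⌉₊, ?_⟩
  intro G hG hG' N hN
  set δ : ℝ := 1 / (2 * (s2 * (C1 * (P1 + P1)) + 1)) with hδ
  have hδ0 : 0 ≤ δ := by positivity
  have hN1 : (2 * S.card : ℝ) ≤ N := by exact_mod_cast (le_max_left _ _).trans hN
  have hN2 : 2 * (s2 * C1) ≤ N := by
    have h1 : (⌈2 * (s2 * C1)⌉₊ : ℝ) ≤ N := by exact_mod_cast (le_max_right _ _).trans hN
    exact (Nat.le_ceil _).trans h1
  set g : ℕ → ℂ := fun n => er (2 * Real.pi * θ) n * G n with hg
  have hg1 : ∀ n, ‖g n‖ ≤ 1 := by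
    intro n
    rw [hg]
    simp only
    rw [norm_mul, kat_norm_er, one_mul]
    exact hG n
  have hEE := kat_ineq S hS N g hg1 (C1 * (1 + N * ((P1 + P1) * δ)))
    (by
      intro p hp p' hp' hpp M hM
      refine (hC p p' hpp δ G hδ0 hG hG' M).trans ?_
      have h1 : C p p' ≤ C1 := (le_abs_self _).trans (hC1le p hp p' hp')
      have h2 : (M : ℝ) * (((p : ℝ) + p') * δ) ≤ N * ((P1 + P1) * δ) := by
        have hM' : (M : ℝ) ≤ N := by exact_mod_cast hM
        have h3 : ((p : ℝ) + p') * δ ≤ (P1 + P1) * δ :=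
          mul_le_mul_of_nonneg_right (add_le_add (hP1le p hp) (hP1le p' hp')) hδ0
        exact mul_le_mul hM' h3 (by positivity) (by positivity)
      exact mul_le_mul h1 (by linarith) (by positivity) hC10)
    (by positivity)
  -- numerical estimates
  have hN0 : (0 : ℝ) ≤ N := Nat.cast_nonneg _
  have hb1 : N * W + 2 * W * S.card ≤ 2 * N * W := by nlinarith
  have hb2 : s2 * (C1 * (1 + N * ((P1 + P1) * δ))) ≤ N * W := by
    have e1 : s2 * (C1 * (1 + N * ((P1 + P1) * δ))) = s2 * C1 + N * ((s2 * (C1 * (P1 + P1))) * δ) := by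
      ring
    have e2 : (s2 * (C1 * (P1 + P1))) * δ ≤ 1 / 2 := by
      rw [hδ, mul_one_div, div_le_iff₀ (by positivity)]
      linarith
    have e3 : N * ((s2 * (C1 * (P1 + P1))) * δ) ≤ N * (1 / 2) := mul_le_mul_of_nonneg_left e2 hN0
    have e4 : (N : ℝ) * 1 ≤ N * W := mul_le_mul_of_nonneg_left hW1 hN0
    rw [e1]
    linarith
  have hb3 : Real.sqrt (N * (N * W + 2 * W * S.card)) ≤ N * Real.sqrt (2 * W) := by
    have : (N : ℝ) * Real.sqrt (2 * W) = Real.sqrt (N ^ 2 * (2 * W)) := by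
      rw [Real.sqrt_mul (sq_nonneg (N : ℝ)) (2 * W), Real.sqrt_sq hN0]
    rw [this]
    apply Real.sqrt_le_sqrt
    nlinarith
  have hb4 : Real.sqrt (N * (N * W + s2 * (C1 * (1 + N * ((P1 + P1) * δ))))) ≤
      N * Real.sqrt (2 * W) := by
    have : (N : ℝ) * Real.sqrt (2 * W) = Real.sqrt (N ^ 2 * (2 * W)) := by
      rw [Real.sqrt_mul (sq_nonneg (N : ℝ)) (2 * W), Real.sqrt_sq hN0]
    rw [this]
    apply Real.sqrt_le_sqrt
    nlinarith
  have hb5 : W * ‖∑ n ∈ Icc 1 N, (lam n : ℂ) * g n‖ ≤ N * (2 * Real.sqrt (2 * W)) := by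
    refine hEE.trans ?_
    linarith
  have hb6 : 2 * Real.sqrt (2 * W) ≤ ε * W := by
    have h1 : 2 * Real.sqrt (2 * W) = Real.sqrt (8 * W) := by
      rw [show (8 : ℝ) * W = 2 ^ 2 * (2 * W) by ring, Real.sqrt_mul (sq_nonneg (2 : ℝ)) (2 * W),
        Real.sqrt_sq (by norm_num)]
    rw [h1]
    apply Real.sqrt_le_iff.mpr
    refine ⟨by positivity, ?_⟩
    rw [div_le_iff₀ (by positivity)] at hWe
    nlinarith
  have hb7 : W * ‖∑ n ∈ Icc 1 N, (lam n : ℂ) * g n‖ ≤ W * (ε * N) := by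
    refine hb5.trans ?_
    have := mul_le_mul_of_nonneg_left hb6 hN0
    linarith
  exact le_of_mul_le_mul_left hb7 (by linarith)

theorem kat_shift (v : ℕ → ℂ) (B : ℝ) (hv : ∀ n, ‖v n‖ ≤ B) (N j : ℕ) :
    ‖∑ n ∈ Icc 1 N, v (n + j) - ∑ n ∈ Icc 1 N, v n‖ ≤ 2 * j * B := by
  have hB : 0 ≤ B := (norm_nonneg _).trans (hv 0)
  have hstep : ∀ (i : ℕ), ∑ n ∈ Icc 1 N, v (n + (i + 1)) - ∑ n ∈ Icc 1 N, v (n + i) =
      v (N + 1 + i) - v (1 + i) := by
    intro i
    induction N with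
    | zero => simp
    | succ N ih =>
      rw [Finset.sum_Icc_succ_top (by omega), Finset.sum_Icc_succ_top (by omega)]
      have e1 : N + 1 + (i + 1) = N + 1 + 1 + i := by ring
      rw [e1]
      linear_combination ih
  induction j with
  | zero => simp
  | succ j ih =>
    calc ‖∑ n ∈ Icc 1 N, v (n + (j + 1)) - ∑ n ∈ Icc 1 N, v n‖ =
          ‖(v (N + 1 + j) - v (1 + j)) + (∑ n ∈ Icc 1 N, v (n + j) - ∑ n ∈ Icc 1 N, v n)‖ := by
          rw [← hstep j]; congr 1; ring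
      _ ≤ (B + B) + 2 * j * B := by
          refine (norm_add_le _ _).trans (add_le_add ?_ ih)
          exact (norm_sub_le _ _).trans (add_le_add (hv _) (hv _))
      _ = _ := by push_cast; ring

theorem kat_box (Φ : ℕ → ℂ) (B : ℝ) (hΦ : ∀ n, ‖Φ n‖ ≤ B) (H m : ℕ) :
    ‖∑ j ∈ range H, Φ (m + 1 - j) - ∑ j ∈ range H, Φ (m - j)‖ ≤ 2 * B := by
  have hB : 0 ≤ B := (norm_nonneg _).trans (hΦ 0)
  cases H with
  | zero => simp; linarith
  | succ H =>
    rw [Finset.sum_range_succ', Finset.sum_range_succ]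
    have : ∀ i, m + 1 - (i + 1) = m - i := fun i => by omega
    simp_rw [this]
    have e : ∑ i ∈ range H, Φ (m - i) + Φ (m + 1 - 0) - (∑ i ∈ range H, Φ (m - i) + Φ (m - H)) =
        Φ (m + 1 - 0) - Φ (m - H) := by ring
    rw [e]
    calc _ ≤ B + B := (norm_sub_le _ _).trans (add_le_add (hΦ _) (hΦ _))
      _ = _ := by ring

/-- task KAT -/
theorem pw_irrat (θ : ℝ) (hθ : Irrational θ) : PW θ := by
  intro ε hε
  obtain ⟨δ, hδ, N₀, hN₀⟩ := kat_slow hθ (ε := ε / 2) (by positivity)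
  refine ⟨⌈2 / δ⌉₊ + 1, ?_⟩
  intro H hH
  refine ⟨max N₀ ⌈4 * H / ε⌉₊, ?_⟩
  intro N hN
  have hH1 : 1 ≤ H := by omega
  have hHr : (0 : ℝ) < H := by exact_mod_cast hH1
  have hHδ : 2 / (H : ℝ) ≤ δ := by
    have h1 : 2 / δ ≤ H := by
      refine (Nat.le_ceil _).trans ?_
      exact_mod_cast (by omega : ⌈2 / δ⌉₊ ≤ H)
    rw [div_le_iff₀ hHr]
    rw [div_le_iff₀ hδ] at h1
    linarith
  have hNe : 4 * H / ε ≤ (N : ℝ) :=
    (Nat.le_ceil _).trans (by exact_mod_cast (le_max_right _ _).trans hN)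
  set t : ℝ := 2 * Real.pi * θ with ht
  set f : ℕ → ℂ := fun n => (lam n : ℂ) * er t n with hf
  have hf1 : ∀ n, ‖f n‖ = 1 := by
    intro n
    rw [hf]; simp only
    rw [norm_mul, kat_abs_lam, kat_norm_er, one_mul]
  set F : ℕ → ℂ := fun n => ∑ j ∈ range H, f (n + j) with hF
  have hF1 : ∀ n, ‖F n‖ ≤ H := by
    intro n
    refine (norm_sum_le _ _).trans ?_
    simp [hf1]
  have hFeq : ∀ n : ℕ, ‖∑ j ∈ range H, (lam (n + j) : ℂ) * er t j‖ = ‖F n‖ := by
    intro n
    have : F n = er t n * ∑ j ∈ range H, (lam (n + j) : ℂ) * er t j := by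
      rw [hF, hf]; simp only
      rw [Finset.mul_sum]
      apply Finset.sum_congr rfl
      intro j _
      have : ((n + j : ℕ) : ℝ) = (n : ℝ) + j := by push_cast; ring
      rw [this, kat_er_add]
      ring
    rw [this, norm_mul, kat_norm_er, one_mul]
  simp_rw [hFeq]
  -- the swapped function
  set Φ : ℕ → ℂ := fun n => (starRingEnd ℂ) (F n) with hΦ
  have hΦ1 : ∀ n, ‖Φ n‖ ≤ H := by
    intro n
    rw [hΦ]; simp only
    rw [RCLike.norm_conj]
    exact hF1 n
  set G : ℕ → ℂ := fun m => ((1 / (H : ℝ) ^ 2 : ℝ) : ℂ) * ∑ j ∈ range H, Φ (m - j) with hG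
  have hH2 : (0 : ℝ) < 1 / (H : ℝ) ^ 2 := by positivity
  have hG1 : ∀ m, ‖G m‖ ≤ 1 := by
    intro m
    rw [hG]; simp only
    rw [norm_mul, Complex.norm_real, Real.norm_of_nonneg hH2.le]
    have : ‖∑ j ∈ range H, Φ (m - j)‖ ≤ (H : ℝ) ^ 2 := by
      calc _ ≤ ∑ j ∈ range H, (H : ℝ) := (norm_sum_le _ _).trans (Finset.sum_le_sum fun _ _ => hΦ1 _)
        _ = _ := by rw [Finset.sum_const, card_range, nsmul_eq_mul]; ring
    calc _ ≤ 1 / (H : ℝ) ^ 2 * (H : ℝ) ^ 2 := mul_le_mul_of_nonneg_left this hH2.le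
      _ = 1 := by field_simp
  have hG2 : ∀ m, ‖G (m + 1) - G m‖ ≤ δ := by
    intro m
    rw [hG]; simp only
    rw [← mul_sub, norm_mul, Complex.norm_real, Real.norm_of_nonneg hH2.le]
    calc _ ≤ 1 / (H : ℝ) ^ 2 * (2 * H) :=
          mul_le_mul_of_nonneg_left (kat_box Φ H hΦ1 H m) hH2.le
      _ = 2 / H := by field_simp
      _ ≤ δ := hHδ
  have hmain := hN₀ G hG1 hG2 N ((le_max_left _ _).trans hN)
  -- identity
  have h1 : ((∑ n ∈ Icc 1 N, ‖F n‖ ^ 2 : ℝ) : ℂ) = ∑ j ∈ range H, ∑ n ∈ Icc 1 N, Φ n * f (n + j) := by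
    rw [Finset.sum_comm, Complex.ofReal_sum]
    apply Finset.sum_congr rfl
    intro n _
    rw [← Finset.mul_sum]
    change _ = (starRingEnd ℂ) (F n) * F n
    rw [mul_comm, Complex.mul_conj, Complex.normSq_eq_norm_sq]
  have h2 : ∑ j ∈ range H, ∑ n ∈ Icc 1 N, Φ (n - j) * f n =
      ((H : ℂ) ^ 2) * ∑ n ∈ Icc 1 N, (lam n : ℂ) * (er t n * G n) := by
    rw [Finset.sum_comm, Finset.mul_sum]
    apply Finset.sum_congr rfl
    intro n _
    rw [← Finset.sum_mul, hG, hf]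
    simp only
    have : (H : ℂ) ≠ 0 := by exact_mod_cast hHr.ne'
    push_cast
    field_simp
  have h3 : ‖∑ j ∈ range H, ∑ n ∈ Icc 1 N, Φ n * f (n + j) -
      ∑ j ∈ range H, ∑ n ∈ Icc 1 N, Φ (n - j) * f n‖ ≤ 2 * (H : ℝ) ^ 3 := by
    rw [← Finset.sum_sub_distrib]
    calc _ ≤ ∑ j ∈ range H, 2 * (H : ℝ) * H := by
          refine (norm_sum_le _ _).trans (Finset.sum_le_sum fun j hj => ?_)
          have hs := kat_shift (fun n => Φ (n - j) * f n) H (by
            intro n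
            rw [norm_mul, hf1, mul_one]
            exact hΦ1 _) N j
          simp only [Nat.add_sub_cancel] at hs
          refine hs.trans ?_
          have : (j : ℝ) ≤ H := by exact_mod_cast (Finset.mem_range.mp hj).le
          nlinarith
      _ = _ := by rw [Finset.sum_const, card_range, nsmul_eq_mul]; ring
  have h4 : ∑ n ∈ Icc 1 N, ‖F n‖ ^ 2 = ‖((∑ n ∈ Icc 1 N, ‖F n‖ ^ 2 : ℝ) : ℂ)‖ := by
    rw [Complex.norm_real, Real.norm_of_nonneg]
    exact Finset.sum_nonneg fun _ _ => by positivity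
  have h5 : ‖((∑ n ∈ Icc 1 N, ‖F n‖ ^ 2 : ℝ) : ℂ)‖ ≤ 2 * (H : ℝ) ^ 3 + (H : ℝ) ^ 2 * (ε / 2 * N) := by
    rw [h1]
    have e : ∑ j ∈ range H, ∑ n ∈ Icc 1 N, Φ n * f (n + j) =
        (∑ j ∈ range H, ∑ n ∈ Icc 1 N, Φ n * f (n + j) -
          ∑ j ∈ range H, ∑ n ∈ Icc 1 N, Φ (n - j) * f n) +
        ∑ j ∈ range H, ∑ n ∈ Icc 1 N, Φ (n - j) * f n := by ring
    rw [e]
    refine (norm_add_le _ _).trans (add_le_add h3 ?_)
    rw [h2, norm_mul, norm_pow]
    simp only [RCLike.norm_natCast]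
    exact mul_le_mul_of_nonneg_left hmain (by positivity)
  rw [h4]
  refine h5.trans ?_
  have h6 : 4 * H ≤ ε * N := by
    rw [div_le_iff₀ hε] at hNe
    linarith
  have h7 : (H : ℝ) ^ 2 * (4 * H) ≤ (H : ℝ) ^ 2 * (ε * N) :=
    mul_le_mul_of_nonneg_left h6 (by positivity)
  nlinarith

end Pool.Agent.H376R2.TT
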