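import Pool.Agent.H376R2.TT.Defs
import Pool.Agent.H376R2.MR.SmallK
import Pool.Agent.Helper245.MobAP

/-! Project TT, task LAMAP: the Liouville function has mean zero in every residue class. -/

set_option autoImplicit false

namespace Pool.Agent.H376R2.TT

open Finset Filter Pool.Agent.H376R2.MR

/-- partial sums of `μ` over `m ≤ N` with `d² m ≡ a mod q` -/
noncomputable def lamapM (q a d N : ℕ) : ℝ :=
  ∑ m ∈ Icc 1 N, if (d ^ 2 * m) % q = a % q then
    ((ArithmeticFunction.moebius m : ℤ) : ℝ) else 0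

theorem lamap_S_eq (q a N : ℕ) :
    ∑ n ∈ Icc 1 N, lamq q a n = ∑ d ∈ Icc 1 N, lamapM q a d (N / d ^ 2) := by
  have h1 : ∀ n ∈ Icc 1 N, lamq q a n = ∑ d ∈ Icc 1 N, if d ^ 2 ∣ n then
      (if n % q = a % q then ((ArithmeticFunction.moebius (n / d ^ 2) : ℤ) : ℝ) else 0)
      else 0 := by
    intro n hn
    rw [mem_Icc] at hn
    unfold lamq
    by_cases hna : n % q = a % q
    · simp only [if_pos hna]
      rw [smallk_lam_eq hn.1 hn.2, Finset.sum_filter]
    · simp only [if_neg hna]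
      simp
  rw [Finset.sum_congr rfl h1, Finset.sum_comm]
  apply Finset.sum_congr rfl
  intro d hd
  rw [mem_Icc] at hd
  have hd2 : 0 < d ^ 2 := pow_pos (by omega) 2
  rw [← Finset.sum_filter]
  unfold lamapM
  symm
  refine Finset.sum_bij' (fun m _ => d ^ 2 * m) (fun n _ => n / d ^ 2) ?_ ?_ ?_ ?_ ?_
  · intro m hm
    rw [mem_Icc] at hm
    rw [mem_filter, mem_Icc]
    refine ⟨⟨?_, ?_⟩, Dvd.intro _ rfl⟩
    · exact Nat.one_le_iff_ne_zero.mpr (Nat.mul_ne_zero hd2.ne' (by omega))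
    · calc d ^ 2 * m ≤ d ^ 2 * (N / d ^ 2) := Nat.mul_le_mul_left _ hm.2
        _ ≤ N := Nat.mul_div_le _ _
  · intro n hn
    rw [mem_filter, mem_Icc] at hn
    obtain ⟨⟨h1, h2⟩, c, hc⟩ := hn
    rw [mem_Icc]
    refine ⟨?_, Nat.div_le_div_right h2⟩
    rw [hc, Nat.mul_div_cancel_left _ hd2]
    apply Nat.one_le_iff_ne_zero.mpr
    rintro rfl
    omega
  · intro m hm
    exact Nat.mul_div_cancel_left _ hd2
  · intro n hn
    rw [mem_filter] at hn
    exact Nat.mul_div_cancel' hn.2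
  · intro m hm
    rw [Nat.mul_div_cancel_left _ hd2]

theorem lamapM_abs (q a d N : ℕ) : |lamapM q a d N| ≤ N := by
  unfold lamapM
  refine (Finset.abs_sum_le_sum_abs _ _).trans ?_
  have : ∀ m ∈ Icc 1 N, |if (d ^ 2 * m) % q = a % q then
      ((ArithmeticFunction.moebius m : ℤ) : ℝ) else 0| ≤ 1 := by
    intro m _
    split_ifs
    · have := ArithmeticFunction.abs_moebius_le_one (n := m)
      exact_mod_cast this
    · simp
  refine (Finset.sum_le_sum this).trans ?_
  simp

theorem lamap_class (q b : ℕ) (hq : 1 ≤ q) (ε : ℝ) (hε : 0 < ε) :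
    ∃ N₀ : ℕ, ∀ N : ℕ, N₀ ≤ N → |∑ m ∈ Icc 1 N, if m % q = b then
      ((ArithmeticFunction.moebius m : ℤ) : ℝ) else 0| ≤ ε * N := by
  have h := Pool.Agent.Helper245.mobius_ap q b hq
  rw [Metric.tendsto_atTop] at h
  obtain ⟨N₀, hN₀⟩ := h (ε / 2) (by positivity)
  refine ⟨N₀ + 1, fun N hN => ?_⟩
  have h1 := hN₀ (N + 1) (by omega)
  rw [dist_zero_right, Real.norm_eq_abs, Finset.sum_range_succ', abs_div] at h1
  have hNpos : (0 : ℝ) < ((N + 1 : ℕ) : ℝ) := by positivity
  rw [abs_of_pos hNpos, div_lt_iff₀ hNpos] at h1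
  have e1 : ∑ m ∈ Icc 1 N, (if m % q = b then
      ((ArithmeticFunction.moebius m : ℤ) : ℝ) else 0) =
      ∑ k ∈ range N, (if (k + 1) % q = b then
      ((ArithmeticFunction.moebius (k + 1) : ℤ) : ℝ) else 0) := by
    rw [Finset.range_eq_Ico, Finset.sum_Ico_add' (fun m => if m % q = b then
      ((ArithmeticFunction.moebius m : ℤ) : ℝ) else 0) 0 N 1]
    apply Finset.sum_congr _ fun _ _ => rfl
    ext x; simp
  rw [e1]
  have e2 : (if 0 % q = b then ((ArithmeticFunction.moebius 0 : ℤ) : ℝ) else 0) = 0 := by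
    simp
  rw [e2, add_zero] at h1
  refine h1.le.trans ?_
  have : (1 : ℝ) ≤ N := by exact_mod_cast (by omega : 1 ≤ N)
  push_cast
  nlinarith

theorem lamapM_littleO (q a d : ℕ) (hq : 1 ≤ q) (ε : ℝ) (hε : 0 < ε) :
    ∃ N₀ : ℕ, ∀ N : ℕ, N₀ ≤ N → |lamapM q a d N| ≤ ε * N := by
  have hqr : (0 : ℝ) < q := by exact_mod_cast hq
  have hc : ∀ b : ℕ, ∃ N₀ : ℕ, ∀ N : ℕ, N₀ ≤ N → |∑ m ∈ Icc 1 N, if m % q = b then
      ((ArithmeticFunction.moebius m : ℤ) : ℝ) else 0| ≤ ε / q * N :=
    fun b => lamap_class q b hq _ (by positivity)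
  choose F hF using hc
  refine ⟨∑ b ∈ range q, F b, fun N hN => ?_⟩
  have key : lamapM q a d N = ∑ b ∈ (range q).filter (fun b => (d ^ 2 * b) % q = a % q),
      ∑ m ∈ Icc 1 N, if m % q = b then ((ArithmeticFunction.moebius m : ℤ) : ℝ) else 0 := by
    unfold lamapM
    rw [Finset.sum_comm]
    apply Finset.sum_congr rfl
    intro m _
    rw [Finset.sum_filter]
    have hmq : m % q ∈ range q := by
      rw [mem_range]; exact Nat.mod_lt _ hq
    rw [Finset.sum_eq_single_of_mem (m % q) hmq]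
    · rw [if_pos rfl]
      have : (d ^ 2 * (m % q)) % q = (d ^ 2 * m) % q := by
        rw [Nat.mul_mod, Nat.mod_mod, ← Nat.mul_mod]
      rw [this]
    · intro b _ hb
      have hb' : ¬ (m % q = b) := fun h => hb h.symm
      simp only [if_neg hb', ite_self]
  rw [key]
  refine (Finset.abs_sum_le_sum_abs _ _).trans ?_
  calc ∑ b ∈ (range q).filter (fun b => (d ^ 2 * b) % q = a % q), |∑ m ∈ Icc 1 N,
        if m % q = b then ((ArithmeticFunction.moebius m : ℤ) : ℝ) else 0|
      ≤ ∑ b ∈ (range q).filter (fun b => (d ^ 2 * b) % q = a % q), ε / q * N := by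
        apply Finset.sum_le_sum
        intro b hb
        rw [mem_filter] at hb
        apply hF b N
        refine le_trans ?_ hN
        exact Finset.single_le_sum (f := F) (fun _ _ => Nat.zero_le _) hb.1
    _ ≤ ∑ b ∈ range q, ε / q * N := by
        apply Finset.sum_le_sum_of_subset_of_nonneg (Finset.filter_subset _ _)
        intro _ _ _
        positivity
    _ = ε * N := by
        rw [Finset.sum_const, Finset.card_range, nsmul_eq_mul]
        field_simp

theorem lam_ap (q a : ℕ) (hq : 1 ≤ q) : MZero (lamq q a) := by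
  intro ε hε
  have hsum : Summable (fun d : ℕ => 1 / ((d : ℝ) ^ 2)) :=
    Real.summable_one_div_nat_pow.mpr (by norm_num)
  have key : Tendsto (fun N : ℕ => ∑' d : ℕ,
      (if d ∈ Icc 1 N then lamapM q a d (N / d ^ 2) / N else 0)) atTop
      (nhds (∑' _d : ℕ, (0 : ℝ))) := by
    apply tendsto_tsum_of_dominated_convergence hsum
    · intro d
      rw [Metric.tendsto_atTop]
      intro δ hδ
      obtain ⟨N₁, hN₁⟩ := lamapM_littleO q a d hq (δ / 2) (by positivity)
      refine ⟨(N₁ + 1) * d ^ 2 + 1, fun N hN => ?_⟩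
      simp only [dist_zero_right, Real.norm_eq_abs]
      split_ifs with hd
      · rw [mem_Icc] at hd
        have hd2 : 0 < d ^ 2 := pow_pos (by omega) 2
        have hNpos : (0 : ℝ) < N := by
          have : 0 < N := by omega
          exact_mod_cast this
        have h1 : N₁ ≤ N / d ^ 2 := by
          rw [Nat.le_div_iff_mul_le hd2]
          nlinarith
        have h2 := hN₁ _ h1
        rw [abs_div, abs_of_pos hNpos, div_lt_iff₀ hNpos]
        have h3 : ((N / d ^ 2 : ℕ) : ℝ) ≤ N := by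
          exact_mod_cast Nat.div_le_self N (d ^ 2)
        calc |lamapM q a d (N / d ^ 2)| ≤ δ / 2 * ((N / d ^ 2 : ℕ) : ℝ) := h2
          _ ≤ δ / 2 * N := by gcongr
          _ < δ * N := by nlinarith
      · simpa using hδ
    · filter_upwards with N d
      split_ifs with hd
      · rw [mem_Icc] at hd
        have hNpos : (0 : ℝ) < N := by
          have : 0 < N := by omega
          exact_mod_cast this
        have hdpos : (0 : ℝ) < (d : ℝ) ^ 2 := by
          have : 0 < d := by omega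
          positivity
        rw [Real.norm_eq_abs, abs_div, abs_of_pos hNpos, div_le_div_iff₀ hNpos hdpos]
        have h1 := lamapM_abs q a d (N / d ^ 2)
        have h2 : ((N / d ^ 2 : ℕ) : ℝ) ≤ N / (d : ℝ) ^ 2 := by
          have := @Nat.cast_div_le ℝ _ _ _ N (d ^ 2)
          simpa using this
        calc |lamapM q a d (N / d ^ 2)| * (d : ℝ) ^ 2 ≤ ((N : ℝ) / (d : ℝ) ^ 2) * (d : ℝ) ^ 2 :=
              mul_le_mul_of_nonneg_right (h1.trans h2) hdpos.le
          _ = 1 * (N : ℝ) := by rw [div_mul_cancel₀ _ hdpos.ne', one_mul]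
      · simp
  rw [tsum_zero, Metric.tendsto_atTop] at key
  obtain ⟨N₀, hN₀⟩ := key ε hε
  refine ⟨N₀ + 1, fun N hN => ?_⟩
  have h1 := hN₀ N (by omega)
  rw [dist_zero_right, Real.norm_eq_abs] at h1
  have hNpos : (0 : ℝ) < N := by
    have : 0 < N := by omega
    exact_mod_cast this
  have h2 : (∑' d : ℕ, (if d ∈ Icc 1 N then lamapM q a d (N / d ^ 2) / N else 0)) =
      (∑ n ∈ Icc 1 N, lamq q a n) / N := by
    rw [tsum_eq_sum (s := Icc 1 N)]
    · rw [lamap_S_eq, Finset.sum_div]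
      apply Finset.sum_congr rfl
      intro d hd
      rw [if_pos hd]
    · intro d hd
      rw [if_neg hd]
  rw [h2, abs_div, abs_of_pos hNpos, div_lt_iff₀ hNpos] at h1
  exact h1.le

end Pool.Agent.H376R2.TT
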