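import Pool.Agent.H376R2.TT.Defs

/-! Task MEAN (helper403): elementary properties of shift-invariant means. -/

set_option autoImplicit false

namespace Pool.Agent.H376R2.TT

open Finset Filter Pool.Agent.H376R2.MR

theorem mean_bd_const (c : ℝ) : Bd (fun _ => c) := ⟨|c|, fun _ => le_rfl⟩

theorem mean_bd_add {φ ψ : ℕ → ℝ} (h1 : Bd φ) (h2 : Bd ψ) : Bd (fun n => φ n + ψ n) := by
  obtain ⟨C, hC⟩ := h1
  obtain ⟨D, hD⟩ := h2
  exact ⟨C + D, fun n => (abs_add_le _ _).trans (add_le_add (hC n) (hD n))⟩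

theorem mean_bd_mul {φ ψ : ℕ → ℝ} (h1 : Bd φ) (h2 : Bd ψ) : Bd (fun n => φ n * ψ n) := by
  obtain ⟨C, hC⟩ := h1
  obtain ⟨D, hD⟩ := h2
  refine ⟨C * D, fun n => ?_⟩
  rw [abs_mul]
  exact mul_le_mul (hC n) (hD n) (abs_nonneg _) ((abs_nonneg _).trans (hC n))

theorem mean_bd_smul (c : ℝ) {φ : ℕ → ℝ} (h : Bd φ) : Bd (fun n => c * φ n) :=
  mean_bd_mul (mean_bd_const c) h

theorem mean_bd_sum {ι : Type*} (s : Finset ι) (φ : ι → ℕ → ℝ) (h : ∀ i ∈ s, Bd (φ i)) :
    Bd (fun n => ∑ i ∈ s, φ i n) := by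
  classical
  induction s using Finset.induction_on with
  | empty => simpa using mean_bd_const 0
  | insert a s ha ih =>
    have h1 : Bd (fun n => φ a n + ∑ i ∈ s, φ i n) :=
      mean_bd_add (h a (Finset.mem_insert_self _ _))
        (ih fun i hi => h i (Finset.mem_insert_of_mem hi))
    have h2 : (fun n => ∑ i ∈ insert a s, φ i n) = fun n => φ a n + ∑ i ∈ s, φ i n := by
      funext n
      rw [Finset.sum_insert ha]
    rw [h2]
    exact h1

theorem mean_zero (μ : SMean) : μ.m (fun _ => 0) = 0 := by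
  have := μ.smul 0 (fun _ => 1) (mean_bd_const 1)
  simpa using this

theorem mean_mono (μ : SMean) {φ ψ : ℕ → ℝ} (h1 : Bd φ) (h2 : Bd ψ) (h : ∀ n, φ n ≤ ψ n) :
    μ.m φ ≤ μ.m ψ := by
  have h3 : Bd (fun n => ψ n + (-1) * φ n) := mean_bd_add h2 (mean_bd_smul _ h1)
  have h4 := μ.nonneg _ h3 (fun n => by linarith [h n])
  rw [μ.add _ _ h2 (mean_bd_smul _ h1), μ.smul _ _ h1] at h4
  linarith

theorem mean_sum (μ : SMean) {ι : Type*} (s : Finset ι) (φ : ι → ℕ → ℝ) (h : ∀ i ∈ s, Bd (φ i)) :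
    μ.m (fun n => ∑ i ∈ s, φ i n) = ∑ i ∈ s, μ.m (φ i) := by
  classical
  induction s using Finset.induction_on with
  | empty => simpa using mean_zero μ
  | insert a s ha ih =>
    have h2 : (fun n => ∑ i ∈ insert a s, φ i n) = fun n => φ a n + ∑ i ∈ s, φ i n := by
      funext n
      rw [Finset.sum_insert ha]
    rw [h2, Finset.sum_insert ha, μ.add _ _ (h a (Finset.mem_insert_self _ _))
      (mean_bd_sum s φ fun i hi => h i (Finset.mem_insert_of_mem hi)),
      ih fun i hi => h i (Finset.mem_insert_of_mem hi)]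

theorem mean_shift (μ : SMean) {φ : ℕ → ℝ} (h : Bd φ) (k : ℕ) :
    μ.m (fun n => φ (n + k)) = μ.m φ := by
  induction k with
  | zero => rfl
  | succ k ih =>
    have h1 : Bd (fun n => φ (n + k)) := by
      obtain ⟨C, hC⟩ := h
      exact ⟨C, fun n => hC _⟩
    have h2 := μ.shift _ h1
    rw [ih] at h2
    rw [← h2]
    congr 1
    funext n
    congr 1
    ring

theorem mean_cs (μ : SMean) {φ ψ : ℕ → ℝ} (h1 : Bd φ) (h2 : Bd ψ) :
    (μ.m (fun n => φ n * ψ n)) ^ 2 ≤ μ.m (fun n => φ n ^ 2) * μ.m (fun n => ψ n ^ 2) := by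
  have b1 : Bd (fun n => φ n ^ 2) := by simpa [sq] using mean_bd_mul h1 h1
  have b2 : Bd (fun n => ψ n ^ 2) := by simpa [sq] using mean_bd_mul h2 h2
  have b12 : Bd (fun n => φ n * ψ n) := mean_bd_mul h1 h2
  have key : ∀ t : ℝ, 0 ≤ μ.m (fun n => ψ n ^ 2) * (t * t) + (2 * μ.m (fun n => φ n * ψ n)) * t +
      μ.m (fun n => φ n ^ 2) := by
    intro t
    have b3 : Bd (fun n => t ^ 2 * ψ n ^ 2) := mean_bd_smul _ b2
    have b4 : Bd (fun n => 2 * t * (φ n * ψ n)) := mean_bd_smul _ b12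
    have b5 : Bd (fun n => t ^ 2 * ψ n ^ 2 + 2 * t * (φ n * ψ n)) := mean_bd_add b3 b4
    have b6 : Bd (fun n => (t ^ 2 * ψ n ^ 2 + 2 * t * (φ n * ψ n)) + φ n ^ 2) :=
      mean_bd_add b5 b1
    have h3 := μ.nonneg _ b6 (fun n => by nlinarith [sq_nonneg (t * ψ n + φ n)])
    rw [μ.add _ _ b5 b1, μ.add _ _ b3 b4, μ.smul _ _ b2, μ.smul _ _ b12] at h3
    nlinarith [h3]
  have h4 := discrim_le_zero key
  unfold discrim at h4
  nlinarith [h4]

theorem mean_mod (μ : SMean) (q a : ℕ) (hq : 1 ≤ q) :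
    μ.m (fun n => if n % q = a % q then 1 else 0) = 1 / q := by
  have bd : ∀ b : ℕ, Bd (fun n => if n % q = b % q then (1 : ℝ) else 0) := fun b =>
    ⟨1, fun n => by dsimp only; split_ifs <;> norm_num⟩
  have st : ∀ b : ℕ, μ.m (fun n => if n % q = (b + 1) % q then (1 : ℝ) else 0) =
      μ.m (fun n => if n % q = b % q then (1 : ℝ) else 0) := by
    intro b
    rw [← μ.shift _ (bd (b + 1))]
    congr 1
    funext n
    have : ((n + 1) % q = (b + 1) % q) ↔ (n % q = b % q) :=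
      ⟨fun h => Nat.ModEq.add_right_cancel' 1 h, fun h => Nat.ModEq.add_right 1 h⟩
    simp only [this]
  have all : ∀ b : ℕ, μ.m (fun n => if n % q = b % q then (1 : ℝ) else 0) =
      μ.m (fun n => if n % q = 0 % q then (1 : ℝ) else 0) := by
    intro b
    induction b with
    | zero => rfl
    | succ b ih => rw [st, ih]
  have hs := mean_sum μ (range q) (fun b n => if n % q = b % q then (1 : ℝ) else 0)
    (fun b _ => bd b)
  have h1 : (fun n => ∑ b ∈ range q, (if n % q = b % q then (1 : ℝ) else 0)) = fun _ => 1 := by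
    funext n
    have h2 : ∑ b ∈ range q, (if n % q = b % q then (1 : ℝ) else 0) =
        ∑ b ∈ range q, (if n % q = b then (1 : ℝ) else 0) := by
      apply Finset.sum_congr rfl
      intro b hb
      rw [Nat.mod_eq_of_lt (Finset.mem_range.1 hb)]
    rw [h2, Finset.sum_ite_eq, if_pos]
    exact Finset.mem_range.2 (Nat.mod_lt _ (by omega))
  rw [h1, μ.one] at hs
  have h3 : ∑ b ∈ range q, μ.m (fun n => if n % q = b % q then (1 : ℝ) else 0) =
      q * μ.m (fun n => if n % q = 0 % q then (1 : ℝ) else 0) := by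
    rw [Finset.sum_congr rfl (fun b _ => all b), Finset.sum_const, Finset.card_range,
      nsmul_eq_mul]
  rw [h3] at hs
  have hq0 : (0 : ℝ) < q := by exact_mod_cast hq
  rw [all a, eq_div_iff hq0.ne', mul_comm]
  exact hs.symm

end Pool.Agent.H376R2.TT
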