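import Pool.Agent.H376R2.TT.Defs
import Pool.Agent.Helper507.PNT

/-!
PRLOW: lower bound for the number of primes `≡ 1 mod q` in `(P, 2P]`.
-/

set_option autoImplicit false

namespace Pool.Agent.H376R2.TT

open Finset Filter Pool.Agent.H376R2.MR

open scoped Topology

open ArithmeticFunction in
theorem prlow_sum_le (q : ℕ) (P : ℕ) :
    ∑ k ∈ Ioc P (2 * P), vonMangoldt.residueClass (1 : ZMod q) k ≤
      (Chebyshev.psi (2 * P : ℕ) - Chebyshev.theta (2 * P : ℕ)) +
        ((PQ q P).card : ℝ) * Real.log (2 * P : ℕ) := by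
  classical
  rw [Chebyshev.psi_sub_theta_eq_sum_not_prime, Nat.floor_natCast]
  rw [← Finset.sum_filter_add_sum_filter_not (Ioc P (2 * P)) (fun r => r.Prime)
    (fun k => vonMangoldt.residueClass (1 : ZMod q) k), add_comm]
  apply add_le_add
  · have h1 : ∑ k ∈ (Ioc P (2 * P)).filter (fun r => ¬ r.Prime),
        vonMangoldt.residueClass (1 : ZMod q) k ≤
        ∑ k ∈ (Ioc P (2 * P)).filter (fun r => ¬ r.Prime), vonMangoldt k :=
      Finset.sum_le_sum fun r _ => vonMangoldt.residueClass_le _ _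
    refine h1.trans ?_
    apply Finset.sum_le_sum_of_subset_of_nonneg
    · intro r hr
      rw [Finset.mem_filter, Finset.mem_Ioc] at hr ⊢
      exact ⟨⟨by omega, hr.1.2⟩, hr.2⟩
    · intro r _ _
      exact vonMangoldt_nonneg
  · have h1 : ∑ r ∈ (Ioc P (2 * P)).filter (fun r => r.Prime),
        vonMangoldt.residueClass (1 : ZMod q) r = ∑ r ∈ PQ q P, Real.log r := by
      have h2 : PQ q P = ((Ioc P (2 * P)).filter (fun r => r.Prime)).filter
          (fun r : ℕ => (r : ZMod q) = 1) := by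
        unfold PQ
        ext r
        simp only [Finset.mem_filter]
        have h3 : ((r : ZMod q) = 1) ↔ r % q = 1 % q := by
          rw [← ZMod.natCast_eq_natCast_iff', Nat.cast_one]
        rw [h3]
        tauto
      rw [h2, Finset.sum_filter (p := fun r : ℕ => (r : ZMod q) = 1)]
      apply Finset.sum_congr rfl
      intro r hr
      rw [Finset.mem_filter] at hr
      split_ifs with h
      · rw [vonMangoldt.residueClass, Set.indicator_of_mem]
        · exact vonMangoldt_apply_prime hr.2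
        · exact h
      · rw [vonMangoldt.residueClass, Set.indicator_of_notMem]
        exact h
    rw [h1]
    calc ∑ r ∈ PQ q P, Real.log r ≤ ∑ r ∈ PQ q P, Real.log (2 * P : ℕ) := by
          apply Finset.sum_le_sum
          intro r hr
          unfold PQ at hr
          rw [Finset.mem_filter, Finset.mem_Ioc] at hr
          apply Real.log_le_log
          · exact_mod_cast hr.2.1.pos
          · exact_mod_cast hr.1.2
      _ = _ := by rw [Finset.sum_const, nsmul_eq_mul]

theorem prime_low (q : ℕ) (hq : 1 ≤ q) : ∃ c : ℝ, 0 < c ∧ ∃ P₀ : ℕ, ∀ P : ℕ, P₀ ≤ P →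
    c * P / Real.log P ≤ ((PQ q P).card : ℝ) := by
  have : NeZero q := ⟨by omega⟩
  have hφ : (0 : ℝ) < (q.totient : ℝ) := by exact_mod_cast Nat.totient_pos.2 hq
  set w : ℝ := (q.totient : ℝ)⁻¹ with hw
  have hw0 : 0 < w := inv_pos.2 hφ
  have h1 := (Pool.Agent.Helper507.PNT.pnt_residueClass (q := q) (a := 1) isUnit_one).comp
    (tendsto_natCast_atTop_atTop (R := ℝ))
  have h2 : ∀ᶠ N : ℕ in atTop, |(∑ k ∈ Finset.Icc 1 N,
      ArithmeticFunction.vonMangoldt.residueClass (1 : ZMod q) k) / N - w| < w / 12 := by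
    have := (Metric.tendsto_nhds.1 h1) (w / 12) (by positivity)
    filter_upwards [this] with N hN
    simpa [Real.dist_eq, Function.comp] using hN
  obtain ⟨N0, hN0⟩ := eventually_atTop.1 h2
  obtain ⟨C, hC⟩ := Chebyshev.psi_sub_theta_le_mul_sqrt
  have h3 : ∀ᶠ P : ℕ in atTop, C * Real.sqrt (2 * P : ℕ) ≤ w / 4 * P := by
    have h4 : Tendsto (fun x : ℝ => C * (Real.sqrt 2 * (Real.sqrt x)⁻¹)) atTop (𝓝 0) := by
      have := ((tendsto_inv_atTop_zero.comp Real.tendsto_sqrt_atTop).const_mul
        (Real.sqrt 2)).const_mul C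
      simpa [Function.comp_def] using this
    have h5 := (h4.comp (tendsto_natCast_atTop_atTop (R := ℝ))).eventually_lt_const
      (show (0 : ℝ) < w / 4 by positivity)
    filter_upwards [h5, eventually_ge_atTop 1] with P hP hP1
    have hP0 : (0 : ℝ) < P := by exact_mod_cast hP1
    have hs : 0 < Real.sqrt P := Real.sqrt_pos.2 hP0
    have h6 : C * (Real.sqrt 2 * (Real.sqrt P)⁻¹) < w / 4 := hP
    have h7 : C * Real.sqrt (2 * P : ℕ) = C * (Real.sqrt 2 * (Real.sqrt P)⁻¹) * P := by
      push_cast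
      rw [Real.sqrt_mul (by norm_num)]
      have e : (Real.sqrt P)⁻¹ * (P : ℝ) = Real.sqrt P := by
        rw [inv_mul_eq_div, Real.div_sqrt]
      rw [mul_assoc, mul_assoc, e]
    rw [h7]
    exact mul_le_mul_of_nonneg_right h6.le hP0.le
  obtain ⟨N1, hN1⟩ := eventually_atTop.1 h3
  refine ⟨w / 4, by positivity, max (max N0 N1) 2, fun P hP => ?_⟩
  have hP0 : N0 ≤ P := le_trans (le_trans (le_max_left _ _) (le_max_left _ _)) hP
  have hP1 : N1 ≤ P := le_trans (le_trans (le_max_right _ _) (le_max_left _ _)) hP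
  have hP2 : 2 ≤ P := le_trans (le_max_right _ _) hP
  have hPpos : (0 : ℝ) < P := by positivity
  have hlog : 0 < Real.log P := Real.log_pos (by exact_mod_cast (by omega : 1 < P))
  have a1 := (abs_lt.1 (hN0 P hP0)).2
  have a2 := (abs_lt.1 (hN0 (2 * P) (by omega))).1
  have a1' : ∑ k ∈ Finset.Icc 1 P, ArithmeticFunction.vonMangoldt.residueClass (1 : ZMod q) k ≤
      (w + w / 12) * P := by
    rw [← div_le_iff₀ hPpos]
    linarith
  have a2' : (w - w / 12) * (2 * P) ≤ ∑ k ∈ Finset.Icc 1 (2 * P),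
      ArithmeticFunction.vonMangoldt.residueClass (1 : ZMod q) k := by
    have : ((2 * P : ℕ) : ℝ) = 2 * (P : ℝ) := by push_cast; ring
    rw [this] at a2
    rw [← le_div_iff₀ (by positivity)]
    linarith
  have a3 : ∑ k ∈ Finset.Icc 1 (2 * P),
      ArithmeticFunction.vonMangoldt.residueClass (1 : ZMod q) k =
      ∑ k ∈ Finset.Icc 1 P, ArithmeticFunction.vonMangoldt.residueClass (1 : ZMod q) k +
      ∑ k ∈ Finset.Ioc P (2 * P), ArithmeticFunction.vonMangoldt.residueClass (1 : ZMod q) k := by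
    have e1 : Finset.Icc 1 (2 * P) = Finset.Icc 1 P ∪ Finset.Ioc P (2 * P) := by
      ext x
      simp only [Finset.mem_union, Finset.mem_Icc, Finset.mem_Ioc]
      omega
    rw [e1, Finset.sum_union]
    rw [Finset.disjoint_left]
    intro x hx hx'
    rw [Finset.mem_Icc] at hx
    rw [Finset.mem_Ioc] at hx'
    omega
  have a4 := prlow_sum_le q P
  have a5 := hC (2 * P : ℕ)
  have a6 := hN1 P hP1
  have a7 : Real.log (2 * P : ℕ) ≤ 2 * Real.log P := by
    push_cast
    rw [Real.log_mul (by norm_num) hPpos.ne']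
    have : Real.log 2 ≤ Real.log P := Real.log_le_log (by norm_num) (by exact_mod_cast hP2)
    linarith
  have a8 : ((PQ q P).card : ℝ) * Real.log (2 * P : ℕ) ≤ ((PQ q P).card : ℝ) * (2 * Real.log P) :=
    mul_le_mul_of_nonneg_left a7 (Nat.cast_nonneg _)
  rw [div_le_iff₀ hlog]
  have hwP : 0 < w * P := by positivity
  linarith

end Pool.Agent.H376R2.TT
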