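import Pool.Agent.H376R2.TT.Defs
import Pool.Agent.H376R2.TT.Mean
import Pool.Agent.H376R2.TT.Enpr
import Pool.Agent.H376R2.TT.Prlow

set_option autoImplicit false

namespace Pool.Agent.H376R2.TT

open Finset Filter Pool.Agent.H376R2.MR

/-! ### finite Fourier analysis -/

theorem lemz_er_zero (τ : ℝ) : er τ 0 = 1 := by
  unfold er
  simp

theorem lemz_er_add (τ x y : ℝ) : er τ (x + y) = er τ x * er τ y := by
  unfold er
  rw [← Complex.exp_add]
  congr 1
  push_cast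
  ring

theorem lemz_er_add_left (τ τ' x : ℝ) : er (τ + τ') x = er τ x * er τ' x := by
  unfold er
  rw [← Complex.exp_add]
  congr 1
  push_cast
  ring

theorem lemz_er_conj (τ x : ℝ) : (starRingEnd ℂ) (er τ x) = er τ (-x) := by
  unfold er
  rw [← Complex.exp_conj]
  congr 1
  simp

theorem lemz_er_norm (τ x : ℝ) : ‖er τ x‖ = 1 := by
  unfold er
  exact Complex.norm_exp_ofReal_mul_I _

theorem lemz_orth (R : ℕ) (hR : 1 ≤ R) (k : ℤ) :
    ∑ r ∈ range R, er (2 * Real.pi * ((r : ℝ) / R)) k = if (R : ℤ) ∣ k then (R : ℂ) else 0 := by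
  have hR0 : (R : ℂ) ≠ 0 := by
    exact_mod_cast (by omega : R ≠ 0)
  set z : ℂ := Complex.exp (2 * Real.pi * Complex.I * ((k : ℂ) / R)) with hz
  have h1 : ∀ r : ℕ, er (2 * Real.pi * ((r : ℝ) / R)) k = z ^ r := by
    intro r
    rw [hz, ← Complex.exp_nat_mul]
    unfold er
    congr 1
    push_cast
    ring
  simp only [h1]
  split_ifs with h
  · obtain ⟨m, rfl⟩ := h
    have h2 : z = 1 := by
      rw [hz, Complex.exp_eq_one_iff]
      refine ⟨m, ?_⟩
      push_cast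
      field_simp
    simp [h2]
  · have h2 : z ≠ 1 := by
      intro h3
      rw [hz, Complex.exp_eq_one_iff] at h3
      obtain ⟨m, hm⟩ := h3
      apply h
      refine ⟨m, ?_⟩
      have h4 : (2 * (Real.pi : ℂ) * Complex.I) ≠ 0 := Complex.two_pi_I_ne_zero
      have h5 : (k : ℂ) / R = m := by
        apply mul_left_cancel₀ h4
        rw [hm]
        ring
      have h6 : (k : ℂ) = R * m := by
        rw [← h5]
        field_simp
      exact_mod_cast h6
    have h3 : z ^ R = 1 := by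
      rw [hz, ← Complex.exp_nat_mul, Complex.exp_eq_one_iff]
      refine ⟨k, ?_⟩
      field_simp
    have h4 := geom_sum_mul z R
    rw [h3, sub_self] at h4
    rcases mul_eq_zero.1 h4 with h5 | h5
    · exact h5
    · exact absurd (sub_eq_zero.1 h5) h2

theorem lemz_parseval_inj (R : ℕ) (hR : 1 ≤ R) (V : Finset ℤ) (c : ℤ → ℝ)
    (hV : ∀ v ∈ V, ∀ v' ∈ V, |v - v'| < R) :
    ∑ r ∈ range R, ‖∑ v ∈ V, (c v : ℂ) * er (2 * Real.pi * ((r : ℝ) / R)) v‖ ^ 2 =
      R * ∑ v ∈ V, c v ^ 2 := by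
  have h1 : ((∑ r ∈ range R, ‖∑ v ∈ V, (c v : ℂ) * er (2 * Real.pi * ((r : ℝ) / R)) v‖ ^ 2 : ℝ) : ℂ) =
      ((R * ∑ v ∈ V, c v ^ 2 : ℝ) : ℂ) := by
    push_cast
    calc ∑ r ∈ range R, (‖∑ v ∈ V, (c v : ℂ) * er (2 * Real.pi * ((r : ℝ) / R)) v‖ : ℂ) ^ 2
        = ∑ r ∈ range R, ∑ v ∈ V, ∑ v' ∈ V, (c v : ℂ) * (c v' : ℂ) *
            er (2 * Real.pi * ((r : ℝ) / R)) ((v - v' : ℤ) : ℝ) := by
          apply Finset.sum_congr rfl
          intro r _
          rw [← Complex.mul_conj', map_sum, Finset.sum_mul_sum]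
          apply Finset.sum_congr rfl
          intro v _
          apply Finset.sum_congr rfl
          intro v' _
          rw [map_mul, lemz_er_conj, Complex.conj_ofReal]
          have : (((v - v' : ℤ) : ℤ) : ℝ) = (v : ℝ) + (-(v' : ℝ)) := by
            push_cast
            ring
          rw [this, lemz_er_add]
          ring
      _ = ∑ v ∈ V, ∑ v' ∈ V, (c v : ℂ) * (c v' : ℂ) *
            ∑ r ∈ range R, er (2 * Real.pi * ((r : ℝ) / R)) ((v - v' : ℤ) : ℝ) := by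
          rw [Finset.sum_comm]
          apply Finset.sum_congr rfl
          intro v _
          rw [Finset.sum_comm]
          apply Finset.sum_congr rfl
          intro v' _
          rw [Finset.mul_sum]
      _ = ∑ v ∈ V, (R : ℂ) * (c v : ℂ) ^ 2 := by
          apply Finset.sum_congr rfl
          intro v hv
          rw [Finset.sum_eq_single v]
          · rw [lemz_orth R hR]
            simp
            ring
          · intro v' hv' hne
            rw [lemz_orth R hR, if_neg, mul_zero]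
            intro hd
            have h2 := Int.eq_zero_of_abs_lt_dvd hd (hV v hv v' hv')
            exact hne (by omega)
          · intro h
            exact absurd hv h
      _ = (R : ℂ) * ∑ v ∈ V, (c v : ℂ) ^ 2 := by
          rw [Finset.mul_sum]
  exact_mod_cast h1

theorem lemz_parseval {ι : Type*} (R : ℕ) (hR : 1 ≤ R) (A : Finset ι) (m : ι → ℤ) (a : ι → ℝ)
    (hV : ∀ x ∈ A, ∀ y ∈ A, |m x - m y| < R) :
    ∑ r ∈ range R, ‖∑ x ∈ A, (a x : ℂ) * er (2 * Real.pi * ((r : ℝ) / R)) (m x)‖ ^ 2 =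
      R * ∑ v ∈ A.image m, (∑ x ∈ A with m x = v, a x) ^ 2 := by
  rw [← lemz_parseval_inj R hR (A.image m) (fun v => ∑ x ∈ A with m x = v, a x)]
  · apply Finset.sum_congr rfl
    intro r _
    congr 2
    rw [← Finset.sum_fiberwise_of_maps_to (g := m) (t := A.image m)
      (fun x hx => Finset.mem_image_of_mem m hx)]
    apply Finset.sum_congr rfl
    intro v _
    push_cast
    rw [Finset.sum_mul]
    apply Finset.sum_congr rfl
    intro x hx
    rw [(Finset.mem_filter.1 hx).2]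
  · intro v hv v' hv'
    obtain ⟨x, hx, rfl⟩ := Finset.mem_image.1 hv
    obtain ⟨y, hy, rfl⟩ := Finset.mem_image.1 hv'
    exact hV x hx y hy

/-! ### the exponential sums -/

noncomputable def lemzF (q a H' R n r : ℕ) : ℂ :=
  ∑ i ∈ range H', (lamq q a (n + i) : ℂ) * er (2 * Real.pi * ((r : ℝ) / R)) (-(i : ℝ))

noncomputable def lemzS (q P M R r : ℕ) : ℂ :=
  ∑ p ∈ PQ q P, er (2 * Real.pi * ((r : ℝ) / R)) ((p * M : ℕ) : ℝ)

theorem lemz_lam_abs (n : ℕ) : |(lam n : ℝ)| = 1 := by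
  unfold lam
  push_cast
  rw [abs_pow]
  simp

theorem lemz_lamq_abs (q a n : ℕ) : |lamq q a n| ≤ 1 := by
  unfold lamq
  split_ifs
  · rw [lemz_lam_abs]
  · simp

theorem lemz_lamq_sq (q a n : ℕ) : lamq q a n ^ 2 ≤ 1 := by
  rw [← sq_abs]
  have := lemz_lamq_abs q a n
  have h0 := abs_nonneg (lamq q a n)
  nlinarith

theorem lemz_PQ_mem {q P p : ℕ} (h : p ∈ PQ q P) : P < p ∧ p ≤ 2 * P := by
  unfold PQ at h
  exact Finset.mem_Ioc.1 (Finset.mem_filter.1 h).1

theorem lemz_conv (q a P M n : ℕ) :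
    ∑ j ∈ range P, (∑ p ∈ PQ q P, lamq q a (n + j + p * M)) ^ 2 ≤
      (1 / ((2 * (P + 2 * P * M + 1) : ℕ) : ℝ)) * ∑ r ∈ range (2 * (P + 2 * P * M + 1)),
        ‖lemzF q a (P + 2 * P * M + 1) (2 * (P + 2 * P * M + 1)) n r‖ ^ 2 *
          ‖lemzS q P M (2 * (P + 2 * P * M + 1)) r‖ ^ 2 := by
  set H' : ℕ := P + 2 * P * M + 1 with hH'
  set R : ℕ := 2 * H' with hRdef
  have hR : 1 ≤ R := by omega
  have hR0 : (0 : ℝ) < R := by exact_mod_cast hR
  set A : Finset (ℕ × ℕ) := range H' ×ˢ PQ q P with hA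
  set m : ℕ × ℕ → ℤ := fun x => ((x.2 * M : ℕ) : ℤ) - (x.1 : ℤ) with hm
  have hV : ∀ x ∈ A, ∀ y ∈ A, |m x - m y| < R := by
    have hb : ∀ x ∈ A, -(H' : ℤ) < m x ∧ m x < H' := by
      intro x hx
      rw [hA, Finset.mem_product] at hx
      have h1 := Finset.mem_range.1 hx.1
      have h2 := (lemz_PQ_mem hx.2).2
      have h3 : x.2 * M ≤ 2 * P * M := Nat.mul_le_mul_right _ h2
      constructor
      · simp only [hm]
        omega
      · simp only [hm]
        omega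
    intro x hx y hy
    have h1 := hb x hx
    have h2 := hb y hy
    rw [abs_lt]
    constructor
    · omega
    · omega
  have hP := lemz_parseval R hR A m (fun x => lamq q a (n + x.1)) hV
  have h1 : ∀ r : ℕ, ∑ x ∈ A, (lamq q a (n + x.1) : ℂ) * er (2 * Real.pi * ((r : ℝ) / R)) (m x) =
      lemzF q a H' R n r * lemzS q P M R r := by
    intro r
    unfold lemzF lemzS
    rw [Finset.sum_mul_sum, hA, Finset.sum_product]
    apply Finset.sum_congr rfl
    intro i _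
    apply Finset.sum_congr rfl
    intro p _
    have : ((m (i, p) : ℤ) : ℝ) = -(i : ℝ) + ((p * M : ℕ) : ℝ) := by
      simp only [hm]
      push_cast
      ring
    rw [this, lemz_er_add]
    ring
  simp only [h1] at hP
  have h2 : ∑ j ∈ range P, (∑ p ∈ PQ q P, lamq q a (n + j + p * M)) ^ 2 ≤
      ∑ v ∈ A.image m, (∑ x ∈ A with m x = v, lamq q a (n + x.1)) ^ 2 := by
    rcases Finset.eq_empty_or_nonempty (PQ q P) with he | hne
    · rw [he]
      simp only [Finset.sum_empty]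
      refine le_trans (le_of_eq ?_) (Finset.sum_nonneg fun v _ => sq_nonneg _)
      simp
    · have hinj : Set.InjOn (fun j : ℕ => -(j : ℤ)) (range P : Set ℕ) := by
        intro x _ y _ hxy
        simpa using hxy
      have h3 : ∑ j ∈ range P, (∑ p ∈ PQ q P, lamq q a (n + j + p * M)) ^ 2 =
          ∑ v ∈ (range P).image (fun j : ℕ => -(j : ℤ)),
            (∑ x ∈ A with m x = v, lamq q a (n + x.1)) ^ 2 := by
        rw [Finset.sum_image hinj]
        apply Finset.sum_congr rfl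
        intro j hj
        congr 1
        rw [Finset.sum_filter, hA, Finset.sum_product_right]
        apply Finset.sum_congr rfl
        intro p hp
        have hjP := Finset.mem_range.1 hj
        have hp2 := (lemz_PQ_mem hp).2
        have h3 : p * M ≤ 2 * P * M := Nat.mul_le_mul_right _ hp2
        rw [Finset.sum_eq_single (j + p * M)]
        · rw [if_pos]
          · rw [← add_assoc]
          · simp only [hm]
            push_cast
            ring
        · intro i _ hne'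
          rw [if_neg]
          intro h4
          simp only [hm] at h4
          apply hne'
          omega
        · intro h4
          exfalso
          apply h4
          rw [Finset.mem_range]
          omega
      rw [h3]
      apply Finset.sum_le_sum_of_subset_of_nonneg
      · intro v hv
        obtain ⟨j, hj, rfl⟩ := Finset.mem_image.1 hv
        obtain ⟨p, hp⟩ := hne
        have hjP := Finset.mem_range.1 hj
        have hp2 := (lemz_PQ_mem hp).2
        have h3 : p * M ≤ 2 * P * M := Nat.mul_le_mul_right _ hp2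
        refine Finset.mem_image.2 ⟨(j + p * M, p), ?_, ?_⟩
        · rw [hA, Finset.mem_product]
          refine ⟨Finset.mem_range.2 ?_, hp⟩
          show j + p * M < H'
          omega
        · simp only [hm]
          push_cast
          ring
      · intro v _ _
        exact sq_nonneg _
  refine h2.trans ?_
  have h4 : ∑ r ∈ range R, ‖lemzF q a H' R n r‖ ^ 2 * ‖lemzS q P M R r‖ ^ 2 =
      R * ∑ v ∈ A.image m, (∑ x ∈ A with m x = v, lamq q a (n + x.1)) ^ 2 := by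
    rw [← hP]
    apply Finset.sum_congr rfl
    intro r _
    rw [norm_mul, mul_pow]
  rw [h4]
  rw [← mul_assoc, one_div, inv_mul_cancel₀ hR0.ne', one_mul]

theorem lemz_F_energy (q a H' n : ℕ) (hH : 1 ≤ H') :
    ∑ r ∈ range (2 * H'), ‖lemzF q a H' (2 * H') n r‖ ^ 2 ≤ ((2 * H' : ℕ) : ℝ) * H' := by
  set R : ℕ := 2 * H' with hRdef
  have hR : 1 ≤ R := by omega
  have hR0 : (0 : ℝ) < R := by exact_mod_cast hR
  have hV : ∀ x ∈ range H', ∀ y ∈ range H', |(-(x : ℤ)) - (-(y : ℤ))| < R := by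
    intro x hx y hy
    have h1 := Finset.mem_range.1 hx
    have h2 := Finset.mem_range.1 hy
    rw [abs_lt]
    constructor <;> omega
  have hP := lemz_parseval R hR (range H') (fun i : ℕ => -(i : ℤ)) (fun i => lamq q a (n + i)) hV
  have h1 : ∀ r : ℕ, ∑ x ∈ range H', (lamq q a (n + x) : ℂ) *
      er (2 * Real.pi * ((r : ℝ) / R)) (((-(x : ℤ)) : ℤ) : ℝ) = lemzF q a H' R n r := by
    intro r
    unfold lemzF
    apply Finset.sum_congr rfl
    intro i _
    congr 2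
    push_cast
    ring
  simp only [h1] at hP
  rw [hP]
  apply mul_le_mul_of_nonneg_left _ hR0.le
  have hinj : Set.InjOn (fun j : ℕ => -(j : ℤ)) (range H' : Set ℕ) := by
    intro x _ y _ hxy
    simpa using hxy
  rw [Finset.sum_image hinj]
  calc ∑ x ∈ range H', (∑ y ∈ range H' with (-((y : ℕ) : ℤ) = -((x : ℕ) : ℤ)), lamq q a (n + y)) ^ 2
      ≤ ∑ x ∈ range H', (1 : ℝ) := by
        apply Finset.sum_le_sum
        intro x hx
        rw [Finset.sum_filter, Finset.sum_eq_single x]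
        · rw [if_pos rfl]
          exact lemz_lamq_sq q a _
        · intro y _ hne
          rw [if_neg]
          intro h
          apply hne
          omega
        · intro h
          exact absurd hx h
    _ = H' := by simp

theorem lemz_S_energy (q P M H' : ℕ) (hM : 1 ≤ M) (hH' : P + 2 * P * M + 1 ≤ H') :
    ∑ r ∈ range (2 * H'), ‖lemzS q P M (2 * H') r‖ ^ 4 ≤
      ((2 * H' : ℕ) : ℝ) * ((((PQ 1 P ×ˢ PQ 1 P) ×ˢ (PQ 1 P ×ˢ PQ 1 P)).filter
      (fun x => x.1.1 + x.1.2 = x.2.1 + x.2.2)).card : ℝ) := by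
  set R : ℕ := 2 * H' with hRdef
  have hR : 1 ≤ R := by omega
  have hR0 : (0 : ℝ) < R := by exact_mod_cast hR
  set A : Finset (ℕ × ℕ) := PQ q P ×ˢ PQ q P with hA
  set m : ℕ × ℕ → ℤ := fun x => (((x.1 + x.2) * M : ℕ) : ℤ) with hm
  have hb : ∀ x ∈ A, 2 * P * M ≤ (x.1 + x.2) * M ∧ (x.1 + x.2) * M ≤ 4 * P * M := by
    intro x hx
    rw [hA, Finset.mem_product] at hx
    have h1 := lemz_PQ_mem hx.1
    have h2 := lemz_PQ_mem hx.2
    constructor
    · exact Nat.mul_le_mul_right _ (by omega)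
    · exact Nat.mul_le_mul_right _ (by omega)
  have hV : ∀ x ∈ A, ∀ y ∈ A, |m x - m y| < R := by
    intro x hx y hy
    have h1 := hb x hx
    have h2 := hb y hy
    have h3 : 4 * P * M = 2 * (2 * P * M) := by ring
    rw [abs_lt]
    simp only [hm]
    constructor
    · omega
    · omega
  have hP := lemz_parseval R hR A m (fun _ => 1) hV
  have h1 : ∀ r : ℕ, ∑ x ∈ A, ((1 : ℝ) : ℂ) * er (2 * Real.pi * ((r : ℝ) / R)) (m x) =
      lemzS q P M R r ^ 2 := by
    intro r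
    unfold lemzS
    rw [pow_two, Finset.sum_mul_sum, hA, Finset.sum_product]
    apply Finset.sum_congr rfl
    intro i _
    apply Finset.sum_congr rfl
    intro p _
    have : ((m (i, p) : ℤ) : ℝ) = ((i * M : ℕ) : ℝ) + ((p * M : ℕ) : ℝ) := by
      simp only [hm]
      push_cast
      ring
    rw [this, lemz_er_add]
    simp
  simp only [h1] at hP
  have h2 : ∑ r ∈ range R, ‖lemzS q P M R r‖ ^ 4 = ∑ r ∈ range R, ‖lemzS q P M R r ^ 2‖ ^ 2 := by
    apply Finset.sum_congr rfl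
    intro r _
    rw [norm_pow, ← pow_mul]
  rw [h2, hP]
  apply mul_le_mul_of_nonneg_left _ hR0.le
  have h3 : ∑ v ∈ A.image m, (∑ x ∈ A with m x = v, (1 : ℝ)) ^ 2 =
      ∑ x ∈ A, ∑ y ∈ A with m y = m x, (1 : ℝ) := by
    rw [← Finset.sum_fiberwise_of_maps_to (g := m) (t := A.image m)
      (fun x hx => Finset.mem_image_of_mem m hx)]
    apply Finset.sum_congr rfl
    intro v _
    rw [pow_two, Finset.sum_mul]
    apply Finset.sum_congr rfl
    intro x hx
    rw [(Finset.mem_filter.1 hx).2, one_mul]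
  have h4 : ∑ x ∈ A, ∑ y ∈ A with m y = m x, (1 : ℝ) =
      (((A ×ˢ A).filter (fun z => m z.2 = m z.1)).card : ℝ) := by
    rw [Finset.card_filter]
    push_cast
    rw [Finset.sum_product A A]
    apply Finset.sum_congr rfl
    intro x _
    rw [Finset.sum_filter]
  rw [h3, h4]
  have hsub : PQ q P ⊆ PQ 1 P := by
    intro p hp
    unfold PQ at hp ⊢
    rw [Finset.mem_filter] at hp ⊢
    exact ⟨hp.1, hp.2.1, by omega⟩
  norm_cast
  apply Finset.card_le_card
  intro z hz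
  rw [Finset.mem_filter, hA] at hz
  obtain ⟨hz1, hz2⟩ := hz
  rw [Finset.mem_product, Finset.mem_product, Finset.mem_product] at hz1
  rw [Finset.mem_filter, Finset.mem_product, Finset.mem_product, Finset.mem_product]
  refine ⟨⟨⟨hsub hz1.1.1, hsub hz1.1.2⟩, hsub hz1.2.1, hsub hz1.2.2⟩, ?_⟩
  simp only [hm] at hz2
  have h5 : (z.2.1 + z.2.2) * M = (z.1.1 + z.1.2) * M := by exact_mod_cast hz2
  exact (Nat.eq_of_mul_eq_mul_right (by omega) h5).symm

/-! ### means -/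

noncomputable def lemzU (H' : ℕ) (θ : ℝ) (n : ℕ) : ℂ :=
  ∑ j ∈ range H', (lam (n + j) : ℂ) * er (2 * Real.pi * θ) j

theorem lemzU_norm (H' : ℕ) (θ : ℝ) (n : ℕ) : ‖lemzU H' θ n‖ ≤ H' := by
  unfold lemzU
  refine (norm_sum_le _ _).trans ?_
  calc ∑ j ∈ range H', ‖(lam (n + j) : ℂ) * er (2 * Real.pi * θ) j‖ ≤ ∑ j ∈ range H', (1 : ℝ) := by
        apply Finset.sum_le_sum
        intro j _
        rw [norm_mul, lemz_er_norm, mul_one]
        have h := lemz_lam_abs (n + j)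
        have h2 : (lam (n + j) : ℂ) = (((lam (n + j) : ℤ) : ℝ) : ℂ) := by push_cast; rfl
        rw [h2, Complex.norm_real, Real.norm_eq_abs, h]
    _ = H' := by simp

theorem lemzU_bd (H' : ℕ) (θ : ℝ) : Bd (fun n => ‖lemzU H' θ n‖ ^ 2) := by
  refine ⟨(H' : ℝ) ^ 2, fun n => ?_⟩
  rw [abs_of_nonneg (by positivity)]
  exact pow_le_pow_left₀ (norm_nonneg _) (lemzU_norm H' θ n) 2

theorem lemzF_norm (q a H' R n r : ℕ) : ‖lemzF q a H' R n r‖ ≤ H' := by
  unfold lemzF
  refine (norm_sum_le _ _).trans ?_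
  calc ∑ i ∈ range H', ‖(lamq q a (n + i) : ℂ) * er (2 * Real.pi * ((r : ℝ) / R)) (-(i : ℝ))‖
      ≤ ∑ j ∈ range H', (1 : ℝ) := by
        apply Finset.sum_le_sum
        intro j _
        rw [norm_mul, lemz_er_norm, mul_one, Complex.norm_real, Real.norm_eq_abs]
        exact lemz_lamq_abs q a _
    _ = H' := by simp

theorem lemzF_bd (q a H' R r : ℕ) : Bd (fun n => ‖lemzF q a H' R n r‖ ^ 2) := by
  refine ⟨(H' : ℝ) ^ 2, fun n => ?_⟩
  rw [abs_of_nonneg (by positivity)]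
  exact pow_le_pow_left₀ (norm_nonneg _) (lemzF_norm q a H' R n r) 2

theorem lemz_bd_smul {φ : ℕ → ℝ} (c : ℝ) (h : Bd φ) : Bd (fun n => c * φ n) := by
  obtain ⟨C, hC⟩ := h
  refine ⟨|c| * C, fun n => ?_⟩
  rw [abs_mul]
  exact mul_le_mul_of_nonneg_left (hC n) (abs_nonneg c)

theorem lemz_bd_add {φ ψ : ℕ → ℝ} (h : Bd φ) (h' : Bd ψ) : Bd (fun n => φ n + ψ n) := by
  obtain ⟨C, hC⟩ := h
  obtain ⟨C', hC'⟩ := h'
  exact ⟨C + C', fun n => (abs_add_le _ _).trans (add_le_add (hC n) (hC' n))⟩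

theorem lemz_bd_const (c : ℝ) : Bd (fun _ => c) := ⟨|c|, fun _ => le_refl _⟩

theorem lemz_bd_sum {ι : Type*} (s : Finset ι) (φ : ι → ℕ → ℝ) (h : ∀ i ∈ s, Bd (φ i)) :
    Bd (fun n => ∑ i ∈ s, φ i n) := by
  classical
  induction s using Finset.induction_on with
  | empty => simpa using lemz_bd_const 0
  | insert x s hx ih =>
    have h1 := ih (fun i hi => h i (Finset.mem_insert_of_mem hi))
    have h2 := lemz_bd_add (h x (Finset.mem_insert_self x s)) h1
    simpa [Finset.sum_insert hx] using h2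

theorem lemz_m_const (μ : SMean) (c : ℝ) : μ.m (fun _ => c) = c := by
  have h := μ.smul c (fun _ => 1) (lemz_bd_const 1)
  rw [μ.one, mul_one] at h
  simpa using h

theorem lemz_lamq_eq (q a : ℕ) (hq : 1 ≤ q) (n : ℕ) :
    (lamq q a n : ℂ) = (1 / (q : ℂ)) * ∑ c ∈ range q, (lam n : ℂ) *
      er (2 * Real.pi * ((c : ℝ) / q)) ((n : ℝ) - a) := by
  have hq0 : (q : ℂ) ≠ 0 := by exact_mod_cast (by omega : q ≠ 0)
  have h1 := lemz_orth q hq ((n : ℤ) - (a : ℤ))
  have h2 : (((n : ℤ) - (a : ℤ) : ℤ) : ℝ) = (n : ℝ) - a := by push_cast; ring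
  rw [h2] at h1
  rw [← Finset.mul_sum, h1]
  unfold lamq
  by_cases h : n % q = a % q
  · rw [if_pos h, if_pos]
    · field_simp
      push_cast
      rfl
    · exact (Nat.modEq_iff_dvd).1 (show a ≡ n [MOD q] from h.symm)
  · rw [if_neg h, if_neg]
    · simp
    · intro hd
      exact h ((Nat.modEq_iff_dvd).2 hd).symm

theorem lemz_F_le (q a H' R n r : ℕ) (hq : 1 ≤ q) :
    ‖lemzF q a H' R n r‖ ^ 2 ≤
      ∑ c ∈ range q, (1 / (q : ℝ)) * ‖lemzU H' ((c : ℝ) / q - (r : ℝ) / R) n‖ ^ 2 := by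
  have hq0 : (0 : ℝ) < q := by exact_mod_cast hq
  have h1 : lemzF q a H' R n r = (1 / (q : ℂ)) * ∑ c ∈ range q,
      er (2 * Real.pi * ((c : ℝ) / q)) ((n : ℝ) - a) *
        lemzU H' ((c : ℝ) / q - (r : ℝ) / R) n := by
    unfold lemzF lemzU
    calc ∑ i ∈ range H', (lamq q a (n + i) : ℂ) * er (2 * Real.pi * ((r : ℝ) / R)) (-(i : ℝ))
        = ∑ i ∈ range H', ∑ c ∈ range q, (1 / (q : ℂ)) *
            (er (2 * Real.pi * ((c : ℝ) / q)) ((n : ℝ) - a) *
              ((lam (n + i) : ℂ) * er (2 * Real.pi * ((c : ℝ) / q - (r : ℝ) / R)) i)) := by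
          apply Finset.sum_congr rfl
          intro i _
          rw [lemz_lamq_eq q a hq (n + i), Finset.mul_sum, Finset.sum_mul]
          apply Finset.sum_congr rfl
          intro c _
          have e1 : (((n + i : ℕ) : ℝ) - a) = ((n : ℝ) - a) + i := by push_cast; ring
          rw [e1, lemz_er_add]
          have e2 : er (2 * Real.pi * ((c : ℝ) / q)) i * er (2 * Real.pi * ((r : ℝ) / R)) (-(i : ℝ)) =
              er (2 * Real.pi * ((c : ℝ) / q - (r : ℝ) / R)) i := by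
            unfold er
            rw [← Complex.exp_add]
            congr 1
            push_cast
            ring
          rw [← e2]
          ring
      _ = _ := by
          rw [Finset.sum_comm, Finset.mul_sum]
          apply Finset.sum_congr rfl
          intro c _
          rw [← Finset.mul_sum, ← Finset.mul_sum]
  have h2 : ‖lemzF q a H' R n r‖ ≤ (1 / (q : ℝ)) *
      ∑ c ∈ range q, ‖lemzU H' ((c : ℝ) / q - (r : ℝ) / R) n‖ := by
    rw [h1, norm_mul]
    have : ‖(1 / (q : ℂ))‖ = 1 / (q : ℝ) := by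
      rw [norm_div, norm_one, Complex.norm_natCast]
    rw [this]
    apply mul_le_mul_of_nonneg_left _ (by positivity)
    refine (norm_sum_le _ _).trans ?_
    apply Finset.sum_le_sum
    intro c _
    rw [norm_mul, lemz_er_norm, one_mul]
  have h3 : (∑ c ∈ range q, ‖lemzU H' ((c : ℝ) / q - (r : ℝ) / R) n‖) ^ 2 ≤
      q * ∑ c ∈ range q, ‖lemzU H' ((c : ℝ) / q - (r : ℝ) / R) n‖ ^ 2 := by
    have := sq_sum_le_card_mul_sum_sq (s := range q)
      (f := fun c => ‖lemzU H' ((c : ℝ) / q - (r : ℝ) / R) n‖)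
    simpa using this
  calc ‖lemzF q a H' R n r‖ ^ 2 ≤ ((1 / (q : ℝ)) *
      ∑ c ∈ range q, ‖lemzU H' ((c : ℝ) / q - (r : ℝ) / R) n‖) ^ 2 := by gcongr
    _ = (1 / (q : ℝ)) ^ 2 * (∑ c ∈ range q, ‖lemzU H' ((c : ℝ) / q - (r : ℝ) / R) n‖) ^ 2 := by ring
    _ ≤ (1 / (q : ℝ)) ^ 2 * (q * ∑ c ∈ range q, ‖lemzU H' ((c : ℝ) / q - (r : ℝ) / R) n‖ ^ 2) := by
        gcongr
    _ = (1 / (q : ℝ)) * ∑ c ∈ range q, ‖lemzU H' ((c : ℝ) / q - (r : ℝ) / R) n‖ ^ 2 := by
        field_simp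
    _ = _ := by rw [Finset.mul_sum]

theorem lemz_F_mean (μ : SMean) (q a H' R r : ℕ) (hq : 1 ≤ q) (δ : ℝ)
    (hA : ∀ θ : ℝ, μ.m (fun n => ‖lemzU H' θ n‖ ^ 2) ≤ δ * (H' : ℝ) ^ 2) :
    μ.m (fun n => ‖lemzF q a H' R n r‖ ^ 2) ≤ δ * (H' : ℝ) ^ 2 := by
  have hq0 : (0 : ℝ) < q := by exact_mod_cast hq
  have h1 : μ.m (fun n => ‖lemzF q a H' R n r‖ ^ 2) ≤
      μ.m (fun n => ∑ c ∈ range q, (1 / (q : ℝ)) * ‖lemzU H' ((c : ℝ) / q - (r : ℝ) / R) n‖ ^ 2) := by
    apply mean_mono μ (lemzF_bd q a H' R r)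
    · exact lemz_bd_sum _ _ (fun c _ => lemz_bd_smul _ (lemzU_bd H' _))
    · intro n
      exact lemz_F_le q a H' R n r hq
  refine h1.trans ?_
  rw [mean_sum μ _ _ (fun c _ => lemz_bd_smul _ (lemzU_bd H' _))]
  calc ∑ c ∈ range q, μ.m (fun n => (1 / (q : ℝ)) * ‖lemzU H' ((c : ℝ) / q - (r : ℝ) / R) n‖ ^ 2)
      ≤ ∑ c ∈ range q, (1 / (q : ℝ)) * (δ * (H' : ℝ) ^ 2) := by
        apply Finset.sum_le_sum
        intro c _
        rw [μ.smul _ _ (lemzU_bd H' _)]
        exact mul_le_mul_of_nonneg_left (hA _) (by positivity)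
    _ = δ * (H' : ℝ) ^ 2 := by
        rw [Finset.sum_const, Finset.card_range, nsmul_eq_mul]
        field_simp

/-- the main inequality -/
theorem lemz_main (μ : SMean) (q a M P : ℕ) (hq : 1 ≤ q) (hM : 1 ≤ M) (δ T : ℝ) (hT : 0 < T)
    (hA : ∀ θ : ℝ, μ.m (fun n => ‖lemzU (P + 2 * P * M + 1) θ n‖ ^ 2) ≤
      δ * ((P + 2 * P * M + 1 : ℕ) : ℝ) ^ 2) (hδ : 0 ≤ δ) :
    (P : ℝ) * μ.m (fun n => (∑ p ∈ PQ q P, lamq q a (n + p * M)) ^ 2) ≤
      T * ((P + 2 * P * M + 1 : ℕ) : ℝ) + δ * ((P + 2 * P * M + 1 : ℕ) : ℝ) ^ 2 / T *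
        ((((PQ 1 P ×ˢ PQ 1 P) ×ˢ (PQ 1 P ×ˢ PQ 1 P)).filter
      (fun x => x.1.1 + x.1.2 = x.2.1 + x.2.2)).card : ℝ) := by
  set H' : ℕ := P + 2 * P * M + 1 with hH'
  set R : ℕ := 2 * H' with hRdef
  set E : ℝ := ((((PQ 1 P ×ˢ PQ 1 P) ×ˢ (PQ 1 P ×ˢ PQ 1 P)).filter
      (fun x => x.1.1 + x.1.2 = x.2.1 + x.2.2)).card : ℝ) with hE
  have hR0 : (0 : ℝ) < R := by
    have : 0 < R := by omega
    exact_mod_cast this
  have hXbd : Bd (fun n => (∑ p ∈ PQ q P, lamq q a (n + p * M)) ^ 2) := by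
    refine ⟨((PQ q P).card : ℝ) ^ 2, fun n => ?_⟩
    rw [abs_pow]
    have : |∑ p ∈ PQ q P, lamq q a (n + p * M)| ≤ ((PQ q P).card : ℝ) := by
      refine (Finset.abs_sum_le_sum_abs _ _).trans ?_
      calc ∑ p ∈ PQ q P, |lamq q a (n + p * M)| ≤ ∑ p ∈ PQ q P, (1 : ℝ) :=
            Finset.sum_le_sum (fun p _ => lemz_lamq_abs q a _)
        _ = ((PQ q P).card : ℝ) := by simp
    exact pow_le_pow_left₀ (abs_nonneg _) this 2
  have hXbdj : ∀ j : ℕ, Bd (fun n => (∑ p ∈ PQ q P, lamq q a (n + j + p * M)) ^ 2) := by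
    intro j
    obtain ⟨C, hC⟩ := hXbd
    exact ⟨C, fun n => hC (n + j)⟩
  have h1 : μ.m (fun n => ∑ j ∈ range P, (∑ p ∈ PQ q P, lamq q a (n + j + p * M)) ^ 2) =
      (P : ℝ) * μ.m (fun n => (∑ p ∈ PQ q P, lamq q a (n + p * M)) ^ 2) := by
    rw [mean_sum μ _ _ (fun j _ => hXbdj j)]
    have : ∀ j ∈ range P, μ.m (fun n => (∑ p ∈ PQ q P, lamq q a (n + j + p * M)) ^ 2) =
        μ.m (fun n => (∑ p ∈ PQ q P, lamq q a (n + p * M)) ^ 2) := by
      intro j _
      exact mean_shift μ hXbd j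
    rw [Finset.sum_congr rfl this]
    simp
  rw [← h1]
  have hFbd : ∀ r ∈ range R, Bd (fun n => (1 / (R * T) * ‖lemzS q P M R r‖ ^ 4) *
      ‖lemzF q a H' R n r‖ ^ 2) := fun r _ => lemz_bd_smul _ (lemzF_bd q a H' R r)
  have h2 : μ.m (fun n => ∑ j ∈ range P, (∑ p ∈ PQ q P, lamq q a (n + j + p * M)) ^ 2) ≤
      μ.m (fun n => T * H' + ∑ r ∈ range R, (1 / (R * T) * ‖lemzS q P M R r‖ ^ 4) *
      ‖lemzF q a H' R n r‖ ^ 2) := by
    apply mean_mono μ
    · exact lemz_bd_sum _ _ (fun j _ => hXbdj j)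
    · exact lemz_bd_add (lemz_bd_const _) (lemz_bd_sum _ _ hFbd)
    · intro n
      refine (lemz_conv q a P M n).trans ?_
      have h3 := lemz_F_energy q a H' n (by omega)
      have h4 : ∀ r : ℕ, ‖lemzF q a H' R n r‖ ^ 2 * ‖lemzS q P M R r‖ ^ 2 ≤
          T * ‖lemzF q a H' R n r‖ ^ 2 + ‖lemzS q P M R r‖ ^ 4 / T * ‖lemzF q a H' R n r‖ ^ 2 := by
        intro r
        have h5 : ‖lemzS q P M R r‖ ^ 2 ≤ T + ‖lemzS q P M R r‖ ^ 4 / T := by
          rw [← sub_nonneg]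
          have : T + ‖lemzS q P M R r‖ ^ 4 / T - ‖lemzS q P M R r‖ ^ 2 =
              (T ^ 2 - T * ‖lemzS q P M R r‖ ^ 2 + (‖lemzS q P M R r‖ ^ 2) ^ 2) / T := by
            field_simp
            ring
          rw [this]
          apply div_nonneg _ hT.le
          nlinarith [sq_nonneg (T - ‖lemzS q P M R r‖ ^ 2), sq_nonneg (‖lemzS q P M R r‖ ^ 2), hT]
        have h6 : (0 : ℝ) ≤ ‖lemzF q a H' R n r‖ ^ 2 := by positivity
        nlinarith
      calc (1 / (R : ℝ)) * ∑ r ∈ range R, ‖lemzF q a H' R n r‖ ^ 2 * ‖lemzS q P M R r‖ ^ 2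
          ≤ (1 / (R : ℝ)) * ∑ r ∈ range R, (T * ‖lemzF q a H' R n r‖ ^ 2 +
              ‖lemzS q P M R r‖ ^ 4 / T * ‖lemzF q a H' R n r‖ ^ 2) := by
            apply mul_le_mul_of_nonneg_left _ (by positivity)
            exact Finset.sum_le_sum (fun r _ => h4 r)
        _ = T * ((1 / (R : ℝ)) * ∑ r ∈ range R, ‖lemzF q a H' R n r‖ ^ 2) +
              ∑ r ∈ range R, (1 / (R * T) * ‖lemzS q P M R r‖ ^ 4) * ‖lemzF q a H' R n r‖ ^ 2 := by
            rw [Finset.sum_add_distrib, mul_add, ← Finset.mul_sum]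
            congr 1
            · ring
            · rw [Finset.mul_sum]
              apply Finset.sum_congr rfl
              intro r _
              field_simp
        _ ≤ T * H' + ∑ r ∈ range R, (1 / (R * T) * ‖lemzS q P M R r‖ ^ 4) *
              ‖lemzF q a H' R n r‖ ^ 2 := by
            have h7 : (1 / (R : ℝ)) * ∑ r ∈ range R, ‖lemzF q a H' R n r‖ ^ 2 ≤ H' := by
              calc (1 / (R : ℝ)) * ∑ r ∈ range R, ‖lemzF q a H' R n r‖ ^ 2
                  ≤ (1 / (R : ℝ)) * (R * H') := by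
                    apply mul_le_mul_of_nonneg_left h3 (by positivity)
                _ = H' := by field_simp
            gcongr
  refine h2.trans ?_
  rw [μ.add _ _ (lemz_bd_const _) (lemz_bd_sum _ _ hFbd), lemz_m_const, mean_sum μ _ _ hFbd]
  have h8 := lemz_S_energy q P M H' hM le_rfl
  have h9 : ∑ r ∈ range R, μ.m (fun n => (1 / (R * T) * ‖lemzS q P M R r‖ ^ 4) *
      ‖lemzF q a H' R n r‖ ^ 2) ≤ δ * (H' : ℝ) ^ 2 / T * E := by
    calc ∑ r ∈ range R, μ.m (fun n => (1 / (R * T) * ‖lemzS q P M R r‖ ^ 4) *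
          ‖lemzF q a H' R n r‖ ^ 2)
        ≤ ∑ r ∈ range R, (1 / (R * T) * ‖lemzS q P M R r‖ ^ 4) * (δ * (H' : ℝ) ^ 2) := by
          apply Finset.sum_le_sum
          intro r _
          rw [μ.smul _ _ (lemzF_bd q a H' R r)]
          apply mul_le_mul_of_nonneg_left _ (by positivity)
          exact lemz_F_mean μ q a H' R r hq δ hA
      _ = (1 / (R * T) * (δ * (H' : ℝ) ^ 2)) * ∑ r ∈ range R, ‖lemzS q P M R r‖ ^ 4 := by
          rw [Finset.mul_sum]
          apply Finset.sum_congr rfl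
          intro r _
          ring
      _ ≤ (1 / (R * T) * (δ * (H' : ℝ) ^ 2)) * (R * E) := by
          apply mul_le_mul_of_nonneg_left h8
          positivity
      _ = δ * (H' : ℝ) ^ 2 / T * E := by
          field_simp
  linarith

theorem lemz (μ : SMean) (hA : UA μ) (q a M : ℕ) (hq : 1 ≤ q) (hM : 1 ≤ M) :
    ∀ ε : ℝ, 0 < ε → ∃ P₀ : ℕ, ∀ P : ℕ, P₀ ≤ P →
      μ.m (fun n => (∑ p ∈ PQ q P, lamq q a (n + p * M)) ^ 2) ≤ ε * ((PQ q P).card : ℝ) ^ 2 := by
  intro ε hε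
  obtain ⟨C, hC, P₁, hE⟩ := prime_energy
  obtain ⟨c, hc, P₂, hL⟩ := prime_low q hq
  set B : ℝ := 2 * M + 2 with hB
  have hB0 : 0 < B := by positivity
  set e : ℝ := ε / (2 * B) with he
  have he0 : 0 < e := by positivity
  set δ : ℝ := ε * c ^ 4 * e / (2 * B ^ 2 * C) with hδ
  have hδ0 : 0 < δ := by positivity
  obtain ⟨H₀, hH₀⟩ := hA δ hδ0
  refine ⟨P₁ + P₂ + H₀ + 3, fun P hP => ?_⟩
  have hP3 : 3 ≤ P := by omega
  have hPr : (3 : ℝ) ≤ P := by exact_mod_cast hP3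
  have hP0 : (0 : ℝ) < P := by linarith
  have hlog : 0 < Real.log P := Real.log_pos (by linarith)
  set K : ℝ := ((PQ q P).card : ℝ) with hK
  have hK1 : c * P / Real.log P ≤ K := hL P (by omega)
  have hK0 : 0 < K := lt_of_lt_of_le (by positivity) hK1
  have hE1 := hE P (by omega)
  set E : ℝ := ((((PQ 1 P ×ˢ PQ 1 P) ×ˢ (PQ 1 P ×ˢ PQ 1 P)).filter
      (fun x => x.1.1 + x.1.2 = x.2.1 + x.2.2)).card : ℝ) with hEdef
  have hE2 : E ≤ C * K ^ 4 / (c ^ 4 * P) := by
    refine hE1.trans ?_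
    have h1 : (c * P / Real.log P) ^ 4 ≤ K ^ 4 := by gcongr
    have h2 : C * (P : ℝ) ^ 3 / Real.log P ^ 4 = C * (c * P / Real.log P) ^ 4 / (c ^ 4 * P) := by
      field_simp
    rw [h2]
    gcongr
  set H' : ℕ := P + 2 * P * M + 1 with hH'
  have hH'le : (H' : ℝ) ≤ B * P := by
    rw [hH', hB]
    push_cast
    nlinarith
  have hmain := lemz_main μ q a M P hq hM δ (e * K ^ 2) (by positivity)
    (fun θ => hH₀ _ (by rw [← hH']; nlinarith) θ) hδ0.le
  rw [← hEdef, ← hH'] at hmain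
  have h5 : e * K ^ 2 * (H' : ℝ) ≤ (ε / 2) * K ^ 2 * P := by
    calc e * K ^ 2 * (H' : ℝ) ≤ e * K ^ 2 * (B * P) := by gcongr
      _ = (ε / 2) * K ^ 2 * P := by
          rw [he]
          field_simp
  have h6 : δ * (H' : ℝ) ^ 2 / (e * K ^ 2) * E ≤ (ε / 2) * K ^ 2 * P := by
    calc δ * (H' : ℝ) ^ 2 / (e * K ^ 2) * E
        ≤ δ * (B * P) ^ 2 / (e * K ^ 2) * (C * K ^ 4 / (c ^ 4 * P)) := by
          gcongr
      _ = (ε / 2) * K ^ 2 * P := by
          rw [hδ]
          field_simp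
  have h7 : (P : ℝ) * μ.m (fun n => (∑ p ∈ PQ q P, lamq q a (n + p * M)) ^ 2) ≤
      P * (ε * K ^ 2) := by
    calc _ ≤ _ := hmain
      _ ≤ (ε / 2) * K ^ 2 * P + (ε / 2) * K ^ 2 * P := add_le_add h5 h6
      _ = P * (ε * K ^ 2) := by ring
  exact le_of_mul_le_mul_left h7 hP0

end Pool.Agent.H376R2.TT
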