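import Pool.Agent.H376R2.TT.Defs
import Pool.Agent.H376R2.TT.Prlow

/-!
MASSQ: mass of the primes `≡ 1 mod q` in long ranges, by summation over dyadic blocks.
-/

set_option autoImplicit false

namespace Pool.Agent.H376R2.TT

open Finset Filter Pool.Agent.H376R2.MR

open scoped Classical in
/-- `∑_{log p < y, Q p} 1/p` -/
noncomputable def massq_S (Q : ℕ → Prop) (y : ℝ) : ℝ :=
  ∑ p ∈ (range (⌊Real.exp y⌋₊ + 1)).filter (fun p : ℕ => p.Prime ∧ Real.log p < y ∧ Q p),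
    1 / (p : ℝ)

open scoped Classical in
theorem massq_S_eq {Q : ℕ → Prop} {y : ℝ} {N : ℕ} (hN : ⌊Real.exp y⌋₊ + 1 ≤ N) :
    massq_S Q y =
      ∑ p ∈ (range N).filter (fun p : ℕ => p.Prime ∧ Real.log p < y ∧ Q p), 1 / (p : ℝ) := by
  unfold massq_S
  apply Finset.sum_congr _ (fun _ _ => rfl)
  ext p
  rw [mem_filter, mem_filter, mem_range, mem_range]
  constructor
  · rintro ⟨h1, h2⟩
    exact ⟨by omega, h2⟩
  · rintro ⟨h1, h2, h3, h6⟩
    refine ⟨?_, h2, h3, h6⟩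
    have hp : (0 : ℝ) < p := by exact_mod_cast h2.pos
    have h4 : (p : ℝ) ≤ Real.exp y := by
      rw [← Real.exp_log hp]
      exact Real.exp_le_exp.2 h3.le
    have h5 : p ≤ ⌊Real.exp y⌋₊ := Nat.le_floor h4
    omega

theorem massq_step (Q : ℕ → Prop) (H v : ℕ) :
    massq_S Q (((v : ℝ) + 1) / H) = massq_S Q ((v : ℝ) / H) + mmQ Q H v := by
  classical
  have hle : (v : ℝ) / H ≤ ((v : ℝ) + 1) / H := by gcongr; linarith
  have hN : ⌊Real.exp ((v : ℝ) / H)⌋₊ + 1 ≤ ⌊Real.exp (((v : ℝ) + 1) / H)⌋₊ + 1 := by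
    have := Nat.floor_le_floor (Real.exp_le_exp.2 hle)
    omega
  rw [massq_S_eq (le_refl (⌊Real.exp (((v : ℝ) + 1) / H)⌋₊ + 1)), massq_S_eq hN]
  unfold mmQ cellQ cell
  rw [← sum_union]
  · apply Finset.sum_congr _ (fun _ _ => rfl)
    ext p
    simp only [mem_filter, mem_union, mem_range]
    constructor
    · rintro ⟨h1, h2, h3, h6⟩
      by_cases h4 : Real.log p < (v : ℝ) / H
      · exact Or.inl ⟨h1, h2, h4, h6⟩
      · exact Or.inr ⟨⟨h1, h2, not_lt.1 h4, h3⟩, h6⟩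
    · rintro (⟨h1, h2, h3, h6⟩ | ⟨⟨h1, h2, h3, h4⟩, h6⟩)
      · exact ⟨h1, h2, lt_of_lt_of_le h3 hle, h6⟩
      · exact ⟨h1, h2, h4, h6⟩
  · rw [disjoint_left]
    intro p hp hp'
    simp only [mem_filter, mem_range] at hp hp'
    exact absurd hp.2.2.1 (not_lt.2 hp'.1.2.2.1)

theorem massq_WW (Q : ℕ → Prop) (H v₀ v₁ : ℕ) (h : v₀ ≤ v₁) :
    WWQ Q H v₀ v₁ = massq_S Q ((v₁ : ℝ) / H) - massq_S Q ((v₀ : ℝ) / H) := by
  induction v₁, h using Nat.le_induction with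
  | base =>
    unfold WWQ
    rw [Ico_self, sum_empty, sub_self]
  | succ v hv ih =>
    unfold WWQ at ih ⊢
    rw [sum_Ico_succ_top hv, ih]
    push_cast
    rw [massq_step]
    ring

/-- dyadic blocks between `e^{y₀}` and `e^{y₁}` -/
theorem massq_blocks (q : ℕ) {y₀ y₁ : ℝ} (A b : ℕ) (hy : y₀ ≤ y₁) (hA : y₀ < A * Real.log 2)
    (hb : b * Real.log 2 < y₁) :
    massq_S (Q1 q) y₀ + ∑ k ∈ Ico A b, ∑ p ∈ PQ q (2 ^ k), 1 / (p : ℝ) ≤ massq_S (Q1 q) y₁ := by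
  classical
  have hN : ⌊Real.exp y₀⌋₊ + 1 ≤ ⌊Real.exp y₁⌋₊ + 1 := by
    have := Nat.floor_le_floor (Real.exp_le_exp.2 hy)
    omega
  rw [massq_S_eq (le_refl (⌊Real.exp y₁⌋₊ + 1)), massq_S_eq hN]
  have hl2 : 0 < Real.log 2 := Real.log_pos (by norm_num)
  -- the blocks are pairwise disjoint
  have hdisj : (↑(Ico A b) : Set ℕ).PairwiseDisjoint (fun k => PQ q (2 ^ k)) := by
    intro i _ j _ hij
    rw [Function.onFun, disjoint_left]
    intro p hp hp'
    unfold PQ at hp hp'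
    rw [mem_filter, mem_Ioc] at hp hp'
    rcases lt_or_gt_of_ne hij with h | h
    · have h1 : 2 ^ (i + 1) ≤ 2 ^ j := Nat.pow_le_pow_right (by norm_num) h
      rw [pow_succ] at h1
      omega
    · have h1 : 2 ^ (j + 1) ≤ 2 ^ i := Nat.pow_le_pow_right (by norm_num) h
      rw [pow_succ] at h1
      omega
  rw [← sum_biUnion hdisj, ← sum_union]
  · apply sum_le_sum_of_subset_of_nonneg
    · intro p hp
      rw [mem_union] at hp
      rcases hp with hp | hp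
      · rw [mem_filter] at hp ⊢
        exact ⟨hp.1, hp.2.1, lt_of_lt_of_le hp.2.2.1 hy, hp.2.2.2⟩
      · rw [mem_biUnion] at hp
        obtain ⟨k, hk, hp⟩ := hp
        rw [mem_Ico] at hk
        unfold PQ at hp
        rw [mem_filter, mem_Ioc] at hp
        obtain ⟨⟨h1, h2⟩, h3, h4⟩ := hp
        have hp0 : (0 : ℝ) < p := by exact_mod_cast h3.pos
        have h5 : p ≤ 2 ^ b := by
          have : 2 ^ (k + 1) ≤ 2 ^ b := Nat.pow_le_pow_right (by norm_num) hk.2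
          rw [pow_succ] at this
          omega
        have h6 : Real.log p < y₁ := by
          calc Real.log p ≤ Real.log ((2 : ℝ) ^ b) :=
                Real.log_le_log hp0 (by exact_mod_cast h5)
            _ = b * Real.log 2 := Real.log_pow _ _
            _ < y₁ := hb
        have h7 : p ≤ ⌊Real.exp y₁⌋₊ := by
          apply Nat.le_floor
          rw [← Real.exp_log hp0]
          exact Real.exp_le_exp.2 h6.le
        rw [mem_filter, mem_range]
        exact ⟨by omega, h3, h6, h4⟩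
    · intro p _ _
      positivity
  · rw [disjoint_left]
    intro p hp hp'
    rw [mem_filter] at hp
    rw [mem_biUnion] at hp'
    obtain ⟨k, hk, hp'⟩ := hp'
    rw [mem_Ico] at hk
    unfold PQ at hp'
    rw [mem_filter, mem_Ioc] at hp'
    have h5 : 2 ^ A ≤ p := by
      have : 2 ^ A ≤ 2 ^ k := Nat.pow_le_pow_right (by norm_num) hk.1
      omega
    have h6 : y₀ < Real.log p := by
      calc y₀ < A * Real.log 2 := hA
        _ = Real.log ((2 : ℝ) ^ A) := (Real.log_pow _ _).symm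
        _ ≤ Real.log p := Real.log_le_log (by positivity) (by exact_mod_cast h5)
    linarith [hp.2.2.1]

theorem massq_harm (A b : ℕ) (hA : 1 ≤ A) (hb : A ≤ b) :
    Real.log ((b : ℝ) / A) ≤ ∑ k ∈ Ico A b, 1 / (k : ℝ) := by
  have hA0 : (0 : ℝ) < A := by exact_mod_cast hA
  induction b, hb using Nat.le_induction with
  | base => rw [Ico_self, sum_empty, div_self hA0.ne', Real.log_one]
  | succ n hn ih =>
    have hn0 : (0 : ℝ) < n := by exact_mod_cast (by omega : 0 < n)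
    rw [sum_Ico_succ_top hn]
    have h1 : Real.log (((n + 1 : ℕ) : ℝ) / A) = Real.log ((n : ℝ) / A) + Real.log (1 + 1 / n) := by
      rw [← Real.log_mul (by positivity) (by positivity)]
      congr 1
      push_cast
      field_simp
    have h2 : Real.log (1 + 1 / (n : ℝ)) ≤ 1 / n := by
      have := Real.log_le_sub_one_of_pos (show (0 : ℝ) < 1 + 1 / n by positivity)
      linarith
    linarith

theorem massq_block_low (q : ℕ) (hq : 1 ≤ q) : ∃ c : ℝ, 0 < c ∧ ∃ K₀ : ℕ, 1 ≤ K₀ ∧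
    ∀ k : ℕ, K₀ ≤ k → c * (1 / (k : ℝ)) ≤ ∑ p ∈ PQ q (2 ^ k), 1 / (p : ℝ) := by
  obtain ⟨c, hc, P₀, h⟩ := prime_low q hq
  refine ⟨c / 2, by positivity, P₀ + 1, by omega, fun k hk => ?_⟩
  have hkP : P₀ ≤ 2 ^ k := by
    have : k < 2 ^ k := Nat.lt_two_pow_self
    omega
  have h1 := h (2 ^ k) hkP
  have hk0 : (0 : ℝ) < k := by exact_mod_cast (by omega : 0 < k)
  have hl2 : 0 < Real.log 2 := Real.log_pos (by norm_num)
  have hl2' : Real.log 2 ≤ 1 := by
    have := Real.log_two_lt_d9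
    linarith
  have hP0 : (0 : ℝ) < 2 ^ k := by positivity
  have h2 : ∑ p ∈ PQ q (2 ^ k), 1 / (2 * 2 ^ k : ℝ) ≤ ∑ p ∈ PQ q (2 ^ k), 1 / (p : ℝ) := by
    apply sum_le_sum
    intro p hp
    unfold PQ at hp
    rw [mem_filter, mem_Ioc] at hp
    have hp0 : (0 : ℝ) < p := by exact_mod_cast hp.2.1.pos
    apply one_div_le_one_div_of_le hp0
    exact_mod_cast hp.1.2
  rw [sum_const, nsmul_eq_mul] at h2
  refine le_trans ?_ h2
  push_cast at h1
  rw [Real.log_pow] at h1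
  have h3 : c / 2 * (1 / (k : ℝ)) ≤ c * 2 ^ k / (k * Real.log 2) * (1 / (2 * 2 ^ k)) := by
    have : c * 2 ^ k / (k * Real.log 2) * (1 / (2 * 2 ^ k)) = c / 2 * (1 / k) * (1 / Real.log 2) := by
      field_simp
    rw [this]
    have h4 : 1 ≤ 1 / Real.log 2 := by rw [le_div_iff₀ hl2]; linarith
    exact le_mul_of_one_le_right (by positivity) h4
  exact h3.trans (mul_le_mul_of_nonneg_right h1 (by positivity))

theorem massq_main (q : ℕ) (hq : 1 ≤ q) : ∃ c C : ℝ, 0 < c ∧ 0 ≤ C ∧ ∀ y₀ y₁ : ℝ, 1 ≤ y₀ → y₀ ≤ y₁ →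
    c * Real.log (y₁ / y₀) - C ≤ massq_S (Q1 q) y₁ - massq_S (Q1 q) y₀ := by
  obtain ⟨c, hc, K₀, hK₀, h⟩ := massq_block_low q hq
  have hK0 : (1 : ℝ) ≤ K₀ := by exact_mod_cast hK₀
  refine ⟨c, c * Real.log (6 * K₀), hc, mul_nonneg hc.le (Real.log_nonneg (by linarith)), ?_⟩
  intro y₀ y₁ hy0 hy
  have hl2 : 0 < Real.log 2 := Real.log_pos (by norm_num)
  have hl2' : Real.log 2 ≤ 1 := by
    have := Real.log_two_lt_d9
    linarith
  have hl2'' : 0.69 < Real.log 2 := by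
    have := Real.log_two_gt_d9
    linarith
  set a : ℕ := ⌊y₀ / Real.log 2⌋₊ + 1 with ha
  set A : ℕ := max a K₀ with hA
  set b : ℕ := ⌈y₁ / Real.log 2⌉₊ - 1 with hb
  have hceil : 1 ≤ ⌈y₁ / Real.log 2⌉₊ := Nat.one_le_ceil_iff.2 (div_pos (by linarith) hl2)
  have hb1 : y₁ ≤ (b : ℝ) + 1 := by
    have h1 : y₁ / Real.log 2 ≤ (⌈y₁ / Real.log 2⌉₊ : ℝ) := Nat.le_ceil _
    have h2 : (⌈y₁ / Real.log 2⌉₊ : ℝ) = (b : ℝ) + 1 := by
      rw [hb]
      have : ⌈y₁ / Real.log 2⌉₊ = (⌈y₁ / Real.log 2⌉₊ - 1) + 1 := by omega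
      exact_mod_cast this
    have h3 : y₁ ≤ y₁ / Real.log 2 := by
      rw [le_div_iff₀ hl2]
      exact mul_le_of_le_one_right (by linarith) hl2'
    linarith
  have hb2 : (b : ℝ) * Real.log 2 < y₁ := by
    have h1 : b < ⌈y₁ / Real.log 2⌉₊ := by omega
    have h2 := Nat.lt_ceil.1 h1
    rwa [lt_div_iff₀ hl2] at h2
  have ha1 : y₀ < (a : ℝ) * Real.log 2 := by
    have h1 := Nat.lt_floor_add_one (y₀ / Real.log 2)
    rw [div_lt_iff₀ hl2] at h1
    rw [ha]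
    push_cast
    exact h1
  have ha2 : (a : ℝ) ≤ 3 * y₀ := by
    have h1 : (⌊y₀ / Real.log 2⌋₊ : ℝ) ≤ y₀ / Real.log 2 := Nat.floor_le (by positivity)
    have h2 : y₀ / Real.log 2 ≤ 2 * y₀ := by
      rw [div_le_iff₀ hl2]
      nlinarith
    rw [ha]
    push_cast
    linarith
  have hA1 : (A : ℝ) ≤ 3 * y₀ * K₀ := by
    rw [hA]
    push_cast
    apply max_le
    · nlinarith
    · nlinarith
  have hA2 : y₀ < (A : ℝ) * Real.log 2 := by
    have : (a : ℝ) ≤ A := by exact_mod_cast le_max_left a K₀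
    nlinarith
  have hAK : K₀ ≤ A := le_max_right _ _
  have hA3 : 1 ≤ A := le_trans hK₀ hAK
  have hA0 : (0 : ℝ) < A := by exact_mod_cast hA3
  have hblocks := massq_blocks q A b hy hA2 hb2
  have hsum : c * ∑ k ∈ Ico A b, 1 / (k : ℝ) ≤ ∑ k ∈ Ico A b, ∑ p ∈ PQ q (2 ^ k), 1 / (p : ℝ) := by
    rw [mul_sum]
    apply sum_le_sum
    intro k hk
    rw [mem_Ico] at hk
    exact h k (le_trans hAK hk.1)
  have hlog : Real.log (y₁ / y₀) - Real.log (6 * K₀) ≤ ∑ k ∈ Ico A b, 1 / (k : ℝ) := by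
    have hy0' : 0 < y₀ := by linarith
    have hy1' : 0 < y₁ := by linarith
    rw [← Real.log_div (by positivity) (by positivity)]
    by_cases hAb : A ≤ b
    · refine le_trans ?_ (massq_harm A b hA3 hAb)
      apply Real.log_le_log (by positivity)
      have hb3 : (1 : ℝ) ≤ b := by exact_mod_cast le_trans hA3 hAb
      rw [div_div, div_le_div_iff₀ (by positivity) hA0]
      calc y₁ * A ≤ (2 * b) * (3 * y₀ * K₀) := by
            apply mul_le_mul _ hA1 hA0.le (by positivity)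
            linarith
        _ = b * (y₀ * (6 * K₀)) := by ring
    · have h1 : (b : ℝ) + 1 ≤ A := by exact_mod_cast (by omega : b + 1 ≤ A)
      have h2 : 0 ≤ ∑ k ∈ Ico A b, 1 / (k : ℝ) := sum_nonneg fun k _ => by positivity
      refine le_trans ?_ h2
      apply Real.log_nonpos (by positivity)
      rw [div_div, div_le_one (by positivity)]
      nlinarith
  have h9 := mul_le_mul_of_nonneg_left hlog hc.le
  rw [mul_sub] at h9
  linarith

theorem mass_q (q : ℕ) (hq : 1 ≤ q) : ∃ c C : ℝ, 0 < c ∧ 0 ≤ C ∧ ∀ H v₀ v₁ : ℕ, 1 ≤ H → H ≤ v₀ →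
    v₀ ≤ v₁ → c * Real.log ((v₁ : ℝ) / v₀) - C ≤ WWQ (Q1 q) H v₀ v₁ := by
  obtain ⟨c, C, hc, hC, h⟩ := massq_main q hq
  refine ⟨c, C, hc, hC, fun H v₀ v₁ hH h0 h1 => ?_⟩
  have hH' : (0 : ℝ) < H := by exact_mod_cast hH
  have hv0 : (H : ℝ) ≤ v₀ := by exact_mod_cast h0
  have hv1 : (v₀ : ℝ) ≤ v₁ := by exact_mod_cast h1
  have h2 := h ((v₀ : ℝ) / H) ((v₁ : ℝ) / H) (by rw [one_le_div hH']; exact hv0) (by gcongr)
  rw [massq_WW (Q1 q) H v₀ v₁ h1]
  have h3 : (v₁ : ℝ) / H / (v₀ / H) = v₁ / v₀ := by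
    have : (v₀ : ℝ) ≠ 0 := by linarith
    field_simp
  rwa [h3] at h2

end Pool.Agent.H376R2.TT
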