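import Pool.Agent.H376R2.TT.Short
import Pool.Agent.H376R2.TT.Energy
import Pool.Agent.H376R2.TT.Massq
import Pool.Agent.H376R2.TT.Cellq
import Pool.Agent.H376R2.TT.Lamap

/-!
Project TT, task MRAP: short intervals in residue classes.
-/

set_option autoImplicit false

namespace Pool.Agent.H376R2.TT

open Finset Filter Pool.Agent.H376R2.MR

theorem mrap_bd (q a n : ℕ) : |lamq q a n| ≤ 1 := by
  unfold lamq lam
  split_ifs
  · push_cast
    rw [abs_pow, abs_neg, abs_one, one_pow]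
  · simp

theorem mrap_mul (q a p m : ℕ) (hp : p.Prime) (hq : Q1 q p) (hm : 1 ≤ m) :
    lamq q a (p * m) = -lamq q a m := by
  have h1 : (p * m) % q = m % q := by
    have : p * m ≡ 1 * m [MOD q] := Nat.ModEq.mul_right m hq
    rw [one_mul] at this
    exact this
  have h2 : lam (p * m) = -lam m := by
    unfold lam
    rw [ArithmeticFunction.cardFactors_mul hp.ne_zero (by omega),
      ArithmeticFunction.cardFactors_apply_prime hp, pow_add, pow_one]
    ring
  unfold lamq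
  rw [h1, h2]
  split_ifs
  · push_cast; ring
  · simp

theorem mrap_gq (q a : ℕ) (hq : 1 ≤ q) : GQ (lamq q a) (Q1 q) where
  bd := mrap_bd q a
  mul := fun p m hp hQ hm => mrap_mul q a p m hp hQ hm
  mass := mass_q q hq

theorem mrap (q a : ℕ) (hq : 1 ≤ q) :
    ∀ ε : ℝ, 0 < ε → ∃ H₀ : ℕ, ∀ H : ℕ, H₀ ≤ H → ∃ N₀ : ℕ, ∀ N : ℕ, N₀ ≤ N →
      ∑ n ∈ Icc 1 N, (∑ j ∈ range H, lamq q a (n + j)) ^ 2 ≤ ε * (H : ℝ) ^ 2 * N :=
  short (mrap_bd q a)
    (fun _ hη => energy (mrap_gq q a hq) (cell_q q hq) (lam_ap q a hq) hη)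

end Pool.Agent.H376R2.TT
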