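import Pool.Agent.H376R2.TT.Defs
import Pool.Agent.H376R2.MR.Phas
import Pool.Agent.H442R2.EHI.VdC

/-! Task PHASQ (helper415): `∑ (qm+c)^{-1+iτ}` against the integral. -/

set_option autoImplicit false

namespace Pool.Agent.H376R2.TT

open Finset MeasureTheory intervalIntegral Pool.Agent.H376R2.MR

/-- one block of the exponential sum -/
theorem phasq_block (M : ℕ) : ∃ η C : ℝ, 0 < η ∧ 0 < C ∧ ∀ (a L : ℕ) (θ τ : ℝ), 1 ≤ a → 0 ≤ θ →
    θ ≤ 1 → L ≤ a → 2 * Real.pi * (a : ℝ) ^ (1 / 2 : ℝ) ≤ |τ| → |τ| ≤ (a : ℝ) ^ M →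
    ‖∑ n ∈ range L, er τ (Real.log ((a : ℝ) + θ + n)) / ((((a : ℝ) + θ + n : ℝ)) : ℂ)‖ ≤
      C * (a : ℝ) ^ (-η) := by
  obtain ⟨η, hη, C, hC, h⟩ := Pool.Agent.H442R2.EHI.vdc_log M
  refine ⟨η, C, hη, hC, ?_⟩
  intro a L θ τ ha hθ0 hθ1 hLa h1 h2
  have ha' : (1 : ℝ) ≤ a := by exact_mod_cast ha
  have ha0 : (0 : ℝ) < a := by linarith
  have hLa' : (L : ℝ) ≤ a := by exact_mod_cast hLa
  have hpi := Real.pi_pos
  have h2pi : 0 < 2 * Real.pi := by positivity
  have hξ1 : (a : ℝ) ^ (1 / 2 : ℝ) ≤ |τ / (2 * Real.pi)| := by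
    rw [abs_div, abs_of_pos h2pi, le_div_iff₀ h2pi]
    linarith
  have hξ2 : |τ / (2 * Real.pi)| ≤ (a : ℝ) ^ M := by
    rw [abs_div, abs_of_pos h2pi]
    refine (div_le_self (abs_nonneg _) ?_).trans h2
    nlinarith [Real.pi_gt_three]
  have hpart : ∀ K, K ≤ L → ‖∑ n ∈ range K, er τ (Real.log ((a : ℝ) + θ + n))‖ ≤
      C * (a : ℝ) ^ (1 - η) := by
    intro K hK
    have hK' : (K : ℝ) ≤ L := by exact_mod_cast hK
    have h3 := h a K ((a : ℝ) + θ) (τ / (2 * Real.pi)) ha (by linarith) (hK.trans hLa)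
      (by linarith) hξ1 hξ2
    refine le_trans (le_of_eq ?_) h3
    congr 1
    refine sum_congr rfl fun n _ => ?_
    unfold er Pool.Agent.H469R2.NK.e
    congr 1
    push_cast
    field_simp
  have h4 := phas_abel (fun n => 1 / ((a : ℝ) + θ + n)) (fun n => er τ (Real.log ((a : ℝ) + θ + n)))
    (C * (a : ℝ) ^ (1 - η)) L (fun n => by positivity) (fun n => by
      have : (0 : ℝ) < (a : ℝ) + θ + n := by positivity
      apply one_div_le_one_div_of_le this
      push_cast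
      linarith) hpart
  have h5 : ∑ n ∈ range L, er τ (Real.log ((a : ℝ) + θ + n)) / ((((a : ℝ) + θ + n : ℝ)) : ℂ) =
      ∑ n ∈ range L, ((1 / ((a : ℝ) + θ + n) : ℝ) : ℂ) * er τ (Real.log ((a : ℝ) + θ + n)) := by
    refine sum_congr rfl fun n _ => ?_
    push_cast
    rw [one_div, div_eq_inv_mul]
  rw [h5]
  refine h4.trans ?_
  have h6 : 1 / ((a : ℝ) + θ + (0 : ℕ)) ≤ 1 / a := by
    apply one_div_le_one_div_of_le ha0
    push_cast
    linarith
  have h7 : 0 ≤ C * (a : ℝ) ^ (1 - η) := by positivity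
  refine (mul_le_mul_of_nonneg_right h6 h7).trans (le_of_eq ?_)
  rw [Real.rpow_sub ha0, Real.rpow_one, Real.rpow_neg ha0.le]
  field_simp

/-- the term in scaled form -/
theorem phasq_term (q m c : ℕ) (τ : ℝ) (hq : 1 ≤ q) (hm : 1 ≤ m) :
    er τ (Real.log ((q : ℝ) * m + c)) / ((q : ℂ) * m + c) =
      (er τ (Real.log q) / (q : ℂ)) *
        (er τ (Real.log ((m : ℝ) + (c : ℝ) / q)) / ((((m : ℝ) + (c : ℝ) / q : ℝ)) : ℂ)) := by
  have hq0 : (0 : ℝ) < q := by exact_mod_cast hq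
  have hm0 : (0 : ℝ) < m := by exact_mod_cast hm
  have hqC : (q : ℂ) ≠ 0 := by exact_mod_cast hq0.ne'
  have h1 : (q : ℝ) * m + c = q * ((m : ℝ) + (c : ℝ) / q) := by field_simp
  have h2 : (q : ℂ) * m + c = q * ((((m : ℝ) + (c : ℝ) / q : ℝ)) : ℂ) := by
    push_cast
    field_simp
  have h3 : (0 : ℝ) < (m : ℝ) + (c : ℝ) / q := by positivity
  have h4 : er τ (Real.log ((q : ℝ) * m + c)) =
      er τ (Real.log q) * er τ (Real.log ((m : ℝ) + (c : ℝ) / q)) := by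
    rw [h1, Real.log_mul hq0.ne' h3.ne']
    unfold er
    rw [← Complex.exp_add]
    congr 1
    push_cast
    ring
  rw [h4, h2, mul_div_mul_comm]

/-- small frequencies: compare with the integral termwise -/
theorem phasq_small (q a b c : ℕ) (τ : ℝ) (hq : 1 ≤ q) (ha : 1 ≤ a) (hab : a ≤ b) (hb : b ≤ 3 * a)
    (hc : c < q) :
    ‖(∑ m ∈ Ico a b, er τ (Real.log ((q : ℝ) * m + c)) / ((q : ℂ) * m + c)) -
      (1 / (q : ℂ)) * ∫ s in (Real.log ((q : ℝ) * a))..(Real.log ((q : ℝ) * b)), er τ s‖ ≤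
      2 * (1 + |τ|) / a := by
  have hq0 : (0 : ℝ) < q := by exact_mod_cast hq
  have hq1 : (1 : ℝ) ≤ q := by exact_mod_cast hq
  have hint : ∫ s in (Real.log ((q : ℝ) * a))..(Real.log ((q : ℝ) * b)), er τ s =
      ∑ m ∈ Ico a b, ∫ s in (Real.log ((q : ℝ) * m))..(Real.log ((q : ℝ) * ((m + 1 : ℕ) : ℝ))), er τ s := by
    rw [sum_integral_adjacent_intervals_Ico (a := fun m : ℕ => Real.log ((q : ℝ) * (m : ℝ))) hab]
    intro k _
    exact (phas_continuous_er τ).intervalIntegrable _ _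
  rw [hint, mul_sum, ← sum_sub_distrib]
  have ha0 : (0 : ℝ) < a := by exact_mod_cast ha
  have hterm : ∀ m ∈ Ico a b, ‖er τ (Real.log ((q : ℝ) * m + c)) / ((q : ℂ) * m + c) -
      (1 / (q : ℂ)) * ∫ s in (Real.log ((q : ℝ) * m))..(Real.log ((q : ℝ) * ((m + 1 : ℕ) : ℝ))), er τ s‖ ≤
      (1 + |τ|) / a ^ 2 := by
    intro m hm
    rw [mem_Ico] at hm
    have hm0 : (0 : ℝ) < m := by
      have : 0 < m := by omega
      exact_mod_cast this
    have ham : (a : ℝ) ≤ m := by exact_mod_cast hm.1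
    have hc' : (c : ℝ) ≤ q := by exact_mod_cast hc.le
    have hc0 : (0 : ℝ) ≤ c := Nat.cast_nonneg c
    have hx0 : (0 : ℝ) < (q : ℝ) * m + c := by positivity
    set D : ℝ := Real.log ((q : ℝ) * ((m + 1 : ℕ) : ℝ)) - Real.log ((q : ℝ) * m) with hD
    have hD' : D = Real.log (((m + 1 : ℕ) : ℝ) / m) := by
      rw [hD, ← Real.log_div (by positivity) (by positivity)]
      congr 1
      field_simp
    have hlog1 : D ≤ 1 / m := by
      rw [hD']
      have h1 := Real.log_le_sub_one_of_pos (show (0 : ℝ) < ((m + 1 : ℕ) : ℝ) / m by positivity)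
      refine h1.trans (le_of_eq ?_)
      push_cast
      field_simp
      ring
    have hlog2 : 1 / (m : ℝ) - 1 / m ^ 2 ≤ D := by
      rw [hD']
      have h1 := Real.one_sub_inv_le_log_of_pos (show (0 : ℝ) < ((m + 1 : ℕ) : ℝ) / m by positivity)
      refine le_trans ?_ h1
      rw [inv_div]
      have h2 : 1 - (m : ℝ) / ((m + 1 : ℕ) : ℝ) = 1 / m - 1 / (m * (m + 1)) := by
        push_cast
        field_simp
        ring
      rw [h2]
      have h3 : 1 / ((m : ℝ) * (m + 1)) ≤ 1 / m ^ 2 := by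
        apply one_div_le_one_div_of_le (by positivity)
        nlinarith
      linarith
    have hle : Real.log ((q : ℝ) * m) ≤ Real.log ((q : ℝ) * ((m + 1 : ℕ) : ℝ)) := by
      apply Real.log_le_log (by positivity)
      push_cast
      nlinarith
    have hD0 : 0 ≤ D := by rw [hD]; linarith
    have hL1 : Real.log ((q : ℝ) * m) ≤ Real.log ((q : ℝ) * m + c) :=
      Real.log_le_log (by positivity) (by linarith)
    have hL2 : Real.log ((q : ℝ) * m + c) ≤ Real.log ((q : ℝ) * ((m + 1 : ℕ) : ℝ)) := by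
      apply Real.log_le_log hx0
      push_cast
      nlinarith
    have hr1 : 1 / ((q : ℝ) * m + c) ≤ (1 / q) * (1 / m) := by
      rw [one_div_mul_one_div]
      apply one_div_le_one_div_of_le (by positivity)
      linarith
    have hr2 : (1 / (q : ℝ)) * (1 / m - 1 / m ^ 2) ≤ 1 / ((q : ℝ) * m + c) := by
      have h3 : (1 / (q : ℝ)) * (1 / m - 1 / m ^ 2) ≤ (1 / q) * (1 / (m + 1)) := by
        apply mul_le_mul_of_nonneg_left _ (by positivity)
        have h4 : 1 / (m : ℝ) - 1 / (m + 1) = 1 / (m * (m + 1)) := by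
          field_simp
          ring
        have h5 : 1 / ((m : ℝ) * (m + 1)) ≤ 1 / m ^ 2 := by
          apply one_div_le_one_div_of_le (by positivity)
          nlinarith
        linarith
      refine h3.trans ?_
      rw [one_div_mul_one_div]
      apply one_div_le_one_div_of_le hx0
      nlinarith
    have hconst : ∫ s in (Real.log ((q : ℝ) * m))..(Real.log ((q : ℝ) * ((m + 1 : ℕ) : ℝ))),
        er τ (Real.log ((q : ℝ) * m + c)) = ((D : ℝ) : ℂ) * er τ (Real.log ((q : ℝ) * m + c)) := by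
      rw [intervalIntegral.integral_const, Complex.real_smul]
    have hsplit : er τ (Real.log ((q : ℝ) * m + c)) / ((q : ℂ) * m + c) -
        (1 / (q : ℂ)) * ∫ s in (Real.log ((q : ℝ) * m))..(Real.log ((q : ℝ) * ((m + 1 : ℕ) : ℝ))), er τ s =
        (((1 / ((q : ℝ) * m + c) - (1 / q) * D : ℝ)) : ℂ) * er τ (Real.log ((q : ℝ) * m + c))
        - (1 / (q : ℂ)) * ∫ s in (Real.log ((q : ℝ) * m))..(Real.log ((q : ℝ) * ((m + 1 : ℕ) : ℝ))),
          (er τ s - er τ (Real.log ((q : ℝ) * m + c))) := by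
      rw [intervalIntegral.integral_sub ((phas_continuous_er τ).intervalIntegrable _ _)
        (continuous_const.intervalIntegrable _ _), hconst]
      push_cast
      rw [div_eq_inv_mul]
      ring
    rw [hsplit]
    refine (norm_sub_le _ _).trans ?_
    have h1 : ‖(((1 / ((q : ℝ) * m + c) - (1 / q) * D : ℝ)) : ℂ) *
        er τ (Real.log ((q : ℝ) * m + c))‖ ≤ (1 / q) * (1 / m ^ 2) := by
      rw [norm_mul, phas_norm_er, mul_one, Complex.norm_real, Real.norm_eq_abs, abs_le]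
      have e1 : (1 / (q : ℝ)) * D ≤ (1 / q) * (1 / m) :=
        mul_le_mul_of_nonneg_left hlog1 (by positivity)
      have e2 : (1 / (q : ℝ)) * (1 / m - 1 / m ^ 2) ≤ (1 / q) * D :=
        mul_le_mul_of_nonneg_left hlog2 (by positivity)
      rw [mul_sub] at hr2 e2
      constructor
      · linarith
      · linarith
    have h2 : ‖∫ s in (Real.log ((q : ℝ) * m))..(Real.log ((q : ℝ) * ((m + 1 : ℕ) : ℝ))),
        (er τ s - er τ (Real.log ((q : ℝ) * m + c)))‖ ≤ (|τ| * (1 / m)) * |D| := by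
      apply intervalIntegral.norm_integral_le_of_norm_le_const
      intro s hs
      rw [Set.uIoc_of_le hle] at hs
      refine (phas_er_sub τ _ _).trans ?_
      refine mul_le_mul_of_nonneg_left ?_ (abs_nonneg _)
      rw [abs_le]
      constructor
      · linarith [hs.1]
      · linarith [hs.2]
    rw [abs_of_nonneg hD0] at h2
    have h3 : (|τ| * (1 / m)) * D ≤ (|τ| * (1 / m)) * (1 / m) :=
      mul_le_mul_of_nonneg_left hlog1 (by positivity)
    have h2' : ‖(1 / (q : ℂ)) * ∫ s in (Real.log ((q : ℝ) * m))..(Real.log ((q : ℝ) * ((m + 1 : ℕ) : ℝ))),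
        (er τ s - er τ (Real.log ((q : ℝ) * m + c)))‖ ≤ (1 / q) * ((|τ| * (1 / m)) * (1 / m)) := by
      rw [norm_mul]
      have : ‖(1 / (q : ℂ))‖ = 1 / q := by
        rw [norm_div, norm_one, Complex.norm_natCast]
      rw [this]
      exact mul_le_mul_of_nonneg_left (h2.trans h3) (by positivity)
    have h4 : (1 / (q : ℝ)) * (1 / (m : ℝ) ^ 2) + (1 / q) * ((|τ| * (1 / m)) * (1 / m)) =
        (1 / q) * ((1 + |τ|) / m ^ 2) := by
      field_simp
    have h5 : (1 + |τ|) / (m : ℝ) ^ 2 ≤ (1 + |τ|) / a ^ 2 := by gcongr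
    have h6 : (1 / (q : ℝ)) * ((1 + |τ|) / m ^ 2) ≤ 1 * ((1 + |τ|) / m ^ 2) := by
      apply mul_le_mul_of_nonneg_right _ (by positivity)
      rw [div_le_one hq0]
      exact hq1
    linarith
  refine (norm_sum_le _ _).trans ((sum_le_sum hterm).trans ?_)
  rw [sum_const, Nat.card_Ico, nsmul_eq_mul]
  have h6 : ((b - a : ℕ) : ℝ) ≤ 2 * a := by
    have : b - a ≤ 2 * a := by omega
    exact_mod_cast this
  have h7 : 0 ≤ (1 + |τ|) / (a : ℝ) ^ 2 := by positivity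
  refine (mul_le_mul_of_nonneg_right h6 h7).trans (le_of_eq ?_)
  field_simp

theorem phase_q (M q : ℕ) (hq : 1 ≤ q) : ∃ η C : ℝ, 0 < η ∧ η ≤ 1 / 2 ∧ 0 < C ∧
    ∀ (a b c : ℕ) (τ : ℝ), 1 ≤ a → a ≤ b → b ≤ 3 * a → c < q → |τ| ≤ (a : ℝ) ^ M →
    ‖(∑ m ∈ Ico a b, er τ (Real.log ((q : ℝ) * m + c)) / ((q : ℂ) * m + c)) -
      (1 / (q : ℂ)) * ∫ s in (Real.log ((q : ℝ) * a))..(Real.log ((q : ℝ) * b)), er τ s‖ ≤
      C * (a : ℝ) ^ (-η) := by
  obtain ⟨η₁, C₁, hη₁, hC₁, hblock⟩ := phasq_block M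
  have hpi := Real.pi_pos
  refine ⟨min η₁ (1 / 2), 2 * C₁ + 2 * (1 + 4 * Real.pi) + 1, by positivity, min_le_right _ _,
    by positivity, ?_⟩
  intro a b c τ ha hab hb hcq hτ
  have hq0 : (0 : ℝ) < q := by exact_mod_cast hq
  have hq1 : (1 : ℝ) ≤ q := by exact_mod_cast hq
  have ha' : (1 : ℝ) ≤ a := by exact_mod_cast ha
  have ha0 : (0 : ℝ) < a := by linarith
  have hc' : (c : ℝ) ≤ q := by exact_mod_cast hcq.le
  set η := min η₁ (1 / 2) with hη
  have hpow1 : (a : ℝ) ^ (-η₁) ≤ (a : ℝ) ^ (-η) :=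
    Real.rpow_le_rpow_of_exponent_le ha' (by rw [hη]; linarith [min_le_left η₁ (1 / 2)])
  have hpow2 : (a : ℝ) ^ (-(1 / 2) : ℝ) ≤ (a : ℝ) ^ (-η) :=
    Real.rpow_le_rpow_of_exponent_le ha' (by rw [hη]; linarith [min_le_right η₁ (1 / 2)])
  have hpos : 0 < (a : ℝ) ^ (-η) := by positivity
  have hpos2 : 0 < (a : ℝ) ^ (-(1 / 2) : ℝ) := by positivity
  by_cases hc : |τ| ≤ 4 * Real.pi * (a : ℝ) ^ (1 / 2 : ℝ)
  · refine (phasq_small q a b c τ hq ha hab hb hcq).trans ?_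
    have h1 : (1 : ℝ) ≤ (a : ℝ) ^ (1 / 2 : ℝ) := Real.one_le_rpow ha' (by norm_num)
    have h2 : 1 + |τ| ≤ (1 + 4 * Real.pi) * (a : ℝ) ^ (1 / 2 : ℝ) := by nlinarith
    have h3 : (a : ℝ) ^ (1 / 2 : ℝ) / a = (a : ℝ) ^ (-(1 / 2) : ℝ) := by
      rw [show (-(1 / 2) : ℝ) = 1 / 2 - 1 by norm_num, Real.rpow_sub ha0, Real.rpow_one]
    calc 2 * (1 + |τ|) / a ≤ 2 * ((1 + 4 * Real.pi) * (a : ℝ) ^ (1 / 2 : ℝ)) / a := by gcongr
      _ = 2 * (1 + 4 * Real.pi) * ((a : ℝ) ^ (1 / 2 : ℝ) / a) := by ring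
      _ = 2 * (1 + 4 * Real.pi) * (a : ℝ) ^ (-(1 / 2) : ℝ) := by rw [h3]
      _ ≤ 2 * (1 + 4 * Real.pi) * (a : ℝ) ^ (-η) := by gcongr
      _ ≤ _ := by
        apply mul_le_mul_of_nonneg_right _ hpos.le
        linarith
  · push Not at hc
    have hτ0 : τ ≠ 0 := by
      rintro rfl
      rw [abs_zero] at hc
      have : 0 < 4 * Real.pi * (a : ℝ) ^ (1 / 2 : ℝ) := by positivity
      linarith
    have hnq : ‖(1 / (q : ℂ))‖ ≤ 1 := by
      rw [norm_div, norm_one, Complex.norm_natCast, div_le_one hq0]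
      exact hq1
    -- integral
    have hI : ‖(1 / (q : ℂ)) * ∫ s in (Real.log ((q : ℝ) * a))..(Real.log ((q : ℝ) * b)), er τ s‖ ≤
        (a : ℝ) ^ (-(1 / 2) : ℝ) := by
      rw [norm_mul]
      refine (mul_le_of_le_one_left (norm_nonneg _) hnq).trans ?_
      refine (phas_integral_er τ _ _ hτ0).trans ?_
      have h1 : 2 / |τ| ≤ 2 / (4 * Real.pi * (a : ℝ) ^ (1 / 2 : ℝ)) := by
        gcongr
      refine h1.trans ?_
      rw [Real.rpow_neg ha0.le, div_le_iff₀ (by positivity)]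
      have h2 : ((a : ℝ) ^ (1 / 2 : ℝ))⁻¹ * (4 * Real.pi * (a : ℝ) ^ (1 / 2 : ℝ)) = 4 * Real.pi := by
        field_simp
      rw [h2]
      linarith [Real.pi_gt_three]
    -- sum
    have hS : ‖∑ m ∈ Ico a b, er τ (Real.log ((q : ℝ) * m + c)) / ((q : ℂ) * m + c)‖ ≤
        2 * C₁ * (a : ℝ) ^ (-η₁) := by
      have hθ0 : (0 : ℝ) ≤ (c : ℝ) / q := by positivity
      have hθ1 : (c : ℝ) / q ≤ 1 := by
        rw [div_le_one hq0]
        exact hc'
      have hshift : ∀ x y : ℕ, 1 ≤ x → x ≤ y →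
          ‖∑ m ∈ Ico x y, er τ (Real.log ((q : ℝ) * m + c)) / ((q : ℂ) * m + c)‖ ≤
          ‖∑ n ∈ range (y - x), er τ (Real.log ((x : ℝ) + (c : ℝ) / q + n)) /
            ((((x : ℝ) + (c : ℝ) / q + n : ℝ)) : ℂ)‖ := by
        intro x y hx hxy
        rw [sum_Ico_eq_sum_range]
        have h1 : ∑ k ∈ range (y - x), er τ (Real.log ((q : ℝ) * ((x + k : ℕ) : ℝ) + c)) /
            ((q : ℂ) * ((x + k : ℕ) : ℂ) + c) = (er τ (Real.log q) / (q : ℂ)) *
            ∑ n ∈ range (y - x), er τ (Real.log ((x : ℝ) + (c : ℝ) / q + n)) /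
            ((((x : ℝ) + (c : ℝ) / q + n : ℝ)) : ℂ) := by
          rw [mul_sum]
          refine sum_congr rfl fun n _ => ?_
          rw [phasq_term q (x + n) c τ hq (by omega)]
          have h2 : (((x + n : ℕ) : ℝ) + (c : ℝ) / q : ℝ) = (x : ℝ) + (c : ℝ) / q + n := by
            push_cast
            ring
          rw [h2]
        rw [h1, norm_mul]
        apply mul_le_of_le_one_left (norm_nonneg _)
        rw [norm_div, phas_norm_er, Complex.norm_natCast, div_le_one hq0]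
        exact hq1
      have hsq : (a : ℝ) ^ (1 / 2 : ℝ) ≤ ((2 * a : ℕ) : ℝ) ^ (1 / 2 : ℝ) := by
        apply Real.rpow_le_rpow ha0.le _ (by norm_num)
        push_cast
        linarith
      have hsq2 : ((2 * a : ℕ) : ℝ) ^ (1 / 2 : ℝ) ≤ 2 * (a : ℝ) ^ (1 / 2 : ℝ) := by
        push_cast
        rw [Real.mul_rpow (by norm_num) ha0.le]
        apply mul_le_mul_of_nonneg_right _ (by positivity)
        calc (2 : ℝ) ^ (1 / 2 : ℝ) ≤ (2 : ℝ) ^ (1 : ℝ) :=
              Real.rpow_le_rpow_of_exponent_le (by norm_num) (by norm_num)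
          _ = 2 := by norm_num
      rcases le_or_gt b (2 * a) with h2a | h2a
      · refine (hshift a b ha hab).trans ?_
        have h1 := hblock a (b - a) ((c : ℝ) / q) τ ha hθ0 hθ1 (by omega) (by nlinarith) hτ
        refine h1.trans ?_
        have : 0 ≤ C₁ * (a : ℝ) ^ (-η₁) := by positivity
        linarith
      · rw [← sum_Ico_consecutive _ (show a ≤ 2 * a by omega) h2a.le]
        have h1 := hblock a (2 * a - a) ((c : ℝ) / q) τ ha hθ0 hθ1 (by omega) (by nlinarith) hτ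
        have h2 := hblock (2 * a) (b - 2 * a) ((c : ℝ) / q) τ (by omega) hθ0 hθ1 (by omega)
          (by nlinarith) (hτ.trans (pow_le_pow_left₀ ha0.le (by push_cast; linarith) M))
        refine (norm_add_le _ _).trans ?_
        have h3 := hshift a (2 * a) ha (by omega)
        have h4 := hshift (2 * a) b (by omega) h2a.le
        have h5 : ((2 * a : ℕ) : ℝ) ^ (-η₁) ≤ (a : ℝ) ^ (-η₁) := by
          apply Real.rpow_le_rpow_of_nonpos ha0 _ (by linarith)
          push_cast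
          linarith
        have h6 : C₁ * ((2 * a : ℕ) : ℝ) ^ (-η₁) ≤ C₁ * (a : ℝ) ^ (-η₁) :=
          mul_le_mul_of_nonneg_left h5 hC₁.le
        linarith
    refine (norm_sub_le _ _).trans ?_
    have h3 : 2 * C₁ * (a : ℝ) ^ (-η₁) ≤ 2 * C₁ * (a : ℝ) ^ (-η) := by gcongr
    have h4 : 0 ≤ 2 * (1 + 4 * Real.pi) * (a : ℝ) ^ (-η) := by positivity
    have h5 : (2 * C₁ + 2 * (1 + 4 * Real.pi) + 1) * (a : ℝ) ^ (-η) =
        2 * C₁ * (a : ℝ) ^ (-η) + 2 * (1 + 4 * Real.pi) * (a : ℝ) ^ (-η) + (a : ℝ) ^ (-η) := by ring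
    rw [h5]
    linarith

end Pool.Agent.H376R2.TT
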