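import Pool.Agent.H376R2.TT.Defs
import Pool.Agent.H376R2.TT.Mrap

/-!
Project TT (helper376), task RAT: local exponential sums of the Liouville function at rational
points are small in mean square.
-/

set_option autoImplicit false

namespace Pool.Agent.H376R2.TT

open Finset Filter Pool.Agent.H376R2.MR

theorem rat_norm_er (t x : ℝ) : ‖er t x‖ = 1 := by
  unfold er
  exact Complex.norm_exp_ofReal_mul_I _

/-- `e(cx/r)` is `r`-periodic -/
theorem rat_er_per (c : ℤ) (r : ℕ) (hr : 1 ≤ r) (x : ℝ) (m : ℤ) :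
    er (2 * Real.pi * ((c : ℝ) / r)) (x + r * m) = er (2 * Real.pi * ((c : ℝ) / r)) x := by
  have hr0 : (r : ℝ) ≠ 0 := by positivity
  unfold er
  rw [Complex.exp_eq_exp_iff_exists_int]
  refine ⟨c * m, ?_⟩
  have h : (2 * Real.pi * ((c : ℝ) / r)) * (x + r * m) =
      (2 * Real.pi * ((c : ℝ) / r)) * x + (c * m) * (2 * Real.pi) := by
    field_simp
  rw [h]
  push_cast
  ring

/-- decomposition over residue classes -/
theorem rat_point (c : ℤ) (r : ℕ) (hr : 1 ≤ r) (n j : ℕ) :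
    (lam (n + j) : ℂ) * er (2 * Real.pi * ((c : ℝ) / r)) j =
      ∑ a ∈ range r, er (2 * Real.pi * ((c : ℝ) / r)) ((a : ℝ) - n) *
        ((lamq r a (n + j) : ℝ) : ℂ) := by
  have hr0 : 0 < r := hr
  have hmem : (n + j) % r ∈ range r := mem_range.2 (Nat.mod_lt _ hr0)
  rw [Finset.sum_eq_single_of_mem _ hmem]
  · have h1 : lamq r ((n + j) % r) (n + j) = (lam (n + j) : ℝ) := by
      unfold lamq
      rw [if_pos]
      rw [Nat.mod_mod]
    rw [h1]
    have h3' : (n + j) % r + r * ((n + j) / r) = n + j := Nat.mod_add_div _ _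
    generalize (n + j) / r = d at h3'
    generalize (n + j) % r = e at h3'
    have h2 : (j : ℝ) = ((e : ℝ) - n) + r * ((d : ℤ) : ℝ) := by
      have h3 : ((e + r * d : ℕ) : ℝ) = ((n + j : ℕ) : ℝ) := by
        rw [h3']
      push_cast at h3 ⊢
      linarith
    have h4 : er (2 * Real.pi * ((c : ℝ) / r)) (j : ℝ) =
        er (2 * Real.pi * ((c : ℝ) / r)) ((e : ℝ) - n) := by
      conv_lhs => rw [h2]
      exact rat_er_per c r hr _ _
    rw [h4]
    push_cast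
    ring
  · intro b hb hne
    have h1 : lamq r b (n + j) = 0 := by
      unfold lamq
      rw [if_neg]
      intro h
      rw [Nat.mod_eq_of_lt (mem_range.1 hb)] at h
      exact hne h.symm
    rw [h1]
    simp

theorem rat_sum (c : ℤ) (r : ℕ) (hr : 1 ≤ r) (n H : ℕ) :
    ‖∑ j ∈ range H, (lam (n + j) : ℂ) * er (2 * Real.pi * ((c : ℝ) / r)) j‖ ^ 2 ≤
      r * ∑ a ∈ range r, (∑ j ∈ range H, lamq r a (n + j)) ^ 2 := by
  have h1 : ∑ j ∈ range H, (lam (n + j) : ℂ) * er (2 * Real.pi * ((c : ℝ) / r)) j =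
      ∑ a ∈ range r, er (2 * Real.pi * ((c : ℝ) / r)) ((a : ℝ) - n) *
        ((∑ j ∈ range H, lamq r a (n + j) : ℝ) : ℂ) := by
    rw [Finset.sum_congr rfl (fun j _ => rat_point c r hr n j), Finset.sum_comm]
    refine Finset.sum_congr rfl (fun a _ => ?_)
    rw [← Finset.mul_sum]
    push_cast
    rfl
  rw [h1]
  have h2 : ‖∑ a ∈ range r, er (2 * Real.pi * ((c : ℝ) / r)) ((a : ℝ) - n) *
        ((∑ j ∈ range H, lamq r a (n + j) : ℝ) : ℂ)‖ ≤
      ∑ a ∈ range r, |∑ j ∈ range H, lamq r a (n + j)| := by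
    refine (norm_sum_le _ _).trans (Finset.sum_le_sum (fun a _ => ?_))
    rw [norm_mul, rat_norm_er, one_mul, Complex.norm_real, Real.norm_eq_abs]
  have h3 : (∑ a ∈ range r, |∑ j ∈ range H, lamq r a (n + j)|) ^ 2 ≤
      r * ∑ a ∈ range r, (∑ j ∈ range H, lamq r a (n + j)) ^ 2 := by
    have h := sq_sum_le_card_mul_sum_sq (s := range r)
      (f := fun a => |∑ j ∈ range H, lamq r a (n + j)|)
    simpa [sq_abs] using h
  refine le_trans ?_ h3
  gcongr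

theorem pw_rat (c : ℤ) (r : ℕ) (hr : 1 ≤ r) : PW ((c : ℝ) / r) := by
  intro ε hε
  have hrp : (0 : ℝ) < r := by exact_mod_cast hr
  have hε' : 0 < ε / (r : ℝ) ^ 2 := by positivity
  choose H₁ hH₁ using fun a : ℕ => mrap r a hr (ε / (r : ℝ) ^ 2) hε'
  refine ⟨(range r).sup H₁, fun H hH => ?_⟩
  have hHa : ∀ a ∈ range r, ∃ N₀ : ℕ, ∀ N : ℕ, N₀ ≤ N →
      ∑ n ∈ Icc 1 N, (∑ j ∈ range H, lamq r a (n + j)) ^ 2 ≤
        ε / (r : ℝ) ^ 2 * (H : ℝ) ^ 2 * N := fun a ha =>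
    hH₁ a H ((Finset.le_sup (f := H₁) ha).trans hH)
  have hHa' : ∀ a : ℕ, ∃ N₀ : ℕ, a ∈ range r → ∀ N : ℕ, N₀ ≤ N →
      ∑ n ∈ Icc 1 N, (∑ j ∈ range H, lamq r a (n + j)) ^ 2 ≤
        ε / (r : ℝ) ^ 2 * (H : ℝ) ^ 2 * N := by
    intro a
    by_cases ha : a ∈ range r
    · obtain ⟨N₀, h⟩ := hHa a ha
      exact ⟨N₀, fun _ => h⟩
    · exact ⟨0, fun h => absurd h ha⟩
  choose N₁ hN₁ using hHa'
  refine ⟨(range r).sup N₁, fun N hN => ?_⟩
  calc ∑ n ∈ Icc 1 N, ‖∑ j ∈ range H, (lam (n + j) : ℂ) *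
          er (2 * Real.pi * ((c : ℝ) / r)) j‖ ^ 2
      ≤ ∑ n ∈ Icc 1 N, r * ∑ a ∈ range r, (∑ j ∈ range H, lamq r a (n + j)) ^ 2 :=
        Finset.sum_le_sum (fun n _ => rat_sum c r hr n H)
    _ = r * ∑ a ∈ range r, ∑ n ∈ Icc 1 N, (∑ j ∈ range H, lamq r a (n + j)) ^ 2 := by
        rw [← Finset.mul_sum, Finset.sum_comm]
    _ ≤ r * ∑ a ∈ range r, ε / (r : ℝ) ^ 2 * (H : ℝ) ^ 2 * N := by
        refine mul_le_mul_of_nonneg_left (Finset.sum_le_sum (fun a ha => ?_)) hrp.le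
        exact hN₁ a ha N ((Finset.le_sup (f := N₁) ha).trans hN)
    _ = ε * (H : ℝ) ^ 2 * N := by
        rw [Finset.sum_const, card_range, nsmul_eq_mul]
        field_simp

end Pool.Agent.H376R2.TT
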