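import Pool.Agent.H376R2.TT.Defs
import Pool.Agent.H376R2.Sieve

/-!
Project TT, task REL: relation between the product `PF` and the two-point products of the
Liouville function.
-/

set_option autoImplicit false

namespace Pool.Agent.H376R2.TT

open Finset Filter Pool.Agent.H376R2.MR

lemma rel_mu (n : ℕ) (hn : Squarefree n) : ArithmeticFunction.moebius n = lam n := by
  rw [ArithmeticFunction.moebius_apply_of_squarefree hn]
  rfl

lemma rel_lam_pm (n : ℕ) : lam n = 1 ∨ lam n = -1 := by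
  unfold lam
  exact neg_one_pow_eq_or ℤ _

lemma rel_prod_pm {ι : Type*} (s : Finset ι) (f : ι → ℤ) (h : ∀ i ∈ s, f i = 1 ∨ f i = -1) :
    ∏ i ∈ s, f i = 1 ∨ ∏ i ∈ s, f i = -1 := by
  classical
  induction s using Finset.induction_on with
  | empty => simp
  | insert a s ha ih =>
    rw [prod_insert ha]
    have h1 := h a (mem_insert_self _ _)
    have h2 := ih fun i hi => h i (mem_insert_of_mem hi)
    rcases h1 with h1 | h1 <;> rcases h2 with h2 | h2 <;> simp [h1, h2]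

lemma rel_PF {r s : ℕ} (a b : Fin r → ℕ) (c d : Fin s → ℕ) (n : ℕ)
    (h1 : ∀ i, Squarefree (a i * n + b i)) (h2 : ∀ j, Squarefree (c j * n + d j)) :
    PF a b c d n = ∏ i, lam (a i * n + b i) ∧
      (∏ i, lam (a i * n + b i) = 1 ∨ ∏ i, lam (a i * n + b i) = -1) := by
  refine ⟨?_, rel_prod_pm _ _ fun i _ => rel_lam_pm _⟩
  unfold PF
  have e1 : ∏ j, ArithmeticFunction.moebius (c j * n + d j) ^ 2 = 1 := by
    refine prod_eq_one fun j _ => ?_
    rw [rel_mu _ (h2 j)]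
    rcases rel_lam_pm (c j * n + d j) with h | h <;> simp [h]
  rw [e1, mul_one]
  exact prod_congr rfl fun i _ => rel_mu _ (h1 i)

/-- a squarefree number divides what all its prime divisors divide -/
lemma rel_sqf_dvd (D n : ℕ) (hD : Squarefree D) (h : ∀ p : ℕ, p.Prime → p ∣ D → p ∣ n) :
    D ∣ n := by
  have h1 := Nat.prod_primeFactors_of_squarefree hD
  rw [← h1]
  refine Finset.prod_primes_dvd n ?_ ?_
  · intro p hp
    exact (Nat.prime_of_mem_primeFactors hp).prime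
  · intro p hp
    exact h p (Nat.prime_of_mem_primeFactors hp) (Nat.dvd_of_mem_primeFactors hp)

/-- the modulus -/
def relQ (w : ℕ) : ℕ := ∏ p ∈ (range (w + 1)).filter Nat.Prime, p ^ 3

lemma relQ_pos (w : ℕ) : 1 ≤ relQ w := by
  refine Nat.one_le_iff_ne_zero.2 (prod_ne_zero_iff.2 fun p hp => ?_)
  exact pow_ne_zero _ (mem_filter.1 hp).2.ne_zero

lemma dvd_relQ (w p : ℕ) (hp : p.Prime) (h : p ≤ w) : p ^ 3 ∣ relQ w :=
  dvd_prod_of_mem (fun p => p ^ 3) (mem_filter.2 ⟨mem_range.2 (by omega), hp⟩)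

lemma le_of_dvd_relQ (w p : ℕ) (hp : p.Prime) (h : p ∣ relQ w) : p ≤ w := by
  obtain ⟨q, hq, hpq⟩ := (hp.prime.dvd_finsetProd_iff _).1 h
  rw [mem_filter, mem_range] at hq
  have h1 := hp.dvd_of_dvd_pow hpq
  have h2 := (Nat.prime_dvd_prime_iff_eq hp hq.2).1 h1
  omega

lemma rel_crt (w : ℕ) (x : ℕ → ℤ) : ∃ k : ℕ, ∀ p : ℕ, p.Prime → p ≤ w →
    (k : ℤ) ≡ x p [ZMOD (p : ℤ) ^ 3] := by
  classical
  have hpp : Set.Pairwise (↑((range (w + 1)).filter Nat.Prime) : Set ℕ)
      (Function.onFun Nat.Coprime fun p => p ^ 3) := by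
    intro p hp q hq hpq
    simp only [coe_filter, Set.mem_ofPred_eq] at hp hq
    exact Nat.Coprime.pow 3 3 ((Nat.coprime_primes hp.2 hq.2).2 hpq)
  obtain ⟨k, hk⟩ := Nat.chineseRemainderOfFinset (fun p => (x p % ((p : ℤ) ^ 3)).toNat)
    (fun p => p ^ 3) ((range (w + 1)).filter Nat.Prime)
    (fun p hp => pow_ne_zero _ (mem_filter.1 hp).2.ne_zero) hpp
  refine ⟨k, fun p hp hpw => ?_⟩
  have h1 := hk p (mem_filter.2 ⟨mem_range.2 (by omega), hp⟩)
  have h2 := Int.natCast_modEq_iff.2 h1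
  have hp0 : ((p : ℤ) ^ 3) ≠ 0 := pow_ne_zero _ (by exact_mod_cast hp.ne_zero)
  have h3 : (((x p % ((p : ℤ) ^ 3)).toNat : ℕ) : ℤ) = x p % ((p : ℤ) ^ 3) :=
    Int.toNat_of_nonneg (Int.emod_nonneg _ hp0)
  rw [h3] at h2
  push_cast at h2
  exact h2.trans (Int.mod_modEq _ _)

/-- the data after the choice of the residue classes -/
lemma rel_data {r s : ℕ} (a b : Fin (r + 1) → ℕ) (c d : Fin s → ℕ) (F : Cfg r s a b c d)
    (w : ℕ) (hw : ∀ l, F.D l ≤ w) : ∃ (X : ℕ) (n e : Fin F.m → ℕ), 1 ≤ X ∧ (∀ l, 1 ≤ n l) ∧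
      (∀ l, 1 ≤ e l) ∧ (∀ l, e l ∣ relQ w) ∧
      (∀ l, ∀ u : ℕ, (F.D l : ℤ) * (e l * u + n l : ℕ) = ((relQ w * u + X : ℕ) : ℤ) + F.h l) ∧
      ∀ p : ℕ, p.Prime → p ≤ w → ∀ (l) (u : ℕ),
        (∀ i, ¬ p ^ 2 ∣ a i * (e l * u + n l) + b i) ∧
        ∀ j, ¬ p ^ 2 ∣ c j * (e l * u + n l) + d j := by
  classical
  have hx : ∀ p : ℕ, ∃ x : ℤ, p.Prime → ∀ X : ℤ, X ≡ x [ZMOD (p : ℤ) ^ 3] →
    (∀ l, p ∣ F.D l → (p : ℤ) ∣ X + F.h l) ∧
    ∀ (l) (n : ℤ), (F.D l : ℤ) * n = X + F.h l →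
      (∀ i, ¬ (p : ℤ) ^ 2 ∣ a i * n + b i) ∧ ∀ j, ¬ (p : ℤ) ^ 2 ∣ c j * n + d j := by
    intro p
    by_cases hp : p.Prime
    · obtain ⟨x, hx⟩ := F.loc p hp
      exact ⟨x, fun _ => hx⟩
    · exact ⟨0, fun h => absurd h hp⟩
  choose x hx using hx
  obtain ⟨k, hk⟩ := rel_crt w x
  set T : ℕ := 1 + ∑ l, (F.D l + (F.h l).natAbs) with hT
  set X : ℕ := k + relQ w * T with hX
  have hTl : ∀ l, F.D l + (F.h l).natAbs + 1 ≤ T := by
    intro l
    have := single_le_sum (f := fun l => F.D l + (F.h l).natAbs) (fun _ _ => Nat.zero_le _)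
      (mem_univ l)
    omega
  have hXT : T ≤ X := by
    have := Nat.le_mul_of_pos_left T (relQ_pos w)
    omega
  have hXmod : ∀ p : ℕ, p.Prime → p ≤ w → ∀ u : ℕ,
      ((relQ w * u + X : ℕ) : ℤ) ≡ x p [ZMOD (p : ℤ) ^ 3] := by
    intro p hp hpw u
    refine Int.ModEq.trans ?_ (hk p hp hpw)
    have h1 : (p : ℤ) ^ 3 ∣ (relQ w : ℤ) := by exact_mod_cast dvd_relQ w p hp hpw
    refine Int.ModEq.symm ((Int.modEq_iff_dvd).2 ?_)
    have e : ((relQ w * u + X : ℕ) : ℤ) - (k : ℤ) = (relQ w : ℤ) * (u + T) := by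
      rw [hX]; push_cast; ring
    rw [e]
    exact Dvd.dvd.mul_right h1 _
  have hpos : ∀ l, (F.D l : ℤ) ≤ (X : ℤ) + F.h l := by
    intro l
    have h1 := hTl l
    have h2 : -((F.h l).natAbs : ℤ) ≤ F.h l := by omega
    omega
  have hdvd : ∀ l, F.D l ∣ ((X : ℤ) + F.h l).toNat := by
    intro l
    refine rel_sqf_dvd _ _ (F.hD l).2 fun p hp hpD => ?_
    have hpw : p ≤ w := (Nat.le_of_dvd (F.hD l).1 hpD).trans (hw l)
    have h1 := (hx p hp _ (hXmod p hp hpw 0)).1 l hpD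
    have h2 : (((X : ℤ) + F.h l).toNat : ℤ) = (X : ℤ) + F.h l :=
      Int.toNat_of_nonneg (by have := hpos l; omega)
    rw [← Int.natCast_dvd_natCast, h2]
    simpa using h1
  have hDQ : ∀ l, F.D l ∣ relQ w := by
    intro l
    refine rel_sqf_dvd _ _ (F.hD l).2 fun p hp hpD => ?_
    have hpw : p ≤ w := (Nat.le_of_dvd (F.hD l).1 hpD).trans (hw l)
    exact (dvd_pow_self p (by norm_num)).trans (dvd_relQ w p hp hpw)
  choose n hn using hdvd
  choose e he using hDQ
  have hne : ∀ l, (F.D l : ℤ) * n l = (X : ℤ) + F.h l := by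
    intro l
    have h2 : (((X : ℤ) + F.h l).toNat : ℤ) = (X : ℤ) + F.h l :=
      Int.toNat_of_nonneg (by have := hpos l; omega)
    rw [← h2, hn l]; push_cast; ring
  have hall : ∀ l, ∀ u : ℕ,
      (F.D l : ℤ) * (e l * u + n l : ℕ) = ((relQ w * u + X : ℕ) : ℤ) + F.h l := by
    intro l u
    have h1 := hne l
    have h2 : (relQ w : ℤ) = F.D l * e l := by rw [he l]; push_cast; ring
    push_cast
    rw [h2]
    linear_combination h1
  refine ⟨X, n, e, by omega, ?_, ?_, ?_, hall, ?_⟩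
  · intro l
    rcases Nat.eq_zero_or_pos (n l) with h | h
    · have h1 := hne l
      have h2 := hpos l
      have h3 := (F.hD l).1
      rw [h] at h1
      simp at h1
      omega
    · exact h
  · intro l
    rcases Nat.eq_zero_or_pos (e l) with h | h
    · have h1 := he l
      rw [h] at h1
      have := relQ_pos w
      omega
    · exact h
  · intro l
    exact ⟨F.D l, by rw [he l]; ring⟩
  · intro p hp hpw l u
    obtain ⟨-, h2⟩ := hx p hp _ (hXmod p hp hpw u)
    obtain ⟨h3, h4⟩ := h2 l _ (hall l u)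
    refine ⟨fun i hi => h3 i ?_, fun j hj => h4 j ?_⟩
    · exact_mod_cast hi
    · exact_mod_cast hj

lemma rel_arith1 (S w U B K sq NQ ε : ℝ) (hS0 : 0 ≤ S) (hw : 1 ≤ w) (hSw : S / w ≤ ε)
    (hU : U ≤ NQ + 1) (hNQ : 0 ≤ NQ) (hB : B ≤ 2 * K * sq) :
    S * (U / w + B) ≤ ε * NQ + S + 2 * S * K * sq := by
  have e1 : S * (U / w + B) = (S / w) * U + S * B := by ring
  rw [e1]
  have e2 : (S / w) * U ≤ (S / w) * (NQ + 1) :=
    mul_le_mul_of_nonneg_left hU (by positivity)
  have e3 : (S / w) * NQ ≤ ε * NQ := mul_le_mul_of_nonneg_right hSw hNQ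
  have e4 : S / w ≤ S := div_le_self hS0 hw
  have e5 : S * B ≤ S * (2 * K * sq) := mul_le_mul_of_nonneg_left hB hS0
  have e7 : (S / w) * (NQ + 1) = (S / w) * NQ + S / w := by ring
  have e8 : S * (2 * K * sq) = 2 * S * K * sq := by ring
  linarith

lemma rel_arith2 (ρ S K m n Z sq C : ℝ) (h1 : 0 ≤ ρ) (h2 : 0 ≤ S) (h3 : 0 ≤ K) (h4 : 0 ≤ m)
    (h5 : 0 ≤ n) (hZ : 0 ≤ Z) (hsq : 1 ≤ sq) (hC : C = ρ + S + 2 * S * K + m + n) :
    ρ + S + 2 * S * K * sq + m * Z ≤ C * sq + C * Z := by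
  have e1 : C * sq = ρ * sq + S * sq + 2 * S * K * sq + m * sq + n * sq := by rw [hC]; ring
  have e2 : C * Z = (ρ + S + 2 * S * K + n) * Z + m * Z := by rw [hC]; ring
  have e3 : ρ * 1 ≤ ρ * sq := mul_le_mul_of_nonneg_left hsq h1
  have e4 : S * 1 ≤ S * sq := mul_le_mul_of_nonneg_left hsq h2
  have e5 : 0 ≤ m * sq := mul_nonneg h4 (by linarith)
  have e6 : 0 ≤ n * sq := mul_nonneg h5 (by linarith)
  have e7 : 0 ≤ (ρ + S + 2 * S * K + n) * Z := mul_nonneg (by positivity) hZ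
  linarith

theorem rel {r s : ℕ} (a b : Fin (r + 1) → ℕ) (c d : Fin s → ℕ) (ha : ∀ i, 1 ≤ a i) (hc : ∀ j, 1 ≤ c j)
    (F : Cfg r s a b c d) : ∃ (M : ℕ) (κ : ℤ), 1 ≤ M ∧ (κ = 1 ∨ κ = -1) ∧ ∀ ε : ℝ, 0 < ε →
      ∃ (q ρ C : ℕ), 1 ≤ q ∧ ∀ σ : ℤ, (σ = 1 ∨ σ = -1) → ∀ N : ℕ, 1 ≤ N →
        (((Icc 1 N).filter (fun z => z % q = ρ % q ∧ lam z * lam (z + M) ≠ κ)).card : ℝ) ≤
          ε * N / q + C * Real.sqrt N +
            C * (((Icc 1 (N + C)).filter (fun n => PF a b c d n = -σ)).card : ℝ) := by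
  classical
  refine ⟨F.M, F.κ, F.hM, F.hκ, fun ε hε => ?_⟩
  -- the number of forms
  set S : ℕ := Fintype.card (Fin F.m × (Fin (r + 1) ⊕ Fin s)) with hS
  obtain ⟨v, hv⟩ := exists_nat_gt ((S : ℝ) / ε)
  set w : ℕ := 1 + v + ∑ i, a i + ∑ j, c j + ∑ l, F.D l with hw
  have hw1 : 1 ≤ w := by omega
  have haw : ∀ i, a i ≤ w := by
    intro i
    have := single_le_sum (f := a) (fun _ _ => Nat.zero_le _) (mem_univ i)
    omega
  have hcw : ∀ j, c j ≤ w := by
    intro j
    have := single_le_sum (f := c) (fun _ _ => Nat.zero_le _) (mem_univ j)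
    omega
  have hDw : ∀ l, F.D l ≤ w := by
    intro l
    have := single_le_sum (f := F.D) (fun _ _ => Nat.zero_le _) (mem_univ l)
    omega
  have hSw : (S : ℝ) / w ≤ ε := by
    have h1 : (S : ℝ) / ε < w := hv.trans_le (by exact_mod_cast (by omega : v ≤ w))
    have hwpos : (0 : ℝ) < w := by exact_mod_cast hw1
    rw [div_le_iff₀ hwpos]
    rw [div_lt_iff₀ hε] at h1
    linarith
  obtain ⟨X, n, e, hX, hn, he, heQ, hident, hloc⟩ := rel_data a b c d F w hDw
  set Q := relQ w with hQ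
  have hQ1 : 1 ≤ Q := relQ_pos w
  set q : ℕ := a 0 * Q with hq
  have hq1 : 1 ≤ q := Nat.mul_pos (ha 0) hQ1
  set ρ : ℕ := a 0 * X + b 0 with hρ
  -- the forms
  let α : Fin F.m × (Fin (r + 1) ⊕ Fin s) → ℕ := fun t => match t.2 with
    | .inl i => a i * e t.1
    | .inr j => c j * e t.1
  let β : Fin F.m × (Fin (r + 1) ⊕ Fin s) → ℕ := fun t => match t.2 with
    | .inl i => a i * n t.1 + b i
    | .inr j => c j * n t.1 + d j
  have hαβ1 : ∀ l i u, α (l, .inl i) * u + β (l, .inl i) = a i * (e l * u + n l) + b i := by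
    intro l i u
    show a i * e l * u + (a i * n l + b i) = _
    ring
  have hαβ2 : ∀ l j u, α (l, .inr j) * u + β (l, .inr j) = c j * (e l * u + n l) + d j := by
    intro l j u
    show c j * e l * u + (c j * n l + d j) = _
    ring
  set K : ℕ := 1 + ∑ t, (α t + β t) with hK
  have hKt : ∀ t, α t + β t ≤ K := by
    intro t
    have := single_le_sum (f := fun t => α t + β t) (fun _ _ => Nat.zero_le _) (mem_univ t)
    omega
  set C : ℕ := ρ + S + 2 * S * K + F.m + ∑ l, n l with hC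
  have hnC : ∀ l, n l ≤ C := by
    intro l
    have := single_le_sum (f := n) (fun _ _ => Nat.zero_le _) (mem_univ l)
    omega
  refine ⟨q, ρ, C, hq1, fun σ hσ N hN => ?_⟩
  set U : ℕ := N / q + 1 with hU
  set B : ℕ := K * (Nat.sqrt N + 1) with hB
  have hUN : ∀ u < U, u ≤ N := by
    intro u hu
    have : N / q ≤ N := Nat.div_le_self _ _
    omega
  have hUq : ∀ u < U, q * u ≤ N := by
    intro u hu
    have h1 : u ≤ N / q := by omega
    calc q * u ≤ q * (N / q) := Nat.mul_le_mul_left _ h1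
      _ ≤ N := Nat.mul_div_le _ _
  have hsieve := sieve (univ : Finset (Fin F.m × (Fin (r + 1) ⊕ Fin s))) α β w U B hw1 (by
      rintro ⟨l, i | j⟩ -
      · show 1 ≤ a i * n l + b i
        have := Nat.mul_pos (ha i) (hn l)
        omega
      · show 1 ≤ c j * n l + d j
        have := Nat.mul_pos (hc j) (hn l)
        omega) (by
      rintro ⟨l, i | j⟩ - p hp hpw u
      · rw [hαβ1]
        have hpw' : p ≤ w := by
          rcases hpw with h | h
          · exact h
          · rcases (Nat.Prime.dvd_mul hp).1 (show p ∣ a i * e l from h) with h | h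
            · exact (Nat.le_of_dvd (ha i) h).trans (haw i)
            · exact le_of_dvd_relQ w p hp (h.trans (heQ l))
        exact (hloc p hp hpw' l u).1 i
      · rw [hαβ2]
        have hpw' : p ≤ w := by
          rcases hpw with h | h
          · exact h
          · rcases (Nat.Prime.dvd_mul hp).1 (show p ∣ c j * e l from h) with h | h
            · exact (Nat.le_of_dvd (hc j) h).trans (hcw j)
            · exact le_of_dvd_relQ w p hp (h.trans (heQ l))
        exact (hloc p hp hpw' l u).2 j) (by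
      intro t _ u hu
      have h1 := hUN u hu
      have h2 := hKt t
      have h3 : α t * u + β t ≤ (α t + β t) * N := by nlinarith
      have h4 : N ≤ (Nat.sqrt N + 1) ^ 2 := by
        have := Nat.lt_succ_sqrt N
        rw [pow_two]
        exact this.le
      have h5 : 1 ≤ K := by omega
      calc α t * u + β t ≤ K * N := h3.trans (Nat.mul_le_mul_right _ h2)
        _ ≤ K ^ 2 * (Nat.sqrt N + 1) ^ 2 := Nat.mul_le_mul (by nlinarith) h4
        _ = B ^ 2 := by rw [hB]; ring)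
  -- the inclusion
  set E1 : Finset ℕ := (range U).filter (fun u => ∃ i ∈ (univ : Finset (Fin F.m ×
    (Fin (r + 1) ⊕ Fin s))), ¬ Squarefree (α i * u + β i)) with hE1
  set E2 : Fin F.m → Finset ℕ := fun l =>
    (range U).filter (fun u => PF a b c d (e l * u + n l) = -σ) with hE2
  have hsub : (Icc 1 N).filter (fun z => z % q = ρ % q ∧ lam z * lam (z + F.M) ≠ F.κ) ⊆
      range ρ ∪ (E1 ∪ univ.biUnion E2).image (fun u => ρ + q * u) := by
    intro z hz
    rw [mem_filter, mem_Icc] at hz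
    obtain ⟨⟨hz1, hzN⟩, hzq, hzκ⟩ := hz
    rw [mem_union, mem_range]
    rcases lt_or_ge z ρ with h | h
    · exact Or.inl h
    right
    have hd : q ∣ z - ρ := (Nat.modEq_iff_dvd' h).1 hzq.symm
    obtain ⟨u, hu⟩ := hd
    have hzu : z = ρ + q * u := by omega
    rw [mem_image]
    refine ⟨u, ?_, hzu.symm⟩
    have huU : u < U := by
      have h1 : q * u ≤ N := by omega
      have h2 : u ≤ N / q := (Nat.le_div_iff_mul_le hq1).2 (by rw [mul_comm]; exact h1)
      omega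
    by_contra hcon
    rw [mem_union, not_or] at hcon
    obtain ⟨h1, h2⟩ := hcon
    have hsq : ∀ t, Squarefree (α t * u + β t) := by
      intro t
      by_contra ht
      exact h1 (mem_filter.2 ⟨mem_range.2 huU, t, mem_univ _, ht⟩)
    have hPF : ∀ l, ∏ i, lam (a i * (e l * u + n l) + b i) = σ := by
      intro l
      obtain ⟨h3, h4⟩ := rel_PF a b c d (e l * u + n l)
        (fun i => by rw [← hαβ1]; exact hsq (l, .inl i))
        (fun j => by rw [← hαβ2]; exact hsq (l, .inr j))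
      have h5 : PF a b c d (e l * u + n l) ≠ -σ := by
        intro h5
        exact h2 (mem_biUnion.2 ⟨l, mem_univ _, mem_filter.2 ⟨mem_range.2 huU, h5⟩⟩)
      rw [h3] at h5
      rcases h4 with h4 | h4 <;> rcases hσ with hσ | hσ <;> rw [h4, hσ] at h5 ⊢ <;> simp at h5
    have hid := F.ident (Q * u + X) (fun l => e l * u + n l) (by omega)
      (fun l => by have := hn l; omega) (fun l => hident l u)
    rw [prod_congr rfl (fun l _ => hPF l)] at hid
    rw [prod_const, card_univ, Fintype.card_fin] at hid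
    have h6 : σ ^ F.m = 1 := by
      rcases hσ with h | h <;> rw [h]
      · simp
      · exact F.hm.neg_one_pow
    rw [h6] at hid
    have h7 : a 0 * (Q * u + X) + b 0 = z := by
      rw [hzu, hρ, hq]; ring
    rw [h7] at hid
    apply hzκ
    rcases F.hκ with h | h
    · rw [h] at hid ⊢
      linarith
    · rw [h] at hid ⊢
      linarith
  have hcard : (((Icc 1 N).filter
      (fun z => z % q = ρ % q ∧ lam z * lam (z + F.M) ≠ F.κ)).card : ℝ) ≤
      ρ + ((E1.card : ℝ) + ∑ l, ((E2 l).card : ℝ)) := by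
    have h1 := card_le_card hsub
    have h2 : (range ρ ∪ (E1 ∪ univ.biUnion E2).image (fun u => ρ + q * u)).card ≤
        ρ + (E1.card + ∑ l, (E2 l).card) := by
      refine (card_union_le _ _).trans ?_
      rw [card_range]
      refine Nat.add_le_add_left ?_ _
      refine card_image_le.trans ((card_union_le _ _).trans ?_)
      exact Nat.add_le_add_left card_biUnion_le _
    have h3 := h1.trans h2
    exact_mod_cast h3
  have hE2c : ∀ l, ((E2 l).card : ℝ) ≤
      (((Icc 1 (N + C)).filter (fun n => PF a b c d n = -σ)).card : ℝ) := by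
    intro l
    have : (E2 l).card ≤ ((Icc 1 (N + C)).filter (fun n => PF a b c d n = -σ)).card := by
      refine card_le_card_of_injOn (fun u => e l * u + n l) ?_ ?_
      · intro u hu
        simp only [hE2, coe_filter, mem_range, Set.mem_ofPred_eq] at hu
        obtain ⟨hu1, hu2⟩ := hu
        simp only [coe_filter, mem_Icc, Set.mem_ofPred_eq]
        refine ⟨⟨?_, ?_⟩, hu2⟩
        · have := hn l; omega
        · have h1 := hUq u hu1
          have h2 : e l ≤ q := by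
            have h3 : e l ≤ Q := Nat.le_of_dvd hQ1 (heQ l)
            exact h3.trans (Nat.le_mul_of_pos_left _ (ha 0))
          have h3 : e l * u ≤ q * u := Nat.mul_le_mul_right _ h2
          have h4 := hnC l
          omega
      · intro u _ u' _ h
        simp only at h
        have h1 : e l * u = e l * u' := by omega
        exact Nat.eq_of_mul_eq_mul_left (he l) h1
    exact_mod_cast this
  set Z : ℝ := (((Icc 1 (N + C)).filter (fun n => PF a b c d n = -σ)).card : ℝ) with hZ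
  have hZ0 : 0 ≤ Z := by positivity
  have hsum : ∑ l, ((E2 l).card : ℝ) ≤ F.m * Z := by
    calc ∑ l, ((E2 l).card : ℝ) ≤ ∑ _l : Fin F.m, Z := sum_le_sum fun l _ => hE2c l
      _ = F.m * Z := by simp
  have hsq1 : (1 : ℝ) ≤ Real.sqrt N := by
    rw [show (1 : ℝ) = Real.sqrt 1 by simp]
    exact Real.sqrt_le_sqrt (by exact_mod_cast hN)
  have hBle : (B : ℝ) ≤ 2 * K * Real.sqrt N := by
    have h1 : ((Nat.sqrt N : ℕ) : ℝ) ≤ Real.sqrt N := Real.nat_sqrt_le_real_sqrt
    rw [hB]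
    push_cast
    have hK0 : (0 : ℝ) ≤ K := by positivity
    have h2 : (K : ℝ) * ((Nat.sqrt N : ℕ) + 1 : ℝ) ≤ K * (2 * Real.sqrt N) :=
      mul_le_mul_of_nonneg_left (by linarith) hK0
    linarith
  have hUle : (U : ℝ) ≤ N / q + 1 := by
    rw [hU]
    push_cast
    have := @Nat.cast_div_le ℝ _ _ _ N q
    linarith
  have hSc : ((univ : Finset (Fin F.m × (Fin (r + 1) ⊕ Fin s))).card : ℝ) = S := by
    rw [card_univ]
  rw [hSc] at hsieve
  have hmain : (E1.card : ℝ) ≤ ε * (N / q) + S + 2 * S * K * Real.sqrt N :=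
    hsieve.trans (rel_arith1 S w U B K (Real.sqrt N) (N / q) ε (Nat.cast_nonneg _)
      (by exact_mod_cast hw1) hSw hUle (div_nonneg (Nat.cast_nonneg _) (Nat.cast_nonneg _)) hBle)
  have hfin := rel_arith2 ρ S K F.m (∑ l, (n l : ℝ)) Z (Real.sqrt N) C (Nat.cast_nonneg _)
    (Nat.cast_nonneg _) (Nat.cast_nonneg _) (Nat.cast_nonneg _)
    (sum_nonneg fun _ _ => Nat.cast_nonneg _) hZ0 hsq1 (by rw [hC]; push_cast; ring)
  have e6 : ε * (N / q : ℝ) = ε * N / q := by ring
  rw [e6] at hmain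
  linarith

end Pool.Agent.H376R2.TT
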