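import Pool.Agent.H376R2.TT.ShortAux
import Pool.Agent.H376R2.TT.Jack

/-!
Project TT, task SHORT (helper174).
-/

set_option autoImplicit false

namespace Pool.Agent.H376R2.TT

open Finset Filter Pool.Agent.H376R2.MR

theorem short {g : ℕ → ℝ} (hb : ∀ n, |g n| ≤ 1)
    (he : ∀ η : ℝ, 0 < η → ∃ h : ℝ, 1 ≤ h ∧ ∃ Y₀ : ℝ, ∀ Y : ℝ, Y₀ ≤ Y →
      ∑ k ∈ FK ⌊Y / h⌋₊, ‖GGg g Y k‖ ^ 2 ≤ η) :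
    ∀ ε : ℝ, 0 < ε → ∃ H₀ : ℕ, ∀ H : ℕ, H₀ ≤ H → ∃ N₀ : ℕ, ∀ N : ℕ, N₀ ≤ N →
      ∑ n ∈ Icc 1 N, (∑ j ∈ range H, g (n + j)) ^ 2 ≤ ε * (H : ℝ) ^ 2 * N := by
  obtain ⟨C, hC, hJL⟩ := jack_local
  exact short_of hb jack_energy hC hJL he

end Pool.Agent.H376R2.TT
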