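import Pool.Agent.H376R2.TT.Defs

/-!
Project TT, task SHORT (helper174): short interval mean squares from the energy; the two facts on
the kernel `Fj K ^ 2` (task JACK) are hypotheses here.
-/

set_option autoImplicit false
set_option maxHeartbeats 4000000
set_option linter.unusedVariables false

namespace Pool.Agent.H376R2.TT

open Finset Filter Pool.Agent.H376R2.MR

/-- statement of `jack_energy` -/
def JackEnergy : Prop := ∀ (g : ℕ → ℝ) (Y : ℝ) (K : ℕ), 1 ≤ K →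
    ∫ x in (Real.log Y - Real.pi)..(Real.log Y + Real.pi), AJ g Y K x ^ 2 ≤
      2 * Real.pi * ∑ k ∈ FK (2 * K), ‖GGg g Y k‖ ^ 2

/-- statement of `jack_local` -/
def JackLocal (C : ℝ) : Prop := ∀ (g : ℕ → ℝ), (∀ n, |g n| ≤ 1) → ∀ (Y : ℝ) (K : ℕ) (x₁ x₂ : ℝ),
    3 ≤ Y → 1 ≤ K → (K : ℝ) ≤ Y → Real.log Y - 1 ≤ x₁ → x₁ ≤ x₂ → x₂ ≤ Real.log Y + 1 →
    |(∫ x in x₁..x₂, AJ g Y K x) -
      2 * Real.pi * ∑ n ∈ (WN Y).filter (fun n : ℕ => x₁ < Real.log n ∧ Real.log n ≤ x₂), g n * bw Y n| ≤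
      C / K

theorem short_Fj_cont (K : ℕ) : Continuous (Fj K) := by
  unfold Fj
  refine continuous_finsetSum _ fun k _ => ?_
  exact continuous_const.mul (Real.continuous_cos.comp (continuous_const.mul continuous_id))

theorem short_AJ_cont (g : ℕ → ℝ) (Y : ℝ) (K : ℕ) : Continuous (AJ g Y K) := by
  unfold AJ
  refine continuous_const.mul (continuous_finsetSum _ fun n _ => ?_)
  exact continuous_const.mul (((short_Fj_cont K).comp (continuous_id.sub continuous_const)).pow 2)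

/-- Cauchy-Schwarz -/
theorem short_cs {f : ℝ → ℝ} (hf : Continuous f) {a b : ℝ} (hab : a ≤ b) :
    (∫ x in a..b, f x) ^ 2 ≤ (b - a) * ∫ x in a..b, f x ^ 2 := by
  rcases eq_or_lt_of_le hab with rfl | hlt
  · simp
  · have hL : 0 < b - a := by linarith
    set I := ∫ x in a..b, f x with hI
    set c := I / (b - a) with hc
    have h0 : 0 ≤ ∫ x in a..b, (f x - c) ^ 2 :=
      intervalIntegral.integral_nonneg hab (fun x _ => sq_nonneg _)
    have i1 : IntervalIntegrable (fun x => f x ^ 2) MeasureTheory.volume a b :=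
      (hf.pow 2).intervalIntegrable a b
    have i2 : IntervalIntegrable (fun x => 2 * c * f x) MeasureTheory.volume a b :=
      (continuous_const.mul hf).intervalIntegrable a b
    have i3 : IntervalIntegrable (fun _ : ℝ => c ^ 2) MeasureTheory.volume a b :=
      continuous_const.intervalIntegrable a b
    have e : ∫ x in a..b, (f x - c) ^ 2 = (∫ x in a..b, f x ^ 2) - 2 * c * I + c ^ 2 * (b - a) := by
      have h1 : ∀ x, (f x - c) ^ 2 = f x ^ 2 - 2 * c * f x + c ^ 2 := fun x => by ring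
      simp only [h1]
      rw [intervalIntegral.integral_add (i1.sub i2) i3, intervalIntegral.integral_sub i1 i2,
        intervalIntegral.integral_const_mul, intervalIntegral.integral_const, smul_eq_mul]
      ring
    rw [e] at h0
    have hcL : c * (b - a) = I := by rw [hc]; field_simp
    have e2 : c ^ 2 * (b - a) = c * I := by rw [← hcL]; ring
    rw [e2] at h0
    have h2 : c * I ≤ ∫ x in a..b, f x ^ 2 := by linarith
    calc I ^ 2 = (b - a) * (c * I) := by rw [← hcL]; ring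
      _ ≤ _ := mul_le_mul_of_nonneg_left h2 hL.le

/-- overlap of the intervals `[log m, log (m+H)]` -/
theorem short_overlap {F : ℝ → ℝ} (hF : Continuous F) (h0 : ∀ x, 0 ≤ F x) {a N H : ℕ}
    (ha : 1 ≤ a) (haN : a ≤ N) {E : ℝ} (hE : ∀ j < H,
      ∫ x in (Real.log ((a + j : ℕ) : ℝ))..(Real.log ((N + j : ℕ) : ℝ)), F x ≤ E) :
    ∑ m ∈ Ico a N, ∫ x in (Real.log (m : ℝ))..(Real.log ((m + H : ℕ) : ℝ)), F x ≤ H * E := by
  have h1 : ∀ m : ℕ, ∫ x in (Real.log (m : ℝ))..(Real.log ((m + H : ℕ) : ℝ)), F x =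
      ∑ j ∈ range H, ∫ x in (Real.log ((m + j : ℕ) : ℝ))..(Real.log ((m + (j + 1) : ℕ) : ℝ)), F x := by
    intro m
    have := intervalIntegral.sum_integral_adjacent_intervals (f := F) (μ := MeasureTheory.volume)
      (a := fun j => Real.log ((m + j : ℕ) : ℝ)) (n := H)
      (fun k _ => hF.intervalIntegrable _ _)
    rw [this]
    simp
  simp only [h1]
  rw [Finset.sum_comm]
  have h2 : ∀ j ∈ range H, ∑ m ∈ Ico a N,
      ∫ x in (Real.log ((m + j : ℕ) : ℝ))..(Real.log ((m + (j + 1) : ℕ) : ℝ)), F x ≤ E := by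
    intro j hj
    have h3 : ∑ m ∈ Ico a N,
        ∫ x in (Real.log ((m + j : ℕ) : ℝ))..(Real.log ((m + (j + 1) : ℕ) : ℝ)), F x =
        ∫ x in (Real.log ((a + j : ℕ) : ℝ))..(Real.log ((N + j : ℕ) : ℝ)), F x := by
      have := intervalIntegral.sum_integral_adjacent_intervals_Ico (f := F)
        (μ := MeasureTheory.volume) (a := fun m => Real.log ((m + j : ℕ) : ℝ)) haN
        (fun k _ => hF.intervalIntegrable _ _)
      rw [← this]
      refine Finset.sum_congr rfl fun m _ => ?_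
      rw [show m + 1 + j = m + (j + 1) by ring]
    rw [h3]
    exact hE j (Finset.mem_range.1 hj)
  calc _ ≤ ∑ _j ∈ range H, E := Finset.sum_le_sum h2
    _ = H * E := by simp

theorem short_w_lip (s t : ℝ) : |w s - w t| ≤ |s - t| := by
  unfold w
  have h1 : |max 0 (1 - |s|) - max 0 (1 - |t|)| ≤ |(1 - |s|) - (1 - |t|)| := by
    have := abs_max_sub_max_le_abs (1 - |s|) (1 - |t|) 0
    rwa [max_comm 0 (1 - |s|), max_comm 0 (1 - |t|)]
  refine h1.trans ?_
  have : (1 - |s|) - (1 - |t|) = |t| - |s| := by ring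
  rw [this, abs_sub_comm s t]
  exact abs_abs_sub_abs_le_abs_sub t s

theorem short_w_le (s : ℝ) : w s ≤ 1 := by
  unfold w
  exact max_le zero_le_one (by have := abs_nonneg s; linarith)

theorem short_w_nonneg (s : ℝ) : 0 ≤ w s := le_max_left _ _

theorem short_log_sub {m n : ℝ} (hm : 0 < m) (hmn : m ≤ n) :
    Real.log n - Real.log m ≤ (n - m) / m := by
  have hn : 0 < n := lt_of_lt_of_le hm hmn
  rw [← Real.log_div hn.ne' hm.ne']
  have := Real.log_le_sub_one_of_pos (div_pos hn hm)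
  have e : n / m - 1 = (n - m) / m := by field_simp
  linarith

theorem short_bw_diff (Y : ℝ) {m n : ℕ} (hm : 1 ≤ m) (hmn : m ≤ n) :
    |bw Y n - bw Y m| ≤ 2 * ((n : ℝ) - m) / (n * m) := by
  have hm' : (0 : ℝ) < m := by exact_mod_cast hm
  have hmn' : (m : ℝ) ≤ n := by exact_mod_cast hmn
  have hn' : (0 : ℝ) < n := lt_of_lt_of_le hm' hmn'
  unfold bw
  set A := w (Real.log n - Real.log Y)
  set B := w (Real.log m - Real.log Y) with hB
  have h1 : |A - B| ≤ ((n : ℝ) - m) / m := by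
    refine (short_w_lip _ _).trans ?_
    have e : Real.log n - Real.log Y - (Real.log m - Real.log Y) = Real.log n - Real.log m := by ring
    rw [e, abs_of_nonneg (by
      have := Real.log_le_log hm' hmn'
      linarith)]
    exact short_log_sub hm' hmn'
  have e : A / n - B / m = (A - B) / n - B * (((n : ℝ) - m) / (n * m)) := by
    field_simp
    ring
  rw [e]
  have hB0 : 0 ≤ B := short_w_nonneg _
  have hB1 : B ≤ 1 := short_w_le _
  have hd : 0 ≤ ((n : ℝ) - m) / (n * m) := div_nonneg (by linarith) (by positivity)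
  calc |(A - B) / n - B * (((n : ℝ) - m) / (n * m))|
      ≤ |(A - B) / n| + |B * (((n : ℝ) - m) / (n * m))| := abs_sub _ _
    _ = |A - B| / n + B * (((n : ℝ) - m) / (n * m)) := by
        rw [abs_div, abs_of_pos hn', abs_of_nonneg (mul_nonneg hB0 hd)]
    _ ≤ (((n : ℝ) - m) / m) / n + 1 * (((n : ℝ) - m) / (n * m)) := by
        gcongr
    _ = 2 * ((n : ℝ) - m) / (n * m) := by
        field_simp
        ring

/-- the sum over a window -/
theorem short_window {g : ℕ → ℝ} (hb : ∀ n, |g n| ≤ 1) (hJE : JackEnergy) {C : ℝ} (hC : 0 < C)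
    (hJL : JackLocal C) {a N H K : ℕ} (ha3 : 3 ≤ a) (hH : 100 * H ≤ a) (haN : a ≤ N)
    (hNa : 4 * N ≤ 5 * a) (hK : 1 ≤ K) (hKa : K ≤ a) {E : ℝ}
    (hE : ∑ k ∈ FK (2 * K), ‖GGg g a k‖ ^ 2 ≤ E) :
    ∑ m ∈ Ico a N, (∑ j ∈ range H, g (m + 1 + j)) ^ 2 ≤
      3 * E * H ^ 2 * a + a ^ 3 * C ^ 2 / K ^ 2 + 6 * H ^ 4 / a := by
  have ha' : (3 : ℝ) ≤ a := by exact_mod_cast ha3
  have ha0 : (0 : ℝ) < a := by linarith
  have hK' : (1 : ℝ) ≤ K := by exact_mod_cast hK
  have hK0 : (0 : ℝ) < K := by linarith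
  have hH' : 100 * (H : ℝ) ≤ a := by exact_mod_cast hH
  have hNa' : 4 * (N : ℝ) ≤ 5 * a := by exact_mod_cast hNa
  have haN' : (a : ℝ) ≤ N := by exact_mod_cast haN
  have hE0 : 0 ≤ E := le_trans (Finset.sum_nonneg fun k _ => by positivity) hE
  have hπ := Real.pi_gt_three
  set f := AJ g a K with hf
  have hfc : Continuous f := short_AJ_cont g a K
  -- facts on the logarithms
  have hlog : ∀ m : ℕ, a ≤ m → m ≤ N + H → Real.log a ≤ Real.log m ∧ Real.log m ≤ Real.log a + 1 := by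
    intro m h1 h2
    have h1' : (a : ℝ) ≤ m := by exact_mod_cast h1
    have h2' : (m : ℝ) ≤ N + H := by exact_mod_cast h2
    refine ⟨Real.log_le_log ha0 h1', ?_⟩
    have h3 := short_log_sub ha0 h1'
    have h4 : ((m : ℝ) - a) / a ≤ 1 := by
      rw [div_le_one ha0]
      linarith
    linarith
  -- the energy
  have hEn : ∫ x in (Real.log a - Real.pi)..(Real.log a + Real.pi), f x ^ 2 ≤
      2 * Real.pi * E := by
    refine (hJE g a K hK).trans ?_
    exact mul_le_mul_of_nonneg_left hE (by positivity)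
  set S : ℕ → ℝ := fun m => ∑ j ∈ range H, g (m + 1 + j) * bw a (m + 1 + j) with hS
  set T : ℕ → ℝ := fun m => ∑ j ∈ range H, g (m + 1 + j) with hT
  have hH0 : (0 : ℝ) ≤ (H : ℝ) := Nat.cast_nonneg H
  -- local averages
  have hloc : ∀ m ∈ Ico a N, |(∫ x in (Real.log (m : ℝ))..(Real.log ((m + H : ℕ) : ℝ)), f x) -
      2 * Real.pi * S m| ≤ C / K := by
    intro m hm
    obtain ⟨hm1, hm2⟩ := Finset.mem_Ico.1 hm
    have hmpos : (0 : ℝ) < m := by
      have : (a : ℝ) ≤ m := by exact_mod_cast hm1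
      linarith
    have h1 := hlog m hm1 (by omega)
    have h2 := hlog (m + H) (by omega) (by omega)
    have h3 : Real.log (m : ℝ) ≤ Real.log ((m + H : ℕ) : ℝ) :=
      Real.log_le_log hmpos (by push_cast; linarith [(Nat.cast_nonneg H : (0 : ℝ) ≤ H)])
    have h4 := hJL g hb a K (Real.log m) (Real.log ((m + H : ℕ) : ℝ)) ha' hK
      (by exact_mod_cast hKa) (by linarith [h1.1]) h3 h2.2
    have h5 : ∑ n ∈ (WN (a : ℝ)).filter (fun n : ℕ => Real.log m < Real.log n ∧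
        Real.log n ≤ Real.log ((m + H : ℕ) : ℝ)), g n * bw a n = S m := by
      have e1 : (WN (a : ℝ)).filter (fun n : ℕ => Real.log m < Real.log n ∧
          Real.log n ≤ Real.log ((m + H : ℕ) : ℝ)) = Ico (m + 1) (m + 1 + H) := by
        ext n
        simp only [WN, Finset.mem_filter, Finset.mem_Icc, Finset.mem_Ico]
        constructor
        · rintro ⟨⟨n1, _⟩, n3, n4⟩
          have hn0 : (0 : ℝ) < n := by exact_mod_cast n1
          rw [Real.log_lt_log_iff hmpos hn0] at n3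
          rw [Real.log_le_log_iff hn0 (by push_cast; linarith)] at n4
          have n3' : m < n := by exact_mod_cast n3
          have n4' : n ≤ m + H := by exact_mod_cast n4
          omega
        · rintro ⟨n1, n2⟩
          have hn0 : (0 : ℝ) < n := by exact_mod_cast (by omega : 0 < n)
          refine ⟨⟨by omega, ?_⟩, ?_, ?_⟩
          · apply Nat.le_floor
            have h6 : (n : ℝ) ≤ N + H := by exact_mod_cast (by omega : n ≤ N + H)
            have h7 := Real.add_one_le_exp (1 : ℝ)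
            nlinarith
          · rw [Real.log_lt_log_iff hmpos hn0]
            exact_mod_cast (by omega : m < n)
          · rw [Real.log_le_log_iff hn0 (by push_cast; linarith)]
            exact_mod_cast (by omega : n ≤ m + H)
      rw [e1, hS]
      rw [Finset.sum_Ico_eq_sum_range]
      simp
    rw [h5] at h4
    exact h4
  -- (2 pi S)^2
  have hS2 : ∀ m ∈ Ico a N, (2 * Real.pi * S m) ^ 2 ≤ 2 * (C / K) ^ 2 +
      2 * ((H / a) * ∫ x in (Real.log (m : ℝ))..(Real.log ((m + H : ℕ) : ℝ)), f x ^ 2) := by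
    intro m hm
    obtain ⟨hm1, hm2⟩ := Finset.mem_Ico.1 hm
    have hma : (a : ℝ) ≤ m := by exact_mod_cast hm1
    have hmpos : (0 : ℝ) < m := by linarith
    have h1 := hloc m hm
    set A := ∫ x in (Real.log (m : ℝ))..(Real.log ((m + H : ℕ) : ℝ)), f x
    have h3 : Real.log (m : ℝ) ≤ Real.log ((m + H : ℕ) : ℝ) :=
      Real.log_le_log hmpos (by push_cast; linarith [(Nat.cast_nonneg H : (0 : ℝ) ≤ H)])
    have h4 := short_cs hfc h3
    have h5 : 0 ≤ ∫ x in (Real.log (m : ℝ))..(Real.log ((m + H : ℕ) : ℝ)), f x ^ 2 :=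
      intervalIntegral.integral_nonneg h3 (fun x _ => sq_nonneg _)
    have h6 : Real.log ((m + H : ℕ) : ℝ) - Real.log (m : ℝ) ≤ H / a := by
      have h7 := short_log_sub (m := (m : ℝ)) (n := ((m + H : ℕ) : ℝ)) hmpos
        (by push_cast; linarith [(Nat.cast_nonneg H : (0 : ℝ) ≤ H)])
      refine h7.trans ?_
      push_cast
      rw [add_sub_cancel_left]
      gcongr
    have h8 : A ^ 2 ≤ (H / a) * ∫ x in (Real.log (m : ℝ))..(Real.log ((m + H : ℕ) : ℝ)), f x ^ 2 :=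
      h4.trans (mul_le_mul_of_nonneg_right h6 h5)
    have h9 : (2 * Real.pi * S m - A) ^ 2 ≤ (C / K) ^ 2 := by
      rw [abs_sub_comm] at h1
      rw [← sq_abs (2 * Real.pi * S m - A)]
      exact pow_le_pow_left₀ (abs_nonneg _) h1 2
    nlinarith [sq_nonneg (2 * Real.pi * S m - A - A)]
  -- sum over m
  have hov : ∑ m ∈ Ico a N, ∫ x in (Real.log (m : ℝ))..(Real.log ((m + H : ℕ) : ℝ)), f x ^ 2 ≤
      H * (2 * Real.pi * E) := by
    refine short_overlap (F := fun x => f x ^ 2) (hfc.pow 2) (fun x => sq_nonneg _) (by omega) haN ?_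
    intro j hj
    have h1 := hlog (a + j) (by omega) (by omega)
    have h2 := hlog (N + j) (by omega) (by omega)
    have h3 : Real.log ((a + j : ℕ) : ℝ) ≤ Real.log ((N + j : ℕ) : ℝ) :=
      Real.log_le_log (by positivity) (by exact_mod_cast (by omega : a + j ≤ N + j))
    refine le_trans ?_ hEn
    refine intervalIntegral.integral_mono_interval (by linarith [h1.1]) h3 (by linarith [h2.2])
      (Filter.Eventually.of_forall fun x => sq_nonneg _) ((hfc.pow 2).intervalIntegrable _ _)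
  have hcard : ((Ico a N).card : ℝ) ≤ a / 4 := by
    rw [Nat.card_Ico, Nat.cast_sub haN]
    linarith
  have hsumS : ∑ m ∈ Ico a N, (2 * Real.pi * S m) ^ 2 ≤
      (a / 2) * (C / K) ^ 2 + 4 * Real.pi * E * H ^ 2 / a := by
    calc ∑ m ∈ Ico a N, (2 * Real.pi * S m) ^ 2
        ≤ ∑ m ∈ Ico a N, (2 * (C / K) ^ 2 + 2 * ((H / a) *
            ∫ x in (Real.log (m : ℝ))..(Real.log ((m + H : ℕ) : ℝ)), f x ^ 2)) :=
          Finset.sum_le_sum hS2
      _ = ((Ico a N).card : ℝ) * (2 * (C / K) ^ 2) + 2 * ((H / a) * ∑ m ∈ Ico a N,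
            ∫ x in (Real.log (m : ℝ))..(Real.log ((m + H : ℕ) : ℝ)), f x ^ 2) := by
          rw [Finset.sum_add_distrib, Finset.sum_const, nsmul_eq_mul, ← Finset.mul_sum,
            ← Finset.mul_sum]
      _ ≤ (a / 4) * (2 * (C / K) ^ 2) + 2 * ((H / a) * (H * (2 * Real.pi * E))) := by
          gcongr
      _ = (a / 2) * (C / K) ^ 2 + 4 * Real.pi * E * H ^ 2 / a := by
          field_simp
          ring
  -- from S to T
  have hT2 : ∀ m ∈ Ico a N, T m ^ 2 ≤ a ^ 2 * (2 * Real.pi * S m) ^ 2 / 6 + 23 * H ^ 4 / a ^ 2 := by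
    intro m hm
    obtain ⟨hm1, hm2⟩ := Finset.mem_Ico.1 hm
    have hma : (a : ℝ) ≤ m := by exact_mod_cast hm1
    have hmN : (m : ℝ) ≤ N := by exact_mod_cast hm2.le
    have hmpos : (0 : ℝ) < m := by linarith
    have h1 : |S m - bw a m * T m| ≤ 2 * H ^ 2 / a ^ 2 := by
      rw [hS, hT]
      simp only []
      rw [Finset.mul_sum, ← Finset.sum_sub_distrib]
      refine (Finset.abs_sum_le_sum_abs _ _).trans ?_
      have h2 : ∀ j ∈ range H, |g (m + 1 + j) * bw a (m + 1 + j) - bw a m * g (m + 1 + j)| ≤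
          2 * H / a ^ 2 := by
        intro j hj
        have hj' := Finset.mem_range.1 hj
        have e : g (m + 1 + j) * bw a (m + 1 + j) - bw a m * g (m + 1 + j) =
            g (m + 1 + j) * (bw a (m + 1 + j) - bw a m) := by ring
        rw [e, abs_mul]
        have h3 := short_bw_diff (a : ℝ) (m := m) (n := m + 1 + j) (by omega) (by omega)
        have h4 : 2 * (((m + 1 + j : ℕ) : ℝ) - m) / (((m + 1 + j : ℕ) : ℝ) * m) ≤ 2 * H / a ^ 2 := by
          have h5 : ((m + 1 + j : ℕ) : ℝ) - m ≤ H := by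
            have : ((m + 1 + j : ℕ) : ℝ) ≤ ((m + H : ℕ) : ℝ) := by
              exact_mod_cast (by omega : m + 1 + j ≤ m + H)
            push_cast at this ⊢
            linarith
          have h5' : (0 : ℝ) ≤ ((m + 1 + j : ℕ) : ℝ) - m := by push_cast; linarith [(Nat.cast_nonneg j : (0 : ℝ) ≤ j)]
          have h6 : (a : ℝ) ≤ ((m + 1 + j : ℕ) : ℝ) := by exact_mod_cast (by omega : a ≤ m + 1 + j)
          rw [sq]
          gcongr
        calc |g (m + 1 + j)| * |bw a (m + 1 + j) - bw a m|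
            ≤ 1 * (2 * H / a ^ 2) := by
              refine mul_le_mul (hb _) (h3.trans h4) (abs_nonneg _) zero_le_one
          _ = _ := one_mul _
      refine (Finset.sum_le_sum h2).trans ?_
      rw [Finset.sum_const, Finset.card_range, nsmul_eq_mul]
      apply le_of_eq
      ring
    have h2 : 3 / (5 * a) ≤ bw a m := by
      unfold bw
      have h3 : 3 / 4 ≤ w (Real.log m - Real.log a) := by
        unfold w
        refine le_max_of_le_right ?_
        have h4 := short_log_sub ha0 hma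
        have h5 : ((m : ℝ) - a) / a ≤ 1 / 4 := by
          rw [div_le_iff₀ ha0]
          linarith
        have h6 := Real.log_le_log ha0 hma
        rw [abs_of_nonneg (by linarith)]
        linarith
      have h4 : (m : ℝ) ≤ 5 * a / 4 := by linarith
      calc (3 : ℝ) / (5 * a) = (3 / 4) / (5 * a / 4) := by field_simp
        _ ≤ w (Real.log m - Real.log a) / m := by gcongr
    have hbpos : 0 < bw a m := lt_of_lt_of_le (by positivity) h2
    have h3 : |T m| ≤ (5 * a / 3) * (|S m| + 2 * H ^ 2 / a ^ 2) := by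
      have h4 : bw a m * |T m| ≤ |S m| + 2 * H ^ 2 / a ^ 2 := by
        have h5 : |bw a m * T m| = bw a m * |T m| := by rw [abs_mul, abs_of_pos hbpos]
        rw [← h5]
        have h6 : bw a m * T m = S m - (S m - bw a m * T m) := by ring
        rw [h6]
        exact (abs_sub _ _).trans (by linarith)
      have h5 : 3 / (5 * a) * |T m| ≤ |S m| + 2 * H ^ 2 / a ^ 2 :=
        (mul_le_mul_of_nonneg_right h2 (abs_nonneg _)).trans h4
      calc |T m| = (5 * a / 3) * (3 / (5 * a) * |T m|) := by field_simp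
        _ ≤ _ := mul_le_mul_of_nonneg_left h5 (by positivity)
    have h4 : T m ^ 2 ≤ (5 * a / 3) ^ 2 * (2 * S m ^ 2 + 2 * (2 * H ^ 2 / a ^ 2) ^ 2) := by
      rw [← sq_abs (T m)]
      refine (pow_le_pow_left₀ (abs_nonneg _) h3 2).trans ?_
      rw [mul_pow]
      refine mul_le_mul_of_nonneg_left ?_ (by positivity)
      have h5 : S m ^ 2 = |S m| ^ 2 := (sq_abs _).symm
      rw [h5]
      nlinarith [sq_nonneg (|S m| - 2 * H ^ 2 / a ^ 2)]
    refine h4.trans ?_
    have h6 : (5 * a / 3 : ℝ) ^ 2 * (2 * S m ^ 2 + 2 * (2 * H ^ 2 / a ^ 2) ^ 2) =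
        (50 / 9) * a ^ 2 * S m ^ 2 + (200 / 9) * H ^ 4 / a ^ 2 := by
      field_simp
      ring
    have h7 : (a : ℝ) ^ 2 * (2 * Real.pi * S m) ^ 2 / 6 = (4 * Real.pi ^ 2 / 6) * a ^ 2 * S m ^ 2 := by
      ring
    rw [h6, h7]
    have h8 : (50 / 9 : ℝ) ≤ 4 * Real.pi ^ 2 / 6 := by
      have h8' : (3 : ℝ) ^ 2 ≤ Real.pi ^ 2 := pow_le_pow_left₀ (by norm_num) hπ.le 2
      linarith
    have h9 : (50 / 9 : ℝ) * a ^ 2 * S m ^ 2 ≤ (4 * Real.pi ^ 2 / 6) * a ^ 2 * S m ^ 2 := by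
      gcongr
    have h10 : (200 / 9 : ℝ) * H ^ 4 / a ^ 2 ≤ 23 * H ^ 4 / a ^ 2 := by
      gcongr
      norm_num
    linarith
  calc ∑ m ∈ Ico a N, T m ^ 2
      ≤ ∑ m ∈ Ico a N, (a ^ 2 * (2 * Real.pi * S m) ^ 2 / 6 + 23 * H ^ 4 / a ^ 2) :=
        Finset.sum_le_sum hT2
    _ = (a ^ 2 / 6) * ∑ m ∈ Ico a N, (2 * Real.pi * S m) ^ 2 +
          ((Ico a N).card : ℝ) * (23 * H ^ 4 / a ^ 2) := by
        rw [Finset.sum_add_distrib, Finset.sum_const, nsmul_eq_mul, Finset.mul_sum]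
        congr 1
        refine Finset.sum_congr rfl fun m _ => ?_
        ring
    _ ≤ (a ^ 2 / 6) * ((a / 2) * (C / K) ^ 2 + 4 * Real.pi * E * H ^ 2 / a) +
          (a / 4) * (23 * H ^ 4 / a ^ 2) := by
        gcongr
    _ = (2 * Real.pi / 3) * (E * H ^ 2 * a) + (1 / 12) * (a ^ 3 * C ^ 2 / K ^ 2) +
          (23 / 4) * (H ^ 4 / a) := by
        field_simp
        ring
    _ ≤ 3 * (E * H ^ 2 * a) + 1 * (a ^ 3 * C ^ 2 / K ^ 2) + 6 * (H ^ 4 / a) := by
        have hπ2 := Real.pi_lt_four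
        gcongr
        · linarith
        · norm_num
        · norm_num
    _ = 3 * E * H ^ 2 * a + a ^ 3 * C ^ 2 / K ^ 2 + 6 * H ^ 4 / a := by ring

theorem short_FK_sub {K L : ℕ} (h : K ≤ L) : FK K ⊆ FK L := by
  intro k hk
  simp only [FK, Finset.mem_Ioo] at hk ⊢
  have h' : (K : ℤ) ≤ L := by exact_mod_cast h
  exact ⟨by linarith [hk.1], by linarith [hk.2]⟩

/-- the window with the energy hypothesis -/
theorem short_window2 {g : ℕ → ℝ} (hb : ∀ n, |g n| ≤ 1) (hJE : JackEnergy) {C : ℝ} (hC : 0 < C)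
    (hJL : JackLocal C) {η h : ℝ} (hη : 0 < η) (hh : 1 ≤ h) {Y₀ : ℝ}
    (he : ∀ Y : ℝ, Y₀ ≤ Y → ∑ k ∈ FK ⌊Y / h⌋₊, ‖GGg g Y k‖ ^ 2 ≤ η) {H : ℕ}
    (hH : 16 * h ^ 2 * C ^ 2 ≤ η * (H : ℝ) ^ 2) {a N : ℕ} (ha3 : 3 ≤ a) (hHa : 100 * H ≤ a)
    (haN : a ≤ N) (hNa : 4 * N ≤ 5 * a) (haY : Y₀ ≤ a) (hah : 4 * h ≤ a)
    (haη : 6 * (H : ℝ) ^ 2 ≤ η * (a : ℝ) ^ 2) :
    ∑ m ∈ Ico a N, (∑ j ∈ range H, g (m + 1 + j)) ^ 2 ≤ 5 * η * H ^ 2 * N := by
  have ha' : (3 : ℝ) ≤ a := by exact_mod_cast ha3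
  have ha0 : (0 : ℝ) < a := by linarith
  have hh0 : 0 < h := by linarith
  have haN' : (a : ℝ) ≤ N := by exact_mod_cast haN
  set L := ⌊(a : ℝ) / h⌋₊ with hL
  set K := L / 2 with hKdef
  have hL1 : (L : ℝ) ≤ a / h := Nat.floor_le (by positivity)
  have hL2 : (a : ℝ) / h < L + 1 := Nat.lt_floor_add_one _
  have h4 : 4 ≤ (a : ℝ) / h := by rw [le_div_iff₀ hh0]; exact hah
  have hK1 : (L : ℝ) ≤ 2 * K + 1 := by
    have : L ≤ 2 * K + 1 := by omega
    exact_mod_cast this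
  have hK2 : (a : ℝ) / h / 4 ≤ K := by linarith
  have hKpos : (0 : ℝ) < K := by linarith
  have hK : 1 ≤ K := by exact_mod_cast hKpos
  have hLa : L ≤ a := by
    have : (L : ℝ) ≤ a := hL1.trans (div_le_self ha0.le hh)
    exact_mod_cast this
  have hKa : K ≤ a := by omega
  have hE : ∑ k ∈ FK (2 * K), ‖GGg g a k‖ ^ 2 ≤ η := by
    refine le_trans (Finset.sum_le_sum_of_subset_of_nonneg (short_FK_sub (by omega : 2 * K ≤ L))
      (fun k _ _ => by positivity)) (he a haY)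
  refine (short_window hb hJE hC hJL ha3 hHa haN hNa hK hKa hE).trans ?_
  have h1 : (a : ℝ) ^ 3 * C ^ 2 / K ^ 2 ≤ (16 * h ^ 2 * C ^ 2) * a := by
    rw [div_le_iff₀ (by positivity)]
    have h2 : (a : ℝ) ≤ 4 * h * K := by
      have h5 : (a : ℝ) / h / 4 * (4 * h) = a := by field_simp
      calc (a : ℝ) = (a : ℝ) / h / 4 * (4 * h) := h5.symm
        _ ≤ K * (4 * h) := mul_le_mul_of_nonneg_right hK2 (by positivity)
        _ = _ := by ring
    have h3 : (a : ℝ) ^ 2 ≤ (4 * h * K) ^ 2 := pow_le_pow_left₀ ha0.le h2 2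
    calc (a : ℝ) ^ 3 * C ^ 2 = (a * C ^ 2) * (a : ℝ) ^ 2 := by ring
      _ ≤ (a * C ^ 2) * (4 * h * K) ^ 2 := mul_le_mul_of_nonneg_left h3 (by positivity)
      _ = _ := by ring
  have h2 : (16 * h ^ 2 * C ^ 2) * a ≤ η * H ^ 2 * a := mul_le_mul_of_nonneg_right hH ha0.le
  have h3 : 6 * (H : ℝ) ^ 4 / a ≤ η * H ^ 2 * a := by
    rw [div_le_iff₀ ha0]
    calc 6 * (H : ℝ) ^ 4 = H ^ 2 * (6 * (H : ℝ) ^ 2) := by ring
      _ ≤ H ^ 2 * (η * (a : ℝ) ^ 2) := mul_le_mul_of_nonneg_left haη (by positivity)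
      _ = _ := by ring
  calc 3 * η * H ^ 2 * a + a ^ 3 * C ^ 2 / K ^ 2 + 6 * H ^ 4 / a
      ≤ 3 * η * H ^ 2 * a + η * H ^ 2 * a + η * H ^ 2 * a := by linarith
    _ = 5 * η * H ^ 2 * a := by ring
    _ ≤ 5 * η * H ^ 2 * N := mul_le_mul_of_nonneg_left haN' (by positivity)

/-- `short`, from the two facts on the kernel -/
theorem short_of {g : ℕ → ℝ} (hb : ∀ n, |g n| ≤ 1) (hJE : JackEnergy) {C : ℝ} (hC : 0 < C)
    (hJL : JackLocal C)
    (he : ∀ η : ℝ, 0 < η → ∃ h : ℝ, 1 ≤ h ∧ ∃ Y₀ : ℝ, ∀ Y : ℝ, Y₀ ≤ Y →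
      ∑ k ∈ FK ⌊Y / h⌋₊, ‖GGg g Y k‖ ^ 2 ≤ η) :
    ∀ ε : ℝ, 0 < ε → ∃ H₀ : ℕ, ∀ H : ℕ, H₀ ≤ H → ∃ N₀ : ℕ, ∀ N : ℕ, N₀ ≤ N →
      ∑ n ∈ Icc 1 N, (∑ j ∈ range H, g (n + j)) ^ 2 ≤ ε * (H : ℝ) ^ 2 * N := by
  intro ε hε
  set η := ε / 100 with hηdef
  have hη : 0 < η := by positivity
  obtain ⟨h, hh, Y₀, hY⟩ := he η hη
  have hh0 : 0 < h := by linarith
  refine ⟨⌈16 * h ^ 2 * C ^ 2 / η⌉₊ + 1, fun H hHH => ?_⟩
  have hH1 : 1 ≤ H := by omega
  have hH1' : (1 : ℝ) ≤ H := by exact_mod_cast hH1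
  have hH : 16 * h ^ 2 * C ^ 2 ≤ η * (H : ℝ) ^ 2 := by
    have h1 : 16 * h ^ 2 * C ^ 2 / η ≤ H := by
      refine (Nat.le_ceil _).trans ?_
      exact_mod_cast (by omega : ⌈16 * h ^ 2 * C ^ 2 / η⌉₊ ≤ H)
    rw [div_le_iff₀ hη] at h1
    refine h1.trans ?_
    have h2 : (H : ℝ) ≤ (H : ℝ) ^ 2 := by nlinarith
    calc (H : ℝ) * η = η * H := by ring
      _ ≤ η * (H : ℝ) ^ 2 := mul_le_mul_of_nonneg_left h2 hη.le
  set A₀ : ℝ := 3 + 100 * H + |Y₀| + 4 * h + 6 * H ^ 2 / η with hA₀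
  have hA₀pos : 0 < A₀ := by positivity
  set N₁ : ℕ := ⌈2 * A₀⌉₊ + 8 with hN₁
  set T : ℕ → ℝ := fun m => (∑ j ∈ range H, g (m + 1 + j)) ^ 2 with hT
  have hT1 : ∀ m, T m ≤ (H : ℝ) ^ 2 := by
    intro m
    have h1 : |∑ j ∈ range H, g (m + 1 + j)| ≤ H := by
      refine (Finset.abs_sum_le_sum_abs _ _).trans ?_
      refine (Finset.sum_le_sum fun j _ => hb (m + 1 + j)).trans ?_
      simp
    calc T m = |∑ j ∈ range H, g (m + 1 + j)| ^ 2 := (sq_abs _).symm
      _ ≤ _ := pow_le_pow_left₀ (abs_nonneg _) h1 2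
  have key : ∀ N : ℕ, ∑ m ∈ range N, T m ≤ 50 * η * H ^ 2 * N + H ^ 2 * N₁ := by
    intro N
    induction N using Nat.strong_induction_on with
    | _ N ih =>
      by_cases hN : N < N₁
      · have h1 : ∑ m ∈ range N, T m ≤ N * (H : ℝ) ^ 2 := by
          refine (Finset.sum_le_sum fun m _ => hT1 m).trans ?_
          simp
        have h2 : (N : ℝ) ≤ N₁ := by exact_mod_cast hN.le
        have h3 : (0 : ℝ) ≤ 50 * η * H ^ 2 * N := by positivity
        have h4 : (N : ℝ) * (H : ℝ) ^ 2 ≤ N₁ * (H : ℝ) ^ 2 :=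
          mul_le_mul_of_nonneg_right h2 (by positivity)
        linarith
      · push Not at hN
        have hN8 : 8 ≤ N := by omega
        set a := (4 * N + 4) / 5 with ha
        have ha1 : 4 * N ≤ 5 * a := by omega
        have ha2 : 10 * a ≤ 9 * N := by omega
        have ha3 : a < N := by omega
        have hA : A₀ ≤ a := by
          have h1 : 2 * A₀ ≤ N := by
            refine (Nat.le_ceil _).trans ?_
            exact_mod_cast (by omega : ⌈2 * A₀⌉₊ ≤ N)
          have h2 : (4 : ℝ) * N ≤ 5 * a := by exact_mod_cast ha1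
          linarith
        have b1 : (0 : ℝ) ≤ 6 * (H : ℝ) ^ 2 / η := by positivity
        have b2 : (0 : ℝ) ≤ |Y₀| := abs_nonneg _
        have b3 : Y₀ ≤ |Y₀| := le_abs_self _
        have c1 : 3 ≤ a := by
          have : (3 : ℝ) ≤ a := by linarith
          exact_mod_cast this
        have c2 : 100 * H ≤ a := by
          have : (100 : ℝ) * H ≤ a := by linarith
          exact_mod_cast this
        have c3 : Y₀ ≤ (a : ℝ) := by linarith
        have c4 : 4 * h ≤ (a : ℝ) := by linarith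
        have c5 : 6 * (H : ℝ) ^ 2 ≤ η * (a : ℝ) ^ 2 := by
          have h1 : 6 * (H : ℝ) ^ 2 / η ≤ a := by linarith
          rw [div_le_iff₀ hη] at h1
          have h2 : (1 : ℝ) ≤ a := by linarith
          nlinarith
        have hw := short_window2 hb hJE hC hJL hη hh hY hH c1 c2 ha3.le ha1 c3 c4 c5
        have hi := ih a ha3
        have hs : ∑ m ∈ range N, T m = ∑ m ∈ range a, T m + ∑ m ∈ Ico a N, T m :=
          (Finset.sum_range_add_sum_Ico _ ha3.le).symm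
        have ha2' : (10 : ℝ) * a ≤ 9 * N := by exact_mod_cast ha2
        have hc : (0 : ℝ) ≤ 5 * η * H ^ 2 := by positivity
        have h5 : 5 * η * H ^ 2 * (10 * (a : ℝ)) ≤ 5 * η * H ^ 2 * (9 * N) :=
          mul_le_mul_of_nonneg_left ha2' hc
        rw [hs]
        nlinarith
  refine ⟨⌈2 * N₁ / ε⌉₊, fun N hN => ?_⟩
  have h1 : (2 : ℝ) * N₁ / ε ≤ N := (Nat.le_ceil _).trans (by exact_mod_cast hN)
  rw [div_le_iff₀ hε] at h1
  have h2 : ∑ n ∈ Icc 1 N, (∑ j ∈ range H, g (n + j)) ^ 2 = ∑ m ∈ range N, T m := by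
    have e : Icc 1 N = Ico 1 (N + 1) := by ext; simp
    rw [e, Finset.sum_Ico_eq_sum_range]
    refine Finset.sum_congr (by simp) fun m _ => ?_
    rw [hT]
    simp only []
    rw [add_comm 1 m]
  rw [h2]
  refine (key N).trans ?_
  have h3 : (0 : ℝ) ≤ (H : ℝ) ^ 2 := by positivity
  have h4 : 50 * η * (H : ℝ) ^ 2 * N = (ε / 2) * H ^ 2 * N := by rw [hηdef]; ring
  rw [h4]
  nlinarith [mul_le_mul_of_nonneg_left h1 h3]

end Pool.Agent.H376R2.TT
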