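import Pool.Agent.H376R2.TT.Defs
import Pool.Agent.H376R2.MR.SmallK

set_option autoImplicit false

namespace Pool.Agent.H376R2.TT

open Finset Filter Pool.Agent.H376R2.MR

theorem small2 {g : ℕ → ℝ} (hb : ∀ n, |g n| ≤ 1) (hz : MZero g) (k : ℤ) :
    Tendsto (fun Y : ℝ => GGg g Y k) atTop (nhds 0) := by
  rw [Metric.tendsto_atTop]
  intro δ hδ
  set A : ℝ := 18 * (2 + |(k : ℝ)|) + 1 with hA
  have hA0 : 0 < A := by positivity
  set ε : ℝ := δ / A with hε
  have hε0 : 0 < ε := by positivity
  obtain ⟨N₀, hN₀⟩ := hz ε hε0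
  refine ⟨6 * N₀ + 6, fun Y hY => ?_⟩
  have hY6 : 6 ≤ Y := by
    have : (0 : ℝ) ≤ N₀ := Nat.cast_nonneg _
    linarith
  have hYpos : 0 < Y := by linarith
  have he : Real.exp 1 < 3 := by
    have := Real.exp_one_lt_d9
    linarith
  rw [dist_zero_right]
  set N := ⌊Real.exp 1 * Y⌋₊ with hN
  have hNle : (N : ℝ) ≤ Real.exp 1 * Y := Nat.floor_le (by positivity)
  have hNlt : Real.exp 1 * Y < N + 1 := Nat.lt_floor_add_one _
  have h1 : GGg g Y k = ∑ n ∈ Icc 1 N, (g n : ℂ) * ((bw Y n : ℂ) * ch k (Real.log n)) := by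
    unfold GGg DP WN
    apply Finset.sum_congr rfl
    intro n hn
    ring
  rw [h1, smallk_abel]
  have h2 : bw Y (N + 1) = 0 := smallk_bw_zero_right hYpos (by push_cast; exact hNlt.le)
  rw [h2]
  simp only [Complex.ofReal_zero, zero_mul, mul_zero, zero_add]
  calc ‖∑ n ∈ Icc 1 N, ((∑ m ∈ Icc 1 n, g m : ℝ) : ℂ) *
        ((bw Y n : ℂ) * ch k (Real.log n) - (bw Y (n + 1) : ℂ) * ch k (Real.log (n + 1 : ℕ)))‖
      ≤ ∑ n ∈ Icc 1 N, ‖((∑ m ∈ Icc 1 n, g m : ℝ) : ℂ) *
        ((bw Y n : ℂ) * ch k (Real.log n) - (bw Y (n + 1) : ℂ) * ch k (Real.log (n + 1 : ℕ)))‖ :=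
        norm_sum_le _ _
    _ ≤ ∑ n ∈ Icc 1 N, ε * (2 + |(k : ℝ)|) * 6 / Y := by
        apply Finset.sum_le_sum
        intro n hn
        rw [mem_Icc] at hn
        have hnpos : (0 : ℝ) < n := by exact_mod_cast hn.1
        by_cases hsmall : ((n + 1 : ℕ) : ℝ) * Real.exp 1 ≤ Y
        · have h3 : bw Y (n + 1) = 0 := smallk_bw_zero_left hYpos (by omega) hsmall
          have h4 : bw Y n = 0 := by
            apply smallk_bw_zero_left hYpos hn.1
            refine le_trans ?_ hsmall
            push_cast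
            have := Real.exp_pos 1
            nlinarith
          rw [h3, h4]
          simp only [Complex.ofReal_zero, zero_mul, sub_zero, mul_zero, norm_zero]
          positivity
        · push Not at hsmall
          push_cast at hsmall
          have h5 : Y / 6 ≤ n := by
            have h51 : Y < (n + 1) * 3 := hsmall.trans (by nlinarith)
            linarith
          have h6 : N₀ ≤ n := by
            have : (N₀ : ℝ) ≤ n := by linarith
            exact_mod_cast this
          have h7 : |∑ m ∈ Icc 1 n, g m| ≤ ε * n := hN₀ n h6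
          rw [norm_mul, Complex.norm_real, Real.norm_eq_abs]
          have h8 := smallk_f_diff Y k hn.1
          calc |∑ m ∈ Icc 1 n, g m| * _ ≤ (ε * n) * ((2 + |(k : ℝ)|) / (n : ℝ) ^ 2) :=
                mul_le_mul h7 h8 (norm_nonneg _) (by positivity)
            _ = ε * (2 + |(k : ℝ)|) * (1 / n) := by field_simp
            _ ≤ ε * (2 + |(k : ℝ)|) * (6 / Y) := by
                apply mul_le_mul_of_nonneg_left _ (by positivity)
                rw [div_le_div_iff₀ hnpos hYpos]
                linarith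
            _ = ε * (2 + |(k : ℝ)|) * 6 / Y := by ring
    _ = N * (ε * (2 + |(k : ℝ)|) * 6 / Y) := by
        rw [Finset.sum_const, Nat.card_Icc, nsmul_eq_mul]
        simp
    _ ≤ (3 * Y) * (ε * (2 + |(k : ℝ)|) * 6 / Y) := by
        apply mul_le_mul_of_nonneg_right _ (by positivity)
        nlinarith
    _ = ε * (18 * (2 + |(k : ℝ)|)) := by field_simp; ring
    _ < ε * A := by
        apply mul_lt_mul_of_pos_left _ hε0
        linarith
    _ = δ := by rw [hε]; field_simp

end Pool.Agent.H376R2.TT
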