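import Pool.Agent.H376R2.TT.Defs

/-! Blueprint of project TT (all statements, with `sorry`). Never import this file in a hand-in. -/

set_option autoImplicit false

namespace Pool.Agent.H376R2.TT.Stubs
open Pool.Agent.H376R2.MR Pool.Agent.H376R2.TT Finset Filter

/-! ## Part 1 -/

/-! ### MOM2 : file Mom2.lean -/

theorem mom2 : ∃ C : ℝ, 0 < C ∧ ∀ (g : ℕ → ℝ) (Q : ℕ → Prop), (∀ n, |g n| ≤ 1) →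
    ∀ (H r ℓ K : ℕ) (Z : ℝ), 1 ≤ H → 3 ≤ Z → 1 ≤ K →
    (K : ℝ) ≤ Z * Real.exp ((r : ℝ) * ℓ / H) →
    ∑ k ∈ FK K, ‖PPQ Q H r k ^ ℓ * GGg g Z k‖ ^ 2 ≤
      C * (3 + (ℓ : ℝ) / H) ^ 2 * (ℓ.factorial : ℝ) ^ 2 := by sorry

theorem mom_zero2 : ∃ C : ℝ, 0 < C ∧ ∀ g : ℕ → ℝ, (∀ n, |g n| ≤ 1) → ∀ (K : ℕ) (Z : ℝ), 3 ≤ Z → 1 ≤ K →
    ∑ k ∈ FK K, ‖GGg g Z k‖ ^ 2 ≤ C * (1 + K / Z) := by sorry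

theorem momP2 : ∃ C : ℝ, 0 < C ∧ ∀ (Q : ℕ → Prop) (H r ℓ K : ℕ), 1 ≤ H → 1 ≤ K →
    (K : ℝ) ≤ Real.exp ((r : ℝ) * ℓ / H) →
    ∑ k ∈ FK K, ‖PPQ Q H r k‖ ^ (2 * ℓ) ≤ C * (1 + (ℓ : ℝ) / H) * 2 ^ ℓ * (ℓ.factorial : ℝ) := by sorry

/-! ### DEC2 : file Dec2.lean -/

theorem dec2 : ∃ C : ℝ, 0 < C ∧ ∀ (g : ℕ → ℝ) (Q : ℕ → Prop), (∀ n, |g n| ≤ 1) →
    (∀ p m : ℕ, p.Prime → Q p → 1 ≤ m → g (p * m) = - g m) →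
    ∀ H v₀ v₁ : ℕ, 1 ≤ H → 1 ≤ WWQ Q H v₀ v₁ → ∀ Y : ℝ,
    Real.exp (4 * (v₁ : ℝ) / H) ≤ Y → ∃ (s : Finset ℕ) (a : ℕ → ℂ),
      (∀ n ∈ s, Y / Real.exp 2 ≤ (n : ℝ) ∧ (n : ℝ) ≤ Real.exp 2 * Y) ∧
      (∀ k : ℤ, GGg g Y k = -(1 / (WWQ Q H v₀ v₁ : ℂ)) *
        ∑ v ∈ Ico v₀ v₁, PPQ Q H v k * GGg g (Y * Real.exp (-((v : ℝ) / H))) k + DP s a k) ∧
      ∑ n ∈ s, (n : ℝ) * ‖a n‖ ^ 2 ≤ C * (1 / WWQ Q H v₀ v₁ + 1 / (H : ℝ) ^ 2) := by sorry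

/-! ### LEVA2 : file LevA2.lean -/

theorem lev_zero2 {g : ℕ → ℝ} {Q : ℕ → Prop} (hg : GQ g Q) : ∃ C : ℝ, 0 < C ∧ ∀ α : ℝ, 0 < α → α ≤ 1 →
    ∃ L₀ : ℕ, ∀ L : ℕ, L₀ ≤ L →
    ∀ (Y : ℝ) (K : ℕ), Real.exp (4 * (L : ℝ) ^ 2) ≤ Y → 1 ≤ K → (K : ℝ) * Real.exp ((L : ℝ) ^ 2) ≤ Y →
    (open scoped Classical in
      ∑ k ∈ (FK K).filter (fun k => SmjQ Q L α 0 k), ‖GGg g Y k‖ ^ 2) ≤ C / Real.log L := by sorry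

/-! ### LEVB2 : file LevB2.lean -/

theorem lev_succ2 {g : ℕ → ℝ} {Q : ℕ → Prop} (hg : GQ g Q) : ∃ C : ℝ, 0 < C ∧ ∀ α : ℝ, 0 < α → α ≤ 1 →
    ∃ L₀ : ℕ, ∀ L : ℕ, L₀ ≤ L →
    ∀ (j : ℕ) (Y : ℝ) (K : ℕ), Real.exp (4 * (LL L (j + 1) : ℝ) ^ 2) ≤ Y → 1 ≤ K → (K : ℝ) ≤ Y →
    (open scoped Classical in
      ∑ k ∈ (FK K).filter (fun k => SmjQ Q L α (j + 1) k ∧ ¬ SmjQ Q L α j k), ‖GGg g Y k‖ ^ 2) ≤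
      C / (3 ^ (j + 1) * Real.log L) := by sorry

/-! ### CNT2 : file Cnt2.lean -/

theorem cnt2 (Q : ℕ → Prop) : ∀ α : ℝ, 0 < α → α ≤ 1 → ∃ L₀ : ℕ, ∀ L : ℕ, L₀ ≤ L → ∃ Y₀ : ℝ, ∀ Y : ℝ, Y₀ ≤ Y →
    ∀ j K : ℕ, (LL L j : ℝ) ^ 4 ≤ Real.log Y → Real.log Y < (LL L (j + 1) : ℝ) ^ 4 → (K : ℝ) ≤ Y →
    (open scoped Classical in
      (((FK K).filter (fun k => ¬ SmjQ Q L α j k)).card : ℝ)) ≤ Y ^ (4 * α) := by sorry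

/-! ### TPART2 : file Tpart2.lean -/

theorem tpart2 {g : ℕ → ℝ} {Q : ℕ → Prop} (hg : GQ g Q) {α η : ℝ} (hα : 0 < α) (hη : 0 < η) :
    ∃ h : ℝ, 1 ≤ h ∧ ∃ Y₀ : ℝ, ∀ Y : ℝ, Y₀ ≤ Y →
    ∃ U : Finset ℤ, (U.card : ℝ) ≤ Y ^ α ∧ ∑ k ∈ FK ⌊Y / h⌋₊ \ U, ‖GGg g Y k‖ ^ 2 ≤ η := by sorry

/-! ### UPART2 : file Upart2.lean (iterated, arbitrarily small) -/

theorem upart2 {g : ℕ → ℝ} {Q : ℕ → Prop} (hg : GQ g Q) (hc : CB Q) {η : ℝ} (hη : 0 < η) :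
    ∃ α : ℝ, 0 < α ∧ ∃ (T₀ : ℕ) (Y₀ : ℝ), ∀ Y : ℝ, Y₀ ≤ Y → ∀ U : Finset ℤ,
    (∀ k ∈ U, (T₀ : ℝ) ≤ |(k : ℝ)| ∧ |(k : ℝ)| ≤ Y) → (U.card : ℝ) ≤ Y ^ α →
    ∑ k ∈ U, ‖GGg g Y k‖ ^ 2 ≤ η := by sorry

/-! ### SMALL2 : file Small2.lean -/

theorem small2 {g : ℕ → ℝ} (hb : ∀ n, |g n| ≤ 1) (hz : MZero g) (k : ℤ) :
    Tendsto (fun Y : ℝ => GGg g Y k) atTop (nhds 0) := by sorry

/-! ### ENERGY : file Energy.lean -/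

theorem energy {g : ℕ → ℝ} {Q : ℕ → Prop} (hg : GQ g Q) (hc : CB Q) (hz : MZero g) {η : ℝ} (hη : 0 < η) :
    ∃ h : ℝ, 1 ≤ h ∧ ∃ Y₀ : ℝ, ∀ Y : ℝ, Y₀ ≤ Y → ∑ k ∈ FK ⌊Y / h⌋₊, ‖GGg g Y k‖ ^ 2 ≤ η := by sorry

/-! ### JACK : file Jack.lean, local averages with the kernel `Fj K ^ 2` -/

theorem jack_energy (g : ℕ → ℝ) (Y : ℝ) (K : ℕ) (hK : 1 ≤ K) :
    ∫ x in (Real.log Y - Real.pi)..(Real.log Y + Real.pi), AJ g Y K x ^ 2 ≤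
      2 * Real.pi * ∑ k ∈ FK (2 * K), ‖GGg g Y k‖ ^ 2 := by sorry

theorem jack_local : ∃ C : ℝ, 0 < C ∧ ∀ (g : ℕ → ℝ), (∀ n, |g n| ≤ 1) → ∀ (Y : ℝ) (K : ℕ) (x₁ x₂ : ℝ),
    3 ≤ Y → 1 ≤ K → (K : ℝ) ≤ Y → Real.log Y - 1 ≤ x₁ → x₁ ≤ x₂ → x₂ ≤ Real.log Y + 1 →
    |∫ x in x₁..x₂, AJ g Y K x -
      2 * Real.pi * ∑ n ∈ (WN Y).filter (fun n : ℕ => x₁ < Real.log n ∧ Real.log n ≤ x₂), g n * bw Y n| ≤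
      C / K := by sorry

/-! ### SHORT : file Short.lean -/

theorem short {g : ℕ → ℝ} (hb : ∀ n, |g n| ≤ 1)
    (he : ∀ η : ℝ, 0 < η → ∃ h : ℝ, 1 ≤ h ∧ ∃ Y₀ : ℝ, ∀ Y : ℝ, Y₀ ≤ Y →
      ∑ k ∈ FK ⌊Y / h⌋₊, ‖GGg g Y k‖ ^ 2 ≤ η) :
    ∀ ε : ℝ, 0 < ε → ∃ H₀ : ℕ, ∀ H : ℕ, H₀ ≤ H → ∃ N₀ : ℕ, ∀ N : ℕ, N₀ ≤ N →
      ∑ n ∈ Icc 1 N, (∑ j ∈ range H, g (n + j)) ^ 2 ≤ ε * (H : ℝ) ^ 2 * N := by sorry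

/-! ### PHASQ : file Phasq.lean -/

theorem phase_q (M q : ℕ) (hq : 1 ≤ q) : ∃ η C : ℝ, 0 < η ∧ η ≤ 1 / 2 ∧ 0 < C ∧
    ∀ (a b c : ℕ) (τ : ℝ), 1 ≤ a → a ≤ b → b ≤ 3 * a → c < q → |τ| ≤ (a : ℝ) ^ M →
    ‖(∑ m ∈ Ico a b, er τ (Real.log ((q : ℝ) * m + c)) / ((q : ℂ) * m + c)) -
      (1 / (q : ℂ)) * ∫ s in (Real.log ((q : ℝ) * a))..(Real.log ((q : ℝ) * b)), er τ s‖ ≤
      C * (a : ℝ) ^ (-η) := by sorry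

/-! ### PROGQ : file Progq.lean -/

theorem prog_q (M H q : ℕ) (hH : 1 ≤ H) (hq : 1 ≤ q) : ∃ η C : ℝ, 0 < η ∧ 0 < C ∧
    ∀ (v d e : ℕ) (τ : ℝ), 1 ≤ v → 1 ≤ d → d.Coprime q → (d : ℝ) ≤ Real.exp ((v : ℝ) / (4 * H)) →
    |τ| ≤ Real.exp (M * (v : ℝ) / H) →
    ‖(∑ n ∈ (nint H v).filter (fun n => d ∣ n ∧ n % q = e % q), er τ (Real.log n) / (n : ℂ)) -
      (1 / ((d : ℂ) * q)) * ∫ s in ((v : ℝ) / H)..(((v : ℝ) + 1) / H), er τ s‖ ≤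
      C * Real.exp (-(η * v)) / d := by sorry

/-! ### SELWQ : file Selwq.lean -/

theorem sel_weights_q (q : ℕ) (hq : 1 ≤ q) (D : ℕ) (hD : 2 ≤ D) : ∃ l : ℕ → ℝ, l 1 = 1 ∧ (∀ d, |l d| ≤ 1) ∧
    (∀ d, D < d → l d = 0) ∧ l 0 = 0 ∧ (∀ d, ¬ d.Coprime q → l d = 0) ∧
    0 ≤ ∑ d ∈ Icc 1 D, ∑ e ∈ Icc 1 D, l d * l e / (Nat.lcm d e : ℝ) ∧
    ∑ d ∈ Icc 1 D, ∑ e ∈ Icc 1 D, l d * l e / (Nat.lcm d e : ℝ) ≤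
      ((q : ℝ) / Nat.totient q) / Real.log D := by sorry

/-! ### SELQ : file Selq.lean -/

theorem selberg_cell_q (q M H R : ℕ) (hq : 1 ≤ q) (hH : 1 ≤ H) (hR : 1 ≤ R) {η : ℝ} (hη : 0 < η) :
    ∃ T₀ v₀ : ℕ, ∀ v : ℕ, v₀ ≤ v → ∀ k : ℤ, (T₀ : ℝ) ≤ |(k : ℝ)| →
    |(k : ℝ)| ≤ Real.exp (M * (v : ℝ) / H) →
    ∀ φ : ℝ, ∑ p ∈ cellQ (Q1 q) H v, FR R (k * Real.log p + φ) / (p : ℝ) ≤
      (8 + η) / (Nat.totient q * v) := by sorry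

/-! ### PNTQ : file Pntq.lean -/

theorem cell_pnt_q (q H : ℕ) (hq : 1 ≤ q) (hH : 1 ≤ H) :
    Tendsto (fun v : ℕ => (v : ℝ) * mmQ (Q1 q) H v) atTop (nhds (1 / (Nat.totient q : ℝ))) := by sorry

/-! ### MASSQ : file Massq.lean -/

theorem mass_q (q : ℕ) (hq : 1 ≤ q) : ∃ c C : ℝ, 0 < c ∧ 0 ≤ C ∧ ∀ H v₀ v₁ : ℕ, 1 ≤ H → H ≤ v₀ →
    v₀ ≤ v₁ → c * Real.log ((v₁ : ℝ) / v₀) - C ≤ WWQ (Q1 q) H v₀ v₁ := by sorry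

/-! ### CELLQ : file Cellq.lean -/

theorem cell_q (q : ℕ) (hq : 1 ≤ q) : CB (Q1 q) := by sorry

/-! ### LAMAP : file Lamap.lean -/

theorem lam_ap (q a : ℕ) (hq : 1 ≤ q) : MZero (lamq q a) := by sorry

/-! ### MRAP : file Mrap.lean -/

theorem mrap (q a : ℕ) (hq : 1 ≤ q) :
    ∀ ε : ℝ, 0 < ε → ∃ H₀ : ℕ, ∀ H : ℕ, H₀ ≤ H → ∃ N₀ : ℕ, ∀ N : ℕ, N₀ ≤ N →
      ∑ n ∈ Icc 1 N, (∑ j ∈ range H, lamq q a (n + j)) ^ 2 ≤ ε * (H : ℝ) ^ 2 * N := by sorry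

/-! ## Part 2 -/

/-! ### RAT : file Rat.lean -/

theorem pw_rat (c : ℤ) (r : ℕ) (hr : 1 ≤ r) : PW ((c : ℝ) / r) := by sorry

/-! ### KAT : file Kat.lean -/

theorem pw_irrat (θ : ℝ) (hθ : Irrational θ) : PW θ := by sorry

/-! ### ULIM : file Ulim.lean -/

theorem ulim (s : ℕ → ℕ) (hs : Tendsto s atTop atTop) : ∃ μ : SMean,
    ∀ (φ : ℕ → ℝ) (c : ℝ), Bd φ →
      (∀ ε : ℝ, 0 < ε → ∀ᶠ i in atTop, (∑ n ∈ Icc 1 (s i), φ n) / (s i : ℝ) ≤ c + ε) → μ.m φ ≤ c := by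
  sorry

/-! ### MEAN : file Mean.lean, elementary properties of means -/

theorem mean_mono (μ : SMean) {φ ψ : ℕ → ℝ} (h1 : Bd φ) (h2 : Bd ψ) (h : ∀ n, φ n ≤ ψ n) :
    μ.m φ ≤ μ.m ψ := by sorry

theorem mean_sum (μ : SMean) {ι : Type*} (s : Finset ι) (φ : ι → ℕ → ℝ) (h : ∀ i ∈ s, Bd (φ i)) :
    μ.m (fun n => ∑ i ∈ s, φ i n) = ∑ i ∈ s, μ.m (φ i) := by sorry

theorem mean_shift (μ : SMean) {φ : ℕ → ℝ} (h : Bd φ) (k : ℕ) : μ.m (fun n => φ (n + k)) = μ.m φ := by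
  sorry

theorem mean_cs (μ : SMean) {φ ψ : ℕ → ℝ} (h1 : Bd φ) (h2 : Bd ψ) :
    (μ.m (fun n => φ n * ψ n)) ^ 2 ≤ μ.m (fun n => φ n ^ 2) * μ.m (fun n => ψ n ^ 2) := by sorry

theorem mean_mod (μ : SMean) (q a : ℕ) (hq : 1 ≤ q) :
    μ.m (fun n => if n % q = a % q then 1 else 0) = 1 / q := by sorry

/-! ### ENT : file Ent.lean -/

section
variable {α β γ : Type*} [DecidableEq α] [Fintype α] [DecidableEq β] [Fintype β] [DecidableEq γ] [Fintype γ]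

theorem ent_nonneg (μ : SMean) (X : ℕ → α) : 0 ≤ Ent μ X := by sorry

theorem ent_le_log (μ : SMean) (X : ℕ → α) : Ent μ X ≤ Real.log (Fintype.card α) := by sorry

theorem ent_comp_le (μ : SMean) (X : ℕ → α) (f : α → β) : Ent μ (fun n => f (X n)) ≤ Ent μ X := by sorry

theorem ent_comp_inj (μ : SMean) (X : ℕ → α) (f : α → β) (hf : Function.Injective f) :
    Ent μ (fun n => f (X n)) = Ent μ X := by sorry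

theorem ent_shift (μ : SMean) (X : ℕ → α) (k : ℕ) : Ent μ (fun n => X (n + k)) = Ent μ X := by sorry

theorem ent_submod (μ : SMean) (X : ℕ → α) (Y : ℕ → β) (Z : ℕ → γ) :
    Ent μ (fun n => (X n, Y n, Z n)) + Ent μ Z ≤
      Ent μ (fun n => (X n, Z n)) + Ent μ (fun n => (Y n, Z n)) := by sorry

theorem ent_sub (μ : SMean) (X : ℕ → α) (Y : ℕ → β) :
    Ent μ (fun n => (X n, Y n)) ≤ Ent μ X + Ent μ Y := by sorry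

/-! ### DECR : file Decr.lean, entropy decrement -/

theorem decr (μ : SMean) (x : ℕ → α) (Qm : ℕ → ℕ) [∀ j, NeZero (Qm j)]
    (hQ : ∀ j, Real.log (Qm j) ≤ HH j * Real.log (HH j)) :
    ∀ ε : ℝ, 0 < ε → ∀ j₀ : ℕ, ∃ j : ℕ, j₀ ≤ j ∧ 2 ≤ j ∧
      MI μ (blk x (HH j)) (fun n => (n : ZMod (Qm j))) ≤ ε * HH j / (j * Real.log j) := by sorry

/-! ### DVAR : file Dvar.lean, Donsker-Varadhan -/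

theorem dvar (μ : SMean) (X : ℕ → α) (Y : ℕ → β) (F : α → β → ℝ) (K : ℝ) (hK : 0 < K)
    (h : ∀ x, ∑ y, pr μ Y y * Real.exp (F x y) ≤ K) :
    μ.m (fun n => F (X n) (Y n)) ≤ MI μ X Y + Real.log K := by sorry

/-! ### DECO : file Deco.lean, decoupling -/

theorem deco (μ : SMean) (X : ℕ → α) (P : Finset ℕ) (H : ℕ) (hP : ∀ p ∈ P, p.Prime ∧ p ≤ H)
    (Q : ℕ) [NeZero Q] (hQ : Q = ∏ p ∈ P, p) (c : ℕ → α → ℕ → ℝ) (hc : ∀ p x j, |c p x j| ≤ 1) :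
    μ.m (fun n => ∑ p ∈ P, ∑ j ∈ range H, ((if p ∣ n + j then (p : ℝ) else 0) - 1) * c p (X n) j) ≤
      6 * H * Real.sqrt (MI μ X (fun n => (n : ZMod Q)) * P.card) := by sorry

end

/-! ### DINI : file Dini.lean -/

theorem dini (μ : SMean) (s : ℕ → ℕ) (hs : Tendsto s atTop atTop)
    (hμ : ∀ (φ : ℕ → ℝ) (c : ℝ), Bd φ →
      (∀ ε : ℝ, 0 < ε → ∀ᶠ i in atTop, (∑ n ∈ Icc 1 (s i), φ n) / (s i : ℝ) ≤ c + ε) → μ.m φ ≤ c)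
    (hpw : ∀ θ : ℝ, PW θ) : UA μ := by sorry

/-! ### ENPR : file Enpr.lean, additive energy of the primes -/

theorem prime_energy : ∃ C : ℝ, 0 < C ∧ ∃ P₀ : ℕ, ∀ P : ℕ, P₀ ≤ P →
    ((((PQ 1 P ×ˢ PQ 1 P) ×ˢ (PQ 1 P ×ˢ PQ 1 P)).filter
      (fun x => x.1.1 + x.1.2 = x.2.1 + x.2.2)).card : ℝ) ≤ C * (P : ℝ) ^ 3 / Real.log P ^ 4 := by sorry

/-! ### PRLOW : file Prlow.lean -/

theorem prime_low (q : ℕ) (hq : 1 ≤ q) : ∃ c : ℝ, 0 < c ∧ ∃ P₀ : ℕ, ∀ P : ℕ, P₀ ≤ P →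
    c * P / Real.log P ≤ ((PQ q P).card : ℝ) := by sorry

/-! ### LEMZ : file Lemz.lean -/

theorem lemz (μ : SMean) (hA : UA μ) (q a M : ℕ) (hq : 1 ≤ q) (hM : 1 ≤ M) :
    ∀ ε : ℝ, 0 < ε → ∃ P₀ : ℕ, ∀ P : ℕ, P₀ ≤ P →
      μ.m (fun n => (∑ p ∈ PQ q P, lamq q a (n + p * M)) ^ 2) ≤ ε * ((PQ q P).card : ℝ) ^ 2 := by sorry

/-! ### TPM : file Tpm.lean -/

theorem two_point_mean (μ : SMean) (hA : UA μ) (M q ρ : ℕ) (hM : 1 ≤ M) (hq : 1 ≤ q) (κ : ℤ)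
    (hκ : κ = 1 ∨ κ = -1)
    (hbad : ∀ p : ℕ, p.Prime → p % q = 1 % q →
      μ.m (fun n => if p ∣ n ∧ n % q = ρ % q ∧ lam n * lam (n + p * M) ≠ κ then 1 else 0) ≤
        1 / (50 * p * q)) : False := by sorry

/-! ### TWO : file Two.lean -/

theorem two_point (M q ρ : ℕ) (hM : 1 ≤ M) (hq : 1 ≤ q) (κ : ℤ) (hκ : κ = 1 ∨ κ = -1) :
    ∃ D : ℕ, 1 ≤ D ∧ ∃ N₀ : ℕ, ∀ N : ℕ, N₀ ≤ N → ∃ p : ℕ, 1 ≤ p ∧ p ≤ D ∧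
      (1 / 50) * ((N : ℝ) / (p * q)) <
        (((Icc 1 (N / p)).filter (fun z => z % q = ρ % q ∧ lam z * lam (z + M) ≠ κ)).card : ℝ) := by
  sorry

/-! ## Part 3 -/

/-! ### POLY : file Poly.lean -/

theorem poly {r : ℕ} (G : Fin r → ℕ) (hG : ∀ i, 1 ≤ G i) : ∃ (T : Finset ℕ) (M : ℕ), 1 ≤ M ∧
    Even (T.card * 2 ^ r) ∧ ∀ f : ℕ → ℤ, (∀ n, f n = 1 ∨ f n = -1) →
      ∏ τ ∈ T, ∏ V ∈ (univ : Finset (Fin r)).powerset, f (τ + ∑ i ∈ V, G i) = f 0 * f M := by sorry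

/-! ### CONF : file Conf.lean (helper376) -/

theorem conf {r s : ℕ} (a b : Fin (r + 1) → ℕ) (c d : Fin s → ℕ) (ha : ∀ i, 1 ≤ a i) (hc : ∀ j, 1 ≤ c j)
    (hne : ∀ i i', i ≠ i' → a i * b i' ≠ a i' * b i) (n₀ : ℕ) (hn : 1 ≤ n₀)
    (h1 : ∀ i, Squarefree (a i * n₀ + b i)) (h2 : ∀ j, Squarefree (c j * n₀ + d j)) :
    Nonempty (Cfg r s a b c d) := by sorry

/-! ### REL : file Rel.lean -/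

theorem rel {r s : ℕ} (a b : Fin (r + 1) → ℕ) (c d : Fin s → ℕ) (ha : ∀ i, 1 ≤ a i) (hc : ∀ j, 1 ≤ c j)
    (F : Cfg r s a b c d) : ∃ (M : ℕ) (κ : ℤ), 1 ≤ M ∧ (κ = 1 ∨ κ = -1) ∧ ∀ ε : ℝ, 0 < ε →
      ∃ (q ρ C : ℕ), 1 ≤ q ∧ ∀ σ : ℤ, (σ = 1 ∨ σ = -1) → ∀ N : ℕ, 1 ≤ N →
        (((Icc 1 N).filter (fun z => z % q = ρ % q ∧ lam z * lam (z + M) ≠ κ)).card : ℝ) ≤
          ε * N / q + C * Real.sqrt N +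
            C * (((Icc 1 (N + C)).filter (fun n => PF a b c d n = -σ)).card : ℝ) := by sorry

/-! ### FINAL -/

theorem final {r s : ℕ} (a b : Fin (r + 1) → ℕ) (c d : Fin s → ℕ) (ha : ∀ i, 1 ≤ a i) (hc : ∀ j, 1 ≤ c j)
    (hne : ∀ i i', i ≠ i' → a i * b i' ≠ a i' * b i) (hn : ∃ n : ℕ, 1 ≤ n ∧ PF a b c d n ≠ 0) :
    ∃ δ : ℝ, 0 < δ ∧ ∃ N₀ : ℕ, ∀ N : ℕ, N₀ ≤ N → ∀ σ : ℤ, (σ = 1 ∨ σ = -1) →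
      δ * N ≤ (((Icc 1 N).filter (fun n => PF a b c d n = σ)).card : ℝ) := by sorry

end Pool.Agent.H376R2.TT.Stubs
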