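import Pool.Agent.H376R2.TT.Defs
import Pool.Agent.H376R2.TT.Mean
import Pool.Agent.H376R2.TT.Deco
import Pool.Agent.H376R2.TT.Prlow
import Pool.Agent.H376R2.TT.Decr
import Pool.Agent.H376R2.TT.Lemz

/-! Project TT, task TPM: the two-point theorem for a shift-invariant mean. -/

set_option autoImplicit false

namespace Pool.Agent.H376R2.TT

open Finset Filter Pool.Agent.H376R2.MR

theorem tpm_lam (n : ℕ) : lam n = 1 ∨ lam n = -1 := by
  unfold lam
  exact neg_one_pow_eq_or ℤ _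

theorem tpm_lam_abs (n : ℕ) : |(lam n : ℝ)| = 1 := by
  rcases tpm_lam n with h | h <;> simp [h]

/-- indicator times sign -/
noncomputable def tpmPhi (M q ρ : ℕ) (κ : ℤ) (p n : ℕ) : ℝ :=
  if n % q = ρ % q then (κ : ℝ) * lam n * lam (n + p * M) else 0

theorem tpmPhi_abs (M q ρ : ℕ) {κ : ℤ} (hκ : κ = 1 ∨ κ = -1) (p n : ℕ) :
    |tpmPhi M q ρ κ p n| ≤ 1 := by
  unfold tpmPhi
  split_ifs
  · rw [abs_mul, abs_mul, tpm_lam_abs, tpm_lam_abs]
    rcases hκ with h | h <;> simp [h]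
  · simp

theorem tpm_bd_mul {φ ψ : ℕ → ℝ} (h1 : Bd φ) (h2 : Bd ψ) : Bd (fun n => φ n * ψ n) := by
  obtain ⟨A, hA⟩ := h1
  obtain ⟨B, hB⟩ := h2
  refine ⟨A * B, fun n => ?_⟩
  rw [abs_mul]
  exact mul_le_mul (hA n) (hB n) (abs_nonneg _) ((abs_nonneg _).trans (hA n))

theorem tpm_bd_sum {ι : Type*} (s : Finset ι) (φ : ι → ℕ → ℝ) (h : ∀ i ∈ s, Bd (φ i)) :
    Bd (fun n => ∑ i ∈ s, φ i n) := by
  classical
  induction s using Finset.induction_on with
  | empty => exact ⟨0, fun n => by simp⟩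
  | insert a s ha ih =>
    obtain ⟨A, hA⟩ := h a (Finset.mem_insert_self _ _)
    obtain ⟨B, hB⟩ := ih fun i hi => h i (Finset.mem_insert_of_mem hi)
    refine ⟨A + B, fun n => ?_⟩
    dsimp only
    rw [Finset.sum_insert ha]
    exact (abs_add_le _ _).trans (add_le_add (hA n) (hB n))

theorem tpm_bd_phi (M q ρ : ℕ) {κ : ℤ} (hκ : κ = 1 ∨ κ = -1) (p : ℕ) :
    Bd (tpmPhi M q ρ κ p) := ⟨1, tpmPhi_abs M q ρ hκ p⟩

theorem tpm_bd_ind (P : ℕ → Prop) [DecidablePred P] (c : ℝ) :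
    Bd (fun n => if P n then c else 0) := by
  refine ⟨|c|, fun n => ?_⟩
  dsimp only
  split_ifs
  · exact le_rfl
  · simp

theorem tpm_coprime {p q : ℕ} (h : p % q = 1 % q) : Nat.Coprime p q := by
  have h1 : p ≡ 1 [MOD q] := h
  have h2 := h1.gcd_eq
  rw [Nat.gcd_one_left] at h2
  exact h2

theorem tpm_class (μ : SMean) {p q : ℕ} (ρ : ℕ) (hp : p.Prime) (hq : 1 ≤ q) (h : p % q = 1 % q) :
    μ.m (fun n => if p ∣ n ∧ n % q = ρ % q then 1 else 0) = 1 / (p * q) := by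
  obtain ⟨k, hk1, hk2⟩ := Nat.chineseRemainder (tpm_coprime h) 0 ρ
  have h1 : ∀ n, (p ∣ n ∧ n % q = ρ % q) ↔ n % (p * q) = k % (p * q) := by
    intro n
    have e : (n ≡ k [MOD p * q]) ↔ (n ≡ k [MOD p]) ∧ (n ≡ k [MOD q]) :=
      (Nat.modEq_and_modEq_iff_modEq_mul (tpm_coprime h)).symm
    change _ ↔ (n ≡ k [MOD p * q])
    rw [e]
    constructor
    · rintro ⟨h2, h3⟩
      exact ⟨((Nat.modEq_zero_iff_dvd.2 h2).trans hk1.symm), (Nat.ModEq.trans h3 hk2.symm)⟩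
    · rintro ⟨h2, h3⟩
      exact ⟨Nat.modEq_zero_iff_dvd.1 (h2.trans hk1), h3.trans hk2⟩
  have h2 := mean_mod μ (p * q) k (Nat.mul_pos hp.pos hq)
  push_cast at h2
  rw [← h2]
  congr 1
  ext n
  simp only [h1]

/-- the divisible part -/
theorem tpm_div (μ : SMean) (M q ρ : ℕ) (hq : 1 ≤ q) (κ : ℤ) (hκ : κ = 1 ∨ κ = -1)
    (hbad : ∀ p : ℕ, p.Prime → p % q = 1 % q →
      μ.m (fun n => if p ∣ n ∧ n % q = ρ % q ∧ lam n * lam (n + p * M) ≠ κ then 1 else 0) ≤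
        1 / (50 * p * q)) {p : ℕ} (hp : p.Prime) (h : p % q = 1 % q) :
    24 / 25 / (q : ℝ) ≤ μ.m (fun n => (if p ∣ n then (p : ℝ) else 0) * tpmPhi M q ρ κ p n) := by
  have hp0 : (0 : ℝ) < p := by exact_mod_cast hp.pos
  have hq0 : (0 : ℝ) < q := by exact_mod_cast hq
  have h1 := tpm_class μ ρ hp hq h
  have h2 := hbad p hp h
  have e1 : (fun n => (if p ∣ n then (p : ℝ) else 0) * tpmPhi M q ρ κ p n) =
      fun n => (p : ℝ) * ((if p ∣ n ∧ n % q = ρ % q then 1 else 0) + (-2) *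
        (if p ∣ n ∧ n % q = ρ % q ∧ lam n * lam (n + p * M) ≠ κ then 1 else 0)) := by
    ext n
    unfold tpmPhi
    by_cases ha : p ∣ n
    · by_cases hb : n % q = ρ % q
      · rw [if_pos ha, if_pos hb, if_pos ⟨ha, hb⟩]
        by_cases hc : lam n * lam (n + p * M) = κ
        · rw [if_neg (fun h => h.2.2 hc)]
          have : (κ : ℝ) * lam n * lam (n + p * M) = 1 := by
            have h3 : (κ : ℝ) * lam n * lam (n + p * M) = ((κ * (lam n * lam (n + p * M)) : ℤ) : ℝ) := by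
              push_cast
              ring
            rw [h3, hc]
            rcases hκ with h | h <;> simp [h]
          rw [this]
          ring
        · rw [if_pos ⟨ha, hb, hc⟩]
          have : (κ : ℝ) * lam n * lam (n + p * M) = -1 := by
            have h3 : (κ : ℝ) * lam n * lam (n + p * M) = ((κ * (lam n * lam (n + p * M)) : ℤ) : ℝ) := by
              push_cast
              ring
            rw [h3]
            rcases hκ with h | h <;> rcases tpm_lam n with h4 | h4 <;>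
              rcases tpm_lam (n + p * M) with h5 | h5 <;> rw [h, h4, h5] at hc ⊢ <;> simp at hc ⊢
          rw [this]
          ring
      · simp [hb]
    · simp [ha]
  have b1 : Bd (fun n => if p ∣ n ∧ n % q = ρ % q then (1 : ℝ) else 0) := tpm_bd_ind _ 1
  have b2 : Bd (fun n => if p ∣ n ∧ n % q = ρ % q ∧ lam n * lam (n + p * M) ≠ κ then (1 : ℝ) else 0) :=
    tpm_bd_ind _ 1
  have b3 : Bd (fun n => (-2 : ℝ) *
      (if p ∣ n ∧ n % q = ρ % q ∧ lam n * lam (n + p * M) ≠ κ then (1 : ℝ) else 0)) :=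
    tpm_bd_mul ⟨2, fun n => by simp⟩ b2
  have b4 : Bd (fun n => (if p ∣ n ∧ n % q = ρ % q then (1 : ℝ) else 0) + (-2) *
        (if p ∣ n ∧ n % q = ρ % q ∧ lam n * lam (n + p * M) ≠ κ then (1 : ℝ) else 0)) := by
    obtain ⟨A, hA⟩ := b1
    obtain ⟨B, hB⟩ := b3
    exact ⟨A + B, fun n => (abs_add_le _ _).trans (add_le_add (hA n) (hB n))⟩
  rw [e1, μ.smul _ _ b4, μ.add _ _ b1 b3, μ.smul _ _ b2, h1]
  have h3 : (p : ℝ) * (1 / (p * q) + -2 * (1 / (50 * p * q))) = 24 / 25 / q := by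
    field_simp
    norm_num
  rw [← h3]
  refine mul_le_mul_of_nonneg_left ?_ hp0.le
  linarith

/-- sign of a letter -/
noncomputable def tpmSg (b : Bool) : ℝ := cond b 1 (-1)

/-- the block function -/
noncomputable def tpmC (M q ρ H : ℕ) (κ : ℤ) (p : ℕ) (X : Fin H → Bool × Fin q) (j : ℕ) : ℝ :=
  if h : j < H ∧ j + p * M < H then
    (if ((X ⟨j, h.1⟩).2 : ℕ) = ρ % q then
      (κ : ℝ) * tpmSg (X ⟨j, h.1⟩).1 * tpmSg (X ⟨j + p * M, h.2⟩).1
    else 0)
  else 0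

theorem tpmC_abs (M q ρ H : ℕ) {κ : ℤ} (hκ : κ = 1 ∨ κ = -1) (p : ℕ) (X : Fin H → Bool × Fin q)
    (j : ℕ) : |tpmC M q ρ H κ p X j| ≤ 1 := by
  have hs : ∀ b : Bool, |tpmSg b| = 1 := by
    intro b
    cases b <;> simp [tpmSg]
  unfold tpmC
  split_ifs
  · rw [abs_mul, abs_mul, hs, hs]
    rcases hκ with h | h <;> simp [h]
  · simp
  · simp

/-- the letters -/
noncomputable def tpmX (q : ℕ) (hq : 1 ≤ q) (n : ℕ) : Bool × Fin q :=
  (decide (lam n = 1), ⟨n % q, Nat.mod_lt _ hq⟩)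

theorem tpm_sign (n : ℕ) : tpmSg (decide (lam n = 1)) = lam n := by
  rcases tpm_lam n with h | h <;> rw [h] <;> simp [tpmSg]

theorem tpmC_eq (M q ρ H : ℕ) (hq : 1 ≤ q) (κ : ℤ) (p n j : ℕ) (hj : j < H)
    (hj2 : j + p * M < H) :
    tpmC M q ρ H κ p (blk (tpmX q hq) H n) j = tpmPhi M q ρ κ p (n + j) := by
  unfold tpmC tpmPhi
  rw [dif_pos ⟨hj, hj2⟩]
  have h1 := tpm_sign (n + j)
  have h2 := tpm_sign (n + j + p * M)
  simp only [blk, tpmX, ← add_assoc]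
  rw [h1, h2]

theorem tpm_phi_eq (M q ρ : ℕ) (κ : ℤ) {p : ℕ} (h : p % q = 1 % q) (n : ℕ) :
    tpmPhi M q ρ κ p n = (κ : ℝ) * lam n * lamq q (ρ + M) (n + p * M) := by
  unfold tpmPhi lamq
  have h1 : p ≡ 1 [MOD q] := h
  have h2 : n % q = ρ % q ↔ (n + p * M) % q = (ρ + M) % q := by
    have h3 : n + p * M ≡ n + M [MOD q] := by
      have := (h1.mul_right M).add_left n
      rwa [one_mul] at this
    constructor
    · intro h4
      have h5 : n ≡ ρ [MOD q] := h4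
      exact h3.trans (h5.add_right M)
    · intro h4
      have h5 : n + p * M ≡ ρ + M [MOD q] := h4
      exact Nat.ModEq.add_right_cancel' M (h3.symm.trans h5)
  by_cases hn : n % q = ρ % q
  · rw [if_pos hn, if_pos (h2.1 hn)]
  · rw [if_neg hn, if_neg (fun h => hn (h2.2 h)), mul_zero]

theorem tpm_mem {q P p : ℕ} (h : p ∈ PQ q P) : P < p ∧ p ≤ 2 * P ∧ p.Prime ∧ p % q = 1 % q := by
  unfold PQ at h
  rw [Finset.mem_filter, Finset.mem_Ioc] at h
  exact ⟨h.1.1, h.1.2, h.2.1, h.2.2⟩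

theorem tpm_decouple (μ : SMean) (M q ρ : ℕ) (hM : 1 ≤ M) (hq : 1 ≤ q) (κ : ℤ)
    (hκ : κ = 1 ∨ κ = -1) (H P : ℕ) (hP : P = H / (16 * M)) (hP1 : 1 ≤ P) (Q : ℕ) [NeZero Q]
    (hQ : Q = ∏ p ∈ PQ q P, p) :
    ∑ p ∈ PQ q P, μ.m (fun n => ((if p ∣ n then (p : ℝ) else 0) - 1) * tpmPhi M q ρ κ p n) ≤
      6 * Real.sqrt (MI μ (blk (tpmX q hq) H) (fun n => (n : ZMod Q)) * (PQ q P).card) := by
  have hPM : 16 * (M * P) ≤ H := by
    have := Nat.mul_div_le H (16 * M)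
    rw [← hP] at this
    nlinarith
  have hMP : P ≤ M * P := Nat.le_mul_of_pos_left P (by omega)
  have hH : 16 ≤ H := by nlinarith
  have hHh : 1 ≤ H / 2 := by omega
  have hb : ∀ p ∈ PQ q P, Bd (fun n => ((if p ∣ n then (p : ℝ) else 0) - 1) * tpmPhi M q ρ κ p n) := by
    intro p _
    refine tpm_bd_mul ⟨p + 1, fun n => ?_⟩ (tpm_bd_phi M q ρ hκ p)
    have hp0 : (0 : ℝ) ≤ p := Nat.cast_nonneg p
    dsimp only
    split_ifs
    · rw [abs_le]
      constructor <;> linarith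
    · simp
  have h1 := deco μ (blk (tpmX q hq) H) (PQ q P) (H / 2) (fun p hp => by
    obtain ⟨_, h2, h3, _⟩ := tpm_mem hp
    exact ⟨h3, by omega⟩) Q hQ (tpmC M q ρ H κ) (fun p x j => tpmC_abs M q ρ H hκ p x j)
  have e1 : (fun n => ∑ p ∈ PQ q P, ∑ j ∈ range (H / 2),
      ((if p ∣ n + j then (p : ℝ) else 0) - 1) * tpmC M q ρ H κ p (blk (tpmX q hq) H n) j) =
      fun n => ∑ p ∈ PQ q P, ∑ j ∈ range (H / 2),
        ((if p ∣ n + j then (p : ℝ) else 0) - 1) * tpmPhi M q ρ κ p (n + j) := by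
    ext n
    refine Finset.sum_congr rfl fun p hp => Finset.sum_congr rfl fun j hj => ?_
    obtain ⟨_, h2, _, _⟩ := tpm_mem hp
    rw [Finset.mem_range] at hj
    have h3 : p * M ≤ 2 * (M * P) := by nlinarith
    rw [tpmC_eq M q ρ H hq κ p n j (by omega) (by omega)]
  rw [e1] at h1
  have hb2 : ∀ p ∈ PQ q P, ∀ j ∈ range (H / 2), Bd (fun n =>
      ((if p ∣ n + j then (p : ℝ) else 0) - 1) * tpmPhi M q ρ κ p (n + j)) := by
    intro p hp j _
    obtain ⟨C, hC⟩ := hb p hp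
    exact ⟨C, fun n => hC (n + j)⟩
  rw [mean_sum μ _ _ (fun p hp => tpm_bd_sum _ _ (hb2 p hp))] at h1
  have e2 : ∀ p ∈ PQ q P, μ.m (fun n => ∑ j ∈ range (H / 2),
      ((if p ∣ n + j then (p : ℝ) else 0) - 1) * tpmPhi M q ρ κ p (n + j)) =
      ((H / 2 : ℕ) : ℝ) * μ.m (fun n => ((if p ∣ n then (p : ℝ) else 0) - 1) * tpmPhi M q ρ κ p n) := by
    intro p hp
    rw [mean_sum μ _ _ (hb2 p hp)]
    have e3 : ∀ j ∈ range (H / 2), μ.m (fun n =>
        ((if p ∣ n + j then (p : ℝ) else 0) - 1) * tpmPhi M q ρ κ p (n + j)) =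
        μ.m (fun n => ((if p ∣ n then (p : ℝ) else 0) - 1) * tpmPhi M q ρ κ p n) := fun j _ =>
      mean_shift μ (hb p hp) j
    rw [Finset.sum_congr rfl e3, Finset.sum_const, Finset.card_range, nsmul_eq_mul]
  rw [Finset.sum_congr rfl e2, ← Finset.mul_sum] at h1
  have hpos : (0 : ℝ) < ((H / 2 : ℕ) : ℝ) := by exact_mod_cast hHh
  refine le_of_mul_le_mul_left ?_ hpos
  calc _ ≤ _ := h1
    _ = _ := by ring

theorem tpm_upper (μ : SMean) (M q ρ : ℕ) (κ : ℤ) (hκ : κ = 1 ∨ κ = -1) (P : ℕ) (η : ℝ)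
    (hη : 0 ≤ η)
    (h : μ.m (fun n => (∑ p ∈ PQ q P, lamq q (ρ + M) (n + p * M)) ^ 2) ≤
      η ^ 2 * ((PQ q P).card : ℝ) ^ 2) :
    ∑ p ∈ PQ q P, μ.m (fun n => tpmPhi M q ρ κ p n) ≤ η * (PQ q P).card := by
  have hb : ∀ p ∈ PQ q P, Bd (fun n => tpmPhi M q ρ κ p n) := fun p _ => tpm_bd_phi M q ρ hκ p
  rw [← mean_sum μ _ _ hb]
  have e1 : (fun n => ∑ p ∈ PQ q P, tpmPhi M q ρ κ p n) =
      fun n => ((κ : ℝ) * lam n) * ∑ p ∈ PQ q P, lamq q (ρ + M) (n + p * M) := by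
    ext n
    rw [Finset.mul_sum]
    refine Finset.sum_congr rfl fun p hp => ?_
    rw [tpm_phi_eq M q ρ κ (tpm_mem hp).2.2.2]
  have b1 : Bd (fun n => (κ : ℝ) * lam n) := ⟨1, fun n => by
    rw [abs_mul, tpm_lam_abs]
    rcases hκ with h | h <;> simp [h]⟩
  have b2 : Bd (fun n => ∑ p ∈ PQ q P, lamq q (ρ + M) (n + p * M)) := by
    refine tpm_bd_sum _ _ fun p _ => ⟨1, fun n => ?_⟩
    unfold lamq
    dsimp only
    split_ifs
    · rw [tpm_lam_abs]
    · simp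
  rw [e1]
  have h1 := mean_cs μ b1 b2
  have e2 : (fun n => ((κ : ℝ) * lam n) ^ 2) = fun _ => (1 : ℝ) := by
    ext n
    rcases hκ with h | h <;> rcases tpm_lam n with h2 | h2 <;> simp [h, h2]
  rw [e2, μ.one, one_mul] at h1
  have h2 : (μ.m (fun n => ((κ : ℝ) * lam n) * ∑ p ∈ PQ q P, lamq q (ρ + M) (n + p * M))) ^ 2 ≤
      (η * (PQ q P).card) ^ 2 := by
    rw [mul_pow]
    exact h1.trans h
  exact (le_abs_self _).trans (abs_le_of_sq_le_sq h2 (by positivity))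

theorem tpm_log_HH (j : ℕ) : Real.log (HH j) ≤ 4 * (j * Real.log j) := by
  unfold HH
  push_cast
  rw [Real.log_pow]
  have h1 : Real.log (j.factorial : ℝ) ≤ j * Real.log j := by
    rw [← Real.log_pow]
    refine Real.log_le_log (by exact_mod_cast j.factorial_pos) ?_
    exact_mod_cast Nat.factorial_le_pow j
  push_cast
  linarith

theorem tpm_le_HH (j : ℕ) : j ≤ HH j := by
  unfold HH
  exact (Nat.self_le_factorial j).trans (Nat.le_self_pow (by norm_num) _)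

theorem two_point_mean (μ : SMean) (hA : UA μ) (M q ρ : ℕ) (hM : 1 ≤ M) (hq : 1 ≤ q) (κ : ℤ)
    (hκ : κ = 1 ∨ κ = -1)
    (hbad : ∀ p : ℕ, p.Prime → p % q = 1 % q →
      μ.m (fun n => if p ∣ n ∧ n % q = ρ % q ∧ lam n * lam (n + p * M) ≠ κ then 1 else 0) ≤
        1 / (50 * p * q)) : False := by
  obtain ⟨c, hc, P0, hP0⟩ := prime_low q hq
  have hq0 : (0 : ℝ) < q := by exact_mod_cast hq
  have hM0 : (0 : ℝ) < M := by exact_mod_cast hM
  obtain ⟨P1, hP1⟩ := lemz μ hA q (ρ + M) M hq hM ((1 / (2 * (q : ℝ))) ^ 2) (by positivity)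
  let Pj : ℕ → ℕ := fun j => HH j / (16 * M)
  let Qm : ℕ → ℕ := fun j => ∏ p ∈ PQ q (Pj j), p
  have hne : ∀ j, NeZero (Qm j) := fun j => ⟨by
    change ∏ p ∈ PQ q (Pj j), p ≠ 0
    rw [Finset.prod_ne_zero_iff]
    exact fun p hp => (tpm_mem hp).2.2.1.ne_zero⟩
  have hlog : ∀ j, Real.log (Qm j) ≤ HH j * Real.log (HH j) := by
    intro j
    have hH1 : 1 ≤ HH j := by
      unfold HH
      exact Nat.one_le_pow _ _ j.factorial_pos
    have hcard : (PQ q (Pj j)).card ≤ Pj j := by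
      unfold PQ
      refine (Finset.card_filter_le _ _).trans ?_
      rw [Nat.card_Ioc]
      omega
    have hPH : 2 * Pj j ≤ HH j := by
      change 2 * (HH j / (16 * M)) ≤ HH j
      have h1 := Nat.mul_div_le (HH j) (16 * M)
      have h2 : 2 * (HH j / (16 * M)) ≤ 16 * M * (HH j / (16 * M)) :=
        Nat.mul_le_mul_right _ (by omega)
      omega
    have h1 : Real.log (Qm j) = ∑ p ∈ PQ q (Pj j), Real.log p := by
      change Real.log ((∏ p ∈ PQ q (Pj j), p : ℕ) : ℝ) = _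
      rw [Nat.cast_prod, Real.log_prod]
      intro p hp
      exact_mod_cast (tpm_mem hp).2.2.1.ne_zero
    rw [h1]
    have h2 : ∀ p ∈ PQ q (Pj j), Real.log (p : ℝ) ≤ Real.log (HH j) := by
      intro p hp
      obtain ⟨_, h3, h4, _⟩ := tpm_mem hp
      exact Real.log_le_log (by exact_mod_cast h4.pos) (by exact_mod_cast h3.trans hPH)
    refine (Finset.sum_le_card_nsmul _ _ _ h2).trans ?_
    rw [nsmul_eq_mul]
    refine mul_le_mul_of_nonneg_right ?_ (Real.log_nonneg (by exact_mod_cast hH1))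
    have h5 : (PQ q (Pj j)).card ≤ HH j := by omega
    exact_mod_cast h5
  have hε : 0 < c / (128 * M * (24 * (q : ℝ)) ^ 2) := by positivity
  obtain ⟨j, hj0, hj2, hMI⟩ := decr μ (tpmX q hq) Qm hlog _ hε (16 * M * (P0 + P1 + 2))
  set H := HH j with hH
  set P := H / (16 * M) with hPdef
  have hPP : P0 + P1 + 2 ≤ P := by
    rw [hPdef, Nat.le_div_iff_mul_le (by omega)]
    calc (P0 + P1 + 2) * (16 * M) = 16 * M * (P0 + P1 + 2) := by ring
      _ ≤ j := hj0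
      _ ≤ H := tpm_le_HH j
  have hcard := hP0 P (by omega)
  have hl := hP1 P (by omega)
  set N : ℝ := ((PQ q P).card : ℝ) with hN
  have hP1' : 1 ≤ P := by omega
  have hup := tpm_upper μ M q ρ κ hκ P (1 / (2 * (q : ℝ))) (by positivity) hl
  have hdec := tpm_decouple μ M q ρ hM hq κ hκ H P hPdef hP1' (Qm j) rfl
  -- size of `H`, `P`
  have hPH : (H : ℝ) ≤ 32 * M * P := by
    have h1 : H < 16 * M * (P + 1) := by
      have := Nat.lt_mul_div_succ H (show 0 < 16 * M by omega)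
      rwa [← hPdef] at this
    have h2 : (H : ℝ) ≤ 16 * M * (P + 1) := by exact_mod_cast h1.le
    have h3 : (1 : ℝ) ≤ P := by exact_mod_cast hP1'
    nlinarith
  have hPleH : (P : ℝ) ≤ H := by
    have : P ≤ H := Nat.div_le_self _ _
    exact_mod_cast this
  have hP0' : (0 : ℝ) < P := by exact_mod_cast hP1'
  have hjlog : 0 < (j : ℝ) * Real.log j := by
    have h1 : (2 : ℝ) ≤ j := by exact_mod_cast hj2
    exact mul_pos (by linarith) (Real.log_pos (by linarith))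
  have hlogP : Real.log P ≤ 4 * (j * Real.log j) :=
    (Real.log_le_log hP0' hPleH).trans (tpm_log_HH j)
  have hN1 : c * H / (128 * M * (j * Real.log j)) ≤ N := by
    have hlp : 0 < Real.log P := Real.log_pos (by
      have : 1 < P := by omega
      exact_mod_cast this)
    refine le_trans ?_ hcard
    rw [div_le_div_iff₀ (by positivity) hlp]
    have h1 : c * H * Real.log P ≤ c * (32 * M * P) * (4 * (j * Real.log j)) :=
      mul_le_mul (mul_le_mul_of_nonneg_left hPH hc.le) hlogP hlp.le (by positivity)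
    linarith
  have hHpos : (0 : ℝ) < H := by linarith
  have hN0 : 0 < N := lt_of_lt_of_le (by positivity) hN1
  have hMI2 : MI μ (blk (tpmX q hq) H) (fun n => (n : ZMod (Qm j))) * N ≤ (N / (24 * q)) ^ 2 := by
    have h1 : c / (128 * M * (24 * (q : ℝ)) ^ 2) * H / (j * Real.log j) =
        (c * H / (128 * M * (j * Real.log j))) / (24 * (q : ℝ)) ^ 2 := by
      field_simp
    have h2 : MI μ (blk (tpmX q hq) H) (fun n => (n : ZMod (Qm j))) ≤ N / (24 * (q : ℝ)) ^ 2 := by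
      refine hMI.trans ?_
      rw [h1]
      exact div_le_div_of_nonneg_right hN1 (by positivity)
    calc _ ≤ N / (24 * (q : ℝ)) ^ 2 * N := mul_le_mul_of_nonneg_right h2 hN0.le
      _ = _ := by
        rw [div_pow]
        ring
  have hsq : Real.sqrt (MI μ (blk (tpmX q hq) H) (fun n => (n : ZMod (Qm j))) * N) ≤
      N / (24 * q) := by
    rw [show N / (24 * (q : ℝ)) = Real.sqrt ((N / (24 * q)) ^ 2) from
      (Real.sqrt_sq (by positivity)).symm]
    exact Real.sqrt_le_sqrt hMI2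
  -- lower bound
  have hlow : ∑ p ∈ PQ q P, (24 / 25 / (q : ℝ) - μ.m (fun n => tpmPhi M q ρ κ p n)) ≤
      ∑ p ∈ PQ q P, μ.m (fun n => ((if p ∣ n then (p : ℝ) else 0) - 1) * tpmPhi M q ρ κ p n) := by
    refine Finset.sum_le_sum fun p hp => ?_
    have h1 := tpm_div μ M q ρ hq κ hκ hbad (tpm_mem hp).2.2.1 (tpm_mem hp).2.2.2
    have bφ := tpm_bd_phi M q ρ hκ p
    have b1 : Bd (fun n => (if p ∣ n then (p : ℝ) else 0) * tpmPhi M q ρ κ p n) :=
      tpm_bd_mul (tpm_bd_ind _ _) bφ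
    have b2 : Bd (fun n => (-1 : ℝ) * tpmPhi M q ρ κ p n) := tpm_bd_mul ⟨1, fun n => by simp⟩ bφ
    have e1 : (fun n => ((if p ∣ n then (p : ℝ) else 0) - 1) * tpmPhi M q ρ κ p n) =
        fun n => (if p ∣ n then (p : ℝ) else 0) * tpmPhi M q ρ κ p n +
          (-1 : ℝ) * tpmPhi M q ρ κ p n := by
      ext n
      ring
    have e2 := μ.smul (-1) (tpmPhi M q ρ κ p) bφ
    rw [e1, μ.add _ _ b1 b2, e2]
    linarith
  rw [Finset.sum_sub_distrib, Finset.sum_const, nsmul_eq_mul] at hlow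
  have hfin : N * (24 / 25 / (q : ℝ)) - 1 / (2 * (q : ℝ)) * N ≤ 6 * (N / (24 * q)) := by
    have := hdec
    linarith
  have e3 : N * (24 / 25 / (q : ℝ)) - 1 / (2 * (q : ℝ)) * N - 6 * (N / (24 * q)) =
      (21 / 100) * (N / q) := by
    field_simp
    ring
  have : 0 < (21 / 100) * (N / q) := by positivity
  linarith

end Pool.Agent.H376R2.TT
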