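import Pool.Agent.H376R2.TT.Ulim
import Pool.Agent.H376R2.TT.Dini
import Pool.Agent.H376R2.TT.Rat
import Pool.Agent.H376R2.TT.Kat
import Pool.Agent.H376R2.TT.Tpm

/-!
TWO (helper666): the two-point theorem at all scales.
-/

set_option autoImplicit false

namespace Pool.Agent.H376R2.TT

open Finset Filter Pool.Agent.H376R2.MR

theorem two_aux_lam {p m : ℕ} (hp : p.Prime) (hm : m ≠ 0) : lam (p * m) = - lam m := by
  unfold lam
  rw [ArithmeticFunction.cardFactors_mul hp.ne_zero hm,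
    ArithmeticFunction.cardFactors_apply_prime hp, pow_add, pow_one]
  ring

/-- the multiples of `p` in a residue class -/
theorem two_aux_count (M q ρ N p : ℕ) (κ : ℤ) (hp : p.Prime) (hpq : p % q = 1 % q) :
    ((Icc 1 N).filter (fun n => p ∣ n ∧ n % q = ρ % q ∧ lam n * lam (n + p * M) ≠ κ)).card ≤
      ((Icc 1 (N / p)).filter (fun z => z % q = ρ % q ∧ lam z * lam (z + M) ≠ κ)).card := by
  apply Finset.card_le_card_of_injOn (fun n => n / p)
  · intro n hn
    simp only [Finset.coe_filter, Finset.mem_Icc, Set.mem_ofPred_eq] at hn ⊢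
    obtain ⟨⟨h1, h2⟩, ⟨z, rfl⟩, h4, h5⟩ := hn
    have hp0 : 0 < p := hp.pos
    have hz : z ≠ 0 := by
      rintro rfl
      simp at h1
    rw [Nat.mul_div_cancel_left z hp0]
    have hmod : p * z % q = z % q := by
      rw [Nat.mul_mod, hpq, ← Nat.mul_mod, one_mul]
    refine ⟨⟨Nat.one_le_iff_ne_zero.mpr hz, ?_⟩, ?_, ?_⟩
    · rw [Nat.le_div_iff_mul_le hp0, mul_comm]
      exact h2
    · rw [← hmod]; exact h4
    · rw [← Nat.mul_add, two_aux_lam hp hz, two_aux_lam hp (by omega)] at h5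
      simpa using h5
  · intro n hn n' hn' h
    simp only [Finset.coe_filter, Finset.mem_Icc, Set.mem_ofPred_eq] at hn hn'
    obtain ⟨z, rfl⟩ := hn.2.1
    obtain ⟨z', rfl⟩ := hn'.2.1
    simp only [Nat.mul_div_cancel_left _ hp.pos] at h
    rw [h]

theorem two_point (M q ρ : ℕ) (hM : 1 ≤ M) (hq : 1 ≤ q) (κ : ℤ) (hκ : κ = 1 ∨ κ = -1) :
    ∃ D : ℕ, 1 ≤ D ∧ ∃ N₀ : ℕ, ∀ N : ℕ, N₀ ≤ N → ∃ p : ℕ, 1 ≤ p ∧ p ≤ D ∧
      (1 / 50) * ((N : ℝ) / (p * q)) <
        (((Icc 1 (N / p)).filter (fun z => z % q = ρ % q ∧ lam z * lam (z + M) ≠ κ)).card : ℝ) := by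
  by_contra hcon
  push Not at hcon
  choose! s hs using fun i : ℕ => hcon (i + 1) (by omega) (i + 1)
  have hs1 : ∀ i, i + 1 ≤ s i := fun i => (hs i).1
  have hs2 : ∀ i p, 1 ≤ p → p ≤ i + 1 →
      (((Icc 1 (s i / p)).filter (fun z => z % q = ρ % q ∧ lam z * lam (z + M) ≠ κ)).card : ℝ) ≤
        (1 / 50) * ((s i : ℝ) / (p * q)) := fun i p h1 h2 => (hs i).2 p h1 h2
  have hst : Tendsto s atTop atTop := by
    apply tendsto_atTop_mono (f := fun i : ℕ => i) _ tendsto_id
    intro i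
    have := hs1 i
    omega
  obtain ⟨μ, hμ⟩ := ulim s hst
  have hpw : ∀ θ : ℝ, PW θ := by
    intro θ
    by_cases hθ : Irrational θ
    · exact pw_irrat θ hθ
    · unfold Irrational at hθ
      push Not at hθ
      obtain ⟨x, rfl⟩ := hθ
      have h1 := pw_rat x.num x.den x.pos
      have h2 : ((x.num : ℤ) : ℝ) / (x.den : ℝ) = (x : ℝ) := by
        exact_mod_cast Rat.num_div_den x
      rwa [h2] at h1
  have hA : UA μ := dini μ s hst hμ hpw
  apply two_point_mean μ hA M q ρ hM hq κ hκ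
  intro p hp hpq
  apply hμ
  · refine ⟨1, fun n => ?_⟩
    beta_reduce
    split_ifs <;> norm_num
  · intro ε hε
    filter_upwards [eventually_ge_atTop p] with i hi
    have hsi : (0 : ℝ) < s i := by
      have := hs1 i
      have : 0 < s i := by omega
      exact_mod_cast this
    have h1 : (∑ n ∈ Icc 1 (s i), (if p ∣ n ∧ n % q = ρ % q ∧ lam n * lam (n + p * M) ≠ κ
        then (1 : ℝ) else 0)) =
        (((Icc 1 (s i)).filter (fun n => p ∣ n ∧ n % q = ρ % q ∧
          lam n * lam (n + p * M) ≠ κ)).card : ℝ) := by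
      rw [Finset.sum_boole]
    have h2 : (((Icc 1 (s i)).filter (fun n => p ∣ n ∧ n % q = ρ % q ∧
          lam n * lam (n + p * M) ≠ κ)).card : ℝ) ≤ (1 / 50) * ((s i : ℝ) / (p * q)) :=
      le_trans (by exact_mod_cast two_aux_count M q ρ (s i) p κ hp hpq)
        (hs2 i p hp.one_le (by omega))
    rw [h1, div_le_iff₀ hsi]
    have hp0 : (0 : ℝ) < p := by exact_mod_cast hp.pos
    have hq0 : (0 : ℝ) < q := by exact_mod_cast hq
    have h3 : (1 / 50) * ((s i : ℝ) / (p * q)) = 1 / (50 * p * q) * s i := by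
      field_simp
    rw [h3] at h2
    nlinarith

end Pool.Agent.H376R2.TT
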