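import Pool.Agent.H376R2.TT.Defs

/-! Task ULIM (helper194): a shift-invariant mean along an ultrafilter of scales. -/

set_option autoImplicit false

namespace Pool.Agent.H376R2.TT

open Finset Filter Pool.Agent.H376R2.MR

/-- average at the scale `s i` -/
noncomputable def ulim_av (s : ℕ → ℕ) (φ : ℕ → ℝ) (i : ℕ) : ℝ :=
  (∑ n ∈ Icc 1 (s i), φ n) / (s i : ℝ)

theorem ulim_av_le (s : ℕ → ℕ) (φ : ℕ → ℝ) (C : ℝ) (hC : 0 ≤ C) (h : ∀ n, |φ n| ≤ C) (i : ℕ) :
    |ulim_av s φ i| ≤ C := by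
  unfold ulim_av
  rcases Nat.eq_zero_or_pos (s i) with h0 | h0
  · simp [h0, hC]
  · have h0' : (0 : ℝ) < s i := by exact_mod_cast h0
    rw [abs_div, abs_of_pos h0', div_le_iff₀ h0']
    calc |∑ n ∈ Icc 1 (s i), φ n| ≤ ∑ n ∈ Icc 1 (s i), |φ n| := Finset.abs_sum_le_sum_abs _ _
      _ ≤ ∑ n ∈ Icc 1 (s i), C := Finset.sum_le_sum (fun n _ => h n)
      _ = C * s i := by simp [mul_comm]

theorem ulim_tendsto (s : ℕ → ℕ) (φ : ℕ → ℝ) (h : Bd φ) :
    Tendsto (ulim_av s φ) (hyperfilter ℕ) (nhds (limUnder (hyperfilter ℕ : Filter ℕ) (ulim_av s φ))) := by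
  obtain ⟨C, hC⟩ := h
  have hC0 : 0 ≤ C := le_trans (abs_nonneg _) (hC 0)
  have hb : ∀ i, ulim_av s φ i ∈ Set.Icc (-C) C := fun i =>
    abs_le.mp (ulim_av_le s φ C hC0 hC i)
  have hc : IsCompact (Set.Icc (-C) C) := isCompact_Icc
  obtain ⟨x, -, hx⟩ := hc.ultrafilter_le_nhds ((hyperfilter ℕ).map (ulim_av s φ)) (by
    rw [Filter.le_principal_iff, Ultrafilter.coe_map, Filter.mem_map]
    exact Filter.Eventually.of_forall hb)
  have hx' : Tendsto (ulim_av s φ) (hyperfilter ℕ) (nhds x) := hx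
  rw [hx'.limUnder_eq]
  exact hx'

theorem ulim_bd_add {φ ψ : ℕ → ℝ} (h1 : Bd φ) (h2 : Bd ψ) : Bd (fun n => φ n + ψ n) := by
  obtain ⟨C, hC⟩ := h1
  obtain ⟨D, hD⟩ := h2
  exact ⟨C + D, fun n => (abs_add_le _ _).trans (add_le_add (hC n) (hD n))⟩

theorem ulim_bd_smul (c : ℝ) {φ : ℕ → ℝ} (h1 : Bd φ) : Bd (fun n => c * φ n) := by
  obtain ⟨C, hC⟩ := h1
  refine ⟨|c| * C, fun n => ?_⟩
  rw [abs_mul]
  exact mul_le_mul_of_nonneg_left (hC n) (abs_nonneg c)

theorem ulim_bd_shift {φ : ℕ → ℝ} (h1 : Bd φ) : Bd (fun n => φ (n + 1)) := by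
  obtain ⟨C, hC⟩ := h1
  exact ⟨C, fun n => hC (n + 1)⟩

theorem ulim_sum_shift (φ : ℕ → ℝ) (N : ℕ) :
    ∑ n ∈ Icc 1 N, φ (n + 1) = ∑ n ∈ Icc 1 N, φ n + φ (N + 1) - φ 1 := by
  induction N with
  | zero => simp
  | succ N ih =>
    rw [Finset.sum_Icc_succ_top (by omega), Finset.sum_Icc_succ_top (by omega), ih]
    ring

theorem ulim (s : ℕ → ℕ) (hs : Tendsto s atTop atTop) : ∃ μ : SMean,
    ∀ (φ : ℕ → ℝ) (c : ℝ), Bd φ →
      (∀ ε : ℝ, 0 < ε → ∀ᶠ i in atTop, (∑ n ∈ Icc 1 (s i), φ n) / (s i : ℝ) ≤ c + ε) → μ.m φ ≤ c := by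
  have hle : (hyperfilter ℕ : Filter ℕ) ≤ atTop := by
    rw [← Nat.cofinite_eq_atTop]
    exact hyperfilter_le_cofinite
  have hsR : Tendsto (fun i => (s i : ℝ)) atTop atTop := tendsto_natCast_atTop_atTop.comp hs
  refine ⟨{ m := fun φ => limUnder (hyperfilter ℕ : Filter ℕ) (ulim_av s φ)
            add := ?_
            smul := ?_
            nonneg := ?_
            one := ?_
            shift := ?_ }, ?_⟩
  · intro φ ψ h1 h2
    have h := (ulim_tendsto s φ h1).add (ulim_tendsto s ψ h2)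
    have he : (fun i => ulim_av s φ i + ulim_av s ψ i) = ulim_av s (fun n => φ n + ψ n) := by
      funext i
      unfold ulim_av
      rw [Finset.sum_add_distrib, add_div]
    rw [he] at h
    exact h.limUnder_eq
  · intro c φ h1
    have h := (ulim_tendsto s φ h1).const_mul c
    have he : (fun i => c * ulim_av s φ i) = ulim_av s (fun n => c * φ n) := by
      funext i
      unfold ulim_av
      rw [← Finset.mul_sum, mul_div_assoc]
    rw [he] at h
    exact h.limUnder_eq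
  · intro φ h1 h0
    refine ge_of_tendsto (ulim_tendsto s φ h1) (Filter.Eventually.of_forall fun i => ?_)
    unfold ulim_av
    exact div_nonneg (Finset.sum_nonneg fun n _ => h0 n) (Nat.cast_nonneg _)
  · have h : Tendsto (ulim_av s (fun _ => 1)) atTop (nhds 1) := by
      refine Tendsto.congr' ?_ tendsto_const_nhds
      filter_upwards [hs.eventually_ge_atTop 1] with i hi
      have : (0 : ℝ) < s i := by exact_mod_cast hi
      unfold ulim_av
      simp [this.ne']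
    exact (h.mono_left hle).limUnder_eq
  · intro φ h1
    obtain ⟨C, hC⟩ := id h1
    have hC0 : 0 ≤ C := le_trans (abs_nonneg _) (hC 0)
    have hd : Tendsto (fun i => ulim_av s (fun n => φ (n + 1)) i - ulim_av s φ i) atTop (nhds 0) := by
      have hz : Tendsto (fun i => 2 * C / (s i : ℝ)) atTop (nhds 0) :=
        Tendsto.div_atTop tendsto_const_nhds hsR
      refine squeeze_zero_norm (fun i => ?_) hz
      unfold ulim_av
      rw [← sub_div, ulim_sum_shift, Real.norm_eq_abs, abs_div, abs_of_nonneg (Nat.cast_nonneg (s i) : (0 : ℝ) ≤ s i)]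
      refine div_le_div_of_nonneg_right ?_ (Nat.cast_nonneg _)
      have e : ∑ n ∈ Icc 1 (s i), φ n + φ (s i + 1) - φ 1 - ∑ n ∈ Icc 1 (s i), φ n
          = φ (s i + 1) - φ 1 := by ring
      rw [e]
      calc |φ (s i + 1) - φ 1| ≤ |φ (s i + 1)| + |φ 1| := abs_sub _ _
        _ ≤ 2 * C := by linarith [hC (s i + 1), hC 1]
    have h := (hd.mono_left hle).add (ulim_tendsto s φ h1)
    simp only [sub_add_cancel, zero_add] at h
    exact h.limUnder_eq
  · intro φ c h1 h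
    have ht := ulim_tendsto s φ h1
    change limUnder (hyperfilter ℕ : Filter ℕ) (ulim_av s φ) ≤ c
    refine le_of_forall_pos_le_add fun ε hε => ?_
    exact le_of_tendsto ht (hle (h ε hε))

end Pool.Agent.H376R2.TT
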